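import Pool.Agent.Lib.MP_09cbbd_nd.Defs

/-!
# Elementary facts on the gas on blocks
-/

set_option autoImplicit false

namespace Pool.Agent.Ndl

open MeasureTheory Finset Filter Topology Pool.Agent.StableGas Pool.Agent.SquareWell
open Pool.Agent.Kac (Tor cst)
open Pool.Agent.Mix (Qr mem_Qr)
open Pool.Agent.Mix.Bas (one_le_prod prod_mono measurable_ex Qr_neg zero_mem_Qr Qr_mono add_mem_Qr
  card_Qr mem_Nb_iff mem_Nb_add)

variable {d : ℕ} {E : Type} [MeasurableSpace E] (M : Nx d E)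

namespace Bas

/-! ### The model -/

theorem fin_π : IsFiniteMeasure M.π := ⟨lt_top_iff_ne_top.2 M.π_fin⟩

theorem one_le_π : 1 ≤ M.π Set.univ := by
  rw [← M.π_e0]
  exact measure_mono (Set.subset_univ _)

theorem measurable_st (m : ℝ) : Measurable (M.st m) := by
  unfold Nx.st
  exact measurable_ex (M.measurable_a.const_mul m)

theorem st_e0 (m : ℝ) : M.st m M.e0 = 1 := by
  unfold Nx.st
  rw [M.a_e0, mul_zero, ex_zero]

theorem st_le (m : ℝ) (x : E) : M.st m x ≤ ex |m| := by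
  unfold Nx.st
  rw [ex_le_ex]
  calc m * M.a x ≤ |m| * M.a x := mul_le_mul_of_nonneg_right (le_abs_self m) (M.a_nonneg x)
    _ ≤ |m| * 1 := mul_le_mul_of_nonneg_left (M.a_le x) (abs_nonneg m)
    _ = |m| := mul_one _

theorem st_mono {m m' : ℝ} (h : m ≤ m') (x : E) : M.st m x ≤ M.st m' x := by
  unfold Nx.st
  rw [ex_le_ex]
  exact mul_le_mul_of_nonneg_right h (M.a_nonneg x)

theorem ok_e0_right (v : Zd d) (x : E) : M.ok v x M.e0 := by
  have := M.ok_symm _ _ _ (M.ok_e0 (-v) x)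
  rwa [neg_neg] at this

theorem ok_I_right (v : Zd d) (x y : E) (hv : v ≠ 0) (hy : y ∈ M.I) : M.ok v x y := by
  have := M.ok_symm _ _ _ (M.ok_I (-v) y x (neg_ne_zero.2 hv) hy)
  rwa [neg_neg] at this

theorem Φ_le_one (ω : Zd d → E) : M.Φ ω ≤ 1 := by
  rw [← M.Φ_e0]
  exact M.Φ_anti _ _ fun v => Or.inr rfl

/-! ### Compatibility and weights -/

section Gen

variable {Γ : Type} [AddCommGroup Γ] (φ : Zd d → Γ)

theorem measurableSet_cp (A : Finset Γ) : MeasurableSet {ω : Γ → E | M.cp φ A ω} := by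
  classical
  have e : {ω : Γ → E | M.cp φ A ω} = ⋂ v ∈ (Qr d 1).erase 0,
      ⋂ i ∈ A.filter (fun i => i + φ v ∈ A), {ω : Γ → E | M.ok v (ω i) (ω (i + φ v))} := by
    ext ω
    simp only [Nx.cp, Set.mem_ofPred_eq, Set.mem_iInter, mem_erase, mem_filter]
    constructor
    · intro h v hv i hi
      exact h v hv.2 hv.1 i hi.1 hi.2
    · intro h v hv h0 i hi hi2
      exact h v ⟨h0, hv⟩ i ⟨hi, hi2⟩
  rw [e]
  refine Finset.measurableSet_biInter _ fun v _ => Finset.measurableSet_biInter _ fun i _ => ?_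
  have h : Measurable fun a : Γ → E => (a i, a (i + φ v)) :=
    (measurable_pi_apply i).prodMk (measurable_pi_apply (i + φ v))
  exact h (M.measurableSet_ok v)

theorem measurable_sh (A : Finset Γ) (i : Γ) : Measurable fun ω : Γ → E => M.sh φ A ω i := by
  classical
  refine measurable_pi_lambda _ fun v => ?_
  unfold Nx.sh
  by_cases h : i + φ v ∈ A
  · simp only [if_pos h]
    exact measurable_pi_apply _
  · simp only [if_neg h]
    exact measurable_const

theorem measurable_Fr (A : Finset Γ) (i : Γ) : Measurable fun ω : Γ → E => M.Fr φ A ω i :=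
  M.measurable_Φ.comp (measurable_sh M φ A i)

theorem Fr_nonneg (A : Finset Γ) (ω : Γ → E) (i : Γ) : 0 ≤ M.Fr φ A ω i := M.Φ_nonneg _

theorem Fr_le_one (A : Finset Γ) (ω : Γ → E) (i : Γ) : M.Fr φ A ω i ≤ 1 := Φ_le_one M _

theorem Fr_dep {A : Finset Γ} {x y : Γ → E} (i : Γ)
    (h : ∀ v ∈ Qr d M.r, i + φ v ∈ A → x (i + φ v) = y (i + φ v)) :
    M.Fr φ A x i = M.Fr φ A y i := by
  refine M.Φ_dep _ _ fun v hv => ?_
  unfold Nx.sh
  by_cases h1 : i + φ v ∈ A
  · rw [if_pos h1, if_pos h1, h v hv h1]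
  · rw [if_neg h1, if_neg h1]

/-- The free fraction decreases when blocks are added or contents are added. -/
theorem Fr_anti {A B : Finset Γ} {x y : Γ → E} (i : Γ)
    (h : ∀ v ∈ Qr d M.r, i + φ v ∈ B → y (i + φ v) = M.e0 ∨
      (i + φ v ∈ A ∧ y (i + φ v) = x (i + φ v))) :
    M.Fr φ A x i ≤ M.Fr φ B y i := by
  classical
  obtain ⟨ω, hω⟩ : ∃ ω : Zd d → E, ω = fun v => if v ∈ Qr d M.r then M.sh φ B y i v
    else M.sh φ A x i v := ⟨_, rfl⟩
  have h1 : M.Φ ω = M.Fr φ B y i := by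
    refine M.Φ_dep _ _ fun v hv => ?_
    rw [hω]
    simp only [if_pos hv]
  rw [← h1]
  refine M.Φ_anti _ _ fun v => ?_
  rw [hω]
  by_cases hv : v ∈ Qr d M.r
  · simp only [if_pos hv]
    unfold Nx.sh
    by_cases hB : i + φ v ∈ B
    · rw [if_pos hB]
      rcases h v hv hB with h2 | ⟨h2, h3⟩
      · exact Or.inr h2
      · rw [if_pos h2]
        exact Or.inl h3
    · rw [if_neg hB]
      exact Or.inr rfl
  · left
    simp only [if_neg hv]

theorem Fr_le_own {A : Finset Γ} {ω : Γ → E} {i : Γ} (hφ : φ 0 = 0) (hi : i ∈ A) :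
    M.Fr φ A ω i ≤ M.own (ω i) := by
  refine M.Φ_anti _ _ fun v => ?_
  by_cases hv : v = 0
  · subst hv
    left
    unfold Nx.sh
    rw [hφ, add_zero, if_pos hi, if_pos rfl]
  · right
    rw [if_neg hv]

theorem wG_of_cp {m τ : Γ → ℝ} {A : Finset Γ} {ω : Γ → E} (h : M.cp φ A ω) :
    M.wG φ m τ A ω = (∏ i ∈ A, M.st (m i) (ω i)) * ex (∑ i ∈ A, τ i * M.Fr φ A ω i) := by
  unfold Nx.wG
  rw [if_pos h, mul_one]

theorem wG_of_not {m τ : Γ → ℝ} {A : Finset Γ} {ω : Γ → E} (h : ¬ M.cp φ A ω) :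
    M.wG φ m τ A ω = 0 := by
  unfold Nx.wG
  rw [if_neg h, mul_zero]

theorem wG_eq_indicator (m τ : Γ → ℝ) (A : Finset Γ) : M.wG φ m τ A =
    {ω : Γ → E | M.cp φ A ω}.indicator fun ω => (∏ i ∈ A, M.st (m i) (ω i)) *
      ex (∑ i ∈ A, τ i * M.Fr φ A ω i) := by
  funext ω
  by_cases h : M.cp φ A ω
  · rw [wG_of_cp M φ h, Set.indicator_of_mem (show ω ∈ {ω : Γ → E | M.cp φ A ω} from h)]
  · rw [wG_of_not M φ h, Set.indicator_of_notMem (show ω ∉ {ω : Γ → E | M.cp φ A ω} from h)]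

theorem measurable_wG (m τ : Γ → ℝ) (A : Finset Γ) : Measurable (M.wG φ m τ A) := by
  rw [wG_eq_indicator]
  refine Measurable.indicator ?_ (measurableSet_cp M φ A)
  refine (Finset.measurable_prod _ fun i _ => (measurable_st M _).comp
    (measurable_pi_apply i)).mul (measurable_ex ?_)
  exact Finset.measurable_sum _ fun i _ => (measurable_Fr M φ A i).const_mul _

theorem cp_dep {A : Finset Γ} {x y : Γ → E} (h : ∀ i ∈ A, x i = y i) :
    M.cp φ A x ↔ M.cp φ A y := by
  unfold Nx.cp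
  constructor
  · intro g v hv h0 i hi hi2
    rw [← h i hi, ← h _ hi2]
    exact g v hv h0 i hi hi2
  · intro g v hv h0 i hi hi2
    rw [h i hi, h _ hi2]
    exact g v hv h0 i hi hi2

theorem cp_mono {A B : Finset Γ} (hAB : A ⊆ B) {ω : Γ → E} (h : M.cp φ B ω) : M.cp φ A ω :=
  fun v hv h0 i hi hi2 => h v hv h0 i (hAB hi) (hAB hi2)

theorem wG_dep (m τ : Γ → ℝ) (A : Finset Γ) {x y : Γ → E} (h : ∀ i ∈ A, x i = y i) :
    M.wG φ m τ A x = M.wG φ m τ A y := by
  by_cases hx : M.cp φ A x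
  · rw [wG_of_cp M φ hx, wG_of_cp M φ ((cp_dep M φ h).1 hx)]
    congr 1
    · exact prod_congr rfl fun i hi => by rw [h i hi]
    · congr 1
      exact sum_congr rfl fun i _ => by rw [Fr_dep M φ i fun v _ hv => h _ hv]
  · rw [wG_of_not M φ hx, wG_of_not M φ fun hy => hx ((cp_dep M φ h).2 hy)]

theorem wG_congr {m τ m' τ' : Γ → ℝ} {A : Finset Γ} (h : ∀ i ∈ A, m i = m' i)
    (h' : ∀ i ∈ A, τ i = τ' i) (ω : Γ → E) : M.wG φ m τ A ω = M.wG φ m' τ' A ω := by
  unfold Nx.wG
  congr 1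
  congr 1
  · exact prod_congr rfl fun i hi => by rw [h i hi]
  · congr 1
    exact sum_congr rfl fun i hi => by rw [h' i hi]

theorem wG_mono {m τ m' τ' : Γ → ℝ} {A : Finset Γ} (h : ∀ i ∈ A, m i ≤ m' i)
    (h' : ∀ i ∈ A, τ i ≤ τ' i) (ω : Γ → E) : M.wG φ m τ A ω ≤ M.wG φ m' τ' A ω := by
  unfold Nx.wG
  refine mul_le_mul' (mul_le_mul' (prod_mono fun i hi => st_mono M (h i hi) _) ?_) le_rfl
  rw [ex_le_ex]
  exact sum_le_sum fun i hi => mul_le_mul_of_nonneg_right (h' i hi) (Fr_nonneg M φ A ω i)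

theorem wG_bound (m τ : Γ → ℝ) (A : Finset Γ) (ω : Γ → E) :
    M.wG φ m τ A ω ≤ ex (∑ i ∈ A, (|m i| + |τ i|)) := by
  by_cases h : M.cp φ A ω
  · rw [wG_of_cp M φ h, sum_add_distrib, ex_add, ← prod_ex A fun i => |m i|]
    refine mul_le_mul' (prod_mono fun i _ => st_le M _ _) ?_
    rw [ex_le_ex]
    refine sum_le_sum fun i _ => ?_
    calc τ i * M.Fr φ A ω i ≤ |τ i| * M.Fr φ A ω i :=
          mul_le_mul_of_nonneg_right (le_abs_self _) (Fr_nonneg M φ A ω i)
      _ ≤ |τ i| * 1 := mul_le_mul_of_nonneg_left (Fr_le_one M φ A ω i) (abs_nonneg _)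
      _ = |τ i| := mul_one _
  · rw [wG_of_not M φ h]
    exact zero_le

/-- The energy as a sum, for constant fields. -/
theorem wG_eq (m z : ℝ) (A : Finset Γ) (ω : Γ → E) : M.wG φ (fun _ => m) (fun _ => z) A ω =
    ex (m * ∑ i ∈ A, M.a (ω i) + z * ∑ i ∈ A, M.Fr φ A ω i) *
      M.wG φ (fun _ => 0) (fun _ => 0) A ω := by
  by_cases h : M.cp φ A ω
  · rw [wG_of_cp M φ h, wG_of_cp M φ h]
    unfold Nx.st
    simp only [zero_mul, ex_zero, prod_const_one, sum_const_zero, mul_one]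
    rw [prod_ex, ← ex_add, mul_sum, mul_sum]
  · rw [wG_of_not M φ h, wG_of_not M φ h, mul_zero]

/-! ### Marginals -/

variable [DecidableEq Γ]

omit [AddCommGroup Γ] in
theorem lm_mono (s : Finset Γ) {f g : (Γ → E) → ENNReal}
    (h : ∀ x, f x ≤ g x) (x : Γ → E) :
    lmarginal (fun _ : Γ => M.π) s f x ≤ lmarginal (fun _ : Γ => M.π) s g x :=
  lintegral_mono fun _ => h _

omit [AddCommGroup Γ] in
theorem lm_const_mul (s : Finset Γ) {f : (Γ → E) → ENNReal}
    (hf : Measurable f) (C : ENNReal) (x : Γ → E) :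
    lmarginal (fun _ : Γ => M.π) s (fun ω => C * f ω) x =
      C * lmarginal (fun _ : Γ => M.π) s f x :=
  lintegral_const_mul C (hf.comp measurable_updateFinset)

omit [AddCommGroup Γ] in
theorem lm_add (s : Finset Γ) {f g : (Γ → E) → ENNReal} (hf : Measurable f) (x : Γ → E) :
    lmarginal (fun _ : Γ => M.π) s (fun ω => f ω + g ω) x =
      lmarginal (fun _ : Γ => M.π) s f x + lmarginal (fun _ : Γ => M.π) s g x :=
  lintegral_add_left (hf.comp measurable_updateFinset) _

omit [AddCommGroup Γ] in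
/-- Lower bound of a marginal by the empty contents. -/
theorem le_lm (s : Finset Γ) {f : (Γ → E) → ENNReal}
    (hf : Measurable f) (x : Γ → E) :
    f (fun i => if i ∈ s then M.e0 else x i) ≤ lmarginal (fun _ : Γ => M.π) s f x := by
  have := fin_π M
  have h := mul_meas_ge_le_lintegral (μ := Measure.pi fun _ : s => M.π)
    (hf.comp (measurable_updateFinset (x := x) (s := s)))
    (f (fun i => if i ∈ s then M.e0 else x i))
  refine le_trans ?_ h
  have h1 : ({fun _ => M.e0} : Set (s → E)) ⊆ {y | f (fun i => if i ∈ s then M.e0 else x i) ≤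
      (f ∘ Function.updateFinset x s) y} := by
    intro y hy
    rw [Set.mem_singleton_iff] at hy
    subst hy
    show f _ ≤ f _
    refine le_of_eq ?_
    congr 1
  have h2 : (1 : ENNReal) ≤ (Measure.pi fun _ : s => M.π)
      {y | f (fun i => if i ∈ s then M.e0 else x i) ≤ (f ∘ Function.updateFinset x s) y} := by
    refine le_trans ?_ (measure_mono h1)
    rw [← Set.univ_pi_singleton, Measure.pi_pi]
    simp [M.π_e0]
  calc _ = f (fun i => if i ∈ s then M.e0 else x i) * 1 := (mul_one _).symm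
    _ ≤ _ := mul_le_mul' le_rfl h2

omit [AddCommGroup Γ] in
theorem lm_dep {s : Finset Γ} {f : (Γ → E) → ENNReal}
    (hf : ∀ x y : Γ → E, (∀ i ∈ s, x i = y i) → f x = f y) (x y : Γ → E) :
    lmarginal (fun _ : Γ => M.π) s f x = lmarginal (fun _ : Γ => M.π) s f y := by
  unfold lmarginal
  refine lintegral_congr fun z => hf _ _ fun i hi => ?_
  rw [Function.updateFinset_def, Function.updateFinset_def]
  simp [hi]

omit [AddCommGroup Γ] in
/-- A function depending on fewer coordinates: the other coordinates contribute at least one. -/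
theorem lm_le_of_subset {s t : Finset Γ} (hst : s ⊆ t) {f : (Γ → E) → ENNReal} (hf : Measurable f)
    (x : Γ → E) (hdep : ∀ y z : Γ → E, (∀ i ∈ s, y i = z i) → f y = f z) :
    lmarginal (fun _ : Γ => M.π) s f x ≤ lmarginal (fun _ : Γ => M.π) t f x := by
  have := fin_π M
  have e : lmarginal (fun _ : Γ => M.π) t f x = lmarginal (fun _ : Γ => M.π) s
      (lmarginal (fun _ : Γ => M.π) (t \ s) f) x := by
    rw [← lmarginal_union _ _ hf disjoint_sdiff, union_sdiff_of_subset hst]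
  rw [e]
  refine lm_mono M s (fun ω => ?_) x
  refine le_trans (le_of_eq ?_) (le_lm M (t \ s) hf ω)
  refine hdep _ _ fun i hi => ?_
  simp [hi]

omit [AddCommGroup Γ] in
theorem lm_one (s : Finset Γ) (x : Γ → E) :
    lmarginal (fun _ : Γ => M.π) s (fun _ => 1) x = M.π Set.univ ^ s.card := by
  have := fin_π M
  unfold lmarginal
  rw [lintegral_const, one_mul, Measure.pi_univ, prod_const, card_univ, Fintype.card_coe]

omit [AddCommGroup Γ] in
/-- Factorisation. -/
theorem lm_mul {A B : Finset Γ} (hAB : Disjoint A B) {f g : (Γ → E) → ENNReal}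
    (hf : Measurable f) (hg : Measurable g) (df : ∀ x y, (∀ i ∈ A, x i = y i) → f x = f y)
    (dg : ∀ x y, (∀ i ∈ B, x i = y i) → g x = g y) (z : Γ → E) :
    lmarginal (fun _ : Γ => M.π) (A ∪ B) (fun ω => f ω * g ω) z =
      lmarginal (fun _ : Γ => M.π) A f z * lmarginal (fun _ : Γ => M.π) B g z := by
  have := fin_π M
  rw [lmarginal_union _ (fun ω => f ω * g ω) (hf.mul hg) hAB]
  have e1 : lmarginal (fun _ : Γ => M.π) B (fun ω => f ω * g ω) = fun x =>
      lmarginal (fun _ : Γ => M.π) B g z * f x := by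
    funext x
    rw [← lm_dep M dg x z, mul_comm]
    refine Eq.trans ?_ (lintegral_const_mul (f x)
      (hg.comp (measurable_updateFinset (x := x) (s := B))))
    refine lintegral_congr fun z => ?_
    show f _ * g _ = f x * g _
    congr 1
    refine df _ _ fun i hi => ?_
    rw [Function.updateFinset_def]
    simp [disjoint_left.1 hAB hi]
  rw [e1, lm_const_mul M A hf, mul_comm]

omit [AddCommGroup Γ] in
/-- A product of functions of the sites. -/
theorem lm_prod (s : Finset Γ) {f : Γ → E → ENNReal} (hf : ∀ i, Measurable (f i)) (x : Γ → E) :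
    lmarginal (fun _ : Γ => M.π) s (fun ω => ∏ i ∈ s, f i (ω i)) x = ∏ i ∈ s, ∫⁻ e, f i e ∂M.π := by
  have := fin_π M
  have hm : ∀ s : Finset Γ, Measurable fun ω : Γ → E => ∏ i ∈ s, f i (ω i) := fun s =>
    Finset.measurable_prod _ fun i _ => (hf i).comp (measurable_pi_apply i)
  induction s using Finset.induction_on with
  | empty => simp [lmarginal_empty]
  | insert a s ha ih =>
    rw [prod_insert ha, ← ih]
    have h1 : ∫⁻ e, f a e ∂M.π = lmarginal (fun _ : Γ => M.π) {a} (fun ω => f a (ω a)) x := by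
      rw [lmarginal_singleton]
      refine lintegral_congr fun e => ?_
      simp
    have hg : Measurable fun ω : Γ → E => f a (ω a) := (hf a).comp (measurable_pi_apply a)
    have h2 := lm_mul M (disjoint_singleton_left.2 ha) hg (hm s)
      (fun x y h => by rw [h a (mem_singleton_self a)])
      (fun x y h => prod_congr rfl fun i hi => by rw [h i hi]) x
    rw [h1, ← h2, ← insert_eq]
    congr 1
    funext ω
    rw [prod_insert ha]

end Gen

/-! ### The lattice -/

theorem measurable_w (m z : ℝ) (A : Finset (Zd d)) : Measurable (M.w m z A) :=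
  measurable_wG M id _ _ A

theorem w_dep (m z : ℝ) (A : Finset (Zd d)) (x y : Zd d → E) (h : ∀ i ∈ A, x i = y i) :
    M.w m z A x = M.w m z A y := wG_dep M id _ _ A h

theorem int_mono (A : Finset (Zd d)) {f g : (Zd d → E) → ENNReal} (h : ∀ x, f x ≤ g x) :
    M.int A f ≤ M.int A g := lm_mono M A h _

/-- Only configurations which are empty outside `A` matter. -/
theorem int_mono' (A : Finset (Zd d)) {f g : (Zd d → E) → ENNReal}
    (h : ∀ x, (∀ i, i ∉ A → x i = M.e0) → f x ≤ g x) : M.int A f ≤ M.int A g := by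
  unfold Nx.int lmarginal
  refine lintegral_mono fun y => h _ fun i hi => ?_
  rw [Function.updateFinset_def]
  simp [hi]

theorem int_const_mul (A : Finset (Zd d)) {f : (Zd d → E) → ENNReal}
    (hf : Measurable f) (C : ENNReal) : M.int A (fun ω => C * f ω) = C * M.int A f :=
  lm_const_mul M A hf C _

theorem int_add (A : Finset (Zd d)) {f g : (Zd d → E) → ENNReal} (hf : Measurable f) :
    M.int A (fun ω => f ω + g ω) = M.int A f + M.int A g := lm_add M A hf _

theorem int_sum {ι : Type} (F : Finset ι) {A : Finset (Zd d)} {f : ι → (Zd d → E) → ENNReal}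
    (hf : ∀ j ∈ F, Measurable (f j)) :
    M.int A (fun ω => ∑ j ∈ F, f j ω) = ∑ j ∈ F, M.int A (f j) := by
  unfold Nx.int
  simp only [lmarginal]
  exact lintegral_finsetSum _ fun j hj => (hf j hj).comp measurable_updateFinset

theorem int_mul {A B : Finset (Zd d)} (hAB : Disjoint A B) {f g : (Zd d → E) → ENNReal}
    (hf : Measurable f) (hg : Measurable g) (df : ∀ x y, (∀ i ∈ A, x i = y i) → f x = f y)
    (dg : ∀ x y, (∀ i ∈ B, x i = y i) → g x = g y) :
    M.int (A ∪ B) (fun ω => f ω * g ω) = M.int A f * M.int B g :=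
  lm_mul M hAB hf hg df dg _

/-- The weight of the empty configuration. -/
theorem w_e0 (m z : ℝ) (A : Finset (Zd d)) : M.w m z A (fun _ => M.e0) = ex (z * A.card) := by
  have h : M.cp id A (fun _ => M.e0) := fun v _ _ _ _ _ => M.ok_e0 v _
  have h1 : ∀ i, M.Fr id A (fun _ => M.e0) i = 1 := by
    intro i
    unfold Nx.Fr Nx.sh
    simp only [ite_self]
    exact M.Φ_e0
  unfold Nx.w
  rw [wG_of_cp M id h]
  simp [st_e0, h1, mul_comm]

theorem ex_le_xi (m z : ℝ) (A : Finset (Zd d)) : ex (z * A.card) ≤ M.xi m z A := by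
  refine le_trans (le_of_eq ?_) (le_lm M A (measurable_w M m z A) _)
  rw [← w_e0 M m z A]
  simp only [ite_self]

theorem xi_ne_zero (m z : ℝ) (A : Finset (Zd d)) : M.xi m z A ≠ 0 :=
  (lt_of_lt_of_le (ex_pos _) (ex_le_xi M m z A)).ne'

theorem one_le_xi {z : ℝ} (hz : 0 ≤ z) (m : ℝ) (A : Finset (Zd d)) : 1 ≤ M.xi m z A :=
  (one_le_ex.2 (mul_nonneg hz (Nat.cast_nonneg _))).trans (ex_le_xi M m z A)

theorem xi_le (m z : ℝ) (A : Finset (Zd d)) :
    M.xi m z A ≤ (ex (|m| + |z|) * M.π Set.univ) ^ A.card := by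
  unfold Nx.xi
  calc M.int A (M.w m z A) ≤ M.int A (fun _ => ex (|m| + |z|) ^ A.card * 1) := by
        refine int_mono M A fun ω => ?_
        rw [mul_one]
        refine (wG_bound M id _ _ A ω).trans (le_of_eq ?_)
        rw [sum_const, ex_pow, nsmul_eq_mul]
    _ = ex (|m| + |z|) ^ A.card * M.π Set.univ ^ A.card := by
        rw [int_const_mul M A measurable_const]
        congr 1
        exact lm_one M A _
    _ = _ := (mul_pow _ _ _).symm

theorem xi_ne_top (m z : ℝ) (A : Finset (Zd d)) : M.xi m z A ≠ ⊤ :=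
  ne_top_of_le_ne_top (ENNReal.pow_ne_top (ENNReal.mul_ne_top (ex_ne_top _) M.π_fin))
    (xi_le M m z A)

theorem xi_pos (m z : ℝ) (A : Finset (Zd d)) : 0 < (M.xi m z A).toReal :=
  ENNReal.toReal_pos (xi_ne_zero M m z A) (xi_ne_top M m z A)

theorem log_xi_ge (m z : ℝ) (A : Finset (Zd d)) : z * A.card ≤ Real.log (M.xi m z A).toReal := by
  have h := ENNReal.toReal_mono (xi_ne_top M m z A) (ex_le_xi M m z A)
  rw [ex_toReal] at h
  have h1 := Real.log_le_log (Real.exp_pos _) h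
  rwa [Real.log_exp] at h1

theorem log_xi_nonneg {z : ℝ} (hz : 0 ≤ z) (m : ℝ) (A : Finset (Zd d)) :
    0 ≤ Real.log (M.xi m z A).toReal :=
  (mul_nonneg hz (Nat.cast_nonneg _)).trans (log_xi_ge M m z A)

theorem xi_eq_ex (m z : ℝ) (A : Finset (Zd d)) : ex (Real.log (M.xi m z A).toReal) = M.xi m z A :=
  ex_log (xi_ne_zero M m z A) (xi_ne_top M m z A)

/-! ### Masses -/

theorem own_nonneg (x : E) : 0 ≤ M.own x := M.Φ_nonneg _

theorem own_le_one (x : E) : M.own x ≤ 1 := Φ_le_one M _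

theorem measurable_own : Measurable M.own := by
  refine M.measurable_Φ.comp (measurable_pi_lambda _ fun v => ?_)
  by_cases h : v = 0
  · simp only [if_pos h]
    exact measurable_id
  · simp only [if_neg h]
    exact measurable_const

theorem lam_ne_top (m : ℝ) (S : Set E) : M.lam m S ≠ ⊤ := by
  have := fin_π M
  unfold Nx.lam
  refine ne_top_of_le_ne_top (ENNReal.mul_ne_top (ex_ne_top |m|) M.π_fin) ?_
  calc ∫⁻ x in S, M.st m x ∂M.π ≤ ∫⁻ x, M.st m x ∂M.π := setLIntegral_le_lintegral _ _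
    _ ≤ ∫⁻ _x, ex |m| ∂M.π := lintegral_mono fun x => st_le M m x
    _ = _ := by rw [lintegral_const]

theorem one_le_lam (m : ℝ) {S : Set E} (h0 : M.e0 ∈ S) :
    1 ≤ M.lam m S := by
  unfold Nx.lam
  calc (1 : ENNReal) = ∫⁻ _x in {M.e0}, 1 ∂M.π := by rw [setLIntegral_one, M.π_e0]
    _ ≤ ∫⁻ x in {M.e0}, M.st m x ∂M.π := by
        refine setLIntegral_mono (measurable_st M m) fun x hx => ?_
        rw [Set.mem_singleton_iff] at hx
        rw [hx, st_e0]
    _ ≤ _ := lintegral_mono_set (Set.singleton_subset_iff.2 h0)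

theorem lam_mono {m m' : ℝ} (h : m ≤ m') {S S' : Set E} (hS : S ⊆ S') :
    M.lam m S ≤ M.lam m' S' := by
  unfold Nx.lam
  exact (lintegral_mono fun x => st_mono M h x).trans (lintegral_mono_set hS)

theorem tot_ne_top (m z : ℝ) (S : Set E) : M.tot m z S ≠ ⊤ := by
  have := fin_π M
  unfold Nx.tot
  refine ne_top_of_le_ne_top (ENNReal.mul_ne_top (ex_ne_top (|m| + |z|)) M.π_fin) ?_
  calc ∫⁻ x in S, M.st m x * ex (z * M.own x) ∂M.π ≤ ∫⁻ x, M.st m x * ex (z * M.own x) ∂M.π :=
        setLIntegral_le_lintegral _ _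
    _ ≤ ∫⁻ _x, ex (|m| + |z|) ∂M.π := by
        refine lintegral_mono fun x => ?_
        rw [ex_add]
        refine mul_le_mul' (st_le M m x) (ex_le_ex.2 ?_)
        calc z * M.own x ≤ |z| * M.own x := mul_le_mul_of_nonneg_right (le_abs_self z)
              (own_nonneg M x)
          _ ≤ |z| * 1 := mul_le_mul_of_nonneg_left (own_le_one M x) (abs_nonneg z)
          _ = |z| := mul_one _
    _ = _ := by rw [lintegral_const]

theorem tot_mono {m m' z z' : ℝ} (h : m ≤ m') (h' : z ≤ z') {S S' : Set E} (hS : S ⊆ S') :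
    M.tot m z S ≤ M.tot m' z' S' := by
  unfold Nx.tot
  refine (lintegral_mono fun x => mul_le_mul' (st_mono M h x) (ex_le_ex.2 ?_)).trans
    (lintegral_mono_set hS)
  exact mul_le_mul_of_nonneg_right h' (own_nonneg M x)

end Bas

end Pool.Agent.Ndl
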