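import Pool.Agent.Lib.MP_09cbbd_nd.Bas

/-!
# Emptying blocks

ROW EMP. Pointwise: for w with w j in S for j in D, wG φ m τ C w <= (prod_(j in D) st (m j) (w j)) * wG φ m τ C w' where w' is w with the contents of D
replaced by e0: cp is hereditary (ok_e0, ok_e0_right), Fr C w i <= Fr C w' i (Bas.Fr_anti with A = B = C) and 0 <= τ. Then integrate: lmarginal_union for
B = (B \ D) u D, w' does not depend on the coordinates in D, Bas.lm_prod for the product (with f j = S.indicator (st (m j))), Bas.lm_mul or lm_const_mul.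
See MP_09cbbd_mix/Emp.lean for the same kind of argument.
-/

set_option autoImplicit false

namespace Pool.Agent.Ndl

open MeasureTheory Finset Filter Topology Pool.Agent.StableGas Pool.Agent.SquareWell
open Pool.Agent.Kac (Tor cst)
open Pool.Agent.Mix (Qr mem_Qr)

variable {d : ℕ} {E : Type} [MeasurableSpace E] (M : Nx d E)

namespace Emp

variable {Γ : Type} [AddCommGroup Γ] [DecidableEq Γ] (φ : Zd d → Γ) (m τ : Γ → ℝ)

/-- the configuration with the blocks of `D` emptied -/
private noncomputable def em (D : Finset Γ) (ω : Γ → E) : Γ → E := fun i => if i ∈ D then M.e0 else ω i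

omit [AddCommGroup Γ] in
private theorem measurable_em (D : Finset Γ) : Measurable (em M D) := by
  refine measurable_pi_lambda _ fun i => ?_
  unfold em
  by_cases h : i ∈ D
  · simp only [if_pos h]
    exact measurable_const
  · simp only [if_neg h]
    exact measurable_pi_apply _

private theorem pt {C D : Finset Γ} (hDC : D ⊆ C) (hτ : ∀ i ∈ C, 0 ≤ τ i) (ω : Γ → E) :
    M.wG φ m τ C ω ≤ (∏ j ∈ D, M.st (m j) (ω j)) * M.wG φ m τ C (em M D ω) := by
  by_cases h : M.cp φ C ω
  · have h' : M.cp φ C (em M D ω) := by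
      intro v hv h0 i hi hi2
      unfold em
      by_cases h1 : i ∈ D
      · rw [if_pos h1]
        exact M.ok_e0 v _
      · by_cases h2 : i + φ v ∈ D
        · rw [if_pos h2]
          exact Bas.ok_e0_right M v _
        · rw [if_neg h1, if_neg h2]
          exact h v hv h0 i hi hi2
    rw [Bas.wG_of_cp M φ h, Bas.wG_of_cp M φ h', ← mul_assoc]
    refine mul_le_mul' (le_of_eq ?_) ?_
    · rw [← prod_sdiff hDC (f := fun i => M.st (m i) (ω i)),
        ← prod_sdiff hDC (f := fun i => M.st (m i) (em M D ω i))]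
      have e1 : ∏ i ∈ D, M.st (m i) (em M D ω i) = 1 := by
        refine prod_eq_one fun i hi => ?_
        unfold em
        rw [if_pos hi, Bas.st_e0]
      have e2 : ∏ i ∈ C \ D, M.st (m i) (em M D ω i) = ∏ i ∈ C \ D, M.st (m i) (ω i) := by
        refine prod_congr rfl fun i hi => ?_
        unfold em
        rw [if_neg (mem_sdiff.1 hi).2]
      rw [e1, e2, mul_one, mul_comm]
    · rw [ex_le_ex]
      refine sum_le_sum fun i hi => mul_le_mul_of_nonneg_left ?_ (hτ i hi)
      refine Bas.Fr_anti M φ i fun v _ hv => ?_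
      unfold em
      by_cases h1 : i + φ v ∈ D
      · left
        rw [if_pos h1]
      · right
        exact ⟨hv, if_neg h1⟩
  · rw [Bas.wG_of_not M φ h]
    exact zero_le

end Emp

theorem emp {Γ : Type} [AddCommGroup Γ] [DecidableEq Γ] (φ : Zd d → Γ) (m τ : Γ → ℝ)
    {B C D : Finset Γ} (hDB : D ⊆ B) (hBC : B ⊆ C) (hτ : ∀ i ∈ C, 0 ≤ τ i) {S : Set E}
    (hS : MeasurableSet S) :
    lmarginal (fun _ : Γ => M.π) B ({ω | ∀ j ∈ D, ω j ∈ S}.indicator (M.wG φ m τ C))
        (fun _ => M.e0) ≤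
      (∏ j ∈ D, M.lam (m j) S) *
        lmarginal (fun _ : Γ => M.π) (B \ D) (M.wG φ m τ C) fun _ => M.e0 := by
  have := Bas.fin_π M
  have hDC : D ⊆ C := hDB.trans hBC
  obtain ⟨f, hf⟩ : ∃ f : Γ → E → ENNReal, f = fun j => S.indicator (M.st (m j)) := ⟨_, rfl⟩
  have hfm : ∀ j, Measurable (f j) := by
    intro j
    rw [hf]
    exact (Bas.measurable_st M _).indicator hS
  obtain ⟨g, hg⟩ : ∃ g : (Γ → E) → ENNReal, g = fun ω => M.wG φ m τ C (Emp.em M D ω) := ⟨_, rfl⟩
  have hgm : Measurable g := by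
    rw [hg]
    exact (Bas.measurable_wG M φ m τ C).comp (Emp.measurable_em M D)
  have hFm : Measurable fun ω : Γ → E => ∏ j ∈ D, f j (ω j) :=
    Finset.measurable_prod _ fun i _ => (hfm i).comp (measurable_pi_apply i)
  have hpt : ∀ ω, ({ω | ∀ j ∈ D, ω j ∈ S}.indicator (M.wG φ m τ C)) ω ≤ (∏ j ∈ D, f j (ω j)) * g ω := by
    intro ω
    by_cases h : ω ∈ {ω : Γ → E | ∀ j ∈ D, ω j ∈ S}
    · rw [Set.indicator_of_mem h]
      have e : ∏ j ∈ D, f j (ω j) = ∏ j ∈ D, M.st (m j) (ω j) := by
        refine prod_congr rfl fun j hj => ?_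
        rw [hf]
        exact Set.indicator_of_mem (h j hj) _
      rw [e, hg]
      exact Emp.pt M φ m τ hDC hτ ω
    · rw [Set.indicator_of_notMem h]
      exact zero_le
  refine (Bas.lm_mono M B hpt _).trans (le_of_eq ?_)
  have hun : D ∪ (B \ D) = B := union_sdiff_of_subset hDB
  have hdis : Disjoint D (B \ D) := disjoint_sdiff
  conv_lhs => rw [← hun]
  rw [lmarginal_union _ (fun ω => (∏ j ∈ D, f j (ω j)) * g ω) (hFm.mul hgm) hdis]
  have e1 : lmarginal (fun _ : Γ => M.π) (B \ D) (fun ω => (∏ j ∈ D, f j (ω j)) * g ω) = fun x =>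
      (∏ j ∈ D, f j (x j)) * lmarginal (fun _ : Γ => M.π) (B \ D) g x := by
    funext x
    refine Eq.trans ?_ (lintegral_const_mul (∏ j ∈ D, f j (x j))
      (hgm.comp (measurable_updateFinset (x := x) (s := B \ D))))
    refine lintegral_congr fun z => ?_
    show (∏ j ∈ D, f j _) * g _ = (∏ j ∈ D, f j (x j)) * g _
    congr 1
    refine prod_congr rfl fun j hj => ?_
    rw [Function.updateFinset_def]
    simp [hj]
  rw [e1]
  have e2 : ∀ x : Γ → E, (∀ i, i ∉ D → x i = M.e0) → lmarginal (fun _ : Γ => M.π) (B \ D) g x =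
      lmarginal (fun _ : Γ => M.π) (B \ D) (M.wG φ m τ C) fun _ => M.e0 := by
    intro x hx
    unfold lmarginal
    refine lintegral_congr fun y => ?_
    rw [hg]
    show M.wG φ m τ C _ = M.wG φ m τ C _
    congr 1
    funext i
    unfold Emp.em
    rw [Function.updateFinset_def, Function.updateFinset_def]
    by_cases hi : i ∈ D
    · simp [hi]
    · by_cases hi2 : i ∈ B
      · simp [hi, hi2]
      · simp [hi, hi2, hx i hi]
  have e3 : lmarginal (fun _ : Γ => M.π) D (fun x =>
      (∏ j ∈ D, f j (x j)) * lmarginal (fun _ : Γ => M.π) (B \ D) g x) (fun _ => M.e0) =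
      lmarginal (fun _ : Γ => M.π) D (fun x =>
      (lmarginal (fun _ : Γ => M.π) (B \ D) (M.wG φ m τ C) fun _ => M.e0) * (∏ j ∈ D, f j (x j))) (fun _ => M.e0) := by
    unfold lmarginal
    refine lintegral_congr fun y => ?_
    have h5 := e2 (Function.updateFinset (fun _ => M.e0) D y) (fun i hi => by
      rw [Function.updateFinset_def]; simp [hi])
    unfold lmarginal at h5
    show (∏ j ∈ D, f j _) * (∫⁻ z, g _ ∂_) = _ * (∏ j ∈ D, f j _)
    rw [h5, mul_comm]
  rw [e3, Bas.lm_const_mul M D hFm, Bas.lm_prod M D hfm, mul_comm]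
  congr 1
  refine prod_congr rfl fun j _ => ?_
  rw [hf]
  exact lintegral_indicator hS _

end Pool.Agent.Ndl
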