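import Pool.Agent.Lib.MP_09cbbd_nd.Bas
import Pool.Agent.Lib.MP_09cbbd_mix.Tor

/-!
# The torus: lower bound for the partition function of the complement of a set
-/

set_option autoImplicit false

namespace Pool.Agent.Ndl

open MeasureTheory Finset Filter Topology Pool.Agent.StableGas Pool.Agent.SquareWell
open Pool.Agent.Kac (Tor cst)
open Pool.Agent.Mix (Qr mem_Qr)

variable {d : ℕ} {E : Type} [MeasurableSpace E] (M : Nx d E)

namespace TO

variable {Γ : Type} [AddCommGroup Γ] [DecidableEq Γ] [Fintype Γ] (φ : Zd d → Γ)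

omit [DecidableEq Γ] in
/-- The free fraction of a part of the torus is larger than the one of the torus. -/
theorem Fr_shift (B : Finset Γ) (ω : Γ → E) (t i : Γ) :
    M.Fr φ univ ω (i + t) ≤ M.Fr φ B (fun j => ω (j + t)) i := by
  refine M.Φ_anti _ _ fun v => ?_
  unfold Nx.sh
  by_cases h : i + φ v ∈ B
  · left
    rw [if_pos h, if_pos (mem_univ _), add_right_comm]
  · right
    rw [if_neg h]

omit [DecidableEq Γ] in
theorem pointwise (B : Finset Γ) (m τ : Γ → ℝ) (hτ : ∀ j, 0 ≤ τ j) (ω : Γ → E) :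
    M.wG φ (fun _ => (∑ j ∈ B, m j) / (B.card : ℝ)) (fun _ => (∑ j ∈ B, τ j) / (B.card : ℝ))
        univ ω ≤
      ∏ t : Γ, M.wG φ m τ B (fun j => ω (j + t)) ^ (1 / ((B.card : ℕ) : ℝ)) := by
  by_cases h : M.cp φ univ ω
  · have hr : (0 : ℝ) ≤ 1 / ((B.card : ℕ) : ℝ) := by positivity
    have hc : ∀ t, M.cp φ B (fun j => ω (j + t)) := by
      intro t v hv h0 i _ _
      have h1 := h v hv h0 (i + t) (mem_univ _) (mem_univ _)
      rw [add_right_comm] at h1
      exact h1
    have h1 : ∀ t, M.wG φ m τ B (fun j => ω (j + t)) ^ (1 / ((B.card : ℕ) : ℝ)) =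
        (∏ i ∈ B, M.st (m i) (ω (i + t)) ^ (1 / ((B.card : ℕ) : ℝ))) *
          ex ((∑ i ∈ B, τ i * M.Fr φ B (fun j => ω (j + t)) i) * (1 / ((B.card : ℕ) : ℝ))) := by
      intro t
      rw [Bas.wG_of_cp M φ (hc t), ENNReal.mul_rpow_of_nonneg _ _ hr,
        ENNReal.prod_rpow_of_nonneg hr, ex_rpow]
    rw [Bas.wG_of_cp M φ h, prod_congr rfl fun t _ => h1 t, prod_mul_distrib, prod_ex,
      Pool.Agent.Kac.Tor.prod_shift B
        (fun i j => M.st (m i) (ω j) ^ (1 / ((B.card : ℕ) : ℝ))), Finset.prod_comm]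
    refine mul_le_mul' (le_of_eq (prod_congr rfl fun j _ => ?_)) ?_
    · unfold Nx.st
      simp only [ex_rpow]
      rw [prod_ex]
      congr 1
      rw [sum_div, sum_mul]
      exact sum_congr rfl fun i _ => by ring
    · rw [ex_le_ex, ← sum_mul]
      have e1 : ∑ i : Γ, (∑ j ∈ B, τ j) / (B.card : ℝ) * M.Fr φ univ ω i =
          (∑ t : Γ, ∑ i ∈ B, τ i * M.Fr φ univ ω (i + t)) * (1 / ((B.card : ℕ) : ℝ)) := by
        have e2 : ∑ t : Γ, ∑ i ∈ B, τ i * M.Fr φ univ ω (i + t) =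
            (∑ j ∈ B, τ j) * ∑ i : Γ, M.Fr φ univ ω i := by
          rw [Finset.sum_comm, sum_mul]
          refine sum_congr rfl fun i _ => ?_
          rw [← mul_sum]
          congr 1
          exact Equiv.sum_comp (Equiv.addLeft i) fun j => M.Fr φ univ ω j
        rw [e2, ← mul_sum]
        ring
      rw [e1]
      refine mul_le_mul_of_nonneg_right (sum_le_sum fun t _ => sum_le_sum fun i _ => ?_) hr
      exact mul_le_mul_of_nonneg_left (Fr_shift M φ B ω t i) (hτ i)
  · rw [Bas.wG_of_not M φ h]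
    exact zero_le

theorem lower (B : Finset Γ) (hB : B.card ≠ 0) (m τ : Γ → ℝ) (hτ : ∀ j, 0 ≤ τ j) :
    ∫⁻ ω : Γ → E, M.wG φ (fun _ => (∑ j ∈ B, m j) / (B.card : ℝ))
        (fun _ => (∑ j ∈ B, τ j) / (B.card : ℝ)) univ ω ∂(Measure.pi fun _ => M.π) ≤
      (lmarginal (fun _ : Γ => M.π) B (M.wG φ m τ B) fun _ => M.e0) ^
        ((Fintype.card Γ : ℝ) / (B.card : ℝ)) := by
  have : IsFiniteMeasure M.π := Bas.fin_π M
  set k : ℕ := B.card with hk
  have hk0 : (0:ℝ) < k := by exact_mod_cast Nat.pos_of_ne_zero hB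
  refine (lintegral_mono fun ω => pointwise M φ B m τ hτ ω).trans ?_
  have hinj : ∀ t : Γ, Function.Injective fun j : Γ => j + t := fun t => add_left_injective t
  have hm : ∀ t : Γ, Measurable fun ω : Γ → E => M.wG φ m τ B fun j => ω (j + t) := fun t =>
    (Bas.measurable_wG M φ m τ B).comp
      (measurable_pi_lambda _ fun j => measurable_pi_apply (j + t))
  have h1 := finner M.π (univ : Finset Γ) (fun t => B.image fun j => j + t)
    (fun _ => 1 / (k : ℝ)) (fun _ _ => by positivity) (fun j => by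
      have h2 : (univ.filter fun t : Γ => j ∈ B.image fun j => j + t).card = k := by
        rw [hk]
        refine card_bij (fun t _ => j - t) (fun t ht => ?_) (fun t _ t' _ h => ?_) fun i hi => ?_
        · obtain ⟨i, hi, rfl⟩ := mem_image.mp (mem_filter.mp ht).2
          simpa using hi
        · exact sub_right_injective h
        · refine ⟨j - i, ?_, by simp⟩
          rw [mem_filter]
          exact ⟨mem_univ _, mem_image.mpr ⟨i, hi, by simp⟩⟩
      rw [← sum_filter, sum_const, h2, nsmul_eq_mul]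
      field_simp)
    (fun t ω => M.wG φ m τ B fun j => ω (j + t)) (fun t _ => hm t)
    (fun t _ ω ω' h => Bas.wG_dep M φ m τ B fun j hj => h (j + t) (mem_image_of_mem _ hj))
    (fun _ => M.e0)
  refine h1.trans (le_of_eq ?_)
  have h3 : ∀ t : Γ, lmarginal (fun _ : Γ => M.π) (B.image fun j => j + t)
      (fun ω => M.wG φ m τ B fun j => ω (j + t)) (fun _ => M.e0) =
      lmarginal (fun _ : Γ => M.π) B (M.wG φ m τ B) fun _ => M.e0 := fun t =>
    lmarginal_image (X := fun _ : Γ => E) (μ := fun _ : Γ => M.π) (hinj t) B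
      (Bas.measurable_wG M φ m τ B) fun _ => M.e0
  simp only [h3]
  rw [prod_const, card_univ, ← ENNReal.rpow_natCast, ← ENNReal.rpow_mul]
  congr 1
  ring

end TO

theorem torus_lower (L : ℕ) (A : Finset (Tor d L)) (hA : A.card < (2 * L + 1) ^ d)
    (m τ : Tor d L → ℝ) (hτ : ∀ j, 0 ≤ τ j) :
    M.ZT L ((∑ j ∈ univ \ A, m j) / ((2 * L + 1 : ℝ) ^ d - A.card))
        ((∑ j ∈ univ \ A, τ j) / ((2 * L + 1 : ℝ) ^ d - A.card)) ≤
      M.ZC L A m τ ^ ((2 * L + 1 : ℝ) ^ d / ((2 * L + 1 : ℝ) ^ d - A.card)) := by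
  have hcard : Fintype.card (Tor d L) = (2 * L + 1) ^ d := by
    rw [Fintype.card_fun, ZMod.card, Fintype.card_fin]
  have h1 : (univ \ A).card = (2 * L + 1) ^ d - A.card := by
    rw [card_sdiff_of_subset (subset_univ A), card_univ, hcard]
  have h2 : (univ \ A).card ≠ 0 := by omega
  have h3 := TO.lower M (cst L) (univ \ A) h2 m τ hτ
  have h4 : (((univ \ A).card : ℕ) : ℝ) = (2 * L + 1 : ℝ) ^ d - A.card := by
    rw [h1, Nat.cast_sub hA.le]
    push_cast
    ring
  have h5 : ((Fintype.card (Tor d L) : ℕ) : ℝ) = (2 * L + 1 : ℝ) ^ d := by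
    rw [hcard]
    push_cast
    ring
  rw [h4, h5] at h3
  exact h3

end Pool.Agent.Ndl
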