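import Pool.Agent.Lib.MP_09cbbd_nd.GlB
import Pool.Agent.Lib.MP_09cbbd_nd.Tor

/-!
# Gluing: dilute regions

ROW GLBB. From glueB_torus, Emp.emp (B = C = univ \ A, D = (outk r X).image cst, S = univ, fields m - F on D; note that wG with the fields m - F on D equals
wG with the fields m when the contents on D are e0), torus_lower (fields m - F on D, m elsewhere; τ = z) and ZT_convex in m:
 log ZT (m - s) z >= log ZT m z - s (log ZT (m + h) z - log ZT m z) / h, s = F |D| / k; limit L -> infinity. See GlueA.lean of MP_09cbbd_mix.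
-/

set_option autoImplicit false

namespace Pool.Agent.Ndl

open MeasureTheory Finset Filter Topology Pool.Agent.StableGas Pool.Agent.SquareWell
open Pool.Agent.Kac (Tor cst)
open Pool.Agent.Mix (Qr mem_Qr)

variable {d : ℕ} {E : Type} [MeasurableSpace E] (M : Nx d E)

/-- Convexity in the field of the spheres. -/
private theorem glBB_cvx (L : ℕ) (m z : ℝ) {s h : ℝ} (hs : 0 ≤ s) (hh : 0 < h) :
    Real.log (M.ZT L m z).toReal - s * ((Real.log (M.ZT L (m + h) z).toReal -
      Real.log (M.ZT L m z).toReal) / h) ≤ Real.log (M.ZT L (m - s) z).toReal := by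
  rcases hs.eq_or_lt with hs | hs
  · rw [← hs]; simp
  have h1 := (ZT_convex M L).2 (Set.mem_univ (m - s, z)) (Set.mem_univ (m + h, z))
    (show 0 ≤ h / (s + h) by positivity) (show 0 ≤ s / (s + h) by positivity)
    (by field_simp; ring)
  have e : (h / (s + h)) • ((m - s, z) : ℝ × ℝ) + (s / (s + h)) • ((m + h, z) : ℝ × ℝ) =
      (m, z) := by
    ext
    · simp only [Prod.fst_add, Prod.smul_fst, smul_eq_mul]
      field_simp
      ring
    · simp only [Prod.snd_add, Prod.smul_snd, smul_eq_mul]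
      field_simp
      ring
  rw [e] at h1
  simp only [smul_eq_mul] at h1
  set a := Real.log (M.ZT L m z).toReal
  set b := Real.log (M.ZT L (m - s) z).toReal
  set c := Real.log (M.ZT L (m + h) z).toReal
  have h2 : (s + h) * a ≤ h * b + s * c := by
    have h3 := mul_le_mul_of_nonneg_left h1 (by positivity : (0 : ℝ) ≤ s + h)
    refine h3.trans (le_of_eq ?_)
    field_simp
  have h4 : s * ((c - a) / h) = (s * c - s * a) / h := by ring
  rw [h4, sub_le_iff_le_add, ← sub_le_iff_le_add', le_div_iff₀ hh]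
  linarith

private theorem glBB_ZT_ne_zero (L : ℕ) (m z : ℝ) : M.ZT L m z ≠ 0 := fun h => by
  have h1 := ZT_pos M L m z
  rw [h] at h1
  simp at h1

/-- Lower bound for the complement. -/
private theorem glBB_le_ZC (L : ℕ) {A D : Finset (Tor d L)} (hA : A.card < (2 * L + 1) ^ d)
    (hD : D ⊆ univ \ A) (m : ℝ) {z : ℝ} (hz : 0 ≤ z) {F h : ℝ} (hF : 0 ≤ F) (hh : 0 < h) :
    ex (((2 * L + 1 : ℝ) ^ d - A.card) / (2 * L + 1 : ℝ) ^ d * Real.log (M.ZT L m z).toReal -
      F * D.card * (((Real.log (M.ZT L (m + h) z).toReal -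
        Real.log (M.ZT L m z).toReal) / h) / (2 * L + 1 : ℝ) ^ d)) ≤
      M.ZC L A (fun j => if j ∈ D then m - F else m) (fun _ => z) := by
  have hcard : (univ : Finset (Tor d L)).card = (2 * L + 1) ^ d := by
    rw [card_univ, Fintype.card_fun, ZMod.card, Fintype.card_fin]
  have h := torus_lower M L A hA (fun j => if j ∈ D then m - F else m) (fun _ => z)
    (fun _ => hz)
  set V : ℝ := (2 * L + 1 : ℝ) ^ d with hV
  have hV0 : 0 < V := by rw [hV]; positivity
  have hVa : 0 < V - A.card := by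
    have : (A.card : ℝ) < (((2 * L + 1) ^ d : ℕ) : ℝ) := by exact_mod_cast hA
    push_cast at this
    linarith
  have hB : ((univ \ A).card : ℝ) = V - A.card := by
    rw [card_sdiff_of_subset (subset_univ A), hcard, Nat.cast_sub hA.le]
    push_cast
    rfl
  have e1 : (∑ _j ∈ univ \ A, z) / (V - A.card) = z := by
    rw [sum_const, nsmul_eq_mul, hB]
    field_simp
  have e2 : (∑ j ∈ univ \ A, if j ∈ D then m - F else m) / (V - A.card) =
      m - F * D.card / (V - A.card) := by
    have e3 : ∀ j, (if j ∈ D then m - F else m) = m - if j ∈ D then F else 0 := by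
      intro j
      split_ifs <;> ring
    simp only [e3]
    rw [sum_sub_distrib, sum_const, nsmul_eq_mul, hB, sum_ite_mem,
      inter_eq_right.2 hD, sum_const, nsmul_eq_mul]
    field_simp
  rw [e1, e2] at h
  have h0 : 0 ≤ (V - A.card) / V := by positivity
  have h2 : M.ZT L (m - F * D.card / (V - A.card)) z ^ ((V - A.card) / V) ≤
      M.ZC L A (fun j => if j ∈ D then m - F else m) (fun _ => z) := by
    calc _ ≤ (M.ZC L A (fun j => if j ∈ D then m - F else m) (fun _ => z) ^
          (V / (V - A.card))) ^ ((V - A.card) / V) := ENNReal.rpow_le_rpow h h0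
      _ = _ := by
        rw [← ENNReal.rpow_mul]
        have : V / (V - A.card) * ((V - A.card) / V) = 1 := by field_simp
        rw [this, ENNReal.rpow_one]
  refine le_trans ?_ h2
  rw [← ex_log (glBB_ZT_ne_zero M L (m - F * D.card / (V - A.card)) z)
    (ZT_ne_top M L _ _), ex_rpow, ex_le_ex]
  have h3 := mul_le_mul_of_nonneg_right (glBB_cvx M L m z
    (s := F * D.card / (V - A.card)) (by positivity) hh) h0
  refine le_trans (le_of_eq ?_) h3
  field_simp

private theorem glBB_torus (L : ℕ) (X : Finset (Zd d))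
    (hX : ∀ i ∈ X, ∀ k, |i k| + 2 * (M.r + 1) ≤ L) (hL : X.card < (2 * L + 1) ^ d)
    (m : ℝ) {z : ℝ} (hz : 0 ≤ z) {F h : ℝ} (hF : 0 ≤ F) (hh : 0 < h) :
    M.int (innk M.r X) (M.w m z X) ≤
      ex (X.card * (Real.log (M.ZT L m z).toReal / (2 * L + 1 : ℝ) ^ d) +
        (F * ((Real.log (M.ZT L (m + h) z).toReal / (2 * L + 1 : ℝ) ^ d -
          Real.log (M.ZT L m z).toReal / (2 * L + 1 : ℝ) ^ d) / h) +
          Real.log (M.lam (m - F) Set.univ).toReal) * (outk M.r X).card) := by
  have hXL : ∀ i ∈ X, ∀ k, |i k| ≤ L := fun i hi k => by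
    have := hX i hi k
    omega
  have hout : ∀ i ∈ outk M.r X, ∀ k, |i k| ≤ L := fun i hi k => by
    obtain ⟨-, v, hv, hiv⟩ := mem_outk.1 hi
    have h1 := hX _ hiv k
    have h2 := abs_le.1 (mem_Qr.1 hv k)
    rw [Pi.add_apply] at h1
    have h3 := abs_le.1 (show |i k + v k| ≤ L - 2 * (M.r + 1) by omega)
    rw [abs_le]
    constructor <;> omega
  have hinjf : ∀ i j : Zd d, (∀ k, |i k| ≤ L) → (∀ k, |j k| ≤ L) → cst L i = cst L j → i = j :=
    fun i j hi hj h => by
      rw [← Kac.Gl.vm_cst hi, ← Kac.Gl.vm_cst hj, h]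
  obtain ⟨A, hA⟩ : ∃ A : Finset (Tor d L), A = X.image (cst L) := ⟨_, rfl⟩
  obtain ⟨D, hD⟩ : ∃ D : Finset (Tor d L), D = (outk M.r X).image (cst L) := ⟨_, rfl⟩
  have hAc : A.card = X.card := by
    rw [hA]
    exact card_image_of_injOn fun i hi j hj h => hinjf i j (hXL i hi) (hXL j hj) h
  have hDc : D.card = (outk M.r X).card := by
    rw [hD]
    exact card_image_of_injOn fun i hi j hj h => hinjf i j (hout i hi) (hout j hj) h
  have hAL : A.card < (2 * L + 1) ^ d := by rw [hAc]; exact hL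
  have hDA : D ⊆ univ \ A := by
    intro s hs
    rw [hD] at hs
    obtain ⟨i, hi, rfl⟩ := mem_image.1 hs
    rw [Finset.mem_sdiff]
    refine ⟨mem_univ _, fun h => ?_⟩
    rw [hA] at h
    obtain ⟨j, hj, hj2⟩ := mem_image.1 h
    have h2 : j = i := hinjf j i (hXL j hj) (hout i hi) hj2
    exact (mem_outk.1 hi).1 (h2 ▸ hj)
  obtain ⟨V, hV⟩ : ∃ V : ℝ, V = (2 * L + 1 : ℝ) ^ d := ⟨_, rfl⟩
  have hV0 : 0 < V := by rw [hV]; positivity
  obtain ⟨lz, hlz⟩ : ∃ lz : ℝ, lz = Real.log (M.ZT L m z).toReal := ⟨_, rfl⟩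
  obtain ⟨lh, hlh⟩ : ∃ lh : ℝ, lh = Real.log (M.ZT L (m + h) z).toReal := ⟨_, rfl⟩
  obtain ⟨κ, hκ⟩ : ∃ κ : ℝ, κ = Real.log (M.lam (m - F) Set.univ).toReal := ⟨_, rfl⟩
  obtain ⟨I, hI⟩ : ∃ I : ENNReal, I = M.int (innk M.r X) (M.w m z X) := ⟨_, rfl⟩
  obtain ⟨c, hc⟩ : ∃ c : ℝ, c = (V - A.card) / V * lz - F * D.card * (((lh - lz) / h) / V) :=
    ⟨_, rfl⟩
  have hlow := glBB_le_ZC M L hAL hDA m hz hF hh
  rw [← hV, ← hlz, ← hlh, ← hc] at hlow
  have hemp := emp M (cst L) (fun j => if j ∈ D then m - F else m) (fun _ => z)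
    (B := univ \ A) (C := univ \ A) (D := D) hDA (subset_refl _) (fun _ _ => hz)
    (S := Set.univ) MeasurableSet.univ
  have hset : {ω : Tor d L → E | ∀ j ∈ D, ω j ∈ Set.univ} = Set.univ := by
    ext ω
    simp
  rw [hset, Set.indicator_univ] at hemp
  have hprod : ∏ j ∈ D, M.lam (if j ∈ D then m - F else m) Set.univ = ex (κ * D.card) := by
    have h1 : ex κ = M.lam (m - F) Set.univ := by
      rw [hκ]
      exact ex_log (lt_of_lt_of_le one_pos (Bas.one_le_lam M (m - F) (Set.mem_univ _))).ne'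
        (Bas.lam_ne_top M _ _)
    calc ∏ j ∈ D, M.lam (if j ∈ D then m - F else m) Set.univ = ∏ _j ∈ D, ex κ :=
          prod_congr rfl fun j hj => by rw [if_pos hj, h1]
      _ = ex (κ * D.card) := by rw [prod_const, ex_pow, mul_comm]
  have hR : (univ \ A) \ D = univ \ (A ∪ D) := by
    ext s
    simp only [Finset.mem_sdiff, mem_union, mem_univ, true_and, not_or]
  have hW : lmarginal (fun _ : Tor d L => M.π) (univ \ (A ∪ D))
      (M.wG (cst L) (fun j => if j ∈ D then m - F else m) (fun _ => z) (univ \ A))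
        (fun _ => M.e0) =
      lmarginal (fun _ : Tor d L => M.π) (univ \ (A ∪ D))
        (M.wG (cst L) (fun _ => m) (fun _ => z) (univ \ A)) (fun _ => M.e0) := by
    unfold lmarginal
    refine lintegral_congr fun y => ?_
    obtain ⟨ω, hω⟩ : ∃ ω : Tor d L → E, ω = Function.updateFinset (fun _ => M.e0)
      (univ \ (A ∪ D)) y := ⟨_, rfl⟩
    rw [← hω]
    have hωD : ∀ j ∈ D, ω j = M.e0 := by
      intro j hj
      have hj' : j ∉ univ \ (A ∪ D) := fun h3 =>
        (Finset.mem_sdiff.1 h3).2 (mem_union_right _ hj)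
      rw [hω, Function.updateFinset_def]
      simp only [hj', dif_neg, not_false_eq_true]
    unfold Nx.wG
    congr 2
    refine prod_congr rfl fun j _ => ?_
    by_cases hj : j ∈ D
    · rw [hωD j hj, Bas.st_e0, Bas.st_e0]
    · simp only [if_neg hj]
  have hglue := glueB_torus M L X hX m hz
  rw [← hA, ← hD, ← hI] at hglue
  rw [hprod, hR, hW] at hemp
  obtain ⟨W, hWe⟩ : ∃ W : ENNReal, W = lmarginal (fun _ : Tor d L => M.π) (univ \ (A ∪ D))
        (M.wG (cst L) (fun _ => m) (fun _ => z) (univ \ A)) (fun _ => M.e0) := ⟨_, rfl⟩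
  rw [← hWe] at hemp hglue
  have hcW : ex c ≤ ex (κ * D.card) * W := hlow.trans hemp
  have hZ : M.ZT L m z = ex lz := by
    rw [hlz]
    exact (ex_log (glBB_ZT_ne_zero M L m z) (ZT_ne_top M L m z)).symm
  rw [hZ] at hglue
  have h5 : ex c * I ≤ ex (κ * D.card) * ex lz := by
    calc ex c * I ≤ ex (κ * D.card) * W * I := mul_le_mul' hcW le_rfl
      _ = ex (κ * D.card) * (I * W) := by ring
      _ ≤ _ := mul_le_mul' le_rfl hglue
  have h6 : I ≤ ex (κ * D.card + lz - c) := by
    have h7 := mul_le_mul' (le_refl (ex (-c))) h5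
    rw [← mul_assoc, ← ex_add, neg_add_cancel, ex_zero, one_mul, ← ex_add, ← ex_add] at h7
    refine h7.trans (ex_le_ex.2 (le_of_eq ?_))
    ring
  rw [← hI, ← hV, ← hlz, ← hlh, ← hκ]
  refine h6.trans (ex_le_ex.2 (le_of_eq ?_))
  rw [hc, hAc, hDc]
  field_simp
  ring

theorem glueB (hd : 1 ≤ d) {p : ℝ → ℝ → ℝ} (hp : M.IsP p) (X : Finset (Zd d)) (m z F h : ℝ)
    (hz : 0 ≤ z) (hF : 0 ≤ F) (hh : 0 < h) :
    M.int (innk M.r X) (M.w m z X) ≤
      ex (X.card * p m z + (F * ((p (m + h) z - p m z) / h) +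
        Real.log (M.lam (m - F) Set.univ).toReal) * (outk M.r X).card) := by
  have hlim : Tendsto (fun L : ℕ =>
      X.card * (Real.log (M.ZT L m z).toReal / (2 * L + 1 : ℝ) ^ d) +
        (F * ((Real.log (M.ZT L (m + h) z).toReal / (2 * L + 1 : ℝ) ^ d -
          Real.log (M.ZT L m z).toReal / (2 * L + 1 : ℝ) ^ d) / h) +
          Real.log (M.lam (m - F) Set.univ).toReal) * (outk M.r X).card) atTop
      (𝓝 (X.card * p m z + (F * ((p (m + h) z - p m z) / h) +
        Real.log (M.lam (m - F) Set.univ).toReal) * (outk M.r X).card)) := by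
    have h1 := hp.torus hd m hz
    have h2 := hp.torus hd (m + h) hz
    exact (h1.const_mul _).add
      (((((h2.sub h1).div_const h).const_mul F).add_const _).mul_const _)
  refine ge_of_tendsto (Pool.Agent.Mix.GLrow.tendsto_ex hlim) ?_
  filter_upwards [Pool.Agent.Mix.GLrow.eventually_torus hd X (M.r + 1)] with L hL
  refine glBB_torus M L X (fun i hi k => ?_) hL.2 m hz hF hh
  have := hL.1 i hi k
  push_cast at this
  exact this

end Pool.Agent.Ndl
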