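import Pool.Agent.Lib.MP_09cbbd_nd.Bas
import Pool.Agent.Lib.MP_09cbbd_mix.Pres

/-!
# Partition functions: monotonicity, separated unions, translations

ROW PRA. Adapt MP_09cbbd_mix/Pres.lean lines 20-160 (xi_mono, xi_union, w_shift, xi_shift, xi_biUnion). The weight now is
(prod st) * ex (sum_(i in A) z * Fr id A w i) * indicator of cp; cp only looks at v in Q_1, and Fr id A w i only at i + Q_r (Bas.Fr_dep, Bas.Fr_anti).
w_le_w: for w = e0 on B \ A: the same st product (st_e0), cp (ok_e0, ok_e0_right), Fr id A w i <= Fr id B w i (Bas.Fr_anti) and the needles in B \ A add a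
nonnegative term because 0 <= z. int_subset: lmarginal_union and Bas.le_lm (the default configuration is e0), see Bas.lm_le_of_subset.
-/

set_option autoImplicit false

namespace Pool.Agent.Ndl

open MeasureTheory Finset Filter Topology Pool.Agent.StableGas Pool.Agent.SquareWell
open Pool.Agent.Kac (Tor cst)
open Pool.Agent.Mix (Qr mem_Qr)

variable {d : ℕ} {E : Type} [MeasurableSpace E] (M : Nx d E)

/-- An integral over more blocks is larger (the atom of the empty content has mass one). -/
theorem int_subset {A B : Finset (Zd d)} (h : A ⊆ B) {f : (Zd d → E) → ENNReal}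
    (hf : Measurable f) : M.int A f ≤ M.int B f := by
  classical
  have := Bas.fin_π M
  have e1 : M.int B f = M.int A (lmarginal (fun _ : Zd d => M.π) (B \ A) f) := by
    unfold Nx.int
    rw [← lmarginal_union _ _ hf disjoint_sdiff, union_sdiff_of_subset h]
  rw [e1]
  refine Bas.int_mono' M A fun x hx => ?_
  refine le_trans (le_of_eq ?_) (Bas.le_lm M (B \ A) hf x)
  congr 1
  funext i
  by_cases hi : i ∈ B \ A
  · rw [if_pos hi, hx i (mem_sdiff.1 hi).2]
  · rw [if_neg hi]

theorem w_le_w {z : ℝ} (hz : 0 ≤ z) (m : ℝ) {A B : Finset (Zd d)} (h : A ⊆ B) {ω : Zd d → E}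
    (hω : ∀ i ∈ B, i ∉ A → ω i = M.e0) : M.w m z A ω ≤ M.w m z B ω := by
  unfold Nx.w
  by_cases hc : M.cp id A ω
  · have hcB : M.cp id B ω := by
      intro v hv hv0 i hi hiv
      by_cases h1 : i ∈ A
      · by_cases h2 : i + id v ∈ A
        · exact hc v hv hv0 i h1 h2
        · rw [hω _ hiv h2]
          exact Bas.ok_e0_right M _ _
      · rw [hω _ hi h1]
        exact M.ok_e0 _ _
    rw [Bas.wG_of_cp M id hc, Bas.wG_of_cp M id hcB]
    refine mul_le_mul' (le_of_eq (prod_subset h fun i hi hA => ?_)) ?_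
    · rw [hω i hi hA, Bas.st_e0]
    · rw [ex_le_ex]
      refine (sum_le_sum fun i _ => mul_le_mul_of_nonneg_left
        (Bas.Fr_anti M id (A := A) (B := B) (x := ω) (y := ω) i fun v _ hv => ?_) hz).trans
        (sum_le_sum_of_subset_of_nonneg h fun i _ _ => mul_nonneg hz (Bas.Fr_nonneg M id B ω i))
      by_cases h2 : i + id v ∈ A
      · exact Or.inr ⟨h2, rfl⟩
      · exact Or.inl (hω _ hv h2)
  · rw [Bas.wG_of_not M id hc]
    exact zero_le

theorem xi_mono {z : ℝ} (hz : 0 ≤ z) (m : ℝ) {A B : Finset (Zd d)} (h : A ⊆ B) :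
    M.xi m z A ≤ M.xi m z B := by
  unfold Nx.xi
  refine (Bas.int_mono' M A fun x hx => w_le_w M hz m h fun i _ hi => hx i hi).trans ?_
  exact int_subset M h (Bas.measurable_w M m z B)

private theorem Bas_Qr_mono {v : Zd d} (hv : v ∈ Qr d 1) : v ∈ Qr d M.r :=
  Pool.Agent.Mix.Bas.Qr_mono M.hr hv

theorem xi_union (m z : ℝ) {A B : Finset (Zd d)} (hAB : Disjoint A B)
    (hfar : ∀ i ∈ A, ∀ j ∈ B, j - i ∉ Qr d M.r) :
    M.xi m z A * M.xi m z B ≤ M.xi m z (A ∪ B) := by
  classical
  unfold Nx.xi
  rw [← Bas.int_mul M hAB (Bas.measurable_w M m z A) (Bas.measurable_w M m z B)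
    (Bas.w_dep M m z A) (Bas.w_dep M m z B)]
  refine Bas.int_mono M _ fun ω => ?_
  unfold Nx.w
  by_cases hA : M.cp id A ω
  · by_cases hB : M.cp id B ω
    · have hc : M.cp id (A ∪ B) ω := by
        intro v hv hv0 i hi hj
        have hvr : v ∈ Qr d M.r := Bas_Qr_mono M hv
        rw [mem_union] at hi hj
        rcases hi with hi | hi <;> rcases hj with hj | hj
        · exact hA v hv hv0 i hi hj
        · exact absurd hvr (by
            have h := hfar i hi _ hj
            simpa using h)
        · exact absurd hvr (by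
            have h := hfar _ hj i hi
            have e : i - (i + id v) = -v := by simp
            rw [e] at h
            rwa [Pool.Agent.Mix.Bas.Qr_neg] at h)
        · exact hB v hv hv0 i hi hj
      have e1 : ∀ i ∈ A, M.Fr id A ω i = M.Fr id (A ∪ B) ω i := by
        intro i hi
        refine le_antisymm (Bas.Fr_anti M id i fun v hv h => Or.inr ⟨?_, rfl⟩)
          (Bas.Fr_anti M id i fun v hv h => Or.inr ⟨mem_union_left _ h, rfl⟩)
        rcases mem_union.1 h with h | h
        · exact h
        · exact absurd hv (by simpa using hfar i hi _ h)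
      have e2 : ∀ i ∈ B, M.Fr id B ω i = M.Fr id (A ∪ B) ω i := by
        intro i hi
        refine le_antisymm (Bas.Fr_anti M id i fun v hv h => Or.inr ⟨?_, rfl⟩)
          (Bas.Fr_anti M id i fun v hv h => Or.inr ⟨mem_union_right _ h, rfl⟩)
        rcases mem_union.1 h with h | h
        · exact absurd hv (by
            have h' := hfar _ h i hi
            have e : i - (i + id v) = -v := by simp
            rw [e] at h'
            rwa [Pool.Agent.Mix.Bas.Qr_neg] at h')
        · exact h
      have s1 : ∑ i ∈ A, z * M.Fr id A ω i = ∑ i ∈ A, z * M.Fr id (A ∪ B) ω i :=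
        sum_congr rfl fun i hi => by rw [e1 i hi]
      have s2 : ∑ i ∈ B, z * M.Fr id B ω i = ∑ i ∈ B, z * M.Fr id (A ∪ B) ω i :=
        sum_congr rfl fun i hi => by rw [e2 i hi]
      rw [Bas.wG_of_cp M id hA, Bas.wG_of_cp M id hB, Bas.wG_of_cp M id hc, prod_union hAB,
        sum_union hAB, ex_add, s1, s2]
      exact le_of_eq (mul_mul_mul_comm _ _ _ _)
    · rw [Bas.wG_of_not M id hB, mul_zero]
      exact zero_le
  · rw [Bas.wG_of_not M id hA, zero_mul]
    exact zero_le

theorem w_shift (m z : ℝ) (A : Finset (Zd d)) (u : Zd d) (ω : Zd d → E) :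
    M.w m z (A.image fun i => i + u) ω = M.w m z A fun i => ω (i + u) := by
  classical
  have hinj : Function.Injective fun i : Zd d => i + u := add_left_injective u
  have hmem : ∀ i : Zd d, i + u ∈ (A.image fun i => i + u) ↔ i ∈ A := by
    intro i
    constructor
    · intro h
      obtain ⟨l, hl, hle⟩ := mem_image.1 h
      rwa [← add_right_cancel hle]
    · intro h
      exact mem_image_of_mem _ h
  have hcp : M.cp id (A.image fun i => i + u) ω ↔ M.cp id A fun i => ω (i + u) := by
    constructor
    · intro h v hv hv0 i hi hj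
      have e : i + u + id v = (i + id v) + u := by abel
      have h1 := h v hv hv0 (i + u) ((hmem i).2 hi) (by rw [e]; exact (hmem _).2 hj)
      rwa [e] at h1
    · intro h v hv hv0 i hi hj
      obtain ⟨k, hk, rfl⟩ := mem_image.1 hi
      have e2 : k + u + id v = (k + id v) + u := by abel
      rw [e2] at hj
      have h1 := h v hv hv0 k hk ((hmem _).1 hj)
      rw [e2]
      exact h1
  have hFr : ∀ i, M.Fr id (A.image fun i => i + u) ω (i + u) =
      M.Fr id A (fun i => ω (i + u)) i := by
    intro i
    unfold Nx.Fr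
    congr 1
    funext v
    unfold Nx.sh
    have e : i + u + id v = (i + id v) + u := by abel
    by_cases h : i + id v ∈ A
    · rw [if_pos h, if_pos (by rw [e]; exact (hmem _).2 h), e]
    · rw [if_neg h, if_neg (by rw [e]; exact fun h' => h ((hmem _).1 h'))]
  unfold Nx.w
  by_cases h : M.cp id A fun i => ω (i + u)
  · rw [Bas.wG_of_cp M id h, Bas.wG_of_cp M id (hcp.2 h), prod_image fun i _ j _ h => hinj h,
      sum_image fun i _ j _ h => hinj h]
    simp only [hFr]
  · rw [Bas.wG_of_not M id h, Bas.wG_of_not M id fun h' => h (hcp.1 h')]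

theorem xi_shift (m z : ℝ) (A : Finset (Zd d)) (u : Zd d) :
    M.xi m z (A.image fun i => i + u) = M.xi m z A := by
  classical
  have := Bas.fin_π M
  have hinj : Function.Injective fun i : Zd d => i + u := add_left_injective u
  have h := lmarginal_image (μ := fun _ : Zd d => M.π) (X := fun _ => E) hinj A
    (Bas.measurable_w M m z A) (fun _ => M.e0)
  unfold Nx.xi Nx.int
  refine Eq.trans ?_ h
  congr 1
  funext ω
  exact w_shift M m z A u ω

theorem xi_biUnion {z : ℝ} (hz : 0 ≤ z) (m : ℝ) {ι : Type} [DecidableEq ι] (T : Finset ι)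
    (B : ι → Finset (Zd d))
    (hB : ∀ s ∈ T, ∀ t ∈ T, s ≠ t → Disjoint (B s) (B t) ∧ ∀ i ∈ B s, ∀ j ∈ B t, j - i ∉ Qr d M.r) :
    ∏ t ∈ T, M.xi m z (B t) ≤ M.xi m z (T.biUnion B) := by
  classical
  induction T using Finset.induction_on with
  | empty => rw [prod_empty]; exact Bas.one_le_xi M hz m _
  | insert a T ha ih =>
    rw [prod_insert ha, biUnion_insert]
    refine (mul_le_mul' le_rfl (ih fun s hs t ht => hB s (mem_insert_of_mem hs) t
      (mem_insert_of_mem ht))).trans ?_
    have hne : ∀ s ∈ T, a ≠ s := fun s hs h => ha (h ▸ hs)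
    refine xi_union M m z ?_ ?_
    · rw [disjoint_biUnion_right]
      intro s hs
      exact (hB a (mem_insert_self a T) s (mem_insert_of_mem hs) (hne s hs)).1
    · intro i hi j hj
      obtain ⟨s, hs, hjs⟩ := mem_biUnion.1 hj
      exact (hB a (mem_insert_self a T) s (mem_insert_of_mem hs) (hne s hs)).2 i hi j hjs

end Pool.Agent.Ndl
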