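import Pool.Agent.Lib.MP_09cbbd_nd.GlAB
import Pool.Agent.Lib.MP_09cbbd_nd.GlBB
import Pool.Agent.Lib.MP_09cbbd_nd.PrA
import Pool.Agent.Lib.MP_09cbbd_nd.Emp

/-!
# The two regions with shifted fields

ROW SHF. boundY: on the event, the weight at z is at most ex (s c) times the weight at z - s (only the sites of innk count); glueA at (m, z - s) with h = s:
(p m z - p m (z - s)) / s = θ and 0 <= z - s <= z, 0 <= θ; Crd.card_outk_le. boundW: Bas.int_mono' (w is empty outside B): the weight at m is at most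
ex (s c) times the weight at m - s; Emp.emp with C = X, B, D = B \ innk r X, S = W (fields m - s); int_subset from B \ D = B inter innk r X to innk r X; glueB at
(m - s, z) with h = s; lam (m - s) W <= lam m W, lam (m - s - F) univ <= lam (m - F) univ (Bas.lam_mono), log of a quantity >= 1 is >= 0 (Bas.one_le_lam);
card_sdiff_innk_le, card_outk_le.
-/

set_option autoImplicit false

namespace Pool.Agent.Ndl

open MeasureTheory Finset Filter Topology Pool.Agent.StableGas Pool.Agent.SquareWell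
open Pool.Agent.Kac (Tor cst)
open Pool.Agent.Mix (Qr mem_Qr)

variable {d : ℕ} {E : Type} [MeasurableSpace E] (M : Nx d E)

variable {p : ℝ → ℝ → ℝ}

theorem boundY (hd : 1 ≤ d) (hp : M.IsP p) {m z s θ c : ℝ} (hs : 0 < s) (hsz : s ≤ z)
    (hθ : 0 ≤ θ) (h : p m z - p m (z - s) = θ * s) (X : Finset (Zd d)) :
    M.int X ({ω | ∑ i ∈ innk (M.r + 1) X, M.Fr id X ω i ≤ c}.indicator
      (M.wG id (fun _ => m) (fun i => if i ∈ innk (M.r + 1) X then z else 0) X)) ≤
      ex (s * c + X.card * (p m z - θ * s) + (z * θ * (2 * M.r + 1 : ℝ) ^ d +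
        (Real.log (M.lam m Set.univ).toReal - Real.log (M.lam m M.I).toReal)) *
          (bd X).card) := by
  have hz : 0 ≤ z := hs.le.trans hsz
  have hcard := card_outk_le M.r X
  have hR0 : (0 : ℝ) ≤ (bd X).card := Nat.cast_nonneg _
  have hcard' : ((outk M.r X).card : ℝ) ≤ (2 * M.r + 1 : ℝ) ^ d * (bd X).card := by exact_mod_cast hcard
  have h1 : M.int X ({ω | ∑ i ∈ innk (M.r + 1) X, M.Fr id X ω i ≤ c}.indicator
      (M.wG id (fun _ => m) (fun i => if i ∈ innk (M.r + 1) X then z else 0) X)) ≤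
      ex (s * c) * M.int X (M.wG id (fun _ => m) (fun i => if i ∈ innk (M.r + 1) X then z - s else 0) X) := by
    rw [← Bas.int_const_mul M X (Bas.measurable_wG M id _ _ X)]
    refine Bas.int_mono M X fun ω => ?_
    by_cases hω : ω ∈ {ω | ∑ i ∈ innk (M.r + 1) X, M.Fr id X ω i ≤ c}
    · rw [Set.indicator_of_mem hω]
      have hω' : ∑ i ∈ innk (M.r + 1) X, M.Fr id X ω i ≤ c := hω
      by_cases hc : M.cp id X ω
      · rw [Bas.wG_of_cp M id hc, Bas.wG_of_cp M id hc, mul_left_comm, ← ex_add]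
        refine mul_le_mul' le_rfl ?_
        rw [ex_le_ex]
        have hsub : innk (M.r + 1) X ⊆ X := fun i hi => (mem_innk.1 hi).1
        have e : ∀ t : ℝ, ∑ i ∈ X, (if i ∈ innk (M.r + 1) X then t else 0) * M.Fr id X ω i =
            t * ∑ i ∈ innk (M.r + 1) X, M.Fr id X ω i := by
          intro t
          rw [mul_sum, ← sum_subset hsub]
          · exact sum_congr rfl fun i hi => by rw [if_pos hi]
          · intro i _ hi
            rw [if_neg hi, zero_mul]
        rw [e, e]
        nlinarith [mul_le_mul_of_nonneg_left hω' hs.le]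
      · rw [Bas.wG_of_not M id hc]
        exact zero_le
    · rw [Set.indicator_of_notMem hω]
      exact zero_le
  have h2 := glueA M hd hp X m (z - s) s (by linarith) hs
  have e1 : z - s + s = z := by ring
  have e2 : p m (z - s) = p m z - θ * s := by linarith
  rw [e1, h, mul_div_assoc, div_self hs.ne', mul_one, e2] at h2
  refine h1.trans ((mul_le_mul' le_rfl h2).trans ?_)
  rw [← ex_add, ex_le_ex]
  have h3 : (z - s) * θ * (outk M.r X).card ≤ z * θ * ((2 * M.r + 1 : ℝ) ^ d * (bd X).card) := by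
    refine mul_le_mul ?_ hcard' (Nat.cast_nonneg _) (mul_nonneg hz hθ)
    exact mul_le_mul_of_nonneg_right (by linarith) hθ
  linarith

theorem boundW (hd : 1 ≤ d) (hp : M.IsP p) {m z s θ c F : ℝ} (hs : 0 < s) (hz : 0 ≤ z)
    (hF : 0 ≤ F) (hθ : 0 ≤ θ) (h : p m z - p (m - s) z = θ * s) {W : Set E}
    (mW : MeasurableSet W) (hW : M.e0 ∈ W) {B X : Finset (Zd d)} (hBX : B ⊆ X) :
    M.int B ({ω | (∀ i ∈ B, i ∉ innk M.r X → ω i ∈ W) ∧ ∑ i ∈ B, M.a (ω i) ≤ c}.indicator
      (M.w m z X)) ≤
      ex (s * c + X.card * (p m z - θ * s) + (F * θ +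
        Real.log (M.lam (m - F) Set.univ).toReal + Real.log (M.lam m W).toReal) *
          ((2 * M.r + 1 : ℝ) ^ d * (bd X).card)) := by
  have hR0 : (0 : ℝ) ≤ (bd X).card := Nat.cast_nonneg _
  have hcard : ((outk M.r X).card : ℝ) ≤ (2 * M.r + 1 : ℝ) ^ d * (bd X).card := by exact_mod_cast card_outk_le M.r X
  have hcard2 : ((X \ innk M.r X).card : ℝ) ≤ (2 * M.r + 1 : ℝ) ^ d * (bd X).card := by
    exact_mod_cast card_sdiff_innk_le M.r X
  obtain ⟨G, hG⟩ : ∃ G : Set (Zd d → E), G = {ω | ∀ j ∈ B \ innk M.r X, ω j ∈ W} := ⟨_, rfl⟩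
  have hGm : MeasurableSet G := by
    have e : G = ⋂ i ∈ B \ innk M.r X, {ω : Zd d → E | ω i ∈ W} := by
      rw [hG]
      ext ω
      simp only [Set.mem_ofPred_eq, Set.mem_iInter]
    rw [e]
    exact Finset.measurableSet_biInter _ fun i _ => (measurable_pi_apply i) mW
  have h1 : M.int B ({ω | (∀ i ∈ B, i ∉ innk M.r X → ω i ∈ W) ∧ ∑ i ∈ B, M.a (ω i) ≤ c}.indicator
      (M.w m z X)) ≤ ex (s * c) * M.int B (G.indicator (M.w (m - s) z X)) := by
    rw [← Bas.int_const_mul M B ((Bas.measurable_w M _ _ X).indicator hGm)]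
    refine Bas.int_mono' M B fun ω h0 => ?_
    by_cases hω : ω ∈ {ω | (∀ i ∈ B, i ∉ innk M.r X → ω i ∈ W) ∧ ∑ i ∈ B, M.a (ω i) ≤ c}
    · have hG' : ω ∈ G := by
        rw [hG]
        intro j hj
        exact hω.1 j (mem_sdiff.1 hj).1 (mem_sdiff.1 hj).2
      rw [Set.indicator_of_mem hω, Set.indicator_of_mem hG']
      unfold Nx.w
      by_cases hc : M.cp id X ω
      · rw [Bas.wG_of_cp M id hc, Bas.wG_of_cp M id hc, ← mul_assoc]
        refine mul_le_mul' ?_ le_rfl
        unfold Nx.st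
        rw [prod_ex, prod_ex, ← ex_add, ex_le_ex, ← mul_sum, ← mul_sum]
        have e : ∑ i ∈ X, M.a (ω i) = ∑ i ∈ B, M.a (ω i) := by
          symm
          refine sum_subset hBX fun i _ hi => ?_
          rw [h0 i hi, M.a_e0]
        rw [e]
        nlinarith [mul_le_mul_of_nonneg_left hω.2 hs.le]
      · rw [Bas.wG_of_not M id hc]
        exact zero_le
    · rw [Set.indicator_of_notMem hω]
      exact zero_le
  have h2 : M.int B (G.indicator (M.w (m - s) z X)) ≤
      (∏ j ∈ B \ innk M.r X, M.lam (m - s) W) * M.int (B \ (B \ innk M.r X)) (M.w (m - s) z X) := by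
    have := emp M id (fun _ => m - s) (fun _ => z) (B := B) (C := X) (D := B \ innk M.r X) sdiff_subset hBX
      (fun _ _ => hz) mW
    rw [hG]
    exact this
  have hsub : B \ (B \ innk M.r X) ⊆ innk M.r X := by
    intro i hi
    by_contra hcon
    exact (mem_sdiff.1 hi).2 (mem_sdiff.2 ⟨(mem_sdiff.1 hi).1, hcon⟩)
  have h3 := int_subset M hsub (Bas.measurable_w M (m - s) z X)
  have h4 := glueB M hd hp X (m - s) z F s hz hF hs
  have e1 : m - s + s = m := by ring
  have e2 : p (m - s) z = p m z - θ * s := by linarith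
  rw [e1, h, mul_div_assoc, div_self hs.ne', mul_one, e2] at h4
  -- the masses
  have hl1 : M.lam (m - s) W ≤ M.lam m W := Bas.lam_mono M (by linarith) subset_rfl
  have hge : 1 ≤ M.lam m W := Bas.one_le_lam M m hW
  have hne : M.lam m W ≠ 0 := (lt_of_lt_of_le one_pos hge).ne'
  have hnt : M.lam m W ≠ ⊤ := Bas.lam_ne_top M m W
  have hlog : 0 ≤ Real.log (M.lam m W).toReal := by
    apply Real.log_nonneg
    have := ENNReal.toReal_mono hnt hge
    simpa using this
  have hge2 : 1 ≤ M.lam (m - s - F) Set.univ := Bas.one_le_lam M _ (Set.mem_univ _)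
  have hlog2 : Real.log (M.lam (m - s - F) Set.univ).toReal ≤ Real.log (M.lam (m - F) Set.univ).toReal := by
    have h5 := ENNReal.toReal_mono (Bas.lam_ne_top M (m - F) Set.univ)
      (Bas.lam_mono M (by linarith : m - s - F ≤ m - F) (subset_rfl : (Set.univ : Set E) ⊆ Set.univ))
    apply Real.log_le_log _ h5
    have h6 := ENNReal.toReal_mono (Bas.lam_ne_top M (m - s - F) Set.univ) hge2
    simp only [ENNReal.toReal_one] at h6
    linarith
  have hlog3 : 0 ≤ Real.log (M.lam (m - F) Set.univ).toReal := by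
    apply Real.log_nonneg
    have := ENNReal.toReal_mono (Bas.lam_ne_top M (m - F) Set.univ) (Bas.one_le_lam M (m - F) (Set.mem_univ _))
    simpa using this
  have h5 : (∏ j ∈ B \ innk M.r X, M.lam (m - s) W) ≤
      ex (Real.log (M.lam m W).toReal * ((2 * M.r + 1 : ℝ) ^ d * (bd X).card)) := by
    rw [prod_const]
    calc M.lam (m - s) W ^ (B \ innk M.r X).card ≤ M.lam m W ^ (B \ innk M.r X).card :=
          pow_le_pow_left' hl1 _
      _ = ex (Real.log (M.lam m W).toReal) ^ (B \ innk M.r X).card := by rw [ex_log hne hnt]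
      _ = ex ((B \ innk M.r X).card * Real.log (M.lam m W).toReal) := by rw [ex_pow]
      _ ≤ _ := by
          rw [ex_le_ex, mul_comm]
          refine mul_le_mul_of_nonneg_left (le_trans ?_ hcard2) hlog
          exact_mod_cast card_le_card (sdiff_subset_sdiff hBX subset_rfl)
  refine h1.trans ((mul_le_mul' le_rfl (h2.trans (mul_le_mul' h5 (h3.trans h4)))).trans ?_)
  rw [← ex_add, ← ex_add, ex_le_ex]
  have h6 : (F * θ + Real.log (M.lam (m - s - F) Set.univ).toReal) * (outk M.r X).card ≤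
      (F * θ + Real.log (M.lam (m - F) Set.univ).toReal) * ((2 * M.r + 1 : ℝ) ^ d * (bd X).card) := by
    refine mul_le_mul (by linarith) hcard (Nat.cast_nonneg _) ?_
    have := mul_nonneg hF hθ
    linarith
  linarith

end Pool.Agent.Ndl
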