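import Pool.Agent.Lib.MP_09cbbd_nd.Spl
import Pool.Agent.Lib.MP_09cbbd_nd.Shf

/-!
# The weight of a class

ROW CB. split, boundY with X = Y and c = η |Y| + 2 K, boundW with B = W2, X = X2 and c = δ |A| + K, and the bounds of Bnd. With P = p m z, R3 = (2 r + 3)^d,
ρ = rg M, Cρ = (2 ρ + 1)^d. Exponents: z η |Y \ innk| <= ε P R3 |bd Y|; boundY: 2 ε P R3 |bd Y|; boundW: 3 ε P R3 |bd X2|; |bd Y| <= 3^d |L|,
|bd X2| <= |lay| + 3^d |L|; (1 + ε) P (|(L n A) \ OL|) + (1 - c) P |OL|; (P - θ s)(|Y| + |X2|) with card_parts, θ s <= ε P;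
- c P |OL| <= - c P (|L| / Cρ - |bd A|); epsC makes 2 ε + 6 ε R3 3^d <= c / (2 Cρ). K >= 0 if the class is nonempty (a sum of naturals is <= K).
-/

set_option autoImplicit false

namespace Pool.Agent.Ndl

open MeasureTheory Finset Filter Topology Pool.Agent.StableGas Pool.Agent.SquareWell
open Pool.Agent.Kac (Tor cst)
open Pool.Agent.Mix (Qr mem_Qr lay mem_lay)

variable {d : ℕ} {E : Type} [MeasurableSpace E] (M : Nx d E)

/-- The bounds at the point `(m, z)`. -/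
structure Bnd (D W : Set E) (η c' θ c ε F : ℝ) (P m z : ℝ) : Prop where
  P0 : 0 ≤ P
  tot_le : M.tot m z Set.univ ≤ ex ((1 + ε) * P)
  bad_le : M.tot m z (D ∪ W)ᶜ + ex (z * (1 - c')) * M.lam m W ≤ ex ((1 - c) * P)
  zθ : z * θ ≤ ε * P
  zη : z * η ≤ ε * P
  rim : Real.log (M.lam m Set.univ).toReal - Real.log (M.lam m M.I).toReal ≤ ε * P
  F0 : 0 ≤ F
  Fθ : F * θ ≤ ε * P
  lamF : Real.log (M.lam (m - F) Set.univ).toReal ≤ ε * P
  lamW : Real.log (M.lam m W).toReal ≤ ε * P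

/-- The number of sites in the range of the contours. -/
noncomputable def cR (d r : ℕ) : ℝ := (2 * (2 * (r + 2)) + 1 : ℝ) ^ d

/-- The admissible errors. -/
noncomputable def epsC (d r : ℕ) : ℝ := 1 / (2 * cR d r * (2 + 6 * (6 * r + 9 : ℝ) ^ d))

variable {D W : Set E} {η δ c' : ℝ} {p : ℝ → ℝ → ℝ}

theorem class_bound (hd : 1 ≤ d) (hp : M.IsP p) (hlab : Lab M D W η δ c') {m z s θ c ε F : ℝ}
    (hs : 0 < s) (hsz : s ≤ z) (hθ : 0 ≤ θ) (hc : 0 ≤ c) (hc1 : c ≤ 1) (hε0 : 0 ≤ ε)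
    (hε : ε ≤ epsC d M.r * c) (hb : Bnd M D W η c' θ c ε F (p m z) m z)
    (hθs : θ * s ≤ ε * p m z)
    (h1 : p m z - p (m - s) z = θ * s) (h2 : p m z - p m (z - s) = θ * s)
    (A : Finset (Zd d)) (n : ℕ) (K : ℝ) (L Y DL OL : Finset (Zd d)) :
    M.int A ((Class M D W A n K L Y DL OL).indicator (M.w m z A)) ≤
      ex (s * (η + δ) * A.card + 3 * s * K + (p m z - θ * s) * A.card +
        4 * (2 * M.r + 3 : ℝ) ^ d * p m z * ((lay (rg M) A).card + (bd A).card) -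
        c * p m z / (2 * cR d M.r) * L.card) := by
  rcases Set.eq_empty_or_nonempty (Class M D W A n K L Y DL OL) with hemp | hne
  · rw [hemp, Set.indicator_empty]
    unfold Nx.int lmarginal
    simp
  have hz : 0 ≤ z := hs.le.trans hsz
  obtain ⟨ω, hω⟩ := hne
  have hne : (Class M D W A n K L Y DL OL).Nonempty := ⟨ω, hω⟩
  have hK : 0 ≤ K := le_trans (Nat.cast_nonneg _) hω.2.2.2.2
  have hYA : Y ⊆ A := hω.2.1.Y_sub
  obtain ⟨P, hP⟩ : ∃ P, P = p m z := ⟨_, rfl⟩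
  have hP0 : 0 ≤ P := by rw [hP]; exact hb.P0
  -- the real numbers
  obtain ⟨R, hR⟩ : ∃ R : ℝ, R = (2 * M.r + 1 : ℝ) ^ d := ⟨_, rfl⟩
  obtain ⟨R3, hR3⟩ : ∃ R3 : ℝ, R3 = (2 * M.r + 3 : ℝ) ^ d := ⟨_, rfl⟩
  obtain ⟨T, hT⟩ : ∃ T : ℝ, T = (3 : ℝ) ^ d := ⟨_, rfl⟩
  obtain ⟨C, hC⟩ : ∃ C : ℝ, C = cR d M.r := ⟨_, rfl⟩
  have hr0 : (0 : ℝ) ≤ M.r := Nat.cast_nonneg _
  have hR31 : 1 ≤ R3 := by rw [hR3]; exact one_le_pow₀ (by linarith)
  have hRR3 : R ≤ R3 := by rw [hR, hR3]; exact pow_le_pow_left₀ (by linarith) (by linarith) d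
  have hR0 : 0 ≤ R := by rw [hR]; positivity
  have hC0 : 0 < C := by rw [hC]; unfold cR; positivity
  have hT1 : 1 ≤ T := by rw [hT]; exact one_le_pow₀ (by norm_num)
  have h6 : (6 * M.r + 9 : ℝ) ^ d = T * R3 := by
    rw [hT, hR3, ← mul_pow]
    congr 1
    ring
  -- the factors
  have hsp := split M hlab A n K L Y DL OL m hz
  have hY := boundY M hd hp (m := m) (z := z) (s := s) (θ := θ) (c := η * Y.card + 2 * K) hs hsz hθ h2 Y
  have hWX : W2 A L Y ⊆ X2 (rg M) A L Y := fun i hi => mem_X2.2 (Or.inl hi)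
  have hW := boundW M hd hp (m := m) (z := z) (s := s) (θ := θ) (c := δ * A.card + K) (F := F) hs hz hb.F0 hθ h1
    hlab.mW hlab.e0_W hWX
  have ht : M.tot m z Set.univ ^ ((L ∩ A) \ OL).card ≤ ex (((L ∩ A) \ OL).card * ((1 + ε) * p m z)) := by
    rw [← ex_pow]
    exact pow_le_pow_left' hb.tot_le _
  have hbad : (M.tot m z (D ∪ W)ᶜ + ex (z * (1 - c')) * M.lam m W) ^ OL.card ≤
      ex (OL.card * ((1 - c) * p m z)) := by
    rw [← ex_pow]
    exact pow_le_pow_left' hb.bad_le _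
  refine hsp.trans ((mul_le_mul' (mul_le_mul' le_rfl hY) (mul_le_mul' hW (mul_le_mul' ht hbad))).trans ?_)
  rw [← ex_add, ← ex_add, ← ex_add, ← ex_add, ex_le_ex]
  -- cardinalities
  have c1 : ((Y \ innk (M.r + 1) Y).card : ℝ) ≤ R3 * (bd Y).card := by
    have := card_sdiff_innk_le (M.r + 1) Y
    have h' : ((Y \ innk (M.r + 1) Y).card : ℝ) ≤ (2 * ((M.r + 1 : ℕ) : ℝ) + 1) ^ d * (bd Y).card := by
      exact_mod_cast this
    refine h'.trans (le_of_eq ?_)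
    rw [hR3]
    congr 2
    push_cast
    ring
  have c2 : ((bd Y).card : ℝ) ≤ T * L.card := by
    rw [hT]
    exact_mod_cast card_bd_Y M hne
  have c3 : ((bd (X2 (rg M) A L Y)).card : ℝ) ≤ (lay (rg M) A).card + T * L.card := by
    rw [hT]
    exact_mod_cast card_bd_X2 M hne
  have c4 : (Y.card : ℝ) + (X2 (rg M) A L Y).card + ((L ∩ A) \ OL).card + OL.card =
      A.card + (lay (rg M) A).card := by
    exact_mod_cast card_parts M hne
  have c5 : (L.card : ℝ) ≤ C * (OL.card + (bd A).card) := by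
    have := card_L_le M hne
    have h' : (L.card : ℝ) ≤ (2 * (rg M : ℝ) + 1) ^ d * (OL.card + (bd A).card) := by exact_mod_cast this
    refine h'.trans (le_of_eq ?_)
    rw [hC]
    unfold cR rg
    push_cast
    rfl
  have c6 : (((L ∩ A) \ OL).card : ℝ) + OL.card ≤ L.card := by
    have hOL : OL ⊆ L ∩ A := fun i hi => mem_inter.2 ⟨(OL_cases M hlab hω hi).1, (OL_cases M hlab hω hi).2.1⟩
    have h3 : ((L ∩ A) \ OL).card + OL.card = (L ∩ A).card := card_sdiff_add_card_eq_card hOL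
    have h4 : (L ∩ A).card ≤ L.card := card_le_card inter_subset_left
    have h5 : ((L ∩ A) \ OL).card + OL.card ≤ L.card := by omega
    exact_mod_cast h5
  have c7 : (Y.card : ℝ) ≤ A.card := by exact_mod_cast card_le_card hYA
  -- real variables
  rw [← hR, ← hR3, ← hC, ← hP]
  have b1 := hb.zθ
  have b2 := hb.zη
  have b3 := hb.rim
  have b4 := hb.Fθ
  have b5 := hb.lamF
  have b6 := hb.lamW
  rw [← hP] at b1 b2 b3 b4 b5 b6 hθs
  obtain ⟨y, hy⟩ : ∃ y : ℝ, y = Y.card := ⟨_, rfl⟩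
  obtain ⟨x, hx⟩ : ∃ x : ℝ, x = (X2 (rg M) A L Y).card := ⟨_, rfl⟩
  obtain ⟨n4, hn4⟩ : ∃ n4 : ℝ, n4 = ((L ∩ A) \ OL).card := ⟨_, rfl⟩
  obtain ⟨n5, hn5⟩ : ∃ n5 : ℝ, n5 = OL.card := ⟨_, rfl⟩
  obtain ⟨l, hl⟩ : ∃ l : ℝ, l = L.card := ⟨_, rfl⟩
  obtain ⟨a, ha⟩ : ∃ a : ℝ, a = A.card := ⟨_, rfl⟩
  obtain ⟨ly, hly⟩ : ∃ ly : ℝ, ly = (lay (rg M) A).card := ⟨_, rfl⟩
  obtain ⟨ba, hba⟩ : ∃ ba : ℝ, ba = (bd A).card := ⟨_, rfl⟩
  obtain ⟨bY, hbY⟩ : ∃ bY : ℝ, bY = (bd Y).card := ⟨_, rfl⟩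
  obtain ⟨bX, hbX⟩ : ∃ bX : ℝ, bX = (bd (X2 (rg M) A L Y)).card := ⟨_, rfl⟩
  obtain ⟨yr, hyr⟩ : ∃ yr : ℝ, yr = (Y \ innk (M.r + 1) Y).card := ⟨_, rfl⟩
  have hy0 : 0 ≤ y := by rw [hy]; exact Nat.cast_nonneg _
  have hx0 : 0 ≤ x := by rw [hx]; exact Nat.cast_nonneg _
  have hn40 : 0 ≤ n4 := by rw [hn4]; exact Nat.cast_nonneg _
  have hn50 : 0 ≤ n5 := by rw [hn5]; exact Nat.cast_nonneg _
  have hl0 : 0 ≤ l := by rw [hl]; exact Nat.cast_nonneg _
  have ha0 : 0 ≤ a := by rw [ha]; exact Nat.cast_nonneg _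
  have hly0 : 0 ≤ ly := by rw [hly]; exact Nat.cast_nonneg _
  have hba0 : 0 ≤ ba := by rw [hba]; exact Nat.cast_nonneg _
  have hbY0 : 0 ≤ bY := by rw [hbY]; exact Nat.cast_nonneg _
  have hbX0 : 0 ≤ bX := by rw [hbX]; exact Nat.cast_nonneg _
  have hyr0 : 0 ≤ yr := by rw [hyr]; exact Nat.cast_nonneg _
  rw [← hy, ← hx, ← hn4, ← hn5, ← ha, ← hly] at c4
  rw [← hyr, ← hbY] at c1
  rw [← hbY, ← hl] at c2
  rw [← hbX, ← hly, ← hl] at c3
  rw [← hl, ← hn5, ← hba] at c5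
  rw [← hn4, ← hn5, ← hl] at c6
  rw [← hy, ← ha] at c7
  rw [← hy, ← hx, ← hn4, ← hn5, ← ha, ← hly, ← hba, ← hl, ← hbY, ← hbX, ← hyr]
  have hεP : 0 ≤ ε * P := mul_nonneg hε0 hP0
  -- ε
  have hε1 : ε * (2 + 6 * (T * R3)) ≤ c / (2 * C) := by
    have h7 : 0 < 2 + 6 * (T * R3) := by positivity
    calc ε * (2 + 6 * (T * R3)) ≤ (epsC d M.r * c) * (2 + 6 * (T * R3)) := mul_le_mul_of_nonneg_right hε h7.le
      _ = c / (2 * C) := by
          unfold epsC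
          rw [h6, ← hC]
          field_simp
  have hεle : ε ≤ 1 := by
    have hC1 : 1 ≤ C := by
      rw [hC]
      unfold cR
      exact one_le_pow₀ (by linarith)
    have h7 : c / (2 * C) ≤ 1 := by
      rw [div_le_one (by positivity)]
      linarith
    have h9 : 0 ≤ T * R3 := mul_nonneg (by linarith) (by linarith)
    have h8 : ε * 2 ≤ ε * (2 + 6 * (T * R3)) := mul_le_mul_of_nonneg_left (by linarith) hε0
    linarith
  -- terms
  have t1 : z * η * yr ≤ ε * P * (R3 * (T * l)) := by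
    calc z * η * yr ≤ ε * P * yr := mul_le_mul_of_nonneg_right b2 hyr0
      _ ≤ ε * P * (R3 * (T * l)) := mul_le_mul_of_nonneg_left (c1.trans (mul_le_mul_of_nonneg_left c2 (by linarith))) hεP
  have t2 : s * (η * y) ≤ s * (η * a) := mul_le_mul_of_nonneg_left (mul_le_mul_of_nonneg_left c7 hlab.η0) hs.le
  have t3 : (z * θ * R + (Real.log (M.lam m Set.univ).toReal - Real.log (M.lam m M.I).toReal)) * bY ≤
      2 * (ε * P) * (R3 * (T * l)) := by
    have h7 : z * θ * R + (Real.log (M.lam m Set.univ).toReal - Real.log (M.lam m M.I).toReal) ≤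
        2 * (ε * P) * R3 := by
      have h8 : z * θ * R ≤ ε * P * R3 := by
        calc z * θ * R ≤ ε * P * R := mul_le_mul_of_nonneg_right b1 hR0
          _ ≤ _ := mul_le_mul_of_nonneg_left hRR3 hεP
      have h9 : ε * P ≤ ε * P * R3 := le_mul_of_one_le_right hεP hR31
      linarith
    calc _ ≤ 2 * (ε * P) * R3 * bY := mul_le_mul_of_nonneg_right h7 hbY0
      _ ≤ 2 * (ε * P) * R3 * (T * l) := mul_le_mul_of_nonneg_left c2 (by positivity)
      _ = _ := by ring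
  have t4 : (F * θ + Real.log (M.lam (m - F) Set.univ).toReal + Real.log (M.lam m W).toReal) * (R * bX) ≤
      3 * (ε * P) * (R3 * (ly + T * l)) := by
    calc _ ≤ 3 * (ε * P) * (R * bX) := mul_le_mul_of_nonneg_right (by linarith) (by positivity)
      _ ≤ _ := mul_le_mul_of_nonneg_left (mul_le_mul hRR3 c3 hbX0 (by linarith)) (by positivity)
  have t5 : θ * s * (n4 + n5) ≤ ε * P * l :=
    mul_le_mul hθs c6 (by linarith) hεP
  have t6 : ε * P * n4 ≤ ε * P * l := mul_le_mul_of_nonneg_left (by linarith) hεP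
  have t7 : 0 ≤ θ * s * ly := by positivity
  have t8 : c * P * (l / C - ba) ≤ c * P * n5 := by
    refine mul_le_mul_of_nonneg_left ?_ (mul_nonneg hc hP0)
    have : l / C ≤ n5 + ba := by
      rw [div_le_iff₀ hC0]
      linarith
    linarith
  have t9 : P * l * (ε * (2 + 6 * (T * R3))) ≤ P * l * (c / (2 * C)) :=
    mul_le_mul_of_nonneg_left hε1 (mul_nonneg hP0 hl0)
  have t10 : P * ly * (1 + 3 * ε * R3) ≤ P * ly * (4 * R3) := by
    refine mul_le_mul_of_nonneg_left ?_ (mul_nonneg hP0 hly0)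
    linarith [mul_le_mul_of_nonneg_right hεle (by linarith : 0 ≤ R3)]
  have t11 : c * P * ba ≤ 4 * R3 * P * ba := by
    refine mul_le_mul_of_nonneg_right (mul_le_mul_of_nonneg_right ?_ hP0) hba0
    linarith
  have e1 : c * P * (l / C - ba) = P * l * (c / (2 * C)) + c * P / (2 * C) * l - c * P * ba := by
    field_simp
    ring
  have e2 : (P - θ * s) * (y + x) + P * (n4 + n5) = (P - θ * s) * a + P * ly - θ * s * ly + θ * s * (n4 + n5) := by
    have : y + x = a + ly - n4 - n5 := by linarith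
    rw [this]
    ring
  rw [e1] at t8
  linear_combination t1 + t2 + t3 + t4 + t5 + t6 + t7 + t8 + t9 + t10 + t11 + e2

end Pool.Agent.Ndl
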