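import Pool.Agent.Lib.MP_09cbbd_nd.Crd
import Pool.Agent.Lib.MP_09cbbd_sw.Topo
import Pool.Agent.Lib.MP_09cbbd_mix.ClsD

/-!
# Classes of configurations: definitions
-/

set_option autoImplicit false

namespace Pool.Agent.Ndl

open MeasureTheory Finset Filter Topology Pool.Agent.StableGas Pool.Agent.SquareWell
open Pool.Agent.Kac (Tor cst)
open Pool.Agent.Mix (Qr mem_Qr lay mem_lay)

variable {d : ℕ} {E : Type} [MeasurableSpace E] (M : Nx d E)

/-- The deterministic properties of the dense contents `D` and of the dilute contents `W`: if all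
blocks near are dense then the free fraction is at most `η`; if the block is dilute and has a dense
neighbour then the free fraction is at most `1 - c'`; a dilute content has at most the fraction `δ`
of the maximal number of spheres. -/
structure Lab (D W : Set E) (η δ c' : ℝ) : Prop where
  mD : MeasurableSet D
  mW : MeasurableSet W
  disj : ∀ x ∈ D, x ∉ W
  e0_W : M.e0 ∈ W
  dense : ∀ ω : Zd d → E, (∀ v ∈ Qr d M.r, ω v ∈ D) → M.Φ ω ≤ η
  near : ∀ ω : Zd d → E, ω 0 ∈ W → (∃ v ∈ Qr d 1, ω v ∈ D) → M.Φ ω ≤ 1 - c'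
  small : ∀ x ∈ W, M.a x ≤ δ
  η0 : 0 ≤ η
  δ0 : 0 ≤ δ

section Sets

variable (D W : Set E) (A : Finset (Zd d)) (ω : Zd d → E)

open Classical in
/-- The dense blocks. -/
noncomputable def DD : Finset (Zd d) := A.filter fun i => ω i ∈ D

open Classical in
/-- The dilute blocks without dense neighbour. -/
noncomputable def VC : Finset (Zd d) :=
  A.filter fun i => ω i ∈ W ∧ ∀ j ∈ Nb i, j ∈ A → ω j ∉ D

/-- The range of the contours. -/
def rg : ℕ := 2 * (M.r + 2)

/-- The bad sites of a configuration. -/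
noncomputable def badN : Finset (Zd d) :=
  SquareWell.bad (rg M) A (fun i => i ∈ DD D A ω) fun i => i ∉ A ∨ i ∈ VC D W A ω

end Sets

variable {D W : Set E} {A : Finset (Zd d)} {ω : Zd d → E}

omit [MeasurableSpace E] in
theorem mem_DD {i : Zd d} : i ∈ DD D A ω ↔ i ∈ A ∧ ω i ∈ D := by
  classical
  unfold DD
  rw [mem_filter]

omit [MeasurableSpace E] in
theorem mem_VC {i : Zd d} : i ∈ VC D W A ω ↔ i ∈ A ∧ ω i ∈ W ∧ ∀ j ∈ Nb i, j ∈ A → ω j ∉ D := by
  classical
  unfold VC
  rw [mem_filter]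

/-- The class of the configurations with given contours `L`, dense region `Y`, dense blocks `DL` of
`L` and blocks `OL` of `L` which are neither dense nor dilute without dense neighbour; the small
contours fill at most `K` blocks. -/
def Class (D W : Set E) (A : Finset (Zd d)) (s : ℕ) (K : ℝ) (L Y DL OL : Finset (Zd d)) :
    Set (Zd d → E) :=
  {ω | M.cp id A ω ∧
    Cut (rg M) A (fun i => i ∈ DD D A ω) (fun i => i ∉ A ∨ i ∈ VC D W A ω) s L Y ∧
    L ∩ DD D A ω = DL ∧ (L ∩ A) \ (DD D A ω ∪ VC D W A ω) = OL ∧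
    ((∑ G ∈ ((badN M D W A ω).image (comp (badN M D W A ω))).filter (fun G => (fill G).card < s),
      (fill G).card : ℕ) : ℝ) ≤ K}

open Classical in
/-- The dilute region. -/
noncomputable def W2 (A L Y : Finset (Zd d)) : Finset (Zd d) := A \ (Y ∪ L)

open Classical in
/-- The dilute region with the outer layer. -/
noncomputable def X2 (ρ : ℕ) (A L Y : Finset (Zd d)) : Finset (Zd d) := W2 A L Y ∪ lay ρ A

theorem mem_W2 {A L Y : Finset (Zd d)} {i : Zd d} : i ∈ W2 A L Y ↔ i ∈ A ∧ i ∉ Y ∧ i ∉ L := by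
  classical
  unfold W2
  rw [Finset.mem_sdiff, mem_union, not_or]

theorem mem_X2 {ρ : ℕ} {A L Y : Finset (Zd d)} {i : Zd d} :
    i ∈ X2 ρ A L Y ↔ i ∈ W2 A L Y ∨ i ∈ lay ρ A := by
  classical
  unfold X2
  rw [mem_union]

end Pool.Agent.Ndl
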