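import Pool.Agent.Lib.MP_09cbbd_nd.Bas
import Pool.Agent.Lib.MP_09cbbd_mix.GlueP

/-!
# Boundaries of finite sets

ROW CRD. Compare MP_09cbbd_mix/GlueP.lean (card_Dr_le): if i in X and i + v notin X, v in Q_k, then on the way from i to i + v (monotone path in the box spanned
by them) there is a site of bd X at distance <= k from i and from i + v. Hence X \ innk k X and outk k X are contained in (bd X) + Q_k.
-/

set_option autoImplicit false

namespace Pool.Agent.Ndl

open MeasureTheory Finset Filter Topology Pool.Agent.StableGas Pool.Agent.SquareWell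
open Pool.Agent.Kac (Tor cst)
open Pool.Agent.Mix (Qr mem_Qr)

variable {d : ℕ}

theorem mem_innk {k : ℕ} {X : Finset (Zd d)} {i : Zd d} :
    i ∈ innk k X ↔ i ∈ X ∧ ∀ v ∈ Qr d k, i + v ∈ X := by
  classical
  unfold innk
  rw [mem_filter]

theorem mem_outk {k : ℕ} {X : Finset (Zd d)} {i : Zd d} :
    i ∈ outk k X ↔ i ∉ X ∧ ∃ v ∈ Qr d k, i + v ∈ X := by
  classical
  unfold outk
  rw [Finset.mem_sdiff, mem_biUnion]
  constructor
  · rintro ⟨⟨x, hx, hxi⟩, hi⟩
    obtain ⟨v, hv, rfl⟩ := mem_image.1 hxi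
    refine ⟨hi, -v, Mix.Bas.Qr_neg.2 hv, ?_⟩
    rw [add_neg_cancel_right]
    exact hx
  · rintro ⟨hi, v, hv, hx⟩
    refine ⟨⟨i + v, hx, mem_image.2 ⟨-v, Mix.Bas.Qr_neg.2 hv, ?_⟩⟩, hi⟩
    rw [add_neg_cancel_right]

theorem sdiff_innk_one (X : Finset (Zd d)) : X \ innk 1 X = bd X := by
  classical
  ext i
  rw [Finset.mem_sdiff, mem_bd, mem_innk]
  constructor
  · rintro ⟨hi, h⟩
    refine ⟨hi, fun hN => h ⟨hi, fun v hv => hN ?_⟩⟩
    rw [Mix.Bas.mem_Nb_iff, add_sub_cancel_left]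
    exact hv
  · rintro ⟨hi, h⟩
    refine ⟨hi, fun hN => h fun j hj => ?_⟩
    rw [Mix.Bas.mem_Nb_iff] at hj
    have := hN.2 _ hj
    rwa [add_sub_cancel] at this

namespace CRD

/-- Sets contained in a neighbourhood of the boundary. -/
theorem card_le_of_near {k : ℕ} {X S : Finset (Zd d)}
    (h : ∀ i ∈ S, ∃ z ∈ bd X, near k z i) : S.card ≤ (2 * k + 1) ^ d * (bd X).card := by
  classical
  have key : S ⊆ (bd X).biUnion fun z => (Qr d k).image fun v => z + v := by
    intro i hi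
    obtain ⟨z, hz, hzi⟩ := h i hi
    rw [mem_biUnion]
    refine ⟨z, hz, mem_image.2 ⟨i - z, ?_, by abel⟩⟩
    rw [mem_Qr]
    intro k
    exact hzi k
  refine (card_le_card key).trans (card_biUnion_le.trans ?_)
  calc ∑ z ∈ bd X, ((Qr d k).image fun v => z + v).card
      ≤ ∑ _z ∈ bd X, (2 * k + 1) ^ d :=
        sum_le_sum fun z _ => card_image_le.trans (Mix.Bas.card_Qr k).le
    _ = (2 * k + 1) ^ d * (bd X).card := by rw [sum_const, smul_eq_mul, mul_comm]

theorem near_add {k : ℕ} {i v : Zd d} (hv : v ∈ Qr d k) : near k (i + v) i := by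
  intro j
  have := mem_Qr.1 hv j
  rw [Pi.add_apply, abs_sub_comm, add_sub_cancel_left]
  exact this

/-- A boundary site on the way. -/
theorem exists_bd {k : ℕ} {X : Finset (Zd d)} {x y i : Zd d} (hx : x ∈ X) (hy : y ∉ X)
    (h1 : near k x i) (h2 : near k y i) : ∃ z ∈ bd X, near k z i := by
  obtain ⟨z, z', hz, -, hadj, hzX, hz'X⟩ := Topo.path x y (fun u => u ∈ X) hx hy
  exact ⟨z, mem_bd.2 ⟨hzX, fun h => hz'X (h hadj.mem_Nb)⟩, hz.near h1 h2⟩

end CRD

theorem card_outk_le (k : ℕ) (X : Finset (Zd d)) :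
    (outk k X).card ≤ (2 * k + 1) ^ d * (bd X).card := by
  refine CRD.card_le_of_near fun i hi => ?_
  obtain ⟨hiX, v, hv, hx⟩ := mem_outk.1 hi
  exact CRD.exists_bd hx hiX (CRD.near_add hv) (Topo.near_self k i)

theorem card_sdiff_innk_le (k : ℕ) (X : Finset (Zd d)) :
    (X \ innk k X).card ≤ (2 * k + 1) ^ d * (bd X).card := by
  refine CRD.card_le_of_near fun i hi => ?_
  obtain ⟨hiX, hn⟩ := Finset.mem_sdiff.1 hi
  rw [mem_innk] at hn
  push Not at hn
  obtain ⟨v, hv, hx⟩ := hn hiX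
  exact CRD.exists_bd hiX hx (Topo.near_self k i) (CRD.near_add hv)

end Pool.Agent.Ndl
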