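import Pool.Agent.Lib.MP_09cbbd_mix.Cvx

/-!
# Convex analysis: never two slopes

ROW CVA. Adapt no_both of MP_09cbbd_mix/Cvx.lean: the hypotheses hold only for μ <= M1, t0 <= t <= t1 and the bound of D is B instead of 1 / 2. Given a
counterexample (μ0, t', D0) with μ0 + 2 B <= M1, t' + 2 B <= t1, maximise φ = 2 D - (μ - μ0) - (t - t') on the compact set {μ0 <= μ <= M1, t' <= t <= t1, D0 <= D,
both inequalities, 2 D0 <= φ} (D <= B there by h1). At the maximiser (μ - μ0) + (t - t') <= 2 (D - D0) < 2 B, so μ < M1 and t < t1 and small moves are allowed.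
CX.cont, CX.slope can be used.
-/

set_option autoImplicit false

namespace Pool.Agent.Ndl

open Filter Topology Pool.Agent.Mix

theorem no_both (P : ℝ → ℝ → ℝ) (hP : ConvexOn ℝ Set.univ fun q : ℝ × ℝ => P q.1 q.2)
    {θ M1 t0 t1 B : ℝ} (hθ : 0 < θ) (hB0 : 0 ≤ B)
    (h1 : ∀ μ t D, μ ≤ M1 → t0 ≤ t → t ≤ t1 → 0 < D → θ * D ≤ P μ t - P (μ - D) t →
      θ * D ≤ P μ t - P μ (t - D) → D ≤ B)
    (h2 : ∀ μ t D, μ ≤ M1 → t0 ≤ t → t ≤ t1 → 0 < D → D ≤ B →
      ¬ (P μ t - P (μ - D) t = θ * D ∧ P μ t - P μ (t - D) = θ * D)) :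
    ∀ μ t D, μ + 2 * B ≤ M1 → t0 ≤ t → t + 2 * B ≤ t1 → 0 < D →
      ¬ (θ * D ≤ P μ t - P (μ - D) t ∧ θ * D ≤ P μ t - P μ (t - D)) := by
  rintro μ0 t' D0 hμM ht' htB hD0 ⟨hA, hB⟩
  have hc := CX.cont hP
  let F1 : ℝ × ℝ × ℝ → ℝ := fun q => P q.1 q.2.1 - P (q.1 - q.2.2) q.2.1 - θ * q.2.2
  let F2 : ℝ × ℝ × ℝ → ℝ := fun q => P q.1 q.2.1 - P q.1 (q.2.1 - q.2.2) - θ * q.2.2
  let φ : ℝ × ℝ × ℝ → ℝ := fun q => 2 * q.2.2 - (q.1 - μ0) - (q.2.1 - t')
  have hF1 : Continuous F1 := by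
    have e1 : Continuous fun q : ℝ × ℝ × ℝ => P q.1 q.2.1 :=
      hc.comp (continuous_fst.prodMk (continuous_fst.comp continuous_snd))
    have e2 : Continuous fun q : ℝ × ℝ × ℝ => P (q.1 - q.2.2) q.2.1 :=
      hc.comp ((continuous_fst.sub (continuous_snd.comp continuous_snd)).prodMk
        (continuous_fst.comp continuous_snd))
    exact (e1.sub e2).sub (continuous_const.mul (continuous_snd.comp continuous_snd))
  have hF2 : Continuous F2 := by
    have e1 : Continuous fun q : ℝ × ℝ × ℝ => P q.1 q.2.1 :=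
      hc.comp (continuous_fst.prodMk (continuous_fst.comp continuous_snd))
    have e2 : Continuous fun q : ℝ × ℝ × ℝ => P q.1 (q.2.1 - q.2.2) :=
      hc.comp (continuous_fst.prodMk
        ((continuous_fst.comp continuous_snd).sub (continuous_snd.comp continuous_snd)))
    exact (e1.sub e2).sub (continuous_const.mul (continuous_snd.comp continuous_snd))
  have hφ : Continuous φ := by
    show Continuous fun q : ℝ × ℝ × ℝ => 2 * q.2.2 - (q.1 - μ0) - (q.2.1 - t')
    fun_prop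
  let S : Set (ℝ × ℝ × ℝ) := {q | (μ0 ≤ q.1 ∧ q.1 ≤ M1) ∧ (t' ≤ q.2.1 ∧ q.2.1 ≤ t1) ∧ D0 ≤ q.2.2 ∧ 0 ≤ F1 q ∧ 0 ≤ F2 q ∧
    2 * D0 ≤ φ q}
  have hS1 : ∀ q ∈ S, q.2.2 ≤ B := by
    rintro q ⟨g1, g2, g3, g4, g5, _⟩
    refine h1 q.1 q.2.1 q.2.2 g1.2 (ht'.trans g2.1) g2.2 (hD0.trans_le g3) ?_ ?_
    · have : 0 ≤ P q.1 q.2.1 - P (q.1 - q.2.2) q.2.1 - θ * q.2.2 := g4
      linarith
    · have : 0 ≤ P q.1 q.2.1 - P q.1 (q.2.1 - q.2.2) - θ * q.2.2 := g5
      linarith
  have hSc : IsCompact S := by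
    refine IsCompact.of_isClosed_subset
      (isCompact_Icc (a := ((μ0, t', D0) : ℝ × ℝ × ℝ)) (b := (M1, t1, B))) ?_ ?_
    · refine ((isClosed_le continuous_const continuous_fst).inter
        (isClosed_le continuous_fst continuous_const)).inter
        (((isClosed_le continuous_const (continuous_fst.comp continuous_snd)).inter
        (isClosed_le (continuous_fst.comp continuous_snd) continuous_const)).inter
        ((isClosed_le continuous_const (continuous_snd.comp continuous_snd)).inter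
        ((isClosed_le continuous_const hF1).inter
        ((isClosed_le continuous_const hF2).inter (isClosed_le continuous_const hφ)))))
    · intro q hq
      have g0 := hS1 q hq
      obtain ⟨g1, g2, g3, _, _, g6⟩ := hq
      have g7 : 2 * D0 ≤ 2 * q.2.2 - (q.1 - μ0) - (q.2.1 - t') := g6
      exact ⟨⟨g1.1, g2.1, g3⟩, ⟨g1.2, g2.2, g0⟩⟩
  have hne : S.Nonempty := by
    refine ⟨(μ0, t', D0), ⟨le_refl _, by show μ0 ≤ M1; linarith⟩,
      ⟨le_refl _, by show t' ≤ t1; linarith⟩, le_refl _, ?_, ?_, ?_⟩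
    · show 0 ≤ P μ0 t' - P (μ0 - D0) t' - θ * D0
      linarith
    · show 0 ≤ P μ0 t' - P μ0 (t' - D0) - θ * D0
      linarith
    · show 2 * D0 ≤ 2 * D0 - (μ0 - μ0) - (t' - t')
      linarith
  obtain ⟨⟨μ, t, D⟩, hq, hmax⟩ := hSc.exists_isMaxOn hne hφ.continuousOn
  have hD12 : D ≤ B := hS1 _ hq
  obtain ⟨g1, g2, g3, g4, g5, g6⟩ := hq
  replace g1 : μ0 ≤ μ ∧ μ ≤ M1 := g1
  replace g2 : t' ≤ t ∧ t ≤ t1 := g2
  replace g3 : D0 ≤ D := g3
  replace g4 : 0 ≤ P μ t - P (μ - D) t - θ * D := g4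
  replace g5 : 0 ≤ P μ t - P μ (t - D) - θ * D := g5
  replace g6 : 2 * D0 ≤ 2 * D - (μ - μ0) - (t - t') := g6
  have hD : 0 < D := hD0.trans_le g3
  have hno := h2 μ t D g1.2 (ht'.trans g2.1) g2.2 hD hD12
  have hμlt : μ < M1 := by linarith [g2.1]
  have htlt : t < t1 := by linarith [g1.1]
  by_cases hs : 0 < P μ t - P (μ - D) t - θ * D
  · -- move up in `t`
    have hcont : Continuous fun δ : ℝ => F1 (μ, t + δ, D + δ) :=
      hF1.comp (continuous_const.prodMk ((continuous_const.add continuous_id).prodMk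
        (continuous_const.add continuous_id)))
    have h0 : 0 < F1 (μ, t + 0, D + 0) := by
      show 0 < P μ (t + 0) - P (μ - (D + 0)) (t + 0) - θ * (D + 0)
      simpa using hs
    have hev : ∀ᶠ δ in 𝓝[>] (0 : ℝ), 0 < F1 (μ, t + δ, D + δ) :=
      (hcont.continuousAt.eventually (lt_mem_nhds h0)).filter_mono nhdsWithin_le_nhds
    have hev2 : ∀ᶠ δ in 𝓝[>] (0 : ℝ), t + δ < t1 := by
      have hc2 : Continuous fun δ : ℝ => t + δ := continuous_const.add continuous_id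
      have h02 : (fun δ : ℝ => t + δ) 0 < t1 := by simpa using htlt
      exact (hc2.continuousAt.eventually (gt_mem_nhds h02)).filter_mono nhdsWithin_le_nhds
    obtain ⟨δ, ⟨hδ1, hδ2⟩, hδ0⟩ := ((hev.and hev2).and self_mem_nhdsWithin).exists
    replace hδ0 : 0 < δ := hδ0
    have hsl := CX.slope (CX.sec2 hP μ) hD hδ0 (show θ * D ≤ P μ t - P μ (t - D) by linarith)
    have hmem : (μ, t + δ, D + δ) ∈ S := by
      refine ⟨g1, ⟨?_, hδ2.le⟩, ?_, hδ1.le, ?_, ?_⟩
      · show t' ≤ t + δ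
        linarith [g2.1]
      · show D0 ≤ D + δ
        linarith
      · show 0 ≤ P μ (t + δ) - P μ (t + δ - (D + δ)) - θ * (D + δ)
        rw [show t + δ - (D + δ) = t - D by ring]
        linarith
      · show 2 * D0 ≤ 2 * (D + δ) - (μ - μ0) - (t + δ - t')
        linarith
    have h3 := hmax hmem
    have h4 : 2 * (D + δ) - (μ - μ0) - (t + δ - t') ≤ 2 * D - (μ - μ0) - (t - t') := h3
    linarith
  · by_cases hs2 : 0 < P μ t - P μ (t - D) - θ * D
    · have hcont : Continuous fun δ : ℝ => F2 (μ + δ, t, D + δ) :=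
        hF2.comp ((continuous_const.add continuous_id).prodMk (continuous_const.prodMk
          (continuous_const.add continuous_id)))
      have h0 : 0 < F2 (μ + 0, t, D + 0) := by
        show 0 < P (μ + 0) t - P (μ + 0) (t - (D + 0)) - θ * (D + 0)
        simpa using hs2
      have hev : ∀ᶠ δ in 𝓝[>] (0 : ℝ), 0 < F2 (μ + δ, t, D + δ) :=
        (hcont.continuousAt.eventually (lt_mem_nhds h0)).filter_mono nhdsWithin_le_nhds
      have hev2 : ∀ᶠ δ in 𝓝[>] (0 : ℝ), μ + δ < M1 := by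
        have hc2 : Continuous fun δ : ℝ => μ + δ := continuous_const.add continuous_id
        have h02 : (fun δ : ℝ => μ + δ) 0 < M1 := by simpa using hμlt
        exact (hc2.continuousAt.eventually (gt_mem_nhds h02)).filter_mono nhdsWithin_le_nhds
      obtain ⟨δ, ⟨hδ1, hδ2⟩, hδ0⟩ := ((hev.and hev2).and self_mem_nhdsWithin).exists
      replace hδ0 : 0 < δ := hδ0
      have hsl := CX.slope (CX.sec1 hP t) hD hδ0 (show θ * D ≤ P μ t - P (μ - D) t by linarith)
      have hmem : (μ + δ, t, D + δ) ∈ S := by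
        refine ⟨⟨?_, hδ2.le⟩, g2, ?_, ?_, hδ1.le, ?_⟩
        · show μ0 ≤ μ + δ
          linarith [g1.1]
        · show D0 ≤ D + δ
          linarith
        · show 0 ≤ P (μ + δ) t - P (μ + δ - (D + δ)) t - θ * (D + δ)
          rw [show μ + δ - (D + δ) = μ - D by ring]
          linarith
        · show 2 * D0 ≤ 2 * (D + δ) - (μ + δ - μ0) - (t - t')
          linarith
      have h3 := hmax hmem
      have h4 : 2 * (D + δ) - (μ + δ - μ0) - (t - t') ≤ 2 * D - (μ - μ0) - (t - t') := h3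
      linarith
    · exact hno ⟨by linarith, by linarith⟩

end Pool.Agent.Ndl
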