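import Mathlib

/-!
# Convex analysis: the kink

ROW CVB. g = P . z0 is convex and continuous. W = {m in [m1, m2] : for all D > 0, g m - g (m - D) <= θ D} is closed and contains m1; w = max W. hright: m2 is not
in W, so w < m2. For m in (w, m2]: some D has θ D < g m - g (m - D), hence (the quotients increase when D decreases) θ D <= g m - g (m - D) for all small D, and by
hno P m z0 - P m (z0 - D) < θ D for all small D > 0. Claim: for x, h > 0: (P m z0 - P (m - x) 0 - θ z0) / x <= (g (m + h) - g m) / h. Proof: with small e > 0,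
(m, z0 - e z0 / 2) is the midpoint of (m - e x, z0 - e z0) and (m + e x, z0): P (m - e x) (z0 - e z0) >= 2 P m (z0 - e z0 / 2) - P (m + e x) z0
>= 2 (P m z0 - θ e z0 / 2) - P (m + e x) z0, and P (m + e x) z0 <= P m z0 + (e x / h) (g (m + h) - g m) for e x <= h; convexity on the segment from (m, z0) to
(m - x, 0): P (m - e x) (z0 - e z0) <= (1 - e) P m z0 + e P (m - x) 0. Divide by e. Then let m decrease to w (P is continuous).
Compare kink_demix in MP_09cbbd_mx/CvxD.lean.
-/

set_option autoImplicit false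

namespace Pool.Agent.Ndl

open Filter Topology

private theorem cvb_conv (P : ℝ → ℝ → ℝ) (hP : ConvexOn ℝ Set.univ fun q : ℝ × ℝ => P q.1 q.2)
    {m z m' z' a b : ℝ} (ha : 0 ≤ a) (hb : 0 ≤ b) (hab : a + b = 1) :
    P (a * m + b * m') (a * z + b * z') ≤ a * P m z + b * P m' z' := by
  have h := hP.2 (Set.mem_univ ((m, z) : ℝ × ℝ)) (Set.mem_univ ((m', z') : ℝ × ℝ)) ha hb hab
  simpa using h

private theorem cvb_cont (P : ℝ → ℝ → ℝ) (hP : ConvexOn ℝ Set.univ fun q : ℝ × ℝ => P q.1 q.2)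
    (z : ℝ) : Continuous fun m => P m z := by
  have h : ConvexOn ℝ Set.univ fun m => P m z := by
    refine ⟨convex_univ, ?_⟩
    intro m _ m' _ a b ha hb hab
    have h1 := cvb_conv P hP (m := m) (m' := m') (z := z) (z' := z) ha hb hab
    have h2 : a * z + b * z = z := by rw [← add_mul, hab, one_mul]
    rw [h2] at h1
    simpa using h1
  rw [← continuousOn_univ]
  exact h.continuousOn isOpen_univ

theorem kink (P : ℝ → ℝ → ℝ) (hP : ConvexOn ℝ Set.univ fun q : ℝ × ℝ => P q.1 q.2)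
    {θ z0 m1 m2 : ℝ} (hθ : 0 < θ) (hz0 : 0 < z0) (h12 : m1 ≤ m2)
    (hno : ∀ m D, m1 ≤ m → m ≤ m2 → 0 < D →
      ¬ (θ * D ≤ P m z0 - P (m - D) z0 ∧ θ * D ≤ P m z0 - P m (z0 - D)))
    (hleft : ∀ D, 0 < D → P m1 z0 - P (m1 - D) z0 ≤ θ * D)
    (hright : ∃ D, 0 < D ∧ θ * D < P m2 z0 - P (m2 - D) z0) :
    ∃ w, m1 ≤ w ∧ w ≤ m2 ∧ (∀ h, 0 < h → P w z0 - P (w - h) z0 ≤ θ * h) ∧
      ∀ x h, 0 < x → 0 < h →
        (P w z0 - P (w - x) 0 - θ * z0) / x ≤ (P (w + h) z0 - P w z0) / h := by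
  have hc := fun z => cvb_cont P hP z
  obtain ⟨W, hW⟩ : ∃ W : Set ℝ, W = {m | (m1 ≤ m ∧ m ≤ m2) ∧ ∀ D, 0 < D → P m z0 - P (m - D) z0 ≤ θ * D} :=
    ⟨_, rfl⟩
  have hmem : ∀ m, m ∈ W ↔ (m1 ≤ m ∧ m ≤ m2) ∧ ∀ D, 0 < D → P m z0 - P (m - D) z0 ≤ θ * D := by
    intro m; rw [hW]; rfl
  have hclosed : IsClosed W := by
    have h1 : W = Set.Icc m1 m2 ∩ ⋂ D ∈ Set.Ioi (0 : ℝ), {m | P m z0 - P (m - D) z0 ≤ θ * D} := by
      ext m
      rw [hmem]
      simp only [Set.mem_inter_iff, Set.mem_Icc, Set.mem_iInter, Set.mem_Ioi]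
      rfl
    rw [h1]
    refine isClosed_Icc.inter (isClosed_biInter fun D _ => isClosed_le ?_ continuous_const)
    have h2 : Continuous fun m : ℝ => P (m - D) z0 := (hc z0).comp (continuous_id.sub continuous_const)
    exact (hc z0).sub h2
  have hne : W.Nonempty := ⟨m1, (hmem m1).2 ⟨⟨le_rfl, h12⟩, hleft⟩⟩
  have hbdd : BddAbove W := ⟨m2, fun m hm => ((hmem m).1 hm).1.2⟩
  obtain ⟨w, hw⟩ : ∃ w, w = sSup W := ⟨_, rfl⟩
  have hwW : w ∈ W := by rw [hw]; exact hclosed.csSup_mem hne hbdd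
  obtain ⟨⟨hw1, hw2⟩, hw3⟩ := (hmem w).1 hwW
  refine ⟨w, hw1, hw2, hw3, ?_⟩
  have hlt : w < m2 := by
    refine lt_of_le_of_ne hw2 ?_
    rintro rfl
    obtain ⟨D, hD, h⟩ := hright
    exact absurd (hw3 D hD) (not_le.2 h)
  intro x h hx hh
  have key : ∀ m, w < m → m ≤ m2 →
      (P m z0 - P (m - x) 0 - θ * z0) / x ≤ (P (m + h) z0 - P m z0) / h := by
    intro m hm1 hm2
    have hm1' : m1 ≤ m := by linarith
    have hnot : m ∉ W := by
      intro hmW
      have := le_csSup hbdd hmW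
      rw [← hw] at this
      linarith
    have hex : ∃ D, 0 < D ∧ θ * D < P m z0 - P (m - D) z0 := by
      by_contra hcon
      push Not at hcon
      exact hnot ((hmem m).2 ⟨⟨hm1', hm2⟩, hcon⟩)
    obtain ⟨D1, hD1, hD1'⟩ := hex
    have hsmall : ∀ D, 0 < D → D ≤ D1 → P m z0 - P m (z0 - D) < θ * D := by
      intro D hD hDD
      have hq : θ * D ≤ P m z0 - P (m - D) z0 := by
        have h1 := cvb_conv P hP (m := m) (m' := m - D1) (z := z0) (z' := z0) (a := 1 - D / D1)
          (b := D / D1) (by rw [sub_nonneg, div_le_one hD1]; exact hDD) (by positivity) (by ring)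
        have h2 : (1 - D / D1) * m + D / D1 * (m - D1) = m - D := by
          field_simp
          ring
        have h3 : (1 - D / D1) * z0 + D / D1 * z0 = z0 := by ring
        rw [h2, h3] at h1
        have h4 : θ * D ≤ D / D1 * (P m z0 - P (m - D1) z0) := by
          calc θ * D = D / D1 * (θ * D1) := by field_simp
            _ ≤ _ := mul_le_mul_of_nonneg_left hD1'.le (by positivity)
        linarith
      by_contra hcon
      push Not at hcon
      exact hno m D hm1' hm2 hD ⟨hq, hcon⟩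
    -- a small `e`
    obtain ⟨e, he0, he1, he2, he3⟩ : ∃ e : ℝ, 0 < e ∧ e ≤ 1 ∧ e * z0 / 2 ≤ D1 ∧ e * x ≤ h := by
      refine ⟨min 1 (min (2 * D1 / z0) (h / x)), ?_, min_le_left _ _, ?_, ?_⟩
      · exact lt_min one_pos (lt_min (by positivity) (by positivity))
      · have h1 : min 1 (min (2 * D1 / z0) (h / x)) ≤ 2 * D1 / z0 :=
          (min_le_right _ _).trans (min_le_left _ _)
        rw [le_div_iff₀ hz0] at h1
        linarith
      · have h1 : min 1 (min (2 * D1 / z0) (h / x)) ≤ h / x :=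
          (min_le_right _ _).trans (min_le_right _ _)
        rwa [le_div_iff₀ hx] at h1
    have h2 := hsmall (e * z0 / 2) (by positivity) he2
    have h1 := cvb_conv P hP (m := m - e * x) (m' := m + e * x) (z := z0 - e * z0) (z' := z0)
      (a := 1 / 2) (b := 1 / 2) (by norm_num) (by norm_num) (by norm_num)
    have e1 : (1 / 2 : ℝ) * (m - e * x) + 1 / 2 * (m + e * x) = m := by ring
    have e2 : (1 / 2 : ℝ) * (z0 - e * z0) + 1 / 2 * z0 = z0 - e * z0 / 2 := by ring
    rw [e1, e2] at h1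
    have h3 := cvb_conv P hP (m := m) (m' := m + h) (z := z0) (z' := z0) (a := 1 - e * x / h)
      (b := e * x / h) (by rw [sub_nonneg, div_le_one hh]; exact he3) (by positivity) (by ring)
    have e3 : (1 - e * x / h) * m + e * x / h * (m + h) = m + e * x := by
      field_simp
      ring
    have e4 : (1 - e * x / h) * z0 + e * x / h * z0 = z0 := by ring
    rw [e3, e4] at h3
    have h4 := cvb_conv P hP (m := m) (m' := m - x) (z := z0) (z' := 0) (a := 1 - e) (b := e)
      (by linarith) he0.le (by ring)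
    have e5 : (1 - e) * m + e * (m - x) = m - e * x := by ring
    have e6 : (1 - e) * z0 + e * 0 = z0 - e * z0 := by ring
    rw [e5, e6] at h4
    have h5 : e * (P m z0 - P (m - x) 0 - θ * z0) ≤ e * (x / h * (P (m + h) z0 - P m z0)) := by
      have e7 : e * (x / h * (P (m + h) z0 - P m z0)) = e * x / h * (P (m + h) z0 - P m z0) := by
        ring
      rw [e7]
      linarith
    have h6 := le_of_mul_le_mul_left h5 he0
    rw [div_le_iff₀ hx]
    calc P m z0 - P (m - x) 0 - θ * z0 ≤ x / h * (P (m + h) z0 - P m z0) := h6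
      _ = (P (m + h) z0 - P m z0) / h * x := by ring
  -- the limit
  have hcl : Continuous fun m => (P m z0 - P (m - x) 0 - θ * z0) / x := by
    have h2 : Continuous fun m : ℝ => P (m - x) 0 := (hc 0).comp (continuous_id.sub continuous_const)
    exact (((hc z0).sub h2).sub continuous_const).div_const x
  have hcr : Continuous fun m => (P (m + h) z0 - P m z0) / h := by
    have h2 : Continuous fun m : ℝ => P (m + h) z0 := (hc z0).comp (continuous_id.add continuous_const)
    exact (h2.sub (hc z0)).div_const h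
  have ht1 : Tendsto (fun m => (P m z0 - P (m - x) 0 - θ * z0) / x) (𝓝[>] w)
      (𝓝 ((P w z0 - P (w - x) 0 - θ * z0) / x)) := (hcl.tendsto w).mono_left nhdsWithin_le_nhds
  have ht2 : Tendsto (fun m => (P (m + h) z0 - P m z0) / h) (𝓝[>] w)
      (𝓝 ((P (w + h) z0 - P w z0) / h)) := (hcr.tendsto w).mono_left nhdsWithin_le_nhds
  refine le_of_tendsto_of_tendsto ht1 ht2 ?_
  filter_upwards [Ioc_mem_nhdsGT hlt] with m hm
  exact key m hm.1 hm.2

end Pool.Agent.Ndl
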