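import Pool.Agent.Lib.MP_09cbbd_mix.Bas

/-!
# Hard spheres with a decreasing many-body functional, as a gas on blocks: the abstract model
-/

set_option autoImplicit false

namespace Pool.Agent.Ndl

open MeasureTheory Finset Filter Topology Pool.Agent.StableGas Pool.Agent.SquareWell
open Pool.Agent.Kac (Tor cst)
open Pool.Agent.Mix (Qr mem_Qr)

/-- The data of the gas. `E` are the contents of a block (configurations of hard spheres), `π` is
the a priori measure, `e0` the empty content, `a x` is the number of the spheres of `x` divided by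
the maximal number, `ok v x y` says that the content `x` of a block `i` is compatible with the
content `y` of the block `i + v` (only neighbours interact), `Φ ω` is the free fraction of the
needles centred in the block `0` (it depends on the blocks in `Q_r` and is a decreasing function of
the configuration), `I` is a set of contents which are compatible with everything. -/
structure Nx (d : ℕ) (E : Type) [MeasurableSpace E] where
  π : Measure E
  e0 : E
  a : E → ℝ
  ok : Zd d → E → E → Prop
  Φ : (Zd d → E) → ℝ
  I : Set E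
  r : ℕ
  measurable_a : Measurable a
  measurable_Φ : Measurable Φ
  measurableSet_I : MeasurableSet I
  measurableSet_ok : ∀ v, MeasurableSet {p : E × E | ok v p.1 p.2}
  hr : 1 ≤ r
  a_nonneg : ∀ x, 0 ≤ a x
  a_le : ∀ x, a x ≤ 1
  a_e0 : a e0 = 0
  π_fin : π Set.univ ≠ ⊤
  π_e0 : π {e0} = 1
  e0_I : e0 ∈ I
  ok_e0 : ∀ v y, ok v e0 y
  ok_symm : ∀ v x y, ok v x y → ok (-v) y x
  ok_far : ∀ v x y, v ∉ Qr d 1 → ok v x y
  ok_I : ∀ v x y, v ≠ 0 → x ∈ I → ok v x y
  Φ_nonneg : ∀ ω, 0 ≤ Φ ω
  Φ_e0 : Φ (fun _ => e0) = 1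
  Φ_dep : ∀ ω ω', (∀ v ∈ Qr d r, ω v = ω' v) → Φ ω = Φ ω'
  Φ_anti : ∀ ω ω', (∀ v, ω' v = ω v ∨ ω' v = e0) → Φ ω ≤ Φ ω'

namespace Nx

variable {d : ℕ} {E : Type} [MeasurableSpace E] (M : Nx d E)

/-- Weight of a block. -/
noncomputable def st (m : ℝ) (x : E) : ENNReal := ex (m * M.a x)

section Gen

variable {Γ : Type} [AddCommGroup Γ] (φ : Zd d → Γ)

/-- The contents of the blocks of `A` are compatible, for an index group `Γ` with a map `φ` from
the lattice. -/
def cp (A : Finset Γ) (ω : Γ → E) : Prop :=
  ∀ v ∈ Qr d 1, v ≠ 0 → ∀ i ∈ A, i + φ v ∈ A → M.ok v (ω i) (ω (i + φ v))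

open Classical in
/-- The configuration in `A`, seen from `i`. -/
noncomputable def sh (A : Finset Γ) (ω : Γ → E) (i : Γ) : Zd d → E :=
  fun v => if i + φ v ∈ A then ω (i + φ v) else M.e0

/-- The free fraction of the needles centred in the block `i`, for the configuration in `A`. -/
noncomputable def Fr (A : Finset Γ) (ω : Γ → E) (i : Γ) : ℝ := M.Φ (M.sh φ A ω i)

open Classical in
/-- Weight of a configuration in `A` with the fields `m` and `τ`. -/
noncomputable def wG (m τ : Γ → ℝ) (A : Finset Γ) (ω : Γ → E) : ENNReal :=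
  (∏ i ∈ A, M.st (m i) (ω i)) * ex (∑ i ∈ A, τ i * M.Fr φ A ω i) * if M.cp φ A ω then 1 else 0

end Gen

/-- Integral over the contents of the blocks of `A` (the other blocks are empty). -/
noncomputable def int (A : Finset (Zd d)) (f : (Zd d → E) → ENNReal) : ENNReal :=
  lmarginal (fun _ : Zd d => M.π) A f fun _ => M.e0

/-- Weight of a configuration in `A`. -/
noncomputable def w (m z : ℝ) (A : Finset (Zd d)) (ω : Zd d → E) : ENNReal :=
  M.wG id (fun _ => m) (fun _ => z) A ω

/-- Grand-canonical partition function. -/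
noncomputable def xi (m z : ℝ) (A : Finset (Zd d)) : ENNReal := M.int A (M.w m z A)

/-- `p` is the pressure (at `z < 0` it is the value at `0`). -/
def IsP (p : ℝ → ℝ → ℝ) : Prop :=
  ∀ m z, Tendsto (fun L : ℕ => Real.log (M.xi m (max z 0) (bx d L)).toReal / (L : ℝ) ^ d) atTop
    (𝓝 (p m z))

/-- Free fraction of a block on its own. -/
noncomputable def own (x : E) : ℝ := M.Φ fun v => if v = 0 then x else M.e0

/-- Mass of the contents in `S`, without the needles. -/
noncomputable def lam (m : ℝ) (S : Set E) : ENNReal := ∫⁻ x in S, M.st m x ∂M.π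

/-- Mass of the contents in `S`, with the needles centred in the block. -/
noncomputable def tot (m z : ℝ) (S : Set E) : ENNReal :=
  ∫⁻ x in S, M.st m x * ex (z * M.own x) ∂M.π

/-- Partition function of the torus. -/
noncomputable def ZT (L : ℕ) (m z : ℝ) : ENNReal :=
  ∫⁻ ω : Tor d L → E, M.wG (cst L) (fun _ => m) (fun _ => z) univ ω ∂(Measure.pi fun _ => M.π)

/-- Partition function of the complement of `A` in the torus, with fields. -/
noncomputable def ZC (L : ℕ) (A : Finset (Tor d L)) (m τ : Tor d L → ℝ) : ENNReal :=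
  lmarginal (fun _ : Tor d L => M.π) (univ \ A) (M.wG (cst L) m τ (univ \ A)) fun _ => M.e0

end Nx

open Classical in
/-- The sites `i` with `i + Q_k` contained in `X`. -/
noncomputable def innk {d : ℕ} (k : ℕ) (X : Finset (Zd d)) : Finset (Zd d) :=
  X.filter fun i => ∀ v ∈ Qr d k, i + v ∈ X

open Classical in
/-- The sites outside `X` at distance at most `k` from `X`. -/
noncomputable def outk {d : ℕ} (k : ℕ) (X : Finset (Zd d)) : Finset (Zd d) :=
  (X.biUnion fun i => (Qr d k).image fun v => i + v) \ X

end Pool.Agent.Ndl
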