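import Pool.Agent.Lib.MP_09cbbd_nd.PrA

/-!
# Properties of the pressure

ROW PRC. Adapt MP_09cbbd_mix/Pres.lean (uniq, nonneg, xi_convex, convex, mono) and Comp.lean. convex: log xi m z (bx n) is jointly convex in (m, z) (Hoelder
with Bas.wG_eq as in xi_convex) and nondecreasing in z for 0 <= z, hence (m, z) -> log xi m (max z 0) is convex; pass to the limit. ge: Bas.log_xi_ge and
card (bx d n) = n^d (Mix.P1b.card_bx). le_tot: w m z A w <= prod_(i in A) st m (w i) * ex (z * own (w i)) for 0 <= z (Bas.Fr_le_own with phi = id), then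
Bas.lm_prod: xi <= (tot m z univ)^|A|. lip: a <= 1, so w (m + s) z A w <= ex (s |A|) * w m z A w.
-/

set_option autoImplicit false

namespace Pool.Agent.Ndl

open MeasureTheory Finset Filter Topology Pool.Agent.StableGas Pool.Agent.SquareWell
open Pool.Agent.Kac (Tor cst)
open Pool.Agent.Mix (Qr mem_Qr)

variable {d : ℕ} {E : Type} [MeasurableSpace E] (M : Nx d E)

namespace PRC

theorem xi_convex (M : Nx d E) (A : Finset (Zd d)) (x y : ℝ × ℝ) {a b : ℝ} (ha : 0 ≤ a)
    (hb : 0 ≤ b) (hab : a + b = 1) :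
    Real.log (M.xi (a * x.1 + b * y.1) (a * x.2 + b * y.2) A).toReal ≤
      a * Real.log (M.xi x.1 x.2 A).toReal + b * Real.log (M.xi y.1 y.2 A).toReal := by
  have hm := fun m z => (Bas.measurable_w M m z A).comp
    (measurable_updateFinset (x := fun _ => M.e0) (s := A))
  have key : M.xi (a * x.1 + b * y.1) (a * x.2 + b * y.2) A ≤
      M.xi x.1 x.2 A ^ a * M.xi y.1 y.2 A ^ b := by
    have h := ENNReal.lintegral_mul_norm_pow_le (μ := Measure.pi fun _ : A => M.π)
      (hm x.1 x.2).aemeasurable (hm y.1 y.2).aemeasurable ha hb hab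
    refine le_trans (le_of_eq ?_) h
    unfold Nx.xi Nx.int lmarginal
    refine lintegral_congr fun z => ?_
    show M.wG id (fun _ => a * x.1 + b * y.1) (fun _ => a * x.2 + b * y.2) A _ =
      M.wG id (fun _ => x.1) (fun _ => x.2) A _ ^ a * M.wG id (fun _ => y.1) (fun _ => y.2) A _ ^ b
    rw [Bas.wG_eq M id (a * x.1 + b * y.1), Bas.wG_eq M id x.1, Bas.wG_eq M id y.1,
      ENNReal.mul_rpow_of_nonneg _ _ ha, ENNReal.mul_rpow_of_nonneg _ _ hb, ex_rpow, ex_rpow]
    have h3 : ∀ c : ENNReal, c ^ a * c ^ b = c := fun c => by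
      rw [← ENNReal.rpow_add_of_nonneg _ _ ha hb, hab, ENNReal.rpow_one]
    rw [mul_mul_mul_comm, h3, ← ex_add]
    congr 2
    ring
  have hx0 := Bas.xi_pos M x.1 x.2 A
  have hy0 := Bas.xi_pos M y.1 y.2 A
  have h1 : (M.xi (a * x.1 + b * y.1) (a * x.2 + b * y.2) A).toReal ≤
      (M.xi x.1 x.2 A).toReal ^ a * (M.xi y.1 y.2 A).toReal ^ b := by
    have h2 := ENNReal.toReal_mono (ENNReal.mul_ne_top
      (ENNReal.rpow_ne_top_of_nonneg ha (Bas.xi_ne_top M x.1 x.2 A))
      (ENNReal.rpow_ne_top_of_nonneg hb (Bas.xi_ne_top M y.1 y.2 A))) key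
    rwa [ENNReal.toReal_mul, ← ENNReal.toReal_rpow, ← ENNReal.toReal_rpow] at h2
  calc Real.log (M.xi (a * x.1 + b * y.1) (a * x.2 + b * y.2) A).toReal
      ≤ Real.log ((M.xi x.1 x.2 A).toReal ^ a * (M.xi y.1 y.2 A).toReal ^ b) :=
        Real.log_le_log (Bas.xi_pos M _ _ A) h1
    _ = _ := by
      rw [Real.log_mul (Real.rpow_pos_of_pos hx0 a).ne' (Real.rpow_pos_of_pos hy0 b).ne',
        Real.log_rpow hx0, Real.log_rpow hy0]

theorem log_xi_mono (M : Nx d E) (A : Finset (Zd d)) {m m' z z' : ℝ} (h : m ≤ m') (h' : z ≤ z') :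
    Real.log (M.xi m z A).toReal ≤ Real.log (M.xi m' z' A).toReal := by
  refine Real.log_le_log (Bas.xi_pos M m z A) (ENNReal.toReal_mono (Bas.xi_ne_top M m' z' A) ?_)
  exact Bas.int_mono M _ fun ω => Bas.wG_mono M id (fun _ _ => h) (fun _ _ => h') ω

theorem xi_le_tot (M : Nx d E) (A : Finset (Zd d)) (m : ℝ) {z : ℝ} (hz : 0 ≤ z) :
    M.xi m z A ≤ M.tot m z Set.univ ^ A.card := by
  classical
  have hf : Measurable fun e : E => M.st m e * ex (z * M.own e) :=
    (Bas.measurable_st M m).mul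
      (Pool.Agent.Mix.Bas.measurable_ex ((Bas.measurable_own M).const_mul z))
  have h1 : M.int A (fun ω => ∏ i ∈ A, M.st m (ω i) * ex (z * M.own (ω i))) =
      M.tot m z Set.univ ^ A.card := by
    unfold Nx.int
    have h2 := Bas.lm_prod M A (f := fun _ e => M.st m e * ex (z * M.own e)) (fun _ => hf)
      (fun _ => M.e0)
    refine h2.trans ?_
    rw [prod_const]
    unfold Nx.tot
    rw [Measure.restrict_univ]
  rw [← h1]
  refine Bas.int_mono M A fun ω => ?_
  unfold Nx.w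
  by_cases h : M.cp id A ω
  · rw [Bas.wG_of_cp M id h, prod_mul_distrib, prod_ex]
    refine mul_le_mul' le_rfl (ex_le_ex.2 (sum_le_sum fun i hi => ?_))
    exact mul_le_mul_of_nonneg_left (Bas.Fr_le_own M id rfl hi) hz
  · rw [Bas.wG_of_not M id h]
    exact zero_le

theorem xi_lip (M : Nx d E) (A : Finset (Zd d)) {s : ℝ} (hs : 0 ≤ s) (m z : ℝ) :
    M.xi (m + s) z A ≤ ex (s * A.card) * M.xi m z A := by
  unfold Nx.xi
  rw [← Bas.int_const_mul M A (Bas.measurable_w M m z A)]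
  refine Bas.int_mono M A fun ω => ?_
  unfold Nx.w
  by_cases h : M.cp id A ω
  · rw [Bas.wG_of_cp M id h, Bas.wG_of_cp M id h, ← mul_assoc]
    refine mul_le_mul' ?_ le_rfl
    have h1 : ex (s * A.card) = ∏ _i ∈ A, ex s := by
      rw [prod_ex, sum_const, nsmul_eq_mul, mul_comm]
    rw [h1, ← prod_mul_distrib]
    refine Pool.Agent.Mix.Bas.prod_mono fun i _ => ?_
    unfold Nx.st
    rw [← ex_add, ex_le_ex]
    have h2 := mul_le_mul_of_nonneg_left (M.a_le (ω i)) hs
    linarith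
  · rw [Bas.wG_of_not M id h]
    exact zero_le

end PRC

variable {M} {p : ℝ → ℝ → ℝ}

theorem Nx.IsP.uniq {p' : ℝ → ℝ → ℝ} (hp : M.IsP p) (hp' : M.IsP p') : p = p' := by
  funext m z
  exact tendsto_nhds_unique (hp m z) (hp' m z)

theorem Nx.IsP.neg (hp : M.IsP p) (m : ℝ) {z : ℝ} (hz : z ≤ 0) : p m z = p m 0 := by
  have h1 := hp m z
  have h2 := hp m 0
  rw [max_eq_right hz] at h1
  rw [max_self] at h2
  exact tendsto_nhds_unique h1 h2

theorem Nx.IsP.ge (hp : M.IsP p) (m z : ℝ) : max z 0 ≤ p m z := by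
  refine ge_of_tendsto (hp m z) ?_
  filter_upwards [eventually_ge_atTop 1] with L hL
  have hL' : (0 : ℝ) < L := by exact_mod_cast hL
  rw [le_div_iff₀ (by positivity)]
  have h1 := Bas.log_xi_ge M m (max z 0) (bx d L)
  rw [Pool.Agent.Mix.P1b.card_bx] at h1
  push_cast at h1
  exact h1

theorem Nx.IsP.convex (hp : M.IsP p) : ConvexOn ℝ Set.univ fun q : ℝ × ℝ => p q.1 q.2 := by
  refine ⟨convex_univ, fun x _ y _ a b ha hb hab => ?_⟩
  have h1 := ((hp x.1 x.2).const_mul a).add ((hp y.1 y.2).const_mul b)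
  refine le_of_tendsto_of_tendsto (hp (a • x + b • y).1 (a • x + b • y).2) h1 ?_
  filter_upwards [eventually_ge_atTop 1] with L hL
  have hL' : (0 : ℝ) < L := by exact_mod_cast hL
  have h2 := PRC.xi_convex M (bx d L) (x.1, max x.2 0) (y.1, max y.2 0) ha hb hab
  have h3 : (0 : ℝ) < (L : ℝ) ^ d := by positivity
  rw [← mul_div_assoc, ← mul_div_assoc, ← add_div]
  refine div_le_div_of_nonneg_right (le_trans ?_ h2) h3.le
  refine PRC.log_xi_mono M _ (le_of_eq ?_) ?_
  · simp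
  · have h4 : (a • x + b • y).2 = a * x.2 + b * y.2 := by simp
    rw [h4]
    refine max_le ?_ (by positivity)
    exact add_le_add (mul_le_mul_of_nonneg_left (le_max_left _ _) ha)
      (mul_le_mul_of_nonneg_left (le_max_left _ _) hb)

theorem Nx.IsP.mono (hp : M.IsP p) {m m' z z' : ℝ} (h : m ≤ m') (h' : z ≤ z') :
    p m z ≤ p m' z' := by
  refine le_of_tendsto_of_tendsto' (hp m z) (hp m' z') fun L => ?_
  exact div_le_div_of_nonneg_right (PRC.log_xi_mono M _ h (max_le_max h' le_rfl)) (by positivity)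

theorem Nx.IsP.le_tot (hp : M.IsP p) {z : ℝ} (hz : 0 ≤ z) (m : ℝ) :
    p m z ≤ Real.log (M.tot m z Set.univ).toReal := by
  refine le_of_tendsto (hp m z) ?_
  filter_upwards [eventually_ge_atTop 1] with L hL
  have hL' : (0 : ℝ) < L := by exact_mod_cast hL
  rw [div_le_iff₀ (by positivity), max_eq_left hz]
  have h1 := ENNReal.toReal_mono (ENNReal.pow_ne_top (Bas.tot_ne_top M m z Set.univ))
    (PRC.xi_le_tot M (bx d L) m hz)
  rw [ENNReal.toReal_pow] at h1
  have h2 := Real.log_le_log (Bas.xi_pos M m z (bx d L)) h1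
  rw [Real.log_pow, Pool.Agent.Mix.P1b.card_bx] at h2
  push_cast at h2
  linarith

theorem Nx.IsP.lip (hp : M.IsP p) {s : ℝ} (hs : 0 ≤ s) (m z : ℝ) : p (m + s) z ≤ p m z + s := by
  refine le_of_tendsto_of_tendsto (hp (m + s) z) ((hp m z).add_const s) ?_
  filter_upwards [eventually_ge_atTop 1] with L hL
  have hL' : (0 : ℝ) < L := by exact_mod_cast hL
  have hL2 : (0 : ℝ) < (L : ℝ) ^ d := by positivity
  rw [div_add' _ _ _ hL2.ne', div_le_div_iff_of_pos_right hL2]
  have h1 := ENNReal.toReal_mono (ENNReal.mul_ne_top (ex_ne_top _)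
    (Bas.xi_ne_top M m (max z 0) (bx d L))) (PRC.xi_lip M (bx d L) hs m (max z 0))
  rw [ENNReal.toReal_mul, ex_toReal] at h1
  have h2 := Real.log_le_log (Bas.xi_pos M (m + s) (max z 0) (bx d L)) h1
  rw [Real.log_mul (Real.exp_pos _).ne' (Bas.xi_pos M m (max z 0) (bx d L)).ne', Real.log_exp,
    Pool.Agent.Mix.P1b.card_bx] at h2
  push_cast at h2
  linarith

end Pool.Agent.Ndl
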