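import Pool.Agent.Lib.MP_09cbbd_nd.PrA
import Pool.Agent.Lib.MP_09cbbd_nd.PrC
import Pool.Agent.Lib.MP_09cbbd_mix.TorP

/-!
# The pressure of the torus
-/

set_option autoImplicit false

namespace Pool.Agent.Ndl

open MeasureTheory Finset Filter Topology Pool.Agent.StableGas Pool.Agent.SquareWell
open Pool.Agent.Kac (Tor cst)
open Pool.Agent.Mix (Qr mem_Qr)

variable {d : ℕ} {E : Type} [MeasurableSpace E] (M : Nx d E)

theorem ZT_ne_top (L : ℕ) (m z : ℝ) : M.ZT L m z ≠ ⊤ := by
  have := Bas.fin_π M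
  refine ne_top_of_le_ne_top ?_ (lintegral_mono fun ω =>
    Bas.wG_bound M (cst L) (fun _ => m) (fun _ => z) univ ω)
  rw [lintegral_const]
  exact ENNReal.mul_ne_top (ex_ne_top _) (measure_ne_top _ _)

namespace TPb

/-- Lower bound by the empty configuration. -/
theorem ex_le_ZT (L : ℕ) (m z : ℝ) :
    ex (z * (univ : Finset (Tor d L)).card) ≤ M.ZT L m z := by
  have := Bas.fin_π M
  have h := mul_meas_ge_le_lintegral (μ := Measure.pi fun _ : Tor d L => M.π)
    (Bas.measurable_wG M (cst L) (fun _ => m) (fun _ => z) univ)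
    (ex (z * (univ : Finset (Tor d L)).card))
  refine le_trans ?_ h
  have h1 : ({fun _ => M.e0} : Set (Tor d L → E)) ⊆
      {ω | ex (z * (univ : Finset (Tor d L)).card) ≤
        M.wG (cst L) (fun _ => m) (fun _ => z) univ ω} := by
    intro ω hω
    rw [Set.mem_singleton_iff] at hω
    subst hω
    show _ ≤ M.wG (cst L) (fun _ => m) (fun _ => z) univ _
    rw [Bas.wG_of_cp M (cst L) (fun v _ _ i _ _ => M.ok_e0 v _)]
    have h2 : ∀ i : Tor d L, M.Fr (cst L) univ (fun _ => M.e0) i = 1 := by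
      intro i
      unfold Nx.Fr Nx.sh
      simp only [ite_self]
      exact M.Φ_e0
    simp only [h2, Bas.st_e0, prod_const_one, one_mul, mul_one, sum_const, nsmul_eq_mul]
    rw [ex_le_ex, mul_comm]
  calc ex (z * (univ : Finset (Tor d L)).card)
      = ex (z * (univ : Finset (Tor d L)).card) *
          (Measure.pi fun _ : Tor d L => M.π) {fun _ => M.e0} := by
        rw [← Set.univ_pi_singleton, Measure.pi_pi]
        simp [M.π_e0]
    _ ≤ _ := mul_le_mul' le_rfl (measure_mono h1)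

end TPb

theorem one_le_ZT (L : ℕ) (m : ℝ) {z : ℝ} (hz : 0 ≤ z) : 1 ≤ M.ZT L m z :=
  (one_le_ex.2 (mul_nonneg hz (Nat.cast_nonneg _))).trans (TPb.ex_le_ZT M L m z)

theorem ZT_mono (L : ℕ) {m m' z z' : ℝ} (h : m ≤ m') (h' : z ≤ z') : M.ZT L m z ≤ M.ZT L m' z' :=
  lintegral_mono fun ω => Bas.wG_mono M (cst L) (fun _ _ => h) (fun _ _ => h') ω

theorem ZT_pos (L : ℕ) (m z : ℝ) : 0 < (M.ZT L m z).toReal :=
  ENNReal.toReal_pos (lt_of_lt_of_le (ex_pos _) (TPb.ex_le_ZT M L m z)).ne' (ZT_ne_top M L m z)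

theorem ZT_convex (L : ℕ) :
    ConvexOn ℝ Set.univ fun q : ℝ × ℝ => Real.log (M.ZT L q.1 q.2).toReal := by
  refine ⟨convex_univ, fun x _ y _ a b ha hb hab => ?_⟩
  simp only [smul_eq_mul, Prod.fst_add, Prod.snd_add, Prod.smul_fst, Prod.smul_snd]
  have hm := fun q : ℝ × ℝ => Bas.measurable_wG M (cst L) (fun _ => q.1) (fun _ => q.2)
    (univ : Finset (Tor d L))
  have key : M.ZT L (a * x.1 + b * y.1) (a * x.2 + b * y.2) ≤
      M.ZT L x.1 x.2 ^ a * M.ZT L y.1 y.2 ^ b := by
    have h := ENNReal.lintegral_mul_norm_pow_le (μ := Measure.pi fun _ : Tor d L => M.π)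
      (hm x).aemeasurable (hm y).aemeasurable ha hb hab
    refine le_trans (le_of_eq ?_) h
    unfold Nx.ZT
    refine lintegral_congr fun ω => ?_
    rw [Bas.wG_eq M _ (a * x.1 + b * y.1), Bas.wG_eq M _ x.1, Bas.wG_eq M _ y.1,
      ENNReal.mul_rpow_of_nonneg _ _ ha,
      ENNReal.mul_rpow_of_nonneg _ _ hb, ex_rpow, ex_rpow]
    have h3 : M.wG (cst L) (fun _ => 0) (fun _ => 0) univ ω ^ a *
        M.wG (cst L) (fun _ => 0) (fun _ => 0) univ ω ^ b =
        M.wG (cst L) (fun _ => 0) (fun _ => 0) univ ω := by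
      rw [← ENNReal.rpow_add_of_nonneg _ _ ha hb, hab, ENNReal.rpow_one]
    rw [mul_mul_mul_comm, h3, ← ex_add]
    congr 2
    ring
  have hx0 := ZT_pos M L x.1 x.2
  have hy0 := ZT_pos M L y.1 y.2
  have h0 := ZT_pos M L (a * x.1 + b * y.1) (a * x.2 + b * y.2)
  have h1 : (M.ZT L (a * x.1 + b * y.1) (a * x.2 + b * y.2)).toReal ≤
      (M.ZT L x.1 x.2).toReal ^ a * (M.ZT L y.1 y.2).toReal ^ b := by
    have h2 := ENNReal.toReal_mono (ENNReal.mul_ne_top
      (ENNReal.rpow_ne_top_of_nonneg ha (ZT_ne_top M L x.1 x.2))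
      (ENNReal.rpow_ne_top_of_nonneg hb (ZT_ne_top M L y.1 y.2))) key
    rwa [ENNReal.toReal_mul, ← ENNReal.toReal_rpow, ← ENNReal.toReal_rpow] at h2
  calc Real.log (M.ZT L (a * x.1 + b * y.1) (a * x.2 + b * y.2)).toReal
      ≤ Real.log ((M.ZT L x.1 x.2).toReal ^ a * (M.ZT L y.1 y.2).toReal ^ b) :=
        Real.log_le_log h0 h1
    _ = _ := by
      rw [Real.log_mul (Real.rpow_pos_of_pos hx0 a).ne' (Real.rpow_pos_of_pos hy0 b).ne',
        Real.log_rpow hx0, Real.log_rpow hy0]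

namespace TPb

open Pool.Agent.Kac.TorP (cst_add cst_inj mem_bx vl vl_inj vl_cst cst_vl vl_mem)
open Bas

/-- Transfer of marginals between the torus and the lattice. -/
theorem transfer {L : ℕ} {B : Finset (Zd d)} {e : Tor d L → Zd d} (he : Function.Injective e)
    (hB : ∀ i ∈ B, e (cst L i) = i) {F : (Zd d → E) → ENNReal} (hF : Measurable F)
    (hdep : ∀ x y : Zd d → E, (∀ i ∈ B, x i = y i) → F x = F y) :
    lmarginal (fun _ : Tor d L => M.π) (B.image (cst L)) (fun ω => F fun i => ω (cst L i))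
      (fun _ => M.e0) = M.int B F := by
  have := Bas.fin_π M
  have h1 : (B.image (cst L)).image e = B := by
    ext i
    constructor
    · intro hi
      obtain ⟨t, ht, rfl⟩ := mem_image.1 hi
      obtain ⟨j, hj, rfl⟩ := mem_image.1 ht
      rw [hB j hj]
      exact hj
    · intro hi
      exact mem_image.2 ⟨cst L i, mem_image_of_mem _ hi, hB i hi⟩
  have hm : Measurable fun ω : Tor d L → E => F fun i => ω (cst L i) :=
    hF.comp (measurable_pi_iff.2 fun i => measurable_pi_apply _)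
  have h := lmarginal_image (μ := fun _ : Zd d => M.π) (X := fun _ => E) he (B.image (cst L))
    hm (fun _ => M.e0)
  refine h.symm.trans ?_
  rw [h1]
  unfold Nx.int
  congr 1
  funext ω
  refine hdep _ _ fun i hi => ?_
  show ω (e (cst L i)) = ω i
  rw [hB i hi]

theorem ZT_le_xi (L : ℕ) (m : ℝ) {z : ℝ} (hz : 0 ≤ z) :
    M.ZT L m z ≤ M.xi m z (bx d (2 * L + 1)) := by
  classical
  have := fin_π M
  set B := bx d (2 * L + 1) with hB
  have hB1 : ∀ i ∈ B, ∀ k, 0 ≤ i k ∧ i k < 2 * L + 1 := fun i hi k => by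
    have := mem_bx.1 hi k
    push_cast at this
    exact this
  have hB2 : ∀ i ∈ B, vl (cst L i) = i := fun i hi => vl_cst (hB1 i hi)
  have hinj : ∀ i ∈ B, ∀ j ∈ B, cst L i = cst L j → i = j := fun i hi j hj h => by
    rw [← hB2 i hi, ← hB2 j hj, h]
  have hA : (univ : Finset (Tor d L)) = B.image (cst L) := by
    ext t
    simp only [mem_univ, true_iff]
    exact mem_image.2 ⟨vl t, vl_mem t, cst_vl t⟩
  have hmw : Measurable (M.w m z B) := measurable_w M m z B
  unfold Nx.ZT Nx.xi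
  rw [lintegral_eq_lmarginal_univ (fun _ => M.e0),
    ← transfer M vl_inj hB2 hmw (w_dep M m z B), ← hA]
  refine lm_mono M univ (fun ω => ?_) _
  by_cases h : M.cp (cst L) univ ω
  · have h' : M.cp id B fun i => ω (cst L i) := fun v hv h0 i hi hi2 => by
      have := h v hv h0 (cst L i) (mem_univ _) (mem_univ _)
      rw [← cst_add] at this
      exact this
    unfold Nx.w
    rw [wG_of_cp M _ h, wG_of_cp M _ h']
    have e1 : ∏ i : Tor d L, M.st m (ω i) = ∏ i ∈ B, M.st m (ω (cst L i)) := by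
      rw [hA, prod_image hinj]
    have e2 : ∑ i : Tor d L, z * M.Fr (cst L) univ ω i =
        ∑ i ∈ B, z * M.Fr (cst L) univ ω (cst L i) := by
      conv_lhs => rw [hA]
      rw [sum_image hinj, ← hA]
    rw [e1, e2]
    refine mul_le_mul' le_rfl (ex_le_ex.2 (sum_le_sum fun i _ =>
      mul_le_mul_of_nonneg_left ?_ hz))
    refine M.Φ_anti _ _ fun v => ?_
    unfold Nx.sh
    by_cases h1 : i + id v ∈ B
    · left
      rw [if_pos h1, if_pos (mem_univ _), ← cst_add]
      rfl
    · right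
      rw [if_neg h1]
  · rw [wG_of_not M _ h]
    exact zero_le

theorem xi_le_ZT (L : ℕ) (hL : M.r ≤ 2 * L + 1) (m : ℝ) {z : ℝ} (hz : 0 ≤ z) :
    M.xi m z (bx d (2 * L + 1 - M.r)) ≤ M.ZT L m z := by
  classical
  have := fin_π M
  set B := bx d (2 * L + 1 - M.r) with hB
  set A := B.image (cst L) with hA
  have hB1 : ∀ i ∈ B, ∀ k, 0 ≤ i k ∧ i k + M.r < 2 * L + 1 := fun i hi k => by
    have := mem_bx.1 hi k
    omega
  have hB2 : ∀ i ∈ B, vl (cst L i) = i := fun i hi => vl_cst fun k => by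
    have := hB1 i hi k
    omega
  have hinj : ∀ i ∈ B, ∀ j ∈ B, cst L i = cst L j → i = j := fun i hi j hj h => by
    rw [← hB2 i hi, ← hB2 j hj, h]
  have hm := measurable_wG M (cst L) (fun _ => m) (fun _ => z) (univ : Finset (Tor d L))
  have e1 : M.ZT L m z = lmarginal (fun _ : Tor d L => M.π) A
      (lmarginal (fun _ : Tor d L => M.π) (univ \ A)
        (M.wG (cst L) (fun _ => m) (fun _ => z) univ)) (fun _ => M.e0) := by
    unfold Nx.ZT
    rw [lintegral_eq_lmarginal_univ (fun _ => M.e0), ← lmarginal_union _ _ hm disjoint_sdiff,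
      union_sdiff_of_subset (subset_univ A)]
  rw [e1]
  unfold Nx.xi
  rw [← transfer M vl_inj hB2 (measurable_w M m z B) (w_dep M m z B)]
  refine lm_mono M A (fun ω => ?_) _
  refine le_trans ?_ (le_lm M (univ \ A) hm ω)
  set ω' : Tor d L → E := fun t => if t ∈ univ \ A then M.e0 else ω t with hω'
  have hω1 : ∀ i ∈ B, ω' (cst L i) = ω (cst L i) := fun i hi => by
    have : cst L i ∈ A := mem_image_of_mem _ hi
    simp [hω', this]
  have hω2 : ∀ t, t ∉ A → ω' t = M.e0 := fun t ht => by simp [hω', ht]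
  -- a site of the box and a site of the image at distance at most `r` are close in the lattice
  have hnear : ∀ i ∈ B, ∀ v ∈ Qr d M.r, cst L i + cst L v ∈ A → i + v ∈ B := by
    intro i hi v hv h2
    obtain ⟨j, hj, hj2⟩ := mem_image.1 h2
    rw [mem_Qr] at hv
    rw [← cst_add] at hj2
    have h3 : i + v = j := (cst_inj hj2.symm fun k => by
      have h4 := hB1 i hi k
      have h5 := hB1 j hj k
      have h6 := abs_le.1 (hv k)
      simp only [Pi.add_apply]
      rw [abs_le]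
      constructor <;> omega)
    exact h3 ▸ hj
  have hr1 : ∀ v ∈ Qr d 1, v ∈ Qr d M.r := fun v hv => by
    rw [mem_Qr] at hv ⊢
    intro k
    have h1 := hv k
    have h2 := M.hr
    push_cast at h1
    exact h1.trans (by exact_mod_cast h2)
  by_cases h : M.cp id B fun i => ω (cst L i)
  · have h' : M.cp (cst L) univ ω' := fun v hv h0 s _ _ => by
      by_cases h1 : s ∈ A
      · by_cases h2 : s + cst L v ∈ A
        · obtain ⟨i, hi, rfl⟩ := mem_image.1 h1
          have h7 : i + v ∈ B := hnear i hi v (hr1 v hv) h2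
          have h8 := h v hv h0 i hi h7
          rw [← cst_add, hω1 i hi, hω1 _ h7]
          exact h8
        · rw [hω2 _ h2]
          exact ok_e0_right M v _
      · rw [hω2 s h1]
        exact M.ok_e0 v _
    unfold Nx.w
    rw [wG_of_cp M _ h, wG_of_cp M _ h']
    refine mul_le_mul' ?_ (ex_le_ex.2 ?_)
    · rw [← prod_subset (subset_univ A), hA, prod_image hinj]
      · exact le_of_eq (prod_congr rfl fun i hi => by rw [hω1 i hi])
      · intro s _ hs
        rw [hω2 s hs]
        exact st_e0 M m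
    · have e3 : ∑ i ∈ B, z * M.Fr id B (fun i => ω (cst L i)) i =
          ∑ s ∈ A, z * M.Fr (cst L) univ ω' s := by
        rw [hA, sum_image hinj]
        refine sum_congr rfl fun i hi => ?_
        congr 1
        refine M.Φ_dep _ _ fun v hv => ?_
        unfold Nx.sh
        rw [if_pos (mem_univ _)]
        by_cases h1 : i + id v ∈ B
        · rw [if_pos h1, ← cst_add]
          exact (hω1 _ h1).symm
        · rw [if_neg h1]
          refine (hω2 _ fun h2 => h1 (hnear i hi v hv h2)).symm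
      rw [e3]
      exact sum_le_sum_of_subset_of_nonneg (subset_univ A) fun i _ _ =>
        mul_nonneg hz (Fr_nonneg M _ _ _ i)
  · unfold Nx.w
    rw [wG_of_not M _ h]
    exact zero_le

end TPb

variable {M} {p : ℝ → ℝ → ℝ}

theorem Nx.IsP.torus (hd : 1 ≤ d) (hp : M.IsP p) (m : ℝ) {z : ℝ} (hz : 0 ≤ z) :
    Tendsto (fun L : ℕ => Real.log (M.ZT L m z).toReal / (2 * L + 1 : ℝ) ^ d) atTop
      (𝓝 (p m z)) := by
  have hpz := hp m z
  rw [max_eq_left hz] at hpz
  have hT : Tendsto (fun L : ℕ => (2 * L + 1 : ℝ)) atTop atTop := by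
    refine tendsto_atTop_mono (fun L => ?_) (tendsto_natCast_atTop_atTop (R := ℝ))
    have : (0 : ℝ) ≤ L := Nat.cast_nonneg L
    show (L : ℝ) ≤ 2 * L + 1
    linarith
  have hc : ∀ c : ℝ, Tendsto (fun L : ℕ => (1 - c / (2 * L + 1 : ℝ)) ^ d) atTop (𝓝 1) := fun c => by
    have h1 := (tendsto_const_nhds (x := (1 : ℝ))).sub ((tendsto_const_nhds (x := c)).div_atTop hT)
    have h2 := h1.pow d
    simpa using h2
  have h2L : Tendsto (fun L : ℕ => 2 * L + 1 - M.r) atTop atTop := by
    refine tendsto_atTop.2 fun b => ?_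
    filter_upwards [eventually_ge_atTop (b + M.r)] with L hL
    omega
  have h2L1 : Tendsto (fun L : ℕ => 2 * L + 1) atTop atTop :=
    tendsto_atTop_mono (fun L => show L ≤ 2 * L + 1 by omega) tendsto_id
  have hlow : Tendsto (fun L : ℕ => Real.log (M.xi m z (bx d (2 * L + 1 - M.r))).toReal /
      ((2 * L + 1 - M.r : ℕ) : ℝ) ^ d * (1 - M.r / (2 * L + 1 : ℝ)) ^ d) atTop (𝓝 (p m z)) := by
    have h1 := (hpz.comp h2L).mul (hc M.r)
    rw [mul_one] at h1
    exact h1
  have hup : Tendsto (fun L : ℕ => Real.log (M.xi m z (bx d (2 * L + 1))).toReal /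
      ((2 * L + 1 : ℕ) : ℝ) ^ d) atTop (𝓝 (p m z)) := hpz.comp h2L1
  have hxi0 : ∀ n : ℕ, 0 < (M.xi m z (bx d n)).toReal := fun n => Bas.xi_pos M m z _
  have hZ0 : ∀ L : ℕ, 0 < (M.ZT L m z).toReal := fun L => ZT_pos M L m z
  refine tendsto_of_tendsto_of_tendsto_of_le_of_le' hlow hup ?_ ?_
  · filter_upwards [eventually_ge_atTop M.r] with L hL
    have h1 : Real.log (M.xi m z (bx d (2 * L + 1 - M.r))).toReal ≤
        Real.log (M.ZT L m z).toReal :=
      Real.log_le_log (hxi0 _) (ENNReal.toReal_mono (ZT_ne_top M L m z)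
        (TPb.xi_le_ZT M L (by omega) m hz))
    have hr1 : M.r < 2 * L + 1 := by omega
    have e0 : ((2 * L + 1 - M.r : ℕ) : ℝ) = 2 * L + 1 - M.r := by
      rw [Nat.cast_sub hr1.le]
      push_cast
      ring
    have hpos : (0 : ℝ) < 2 * L + 1 - M.r := by
      have : (M.r : ℝ) < 2 * L + 1 := by exact_mod_cast hr1
      linarith
    have hpos2 : (0 : ℝ) < 2 * L + 1 := by positivity
    have e1 : (1 - M.r / (2 * L + 1 : ℝ)) = (2 * L + 1 - M.r) / (2 * L + 1) := by
      field_simp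
    rw [e1, div_pow, e0]
    have h3 : (0 : ℝ) < (2 * L + 1 - M.r : ℝ) ^ d := by positivity
    have h4 : (0 : ℝ) < (2 * L + 1 : ℝ) ^ d := by positivity
    rw [div_mul_div_comm, mul_comm ((2 * L + 1 - M.r : ℝ) ^ d) ((2 * L + 1 : ℝ) ^ d),
      mul_div_mul_right _ _ h3.ne']
    exact div_le_div_of_nonneg_right h1 h4.le
  · filter_upwards with L
    have h4 : (0 : ℝ) < (2 * L + 1 : ℝ) ^ d := by positivity
    have h1 : Real.log (M.ZT L m z).toReal ≤ Real.log (M.xi m z (bx d (2 * L + 1))).toReal :=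
      Real.log_le_log (hZ0 L) (ENNReal.toReal_mono (Bas.xi_ne_top M m z _)
        (TPb.ZT_le_xi M L m hz))
    have e2 : (((2 * L + 1 : ℕ) : ℝ)) = 2 * L + 1 := by push_cast; ring
    rw [e2]
    exact div_le_div_of_nonneg_right h1 h4.le

end Pool.Agent.Ndl
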