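import Pool.Agent.Lib.MP_09cbbd_nd.Crd
import Pool.Agent.Lib.MP_09cbbd_nd.TorP
import Pool.Agent.Lib.MP_09cbbd_mix.GlueA

/-!
# Gluing: pointwise part for dense regions

ROW GLA. (1) int_rim: w for X with the needles counted only in S = innk (r + 1) X. For i in S, i + Q_r is contained in innk 1 X, so with w' = (w emptied on
 bd X = X \ innk 1 X) : wG id .. X w <= (prod_(bd X) st m (w i)) * wG id .. (innk 1 X) w (cp hereditary; Fr id X w i = Fr id (innk 1 X) w i for i in S;
 τ = 0 elsewhere); then Bas.int_mul and Bas.lm_prod.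
(2) glueA_torus: for w on the torus with w = w1 on (innk 1 X).image cst, contents in I on (bd X).image cst, w2 outside X.image cst: compatible (ok_I,
 ok_I_right; sites of innk 1 X and outside X are not neighbours) and the sum of z Fr over the torus is >= the sum over innk (r + 1) X of z Fr (innk 1 X) plus the
 sum over the sites outside X and outside outk r X of z Fr (univ \ A): both by Bas.Fr_dep / Bas.Fr_anti since their Q_r neighbourhoods only see innk 1 X
 resp. the complement of X. Integrate (lmarginal_union twice, Bas.lm_mul, Bas.lm_prod for the middle factor). Adapt GlueA.le_ZC, GlueP.glue_point and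
 glueA_torus of MP_09cbbd_mix; hX guarantees that cst is injective near X.
-/

set_option autoImplicit false

namespace Pool.Agent.Ndl

open MeasureTheory Finset Filter Topology Pool.Agent.StableGas Pool.Agent.SquareWell
open Pool.Agent.Kac (Tor cst)
open Pool.Agent.Mix (Qr mem_Qr)

variable {d : ℕ} {E : Type} [MeasurableSpace E] (M : Nx d E)

namespace GLA

theorem add_mem_innk_one {k : ℕ} {X : Finset (Zd d)} {i v : Zd d} (hi : i ∈ innk (k + 1) X)
    (hv : v ∈ Qr d k) : i + v ∈ innk 1 X := by
  rw [mem_innk] at hi ⊢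
  refine ⟨hi.2 v (Mix.Bas.Qr_mono (Nat.le_succ k) hv), fun q hq => ?_⟩
  rw [add_assoc]
  exact hi.2 _ (Mix.Bas.add_mem_Qr hv hq)

theorem innk_succ_sub {k : ℕ} {X : Finset (Zd d)} {i : Zd d} (hi : i ∈ innk (k + 1) X) :
    i ∈ innk 1 X := by
  have := add_mem_innk_one hi (Mix.Bas.zero_mem_Qr k)
  rwa [add_zero] at this

theorem union_eq (X : Finset (Zd d)) : innk 1 X ∪ bd X = X := by
  rw [← sdiff_innk_one]
  exact union_sdiff_of_subset fun i hi => (mem_innk.1 hi).1

theorem disj (X : Finset (Zd d)) : Disjoint (innk 1 X) (bd X) := by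
  rw [← sdiff_innk_one]
  exact disjoint_sdiff

/-- The needles of the deep sites only see the interior. -/
theorem Fr_eq {X : Finset (Zd d)} {ω : Zd d → E} {i : Zd d} (hi : i ∈ innk (M.r + 1) X) :
    M.Fr id X ω i = M.Fr id (innk 1 X) ω i := by
  unfold Nx.Fr
  refine M.Φ_dep _ _ fun v hv => ?_
  have h1 : i + v ∈ innk 1 X := add_mem_innk_one hi hv
  have h2 : i + v ∈ X := (mem_innk.1 h1).1
  unfold Nx.sh
  simp only [id]
  rw [if_pos h2, if_pos h1]

end GLA

theorem int_rim (X : Finset (Zd d)) (m z : ℝ) :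
    M.int X (M.wG id (fun _ => m) (fun i => if i ∈ innk (M.r + 1) X then z else 0) X) ≤
      M.lam m Set.univ ^ (bd X).card * M.int (innk 1 X)
        (M.wG id (fun _ => m) (fun i => if i ∈ innk (M.r + 1) X then z else 0) (innk 1 X)) := by
  classical
  have key : ∀ ω : Zd d → E,
      M.wG id (fun _ => m) (fun i => if i ∈ innk (M.r + 1) X then z else 0) X ω ≤
      M.wG id (fun _ => m) (fun i => if i ∈ innk (M.r + 1) X then z else 0) (innk 1 X) ω *
        ∏ i ∈ bd X, M.st m (ω i) := by
    intro ω
    by_cases hc : M.cp id X ω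
    · have hc' : M.cp id (innk 1 X) ω := Bas.cp_mono M id (fun i hi => (mem_innk.1 hi).1) hc
      rw [Bas.wG_of_cp M id hc, Bas.wG_of_cp M id hc']
      have e1 : ∏ i ∈ X, M.st m (ω i) = (∏ i ∈ innk 1 X, M.st m (ω i)) *
          ∏ i ∈ bd X, M.st m (ω i) := by
        rw [← prod_union (GLA.disj X), GLA.union_eq]
      have e2 : ∑ i ∈ X, (if i ∈ innk (M.r + 1) X then z else 0) * M.Fr id X ω i =
          ∑ i ∈ innk 1 X, (if i ∈ innk (M.r + 1) X then z else 0) *
            M.Fr id (innk 1 X) ω i := by
        have e3 : ∑ i ∈ X, (if i ∈ innk (M.r + 1) X then z else 0) * M.Fr id X ω i =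
            ∑ i ∈ innk 1 X ∪ bd X, (if i ∈ innk (M.r + 1) X then z else 0) *
              M.Fr id X ω i := by rw [GLA.union_eq]
        rw [e3, sum_union (GLA.disj X)]
        have e4 : ∑ i ∈ bd X, (if i ∈ innk (M.r + 1) X then z else 0) * M.Fr id X ω i = 0 := by
          refine sum_eq_zero fun i hi => ?_
          have : i ∉ innk (M.r + 1) X := fun h =>
            disjoint_left.1 (GLA.disj X) (GLA.innk_succ_sub h) hi
          rw [if_neg this, zero_mul]
        rw [e4, add_zero]
        refine sum_congr rfl fun i _ => ?_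
        by_cases h : i ∈ innk (M.r + 1) X
        · rw [GLA.Fr_eq M h]
        · rw [if_neg h, zero_mul, zero_mul]
      rw [e1, e2]
      refine le_of_eq ?_
      ring
    · rw [Bas.wG_of_not M id hc]
      exact zero_le
  have hm : Measurable fun ω : Zd d → E => ∏ i ∈ bd X, M.st m (ω i) :=
    Finset.measurable_prod _ fun i _ => (Bas.measurable_st M m).comp (measurable_pi_apply i)
  have e1 := Bas.int_mul M (GLA.disj X) (Bas.measurable_wG M id (fun _ => m)
    (fun i => if i ∈ innk (M.r + 1) X then z else 0) (innk 1 X)) hm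
    (fun x y h => Bas.wG_dep M id _ _ _ h)
    (fun x y h => prod_congr rfl fun i hi => by rw [h i hi])
  have e2 : M.int (bd X) (fun ω => ∏ i ∈ bd X, M.st m (ω i)) =
      M.lam m Set.univ ^ (bd X).card := by
    refine (Bas.lm_prod M (bd X) (fun _ => Bas.measurable_st M m) _).trans ?_
    rw [prod_const]
    unfold Nx.lam
    rw [Measure.restrict_univ]
  refine (Bas.int_mono M X key).trans (le_of_eq ?_)
  calc _ = M.int (innk 1 X ∪ bd X) (fun ω =>
        M.wG id (fun _ => m) (fun i => if i ∈ innk (M.r + 1) X then z else 0) (innk 1 X) ω *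
        ∏ i ∈ bd X, M.st m (ω i)) := by rw [GLA.union_eq]
    _ = _ := by rw [e1, e2, mul_comm]

namespace GLA

/-- Transfer of marginals between the torus and the lattice. -/
theorem transfer {L : ℕ} {B : Finset (Zd d)} {e : Tor d L → Zd d} (he : Function.Injective e)
    (hB : ∀ i ∈ B, e (cst L i) = i) {F : (Zd d → E) → ENNReal} (hF : Measurable F)
    (hdep : ∀ x y : Zd d → E, (∀ i ∈ B, x i = y i) → F x = F y) :
    lmarginal (fun _ : Tor d L => M.π) (B.image (cst L)) (fun ω => F fun i => ω (cst L i))
      (fun _ => M.e0) = M.int B F := by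
  have := Bas.fin_π M
  have h1 : (B.image (cst L)).image e = B := by
    ext i
    constructor
    · intro hi
      obtain ⟨t, ht, rfl⟩ := mem_image.1 hi
      obtain ⟨j, hj, rfl⟩ := mem_image.1 ht
      rw [hB j hj]
      exact hj
    · intro hi
      exact mem_image.2 ⟨cst L i, mem_image_of_mem _ hi, hB i hi⟩
  have hm : Measurable fun ω : Tor d L → E => F fun i => ω (cst L i) :=
    hF.comp (measurable_pi_iff.2 fun i => measurable_pi_apply _)
  have h := lmarginal_image (μ := fun _ : Zd d => M.π) (X := fun _ => E) he (B.image (cst L))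
    hm (fun _ => M.e0)
  refine h.symm.trans ?_
  rw [h1]
  unfold Nx.int
  congr 1
  funext ω
  refine hdep _ _ fun i hi => ?_
  show ω (e (cst L i)) = ω i
  rw [hB i hi]

theorem cst_sub_add (L : ℕ) (u v : Zd d) : cst L (u - v) + cst L v = cst L u := by
  rw [← Pool.Agent.Kac.TorP.cst_add, sub_add_cancel]

variable {M}

/-- Compatibility on the torus. -/
theorem cpU {L : ℕ} {X : Finset (Zd d)} {ω : Tor d L → E} (h1 : M.cp id (innk 1 X) fun i => ω (cst L i))
    (hI : ∀ j ∈ (bd X).image (cst L), ω j ∈ M.I)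
    (h2 : M.cp (cst L) (univ \ X.image (cst L)) ω) : M.cp (cst L) univ ω := by
  intro v hv h0 s _ _
  by_cases hs : s ∈ (bd X).image (cst L)
  · exact M.ok_I v _ _ h0 (hI s hs)
  by_cases ht : s + cst L v ∈ (bd X).image (cst L)
  · exact Bas.ok_I_right M v _ _ h0 (hI _ ht)
  by_cases hs1 : s ∈ (innk 1 X).image (cst L)
  · obtain ⟨i, hi, rfl⟩ := mem_image.1 hs1
    have hiX : i + v ∈ X := (mem_innk.1 hi).2 v hv
    have hiv : i + v ∈ innk 1 X := by
      by_contra hc
      apply ht
      rw [← Pool.Agent.Kac.TorP.cst_add]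
      refine mem_image_of_mem _ ?_
      rw [← sdiff_innk_one]
      exact Finset.mem_sdiff.2 ⟨hiX, hc⟩
    have h3 := h1 v hv h0 i hi hiv
    simp only [id] at h3
    rw [Pool.Agent.Kac.TorP.cst_add] at h3
    exact h3
  by_cases ht1 : s + cst L v ∈ (innk 1 X).image (cst L)
  · exfalso
    obtain ⟨j, hj, hij⟩ := mem_image.1 ht1
    have hjX : j - v ∈ X := by
      have := (mem_innk.1 hj).2 (-v) (Mix.Bas.Qr_neg.2 hv)
      rwa [← sub_eq_add_neg] at this
    have es : cst L (j - v) = s := by
      have := cst_sub_add L j v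
      rw [hij] at this
      exact add_right_cancel this
    rw [← union_eq X, mem_union] at hjX
    rcases hjX with h | h
    · exact hs1 (es ▸ mem_image_of_mem _ h)
    · exact hs (es ▸ mem_image_of_mem _ h)
  · have notin : ∀ t : Tor d L, t ∉ (bd X).image (cst L) → t ∉ (innk 1 X).image (cst L) →
        t ∈ univ \ X.image (cst L) := by
      intro t ht1 ht2
      rw [Finset.mem_sdiff]
      refine ⟨mem_univ _, fun h => ?_⟩
      obtain ⟨i, hi, rfl⟩ := mem_image.1 h
      rw [← union_eq X, mem_union] at hi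
      rcases hi with h | h
      · exact ht2 (mem_image_of_mem _ h)
      · exact ht1 (mem_image_of_mem _ h)
    exact h2 v hv h0 s (notin s hs hs1) (notin _ ht ht1)

theorem inj {L r : ℕ} {X : Finset (Zd d)} (hX : ∀ i ∈ X, ∀ k, |i k| + 2 * (r + 1) ≤ L)
    {i j : Zd d} (hi : i ∈ X) (hj : j ∈ X) (h : cst L i = cst L j) : i = j := by
  refine Pool.Agent.Kac.TorP.cst_inj h fun k => ?_
  have g1 := hX i hi k
  have g2 := hX j hj k
  have g4 : |i k - j k| ≤ |i k| + |j k| := abs_sub _ _
  have g5 : (0 : ℤ) ≤ r := Int.natCast_nonneg _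
  linarith

/-- The pointwise inequality. -/
theorem glue_point {L : ℕ} {X : Finset (Zd d)} (hX : ∀ i ∈ X, ∀ k, |i k| + 2 * (M.r + 1) ≤ L)
    (m : ℝ) {z : ℝ} (hz : 0 ≤ z) (ω : Tor d L → E) :
    M.wG id (fun _ => m) (fun i => if i ∈ innk (M.r + 1) X then z else 0) (innk 1 X)
        (fun i => ω (cst L i)) *
      (∏ j ∈ (bd X).image (cst L), M.I.indicator (M.st m) (ω j)) *
      M.wG (cst L) (fun _ => m) (fun j => if j ∈ (outk M.r X).image (cst L) then 0 else z)
        (univ \ X.image (cst L)) ω ≤
      M.wG (cst L) (fun _ => m) (fun _ => z) univ ω := by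
  classical
  by_cases h1 : M.cp id (innk 1 X) fun i => ω (cst L i)
  swap
  · rw [Bas.wG_of_not M id h1, zero_mul, zero_mul]
    exact zero_le
  by_cases hI : ∀ j ∈ (bd X).image (cst L), ω j ∈ M.I
  swap
  · push Not at hI
    obtain ⟨j, hj, hjI⟩ := hI
    rw [prod_eq_zero hj (Set.indicator_of_notMem hjI _), mul_zero, zero_mul]
    exact zero_le
  by_cases h2 : M.cp (cst L) (univ \ X.image (cst L)) ω
  swap
  · rw [Bas.wG_of_not M _ h2, mul_zero]
    exact zero_le
  rw [Bas.wG_of_cp M id h1, Bas.wG_of_cp M _ h2, Bas.wG_of_cp M _ (cpU h1 hI h2)]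
  have e0 : ∏ j ∈ (bd X).image (cst L), M.I.indicator (M.st m) (ω j) =
      ∏ j ∈ (bd X).image (cst L), M.st m (ω j) :=
    prod_congr rfl fun j hj => Set.indicator_of_mem (hI j hj) _
  have hsubI : innk 1 X ⊆ X := fun i hi => (mem_innk.1 hi).1
  have hsubB : bd X ⊆ X := fun i hi => (mem_bd.1 hi).1
  have e1 : ∏ i ∈ innk 1 X, M.st m (ω (cst L i)) =
      ∏ s ∈ (innk 1 X).image (cst L), M.st m (ω s) := by
    rw [prod_image]
    intro i hi j hj hij
    exact inj hX (hsubI hi) (hsubI hj) hij
  have hd1 : Disjoint ((innk 1 X).image (cst L)) ((bd X).image (cst L)) := by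
    rw [disjoint_left]
    intro s hs hs'
    obtain ⟨i, hi, rfl⟩ := mem_image.1 hs
    obtain ⟨j, hj, hij⟩ := mem_image.1 hs'
    have := inj hX (hsubB hj) (hsubI hi) hij
    rw [this] at hj
    exact disjoint_left.1 (disj X) hi hj
  have hu : (innk 1 X).image (cst L) ∪ (bd X).image (cst L) = X.image (cst L) := by
    rw [← image_union, union_eq]
  have e2 : ∏ s : Tor d L, M.st m (ω s) =
      (∏ s ∈ (innk 1 X).image (cst L), M.st m (ω s)) *
      (∏ s ∈ (bd X).image (cst L), M.st m (ω s)) *
      ∏ s ∈ univ \ X.image (cst L), M.st m (ω s) := by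
    rw [← prod_union hd1, hu]
    exact ((mul_comm _ _).trans (prod_sdiff (subset_univ _))).symm
  -- the needles
  have e3 : ∑ i ∈ innk 1 X, (if i ∈ innk (M.r + 1) X then z else 0) *
        M.Fr id (innk 1 X) (fun i => ω (cst L i)) i +
      ∑ j ∈ univ \ X.image (cst L), (if j ∈ (outk M.r X).image (cst L) then 0 else z) *
        M.Fr (cst L) (univ \ X.image (cst L)) ω j ≤
      ∑ j : Tor d L, z * M.Fr (cst L) univ ω j := by
    have g1 : ∑ i ∈ innk 1 X, (if i ∈ innk (M.r + 1) X then z else 0) *
        M.Fr id (innk 1 X) (fun i => ω (cst L i)) i ≤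
        ∑ s ∈ X.image (cst L), z * M.Fr (cst L) univ ω s := by
      calc ∑ i ∈ innk 1 X, (if i ∈ innk (M.r + 1) X then z else 0) *
            M.Fr id (innk 1 X) (fun i => ω (cst L i)) i
          ≤ ∑ i ∈ innk 1 X, z * M.Fr (cst L) univ ω (cst L i) := by
            refine sum_le_sum fun i _ => ?_
            by_cases h : i ∈ innk (M.r + 1) X
            · rw [if_pos h]
              refine le_of_eq ?_
              congr 1
              unfold Nx.Fr
              refine M.Φ_dep _ _ fun v hv => ?_
              unfold Nx.sh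
              simp only [id]
              rw [if_pos (add_mem_innk_one h hv), if_pos (mem_univ _),
                Pool.Agent.Kac.TorP.cst_add]
            · rw [if_neg h, zero_mul]
              exact mul_nonneg hz (Bas.Fr_nonneg M _ _ _ _)
        _ = ∑ s ∈ (innk 1 X).image (cst L), z * M.Fr (cst L) univ ω s := by
            rw [sum_image]
            intro i hi j hj hij
            exact inj hX (hsubI hi) (hsubI hj) hij
        _ ≤ _ := sum_le_sum_of_subset_of_nonneg (image_subset_image hsubI)
            fun s _ _ => mul_nonneg hz (Bas.Fr_nonneg M _ _ _ _)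
    have g2 : ∑ j ∈ univ \ X.image (cst L),
        (if j ∈ (outk M.r X).image (cst L) then 0 else z) *
          M.Fr (cst L) (univ \ X.image (cst L)) ω j ≤
        ∑ j ∈ univ \ X.image (cst L), z * M.Fr (cst L) univ ω j := by
      refine sum_le_sum fun j hj => ?_
      by_cases h : j ∈ (outk M.r X).image (cst L)
      · rw [if_pos h, zero_mul]
        exact mul_nonneg hz (Bas.Fr_nonneg M _ _ _ _)
      · rw [if_neg h]
        refine le_of_eq ?_
        congr 1
        unfold Nx.Fr
        refine M.Φ_dep _ _ fun v hv => ?_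
        have hjv : j + cst L v ∈ univ \ X.image (cst L) := by
          rw [Finset.mem_sdiff]
          refine ⟨mem_univ _, fun hc => ?_⟩
          obtain ⟨x, hx, hxj⟩ := mem_image.1 hc
          have es : cst L (x - v) = j := by
            have := cst_sub_add L x v
            rw [hxj] at this
            exact add_right_cancel this
          apply h
          rw [← es]
          refine mem_image_of_mem _ (mem_outk.2 ⟨fun hxv => ?_, v, hv, ?_⟩)
          · exact (Finset.mem_sdiff.1 hj).2 (es ▸ mem_image_of_mem _ hxv)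
          · rwa [sub_add_cancel]
        unfold Nx.sh
        rw [if_pos hjv, if_pos (mem_univ _)]
    have g3 : ∑ j : Tor d L, z * M.Fr (cst L) univ ω j =
        ∑ j ∈ univ \ X.image (cst L), z * M.Fr (cst L) univ ω j +
          ∑ s ∈ X.image (cst L), z * M.Fr (cst L) univ ω s :=
      (sum_sdiff (subset_univ _)).symm
    rw [g3]
    linarith
  rw [e0, e1, e2]
  calc _ = (∏ s ∈ (innk 1 X).image (cst L), M.st m (ω s)) *
        (∏ s ∈ (bd X).image (cst L), M.st m (ω s)) *
        (∏ s ∈ univ \ X.image (cst L), M.st m (ω s)) *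
        ex (∑ i ∈ innk 1 X, (if i ∈ innk (M.r + 1) X then z else 0) *
          M.Fr id (innk 1 X) (fun i => ω (cst L i)) i +
          ∑ j ∈ univ \ X.image (cst L), (if j ∈ (outk M.r X).image (cst L) then 0 else z) *
          M.Fr (cst L) (univ \ X.image (cst L)) ω j) := by
        rw [ex_add]
        ring
    _ ≤ _ := mul_le_mul' le_rfl (ex_le_ex.2 e3)

end GLA

theorem glueA_torus (L : ℕ) (X : Finset (Zd d)) (hX : ∀ i ∈ X, ∀ k, |i k| + 2 * (M.r + 1) ≤ L)
    (m : ℝ) {z : ℝ} (hz : 0 ≤ z) :
    M.int (innk 1 X)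
        (M.wG id (fun _ => m) (fun i => if i ∈ innk (M.r + 1) X then z else 0) (innk 1 X)) *
      M.lam m M.I ^ (bd X).card *
      M.ZC L (X.image (cst L)) (fun _ => m)
        (fun j => if j ∈ (outk M.r X).image (cst L) then 0 else z) ≤ M.ZT L m z := by
  classical
  have := Bas.fin_π M
  have hsubI : innk 1 X ⊆ X := fun i hi => (mem_innk.1 hi).1
  have hsubB : bd X ⊆ X := fun i hi => (mem_bd.1 hi).1
  have hXL : ∀ i ∈ X, ∀ k, |i k| ≤ L := fun i hi k => by
    have := hX i hi k
    omega
  have hd1 : Disjoint ((innk 1 X).image (cst L)) ((bd X).image (cst L)) := by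
    rw [disjoint_left]
    intro s hs hs'
    obtain ⟨i, hi, rfl⟩ := mem_image.1 hs
    obtain ⟨j, hj, hij⟩ := mem_image.1 hs'
    have := GLA.inj hX (hsubB hj) (hsubI hi) hij
    rw [this] at hj
    exact disjoint_left.1 (GLA.disj X) hi hj
  have hu : (innk 1 X).image (cst L) ∪ (bd X).image (cst L) = X.image (cst L) := by
    rw [← image_union, GLA.union_eq]
  set G : (Zd d → E) → ENNReal :=
    M.wG id (fun _ => m) (fun i => if i ∈ innk (M.r + 1) X then z else 0) (innk 1 X) with hG
  have hGm : Measurable G := Bas.measurable_wG M id _ _ _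
  have hGd : ∀ x y : Zd d → E, (∀ i ∈ innk 1 X, x i = y i) → G x = G y :=
    fun x y h => Bas.wG_dep M id _ _ _ h
  have htr := GLA.transfer M Kac.Gl.vm_inj (B := innk 1 X)
    (fun i hi => Kac.Gl.vm_cst (hXL i (hsubI hi))) hGm hGd
  set G1 : (Tor d L → E) → ENNReal := fun ω => G fun i => ω (cst L i) with hG1
  have hG1m : Measurable G1 := hGm.comp (measurable_pi_iff.2 fun i => measurable_pi_apply _)
  have hG1d : ∀ x y : Tor d L → E, (∀ i ∈ (innk 1 X).image (cst L), x i = y i) →
      G1 x = G1 y := fun x y h => hGd _ _ fun i hi => h _ (mem_image_of_mem _ hi)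
  set f : E → ENNReal := M.I.indicator (M.st m) with hf
  have hfm : Measurable f := (Bas.measurable_st M m).indicator M.measurableSet_I
  set G2 : (Tor d L → E) → ENNReal := fun ω => ∏ j ∈ (bd X).image (cst L), f (ω j) with hG2
  have hG2m : Measurable G2 := Finset.measurable_prod _ fun j _ =>
    hfm.comp (measurable_pi_apply j)
  have hG2d : ∀ x y : Tor d L → E, (∀ i ∈ (bd X).image (cst L), x i = y i) →
      G2 x = G2 y := fun x y h => prod_congr rfl fun i hi => by rw [h i hi]
  set W : (Tor d L → E) → ENNReal := M.wG (cst L) (fun _ => m)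
    (fun j => if j ∈ (outk M.r X).image (cst L) then 0 else z) (univ \ X.image (cst L)) with hW
  have hWm : Measurable W := Bas.measurable_wG M _ _ _ _
  have hWd : ∀ x y : Tor d L → E, (∀ i ∈ univ \ X.image (cst L), x i = y i) → W x = W y :=
    fun x y h => Bas.wG_dep M _ _ _ _ h
  have hmid : lmarginal (fun _ : Tor d L => M.π) ((bd X).image (cst L)) G2 (fun _ => M.e0) =
      M.lam m M.I ^ (bd X).card := by
    rw [hG2, Bas.lm_prod M ((bd X).image (cst L)) (fun _ => hfm), prod_const]
    congr 1
    · rw [hf, lintegral_indicator M.measurableSet_I]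
      rfl
    · exact card_image_of_injOn fun i hi j hj h => GLA.inj hX (hsubB hi) (hsubB hj) h
  calc M.int (innk 1 X) G * M.lam m M.I ^ (bd X).card *
        M.ZC L (X.image (cst L)) (fun _ => m)
          (fun j => if j ∈ (outk M.r X).image (cst L) then 0 else z)
      = lmarginal (fun _ : Tor d L => M.π) ((innk 1 X).image (cst L)) G1 (fun _ => M.e0) *
        lmarginal (fun _ : Tor d L => M.π) ((bd X).image (cst L)) G2 (fun _ => M.e0) *
        lmarginal (fun _ : Tor d L => M.π) (univ \ X.image (cst L)) W (fun _ => M.e0) := by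
        rw [htr, hmid]
        rfl
    _ = lmarginal (fun _ : Tor d L => M.π) (((innk 1 X).image (cst L) ∪ (bd X).image (cst L)) ∪
          (univ \ X.image (cst L))) (fun ω => G1 ω * G2 ω * W ω) (fun _ => M.e0) := by
        rw [← Bas.lm_mul M hd1 hG1m hG2m hG1d hG2d]
        have hdd : Disjoint ((innk 1 X).image (cst L) ∪ (bd X).image (cst L))
            (univ \ X.image (cst L)) := by
          rw [hu]
          exact disjoint_sdiff
        exact (Bas.lm_mul M (f := fun ω => G1 ω * G2 ω) (g := W)
          hdd (hG1m.mul hG2m) hWm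
            (fun x y h => by
              show G1 x * G2 x = G1 y * G2 y
              rw [hG1d x y fun i hi => h i (mem_union_left _ hi),
                hG2d x y fun i hi => h i (mem_union_right _ hi)]) hWd _).symm
    _ ≤ M.ZT L m z := by
        unfold Nx.ZT
        rw [hu, union_sdiff_of_subset (subset_univ _),
          lintegral_eq_lmarginal_univ (fun _ => M.e0)]
        refine Bas.lm_mono M univ (fun ω => ?_) _
        exact GLA.glue_point hX m hz ω

end Pool.Agent.Ndl
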