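import Pool.Agent.Lib.MP_09cbbd_nd.GlA
import Pool.Agent.Lib.MP_09cbbd_nd.Tor

/-!
# Gluing: dense regions

ROW GLAB. From glueA_torus, torus_lower (fields m and τ = 0 on outk r X, z elsewhere: the average of τ is z (k - |outk|) / k, k = |T| - |X|), ZT_convex in z:
 log ZT m (z - s) >= log ZT m z - s (log ZT m (z + h) - log ZT m z) / h, and the limit L -> infinity (Nx.IsP.torus). Adapt cvx, mono, tendsto_ex,
 eventually_torus, glueA of MP_09cbbd_mix/GlueA.lean. Then combine with int_rim.
-/

set_option autoImplicit false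

namespace Pool.Agent.Ndl

open MeasureTheory Finset Filter Topology Pool.Agent.StableGas Pool.Agent.SquareWell
open Pool.Agent.Kac (Tor cst)
open Pool.Agent.Mix (Qr mem_Qr)

variable {d : ℕ} {E : Type} [MeasurableSpace E] (M : Nx d E)

namespace GLAB

/-- Convexity in `z`. -/
theorem cvx (L : ℕ) (m z : ℝ) {s h : ℝ} (hs : 0 ≤ s) (hh : 0 < h) :
    Real.log (M.ZT L m z).toReal - s * ((Real.log (M.ZT L m (z + h)).toReal -
      Real.log (M.ZT L m z).toReal) / h) ≤ Real.log (M.ZT L m (z - s)).toReal := by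
  rcases hs.eq_or_lt with hs | hs
  · rw [← hs]; simp
  have h1 := (ZT_convex M L).2 (Set.mem_univ (m, z - s)) (Set.mem_univ (m, z + h))
    (show 0 ≤ h / (s + h) by positivity) (show 0 ≤ s / (s + h) by positivity)
    (by field_simp; ring)
  have e : (h / (s + h)) • ((m, z - s) : ℝ × ℝ) + (s / (s + h)) • ((m, z + h) : ℝ × ℝ) =
      (m, z) := by
    ext
    · simp only [Prod.fst_add, Prod.smul_fst, smul_eq_mul]
      field_simp
      ring
    · simp only [Prod.snd_add, Prod.smul_snd, smul_eq_mul]
      field_simp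
      ring
  rw [e] at h1
  simp only [smul_eq_mul] at h1
  set a := Real.log (M.ZT L m z).toReal
  set b := Real.log (M.ZT L m (z - s)).toReal
  set c := Real.log (M.ZT L m (z + h)).toReal
  have h2 : (s + h) * a ≤ h * b + s * c := by
    have h3 := mul_le_mul_of_nonneg_left h1 (by positivity : (0 : ℝ) ≤ s + h)
    refine h3.trans (le_of_eq ?_)
    field_simp
  have h4 : s * ((c - a) / h) = (s * c - s * a) / h := by ring
  rw [h4, sub_le_iff_le_add, ← sub_le_iff_le_add', le_div_iff₀ hh]
  linarith

theorem ex_log_ZT (L : ℕ) (m z : ℝ) : ex (Real.log (M.ZT L m z).toReal) = M.ZT L m z := by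
  refine ex_log (fun h => ?_) (ZT_ne_top M L m z)
  have := ZT_pos M L m z
  rw [h] at this
  simp at this

theorem mono (L : ℕ) (m z : ℝ) {h : ℝ} (hh : 0 ≤ h) :
    Real.log (M.ZT L m z).toReal ≤ Real.log (M.ZT L m (z + h)).toReal :=
  Real.log_le_log (ZT_pos M L m z)
    (ENNReal.toReal_mono (ZT_ne_top M L m _) (ZT_mono M L le_rfl (by linarith)))

theorem lam_ne_top (m : ℝ) (S : Set E) : M.lam m S ≠ ⊤ := by
  have h1 : M.lam m S ≤ ex |m| * M.π Set.univ := by
    unfold Nx.lam
    calc ∫⁻ x in S, M.st m x ∂M.π ≤ ∫⁻ x, M.st m x ∂M.π := setLIntegral_le_lintegral _ _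
      _ ≤ ∫⁻ _, ex |m| ∂M.π := lintegral_mono fun x => Bas.st_le M m x
      _ = _ := by rw [lintegral_const]
  exact ne_top_of_le_ne_top (ENNReal.mul_ne_top (ex_ne_top _) M.π_fin) h1

theorem one_le_lam (m : ℝ) : 1 ≤ M.lam m M.I := by
  have h0 : (M.π.restrict M.I) {M.e0} = 1 := by
    rw [Measure.restrict_apply' M.measurableSet_I,
      Set.inter_eq_self_of_subset_left (Set.singleton_subset_iff.2 M.e0_I), M.π_e0]
  unfold Nx.lam
  calc (1 : ENNReal) = ex 0 * (M.π.restrict M.I) {M.e0} := by rw [h0, ex_zero, one_mul]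
    _ ≤ ex 0 * (M.π.restrict M.I) {x | ex 0 ≤ M.st m x} := by
        refine mul_le_mul' le_rfl (measure_mono ?_)
        intro x hx
        rw [Set.mem_singleton_iff] at hx
        show ex 0 ≤ M.st m x
        rw [hx, Bas.st_e0, ex_zero]
    _ ≤ _ := mul_meas_ge_le_lintegral (Bas.measurable_st M m) _

theorem ex_log_lam (m : ℝ) {S : Set E} (hS : M.I ⊆ S) :
    ex (Real.log (M.lam m S).toReal) = M.lam m S := by
  refine ex_log (fun h => ?_) (lam_ne_top M m S)
  have h1 : M.lam m M.I ≤ M.lam m S := by
    unfold Nx.lam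
    exact lintegral_mono_set hS
  have h2 := (one_le_lam M m).trans h1
  rw [h] at h2
  simp at h2

/-- Lower bound for the complement. -/
theorem le_ZC (L : ℕ) {A D : Finset (Tor d L)} (hA : A.card < (2 * L + 1) ^ d)
    (m z h : ℝ) (hz : 0 ≤ z) (hh : 0 < h) :
    ex (((2 * L + 1 : ℝ) ^ d - A.card) / (2 * L + 1 : ℝ) ^ d * Real.log (M.ZT L m z).toReal -
      z * ((univ \ A) ∩ D).card * (((Real.log (M.ZT L m (z + h)).toReal -
        Real.log (M.ZT L m z).toReal) / h) / (2 * L + 1 : ℝ) ^ d)) ≤
      M.ZC L A (fun _ => m) (fun j => if j ∈ D then 0 else z) := by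
  classical
  have hcard : (univ : Finset (Tor d L)).card = (2 * L + 1) ^ d := by
    rw [card_univ, Fintype.card_fun, ZMod.card, Fintype.card_fin]
  have h := torus_lower M L A hA (fun _ => m) (fun j => if j ∈ D then 0 else z)
    (fun j => by
      show 0 ≤ if j ∈ D then 0 else z
      split_ifs
      · exact le_rfl
      · exact hz)
  set V : ℝ := (2 * L + 1 : ℝ) ^ d with hV
  have hV0 : 0 < V := by rw [hV]; positivity
  have hVa : 0 < V - A.card := by
    have : (A.card : ℝ) < (((2 * L + 1) ^ d : ℕ) : ℝ) := by exact_mod_cast hA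
    push_cast at this
    linarith
  have hB : ((univ \ A).card : ℝ) = V - A.card := by
    rw [card_sdiff_of_subset (subset_univ A), hcard, Nat.cast_sub hA.le]
    push_cast
    rfl
  have e1 : (∑ _j ∈ univ \ A, m) / (V - A.card) = m := by
    rw [sum_const, nsmul_eq_mul, hB]
    field_simp
  have e2 : (∑ j ∈ univ \ A, if j ∈ D then 0 else z) / (V - A.card) =
      z - z * ((univ \ A) ∩ D).card / (V - A.card) := by
    have e3 : ∀ j, (if j ∈ D then 0 else z) = z - if j ∈ D then z else 0 := by
      intro j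
      split_ifs <;> ring
    simp only [e3]
    rw [sum_sub_distrib, sum_const, nsmul_eq_mul, hB, sum_ite_mem, sum_const, nsmul_eq_mul]
    field_simp
  rw [e1, e2] at h
  have h0 : 0 ≤ (V - A.card) / V := by positivity
  have h2 : M.ZT L m (z - z * ((univ \ A) ∩ D).card / (V - A.card)) ^ ((V - A.card) / V) ≤
      M.ZC L A (fun _ => m) (fun j => if j ∈ D then 0 else z) := by
    calc _ ≤ (M.ZC L A (fun _ => m) (fun j => if j ∈ D then 0 else z) ^
          (V / (V - A.card))) ^ ((V - A.card) / V) := ENNReal.rpow_le_rpow h h0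
      _ = _ := by
        rw [← ENNReal.rpow_mul]
        have : V / (V - A.card) * ((V - A.card) / V) = 1 := by field_simp
        rw [this, ENNReal.rpow_one]
  refine le_trans ?_ h2
  rw [← ex_log_ZT M L m (z - z * ((univ \ A) ∩ D).card / (V - A.card)), ex_rpow, ex_le_ex]
  have h3 := mul_le_mul_of_nonneg_right (cvx M L m z
    (s := z * ((univ \ A) ∩ D).card / (V - A.card)) (by positivity) hh) h0
  refine le_trans (le_of_eq ?_) h3
  field_simp

/-- The inequality on a large torus. -/
theorem torus (L : ℕ) (X : Finset (Zd d)) (hX : ∀ i ∈ X, ∀ k, |i k| + 2 * (M.r + 1) ≤ L)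
    (hc : X.card < (2 * L + 1) ^ d) (m z h : ℝ) (hz : 0 ≤ z) (hh : 0 < h) :
    M.int X (M.wG id (fun _ => m) (fun i => if i ∈ innk (M.r + 1) X then z else 0) X) ≤
      ex (X.card * (Real.log (M.ZT L m z).toReal / (2 * L + 1 : ℝ) ^ d) +
        z * ((Real.log (M.ZT L m (z + h)).toReal / (2 * L + 1 : ℝ) ^ d -
          Real.log (M.ZT L m z).toReal / (2 * L + 1 : ℝ) ^ d) / h) * (outk M.r X).card +
        (Real.log (M.lam m Set.univ).toReal - Real.log (M.lam m M.I).toReal) * (bd X).card) := by
  classical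
  have hAc : (X.image (cst L)).card = X.card :=
    card_image_of_injOn fun i hi j hj h => GLA.inj hX hi hj h
  have hAc' : (X.image (cst L)).card < (2 * L + 1) ^ d := by rw [hAc]; exact hc
  have hD : (((univ \ X.image (cst L)) ∩ (outk M.r X).image (cst L)).card : ℝ) ≤
      (outk M.r X).card := by
    exact_mod_cast (card_le_card inter_subset_right).trans card_image_le
  have h1 := int_rim M X m z
  have h2 := glueA_torus M L X hX m hz
  have h3 := le_ZC M L (A := X.image (cst L)) (D := (outk M.r X).image (cst L)) hAc' m z h hz hh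
  set V : ℝ := (2 * L + 1 : ℝ) ^ d with hV
  have hV0 : 0 < V := by rw [hV]; positivity
  set G := M.int (innk 1 X)
    (M.wG id (fun _ => m) (fun i => if i ∈ innk (M.r + 1) X then z else 0) (innk 1 X)) with hG
  set a := Real.log (M.ZT L m z).toReal with ha
  set c := Real.log (M.ZT L m (z + h)).toReal with hcc
  set u := Real.log (M.lam m Set.univ).toReal with hu
  set v := Real.log (M.lam m M.I).toReal with hv
  set D := (((univ \ X.image (cst L)) ∩ (outk M.r X).image (cst L)).card : ℝ) with hDD
  have hac : a ≤ c := mono M L m z hh.le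
  rw [hAc] at h3
  have h4 : G * ex ((V - X.card) / V * a - z * D * ((c - a) / h / V) + (bd X).card * v) ≤
      ex a := by
    rw [ex_log_ZT M L m z]
    refine le_trans (le_of_eq ?_) ((mul_le_mul' le_rfl h3).trans h2)
    rw [ex_add, ← ex_pow, ex_log_lam M m (le_refl M.I)]
    ring
  have h5 : G ≤ ex (a - ((V - X.card) / V * a - z * D * ((c - a) / h / V) +
      (bd X).card * v)) := by
    have e : ex (a - ((V - X.card) / V * a - z * D * ((c - a) / h / V) + (bd X).card * v)) *
        ex ((V - X.card) / V * a - z * D * ((c - a) / h / V) + (bd X).card * v) = ex a := by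
      rw [← ex_add]
      congr 1
      ring
    rw [← e] at h4
    exact (ENNReal.mul_le_mul_iff_left (ex_ne_zero _) (ex_ne_top _)).1 h4
  refine h1.trans ?_
  rw [← ex_log_lam M m (Set.subset_univ M.I), ex_pow]
  refine (mul_le_mul' le_rfl h5).trans ?_
  rw [← ex_add, ex_le_ex]
  have h6 : z * D * ((c - a) / h / V) ≤ z * (outk M.r X).card * ((c - a) / h / V) := by
    refine mul_le_mul_of_nonneg_right (mul_le_mul_of_nonneg_left hD hz) ?_
    have : 0 ≤ c - a := by linarith
    positivity
  have h7 : (V - X.card) / V * a = a - X.card * (a / V) := by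
    field_simp
  have h8 : z * ((c / V - a / V) / h) * (outk M.r X).card =
      z * (outk M.r X).card * ((c - a) / h / V) := by
    field_simp
  rw [h7, h8]
  have h9 : (u - v) * (bd X).card = (bd X).card * u - (bd X).card * v := by ring
  rw [h9]
  linarith

end GLAB

theorem glueA (hd : 1 ≤ d) {p : ℝ → ℝ → ℝ} (hp : M.IsP p) (X : Finset (Zd d)) (m z h : ℝ)
    (hz : 0 ≤ z) (hh : 0 < h) :
    M.int X (M.wG id (fun _ => m) (fun i => if i ∈ innk (M.r + 1) X then z else 0) X) ≤
      ex (X.card * p m z + z * ((p m (z + h) - p m z) / h) * (outk M.r X).card +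
        (Real.log (M.lam m Set.univ).toReal - Real.log (M.lam m M.I).toReal) * (bd X).card) := by
  have hlim : Tendsto (fun L : ℕ =>
      X.card * (Real.log (M.ZT L m z).toReal / (2 * L + 1 : ℝ) ^ d) +
        z * ((Real.log (M.ZT L m (z + h)).toReal / (2 * L + 1 : ℝ) ^ d -
          Real.log (M.ZT L m z).toReal / (2 * L + 1 : ℝ) ^ d) / h) * (outk M.r X).card +
        (Real.log (M.lam m Set.univ).toReal - Real.log (M.lam m M.I).toReal) * (bd X).card)
      atTop (𝓝 (X.card * p m z + z * ((p m (z + h) - p m z) / h) * (outk M.r X).card +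
        (Real.log (M.lam m Set.univ).toReal - Real.log (M.lam m M.I).toReal) *
          (bd X).card)) := by
    have h1 := hp.torus hd m hz
    have h2 := hp.torus hd m (z := z + h) (by linarith)
    exact ((h1.const_mul _).add ((((h2.sub h1).div_const h).const_mul z).mul_const _)).add_const _
  refine ge_of_tendsto (Mix.GLrow.tendsto_ex hlim) ?_
  filter_upwards [Mix.GLrow.eventually_torus hd X (M.r + 1)] with L hL
  refine GLAB.torus M L X (fun i hi k => ?_) hL.2 m z h hz hh
  have := hL.1 i hi k
  push_cast at this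
  linarith

end Pool.Agent.Ndl
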