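import Pool.Agent.Lib.MP_09cbbd_nd.Crd
import Pool.Agent.Lib.MP_09cbbd_nd.TorP
import Pool.Agent.Lib.MP_09cbbd_nd.Emp
import Pool.Agent.Lib.MP_09cbbd_mix.GlueA

/-!
# Gluing: pointwise part for dilute regions

ROW GLB. A = X.image cst, D = (outk r X).image cst. For w on the torus equal to w1 on (innk r X).image cst, to w2 outside A u D and e0 elsewhere (atoms of mass
one): cp holds, and Fr on the torus is Fr id X w1 i for i in X (its neighbourhood in Q_r is contained in X u outk r X, where w is w1 or e0) and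
Fr (univ \ A) w2 j for j outside A (the sites of X within distance r of j are in X \ innk r X: empty). Bas.Fr_anti. Adapt GlueP.glue_point, glueA_torus.
-/

set_option autoImplicit false

namespace Pool.Agent.Ndl

open MeasureTheory Finset Filter Topology Pool.Agent.StableGas Pool.Agent.SquareWell
open Pool.Agent.Kac (Tor cst)
open Pool.Agent.Mix (Qr mem_Qr)
open Pool.Agent.Mix.Bas (Qr_neg zero_mem_Qr Qr_mono)

variable {d : ℕ} {E : Type} [MeasurableSpace E] (M : Nx d E)

private theorem glB_transfer {L : ℕ} {B : Finset (Zd d)} {e : Tor d L → Zd d}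
    (he : Function.Injective e) (hB : ∀ i ∈ B, e (cst L i) = i) {F : (Zd d → E) → ENNReal}
    (hF : Measurable F) (hdep : ∀ x y : Zd d → E, (∀ i ∈ B, x i = y i) → F x = F y) :
    lmarginal (fun _ : Tor d L => M.π) (B.image (cst L)) (fun ω => F fun i => ω (cst L i))
      (fun _ => M.e0) = M.int B F := by
  have := Bas.fin_π M
  have h1 : (B.image (cst L)).image e = B := by
    ext i
    constructor
    · intro hi
      obtain ⟨t, ht, rfl⟩ := mem_image.1 hi
      obtain ⟨j, hj, rfl⟩ := mem_image.1 ht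
      rw [hB j hj]
      exact hj
    · intro hi
      exact mem_image.2 ⟨cst L i, mem_image_of_mem _ hi, hB i hi⟩
  have hm : Measurable fun ω : Tor d L → E => F fun i => ω (cst L i) :=
    hF.comp (measurable_pi_iff.2 fun i => measurable_pi_apply _)
  have h := lmarginal_image (μ := fun _ : Zd d => M.π) (X := fun _ => E) he (B.image (cst L))
    hm (fun _ => M.e0)
  refine h.symm.trans ?_
  rw [h1]
  unfold Nx.int
  congr 1
  funext ω
  refine hdep _ _ fun i hi => ?_
  show ω (e (cst L i)) = ω i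
  rw [hB i hi]

/-- Empty outside a set. -/
private theorem glB_cut_meas {Γ : Type} [DecidableEq Γ] (s : Finset Γ) :
    Measurable fun (ω : Γ → E) (i : Γ) => if i ∈ s then ω i else M.e0 := by
  refine measurable_pi_iff.2 fun i => ?_
  by_cases hi : i ∈ s
  · simp only [hi, if_true]
    exact measurable_pi_apply i
  · simp only [hi, if_false]
    exact measurable_const

private theorem glB_cut_dep {Γ : Type} [DecidableEq Γ] (s : Finset Γ) {x y : Γ → E}
    (h : ∀ i ∈ s, x i = y i) :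
    (fun i : Γ => if i ∈ s then x i else M.e0) = fun i => if i ∈ s then y i else M.e0 := by
  funext i
  by_cases hi : i ∈ s
  · rw [if_pos hi, if_pos hi, h i hi]
  · rw [if_neg hi, if_neg hi]

private theorem glB_lm_cut {Γ : Type} [DecidableEq Γ] (s : Finset Γ)
    (f : (Γ → E) → ENNReal) :
    lmarginal (fun _ : Γ => M.π) s f (fun _ => M.e0) =
      lmarginal (fun _ : Γ => M.π) s (fun ω => f fun i => if i ∈ s then ω i else M.e0)
        (fun _ => M.e0) := by
  unfold lmarginal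
  refine lintegral_congr fun y => ?_
  congr 1
  funext i
  rw [Function.updateFinset_def]
  by_cases hi : i ∈ s
  · simp [hi]
  · simp [hi]

private theorem glB_inj {L : ℕ} {X : Finset (Zd d)}
    (hX : ∀ i ∈ X, ∀ k, |i k| + 2 * (M.r + 1) ≤ L) {i j v : Zd d} (hi : i ∈ X) (hj : j ∈ X)
    (hv : v ∈ Qr d M.r) (h : cst L (i + v) = cst L j) : i + v = j := by
  refine Pool.Agent.Kac.TorP.cst_inj (L := L) h fun k => ?_
  have g1 := hX i hi k
  have g2 := hX j hj k
  have g3 := mem_Qr.1 hv k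
  rw [Pi.add_apply]
  have g4 : |i k + v k - j k| ≤ |i k| + |v k| + |j k| := by
    refine (abs_sub _ _).trans ?_
    exact add_le_add (abs_add_le _ _) le_rfl
  have g5 : (0 : ℤ) ≤ M.r := Int.natCast_nonneg _
  linarith

private theorem glB_point {L : ℕ} {X : Finset (Zd d)}
    (hX : ∀ i ∈ X, ∀ k, |i k| + 2 * (M.r + 1) ≤ L) (m : ℝ) {z : ℝ} (hz : 0 ≤ z)
    {K : Finset (Zd d)} (hK : K = innk M.r X) {A R : Finset (Tor d L)}
    (hA : A = X.image (cst L)) (hR : R = univ \ (A ∪ (outk M.r X).image (cst L)))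
    (ω : Tor d L → E) :
    M.w m z X (fun i => if i ∈ K then ω (cst L i) else M.e0) *
      M.wG (cst L) (fun _ => m) (fun _ => z) (univ \ A) (fun j => if j ∈ R then ω j else M.e0) ≤
    M.wG (cst L) (fun _ => m) (fun _ => z) univ
      (fun j => if j ∈ univ \ (K.image (cst L) ∪ R) then M.e0 else ω j) := by
  obtain ⟨ω1, hω1⟩ : ∃ ω1 : Zd d → E, ω1 = fun i => if i ∈ K then ω (cst L i) else M.e0 :=
    ⟨_, rfl⟩
  obtain ⟨ω2, hω2⟩ : ∃ ω2 : Tor d L → E, ω2 = fun j => if j ∈ R then ω j else M.e0 := ⟨_, rfl⟩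
  obtain ⟨ω', hω'⟩ : ∃ ω' : Tor d L → E, ω' = fun j =>
    if j ∈ univ \ (K.image (cst L) ∪ R) then M.e0 else ω j := ⟨_, rfl⟩
  rw [← hω1, ← hω2, ← hω']
  have hKX : ∀ i ∈ K, i ∈ X := fun i hi => by
    rw [hK] at hi
    exact (mem_innk.1 hi).1
  have hKv : ∀ i ∈ K, ∀ v ∈ Qr d M.r, i + v ∈ X := fun i hi => by
    rw [hK] at hi
    exact (mem_innk.1 hi).2
  have hinj : ∀ i ∈ X, ∀ j ∈ X, cst L i = cst L j → i = j := fun i hi j hj h => by
    have h1 := glB_inj M hX hi hj (zero_mem_Qr M.r) (by rwa [add_zero])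
    rwa [add_zero] at h1
  have hRA : ∀ j ∈ R, j ∉ A := fun j hj h => by
    rw [hR, Finset.mem_sdiff] at hj
    exact hj.2 (mem_union_left _ h)
  have hKA : ∀ j ∈ K.image (cst L), j ∈ A := fun j hj => by
    obtain ⟨i, hi, rfl⟩ := mem_image.1 hj
    rw [hA]
    exact mem_image_of_mem _ (hKX i hi)
  -- values of ω'
  have vX : ∀ i ∈ X, ω' (cst L i) = ω1 i := by
    intro i hi
    rw [hω', hω1]
    by_cases h : i ∈ K
    · have h1 : cst L i ∉ univ \ (K.image (cst L) ∪ R) := fun h2 =>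
        (Finset.mem_sdiff.1 h2).2 (mem_union_left _ (mem_image_of_mem _ h))
      simp only [if_neg h1, if_pos h]
    · have h1 : cst L i ∈ univ \ (K.image (cst L) ∪ R) := by
        refine Finset.mem_sdiff.2 ⟨mem_univ _, fun h2 => ?_⟩
        rcases mem_union.1 h2 with h3 | h3
        · obtain ⟨j, hj, hij⟩ := mem_image.1 h3
          exact h (hinj j (hKX j hj) i hi hij ▸ hj)
        · exact hRA _ h3 (hA ▸ mem_image_of_mem _ hi)
      simp only [if_pos h1, if_neg h]
  have vA : ∀ s, s ∉ A → ω' s = ω2 s := by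
    intro s hs
    rw [hω', hω2]
    by_cases h : s ∈ R
    · have h1 : s ∉ univ \ (K.image (cst L) ∪ R) := fun h2 =>
        (Finset.mem_sdiff.1 h2).2 (mem_union_right _ h)
      simp only [if_neg h1, if_pos h]
    · have h1 : s ∈ univ \ (K.image (cst L) ∪ R) := by
        refine Finset.mem_sdiff.2 ⟨mem_univ _, fun h2 => ?_⟩
        rcases mem_union.1 h2 with h3 | h3
        · exact hs (hKA _ h3)
        · exact h h3
      simp only [if_pos h1, if_neg h]
  have v0 : ∀ s, s ∉ K.image (cst L) → s ∉ R → ω' s = M.e0 := by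
    intro s h1 h2
    rw [hω']
    have h3 : s ∈ univ \ (K.image (cst L) ∪ R) := by
      refine Finset.mem_sdiff.2 ⟨mem_univ _, fun h3 => ?_⟩
      rcases mem_union.1 h3 with h4 | h4
      · exact h1 h4
      · exact h2 h4
    simp only [if_pos h3]
  have hQ1 : ∀ v ∈ Qr d 1, v ∈ Qr d M.r := fun v hv => Qr_mono M.hr hv
  have hback : ∀ (s : Tor d L) (v : Zd d) (j : Zd d), cst L j = s + cst L v →
      s = cst L (j + -v) := by
    intro s v j hj
    have e0 : cst L (0 : Zd d) = 0 := by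
      funext k
      simp [cst]
    rw [Pool.Agent.Kac.TorP.cst_add, hj, add_assoc, ← Pool.Agent.Kac.TorP.cst_add,
      add_neg_cancel, e0, add_zero]
  by_cases h1 : M.cp id X ω1
  swap
  · have h3 : M.w m z X ω1 = 0 := Bas.wG_of_not M id h1
    rw [h3, zero_mul]
    exact zero_le
  by_cases h2 : M.cp (cst L) (univ \ A) ω2
  swap
  · rw [Bas.wG_of_not M (cst L) h2, mul_zero]
    exact zero_le
  have hcp : M.cp (cst L) univ ω' := by
    intro v hv hv0 s _ _
    by_cases hs : s ∈ K.image (cst L)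
    · obtain ⟨i, hi, rfl⟩ := mem_image.1 hs
      have hiv := hKv i hi v (hQ1 v hv)
      rw [← Pool.Agent.Kac.TorP.cst_add, vX i (hKX i hi), vX _ hiv]
      exact h1 v hv hv0 i (hKX i hi) hiv
    by_cases ht : s + cst L v ∈ K.image (cst L)
    · obtain ⟨j, hj, hj'⟩ := mem_image.1 ht
      have hjv := hKv j hj (-v) (Qr_neg.2 (hQ1 v hv))
      have e := hback s v j hj'
      rw [← hj', e, vX j (hKX j hj), vX _ hjv]
      have h3 := h1 v hv hv0 (j + -v) hjv (by
        show j + -v + v ∈ X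
        rw [neg_add_cancel_right]
        exact hKX j hj)
      have h4 : j + -v + id v = j := neg_add_cancel_right j v
      rwa [h4] at h3
    by_cases hsR : s ∈ R
    swap
    · rw [v0 s hs hsR]
      exact M.ok_e0 _ _
    by_cases htR : s + cst L v ∈ R
    swap
    · rw [v0 _ ht htR]
      exact Bas.ok_e0_right M _ _
    rw [vA s (hRA s hsR), vA _ (hRA _ htR)]
    exact h2 v hv hv0 s (Finset.mem_sdiff.2 ⟨mem_univ _, hRA s hsR⟩)
      (Finset.mem_sdiff.2 ⟨mem_univ _, hRA _ htR⟩)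
  -- free fractions
  have hF1 : ∀ i ∈ X, M.Fr id X ω1 i = M.Fr (cst L) univ ω' (cst L i) := by
    intro i hi
    refine M.Φ_dep _ _ fun v hv => ?_
    unfold Nx.sh
    rw [if_pos (mem_univ _), ← Pool.Agent.Kac.TorP.cst_add]
    by_cases hiv : i + v ∈ X
    · rw [if_pos (show i + id v ∈ X from hiv), vX _ hiv]
      rfl
    · rw [if_neg (show i + id v ∉ X from hiv)]
      refine (v0 _ (fun h => ?_) fun h => ?_).symm
      · obtain ⟨j, hj, hij⟩ := mem_image.1 h
        have h3 := glB_inj M hX hi (hKX j hj) hv hij.symm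
        exact hiv (h3 ▸ hKX j hj)
      · rw [hR, Finset.mem_sdiff] at h
        refine h.2 (mem_union_right _ (mem_image_of_mem _ (mem_outk.2 ⟨hiv, -v,
          Qr_neg.2 hv, ?_⟩)))
        rw [add_neg_cancel_right]
        exact hi
  have hF2 : ∀ s ∈ univ \ A, M.Fr (cst L) (univ \ A) ω2 s ≤ M.Fr (cst L) univ ω' s := by
    intro s hs
    refine Bas.Fr_anti M (cst L) s fun v hv _ => ?_
    by_cases hsv : s + cst L v ∈ A
    · left
      refine v0 _ (fun h => ?_) fun h => hRA _ h hsv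
      obtain ⟨j, hj, hj'⟩ := mem_image.1 h
      have e := hback s v j hj'
      refine (Finset.mem_sdiff.1 hs).2 ?_
      rw [e, hA]
      exact mem_image_of_mem _ (hKv j hj (-v) (Qr_neg.2 hv))
    · right
      exact ⟨Finset.mem_sdiff.2 ⟨mem_univ _, hsv⟩, vA _ hsv⟩
  have hinjOn : Set.InjOn (cst L) (X : Set (Zd d)) := fun i hi j hj h =>
    hinj i (Finset.mem_coe.1 hi) j (Finset.mem_coe.1 hj) h
  have e1 : ∏ i ∈ X, M.st m (ω1 i) = ∏ s ∈ A, M.st m (ω' s) := by
    rw [hA, prod_image hinjOn]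
    exact prod_congr rfl fun i hi => by rw [vX i hi]
  have e2 : ∏ s ∈ univ \ A, M.st m (ω2 s) = ∏ s ∈ univ \ A, M.st m (ω' s) :=
    prod_congr rfl fun s hs => by rw [vA s (Finset.mem_sdiff.1 hs).2]
  have e3 : ∑ i ∈ X, z * M.Fr id X ω1 i = ∑ s ∈ A, z * M.Fr (cst L) univ ω' s := by
    rw [hA, sum_image hinjOn]
    exact sum_congr rfl fun i hi => by rw [hF1 i hi]
  have e4 : ∑ s ∈ univ \ A, z * M.Fr (cst L) (univ \ A) ω2 s ≤
      ∑ s ∈ univ \ A, z * M.Fr (cst L) univ ω' s :=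
    sum_le_sum fun s hs => mul_le_mul_of_nonneg_left (hF2 s hs) hz
  have e5 : M.w m z X ω1 = (∏ i ∈ X, M.st m (ω1 i)) * ex (∑ i ∈ X, z * M.Fr id X ω1 i) :=
    Bas.wG_of_cp M id h1
  rw [e5, Bas.wG_of_cp M (cst L) h2, Bas.wG_of_cp M (cst L) hcp, e1, e2, e3]
  calc (∏ s ∈ A, M.st m (ω' s)) * ex (∑ s ∈ A, z * M.Fr (cst L) univ ω' s) *
        ((∏ s ∈ univ \ A, M.st m (ω' s)) *
          ex (∑ s ∈ univ \ A, z * M.Fr (cst L) (univ \ A) ω2 s))
      ≤ (∏ s ∈ A, M.st m (ω' s)) * ex (∑ s ∈ A, z * M.Fr (cst L) univ ω' s) *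
        ((∏ s ∈ univ \ A, M.st m (ω' s)) *
          ex (∑ s ∈ univ \ A, z * M.Fr (cst L) univ ω' s)) :=
        mul_le_mul' le_rfl (mul_le_mul' le_rfl (ex_le_ex.2 e4))
    _ = ((∏ s ∈ univ \ A, M.st m (ω' s)) * ∏ s ∈ A, M.st m (ω' s)) *
        (ex (∑ s ∈ univ \ A, z * M.Fr (cst L) univ ω' s) *
          ex (∑ s ∈ A, z * M.Fr (cst L) univ ω' s)) := by ring
    _ = (∏ s, M.st m (ω' s)) * ex (∑ s, z * M.Fr (cst L) univ ω' s) := by
        rw [prod_sdiff (subset_univ A), ← ex_add, sum_sdiff (subset_univ A)]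

theorem glueB_torus (L : ℕ) (X : Finset (Zd d)) (hX : ∀ i ∈ X, ∀ k, |i k| + 2 * (M.r + 1) ≤ L)
    (m : ℝ) {z : ℝ} (hz : 0 ≤ z) :
    M.int (innk M.r X) (M.w m z X) *
      lmarginal (fun _ : Tor d L => M.π)
        (univ \ (X.image (cst L) ∪ (outk M.r X).image (cst L)))
        (M.wG (cst L) (fun _ => m) (fun _ => z) (univ \ X.image (cst L))) (fun _ => M.e0) ≤
      M.ZT L m z := by
  have := Bas.fin_π M
  obtain ⟨K, hK⟩ : ∃ K : Finset (Zd d), K = innk M.r X := ⟨_, rfl⟩
  obtain ⟨A, hA⟩ : ∃ A : Finset (Tor d L), A = X.image (cst L) := ⟨_, rfl⟩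
  obtain ⟨R, hR⟩ : ∃ R : Finset (Tor d L), R = univ \ (A ∪ (outk M.r X).image (cst L)) :=
    ⟨_, rfl⟩
  rw [← hK, ← hA, ← hR]
  have hKX : ∀ i ∈ K, i ∈ X := fun i hi => by
    rw [hK] at hi
    exact (mem_innk.1 hi).1
  have hXL : ∀ i ∈ X, ∀ k, |i k| ≤ L := fun i hi k => by
    have := hX i hi k
    omega
  have hdis : Disjoint (K.image (cst L)) R := by
    rw [disjoint_left]
    intro j hj hjR
    obtain ⟨i, hi, rfl⟩ := mem_image.1 hj
    rw [hR, Finset.mem_sdiff] at hjR
    exact hjR.2 (mem_union_left _ (hA ▸ mem_image_of_mem _ (hKX i hi)))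
  -- the first factor
  obtain ⟨F1, hF1⟩ : ∃ F1 : (Zd d → E) → ENNReal, F1 = fun ω =>
    M.w m z X (fun i => if i ∈ K then ω i else M.e0) := ⟨_, rfl⟩
  have hF1m : Measurable F1 := by
    rw [hF1]
    exact (Bas.measurable_w M m z X).comp (glB_cut_meas M K)
  have hF1d : ∀ x y : Zd d → E, (∀ i ∈ K, x i = y i) → F1 x = F1 y := by
    intro x y h
    rw [hF1]
    show M.w m z X _ = M.w m z X _
    rw [glB_cut_dep M K h]
  have hint : M.int K (M.w m z X) = M.int K F1 := by
    rw [hF1]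
    exact glB_lm_cut M K _
  have htr := glB_transfer M (L := L) Kac.Gl.vm_inj (B := K)
    (fun i hi => Kac.Gl.vm_cst (hXL i (hKX i hi))) hF1m hF1d
  have hG1m : Measurable fun ω : Tor d L → E => F1 fun i => ω (cst L i) :=
    hF1m.comp (measurable_pi_iff.2 fun i => measurable_pi_apply _)
  have hG1d : ∀ x y : Tor d L → E, (∀ i ∈ K.image (cst L), x i = y i) →
      (fun ω : Tor d L → E => F1 fun i => ω (cst L i)) x =
      (fun ω : Tor d L → E => F1 fun i => ω (cst L i)) y := by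
    intro x y hxy
    exact hF1d _ _ fun i hi => hxy _ (mem_image_of_mem _ hi)
  -- the second factor
  obtain ⟨F2, hF2⟩ : ∃ F2 : (Tor d L → E) → ENNReal, F2 = fun ω =>
    M.wG (cst L) (fun _ => m) (fun _ => z) (univ \ A) (fun j => if j ∈ R then ω j else M.e0) :=
    ⟨_, rfl⟩
  have hF2m : Measurable F2 := by
    rw [hF2]
    exact (Bas.measurable_wG M (cst L) _ _ _).comp (glB_cut_meas M R)
  have hF2d : ∀ x y : Tor d L → E, (∀ i ∈ R, x i = y i) → F2 x = F2 y := by
    intro x y h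
    rw [hF2]
    show M.wG (cst L) _ _ _ _ = M.wG (cst L) _ _ _ _
    rw [glB_cut_dep M R h]
  have hlm : lmarginal (fun _ : Tor d L => M.π) R
      (M.wG (cst L) (fun _ => m) (fun _ => z) (univ \ A)) (fun _ => M.e0) =
      lmarginal (fun _ : Tor d L => M.π) R F2 (fun _ => M.e0) := by
    rw [hF2]
    exact glB_lm_cut M R _
  rw [hint, hlm, ← htr, ← Bas.lm_mul M hdis hG1m hF2m hG1d hF2d]
  have hWm : Measurable (M.wG (cst L) (fun _ => m) (fun _ => z) (univ : Finset (Tor d L))) :=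
    Bas.measurable_wG M (cst L) _ _ _
  have hZ : M.ZT L m z = lmarginal (fun _ : Tor d L => M.π) (K.image (cst L) ∪ R)
      (lmarginal (fun _ : Tor d L => M.π) (univ \ (K.image (cst L) ∪ R))
        (M.wG (cst L) (fun _ => m) (fun _ => z) univ)) (fun _ => M.e0) := by
    unfold Nx.ZT
    rw [← lmarginal_union _ _ hWm disjoint_sdiff, union_sdiff_of_subset (subset_univ _),
      lintegral_eq_lmarginal_univ (fun _ => M.e0)]
  rw [hZ]
  refine Bas.lm_mono M _ (fun ω => ?_) _
  refine le_trans ?_ (Bas.le_lm M (univ \ (K.image (cst L) ∪ R)) hWm ω)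
  have h := glB_point M hX m hz hK hA hR ω
  rw [hF1, hF2]
  exact h

end Pool.Agent.Ndl
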