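import Pool.Agent.Lib.MP_09cbbd_nd.ClsD
import Pool.Agent.Lib.MP_09cbbd_mix.Split

/-!
# Measurability of the classes

ROW MSB. Adapt MP_09cbbd_mix/Split.lean (bex, site, filt, measurableSet_DD, measurableSet_VC, pattern, measurableSet_Class). Membership in DD and VC depends on
finitely many conditions w j in D, w j in W.
-/

set_option autoImplicit false

namespace Pool.Agent.Ndl

open MeasureTheory Finset Filter Topology Pool.Agent.StableGas Pool.Agent.SquareWell
open Pool.Agent.Kac (Tor cst)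
open Pool.Agent.Mix (Qr mem_Qr lay mem_lay)

variable {d : ℕ} {E : Type} [MeasurableSpace E] (M : Nx d E)

namespace MSB

theorem measurableSet_at {S : Set E} (mS : MeasurableSet S) (i : Zd d) :
    MeasurableSet {ω : Zd d → E | ω i ∈ S} := (measurable_pi_apply i) mS

theorem measurableSet_DD {D : Set E} (mD : MeasurableSet D) (A X : Finset (Zd d)) :
    MeasurableSet {ω : Zd d → E | DD D A ω = X} :=
  Pool.Agent.Mix.MC.filt (fun _ _ => mem_DD) fun i => measurableSet_at mD i

theorem measurableSet_VC {D W : Set E} (mD : MeasurableSet D) (mW : MeasurableSet W)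
    (A X : Finset (Zd d)) : MeasurableSet {ω : Zd d → E | VC D W A ω = X} := by
  refine Pool.Agent.Mix.MC.filt (P := fun i ω => ω i ∈ W ∧ ∀ j ∈ Nb i, j ∈ A → ω j ∉ D)
    (fun _ _ => mem_VC) fun i => ?_
  have e : {ω : Zd d → E | ω i ∈ W ∧ ∀ j ∈ Nb i, j ∈ A → ω j ∉ D} =
      {ω : Zd d → E | ω i ∈ W} ∩ ⋂ j ∈ Nb i, {ω : Zd d → E | j ∈ A → ω j ∉ D} := by
    ext ω
    simp only [Set.mem_ofPred_eq, Set.mem_inter_iff, Set.mem_iInter]
  rw [e]
  refine (measurableSet_at mW i).inter (Finset.measurableSet_biInter _ fun j _ => ?_)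
  by_cases hj : j ∈ A
  · have e2 : {ω : Zd d → E | j ∈ A → ω j ∉ D} = {ω : Zd d → E | ω j ∈ D}ᶜ := by
      ext ω
      simp [hj]
    rw [e2]
    exact (measurableSet_at mD j).compl
  · have e2 : {ω : Zd d → E | j ∈ A → ω j ∉ D} = Set.univ := by
      ext ω
      simp [hj]
    rw [e2]
    exact MeasurableSet.univ

theorem pattern {D W : Set E} (mD : MeasurableSet D) (mW : MeasurableSet W) (A : Finset (Zd d))
    (P : Finset (Zd d) → Finset (Zd d) → Prop) :
    MeasurableSet {ω : Zd d → E | P (DD D A ω) (VC D W A ω)} := by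
  classical
  have e : {ω : Zd d → E | P (DD D A ω) (VC D W A ω)} =
      ⋃ p ∈ (A.powerset ×ˢ A.powerset).filter (fun p => P p.1 p.2),
        ({ω : Zd d → E | DD D A ω = p.1} ∩ {ω : Zd d → E | VC D W A ω = p.2}) := by
    ext ω
    simp only [Set.mem_ofPred_eq, Set.mem_iUnion, mem_filter, mem_product, mem_powerset,
      Set.mem_inter_iff, exists_prop]
    constructor
    · intro h
      exact ⟨(DD D A ω, VC D W A ω), ⟨⟨fun i hi => (mem_DD.1 hi).1,
        fun i hi => (mem_VC.1 hi).1⟩, h⟩, rfl, rfl⟩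
    · rintro ⟨p, ⟨_, hp⟩, h1, h2⟩
      rw [h1, h2]
      exact hp
  rw [e]
  exact Finset.measurableSet_biUnion _ fun p _ =>
    (measurableSet_DD mD A p.1).inter (measurableSet_VC mD mW A p.2)

end MSB

theorem measurableSet_Class {D W : Set E} (mD : MeasurableSet D) (mW : MeasurableSet W)
    (A : Finset (Zd d)) (s : ℕ) (K : ℝ) (L Y DL OL : Finset (Zd d)) :
    MeasurableSet (Class M D W A s K L Y DL OL) := by
  have h := MSB.pattern mD mW A fun D' V =>
    Cut (rg M) A (fun i => i ∈ D') (fun i => i ∉ A ∨ i ∈ V) s L Y ∧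
      L ∩ D' = DL ∧ (L ∩ A) \ (D' ∪ V) = OL ∧
      ((∑ G ∈ ((SquareWell.bad (rg M) A (fun i => i ∈ D') fun i => i ∉ A ∨ i ∈ V).image
        (comp (SquareWell.bad (rg M) A (fun i => i ∈ D') fun i => i ∉ A ∨ i ∈ V))).filter
          (fun G => (fill G).card < s), (fill G).card : ℕ) : ℝ) ≤ K
  exact (Bas.measurableSet_cp M id A).inter h

end Pool.Agent.Ndl
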