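import Pool.Agent.Lib.MP_09cbbd_nd.MemA
import Pool.Agent.Lib.MP_09cbbd_nd.Msb
import Pool.Agent.Lib.MP_09cbbd_mix.Sum

/-!
# Sum over the classes
-/

set_option autoImplicit false

namespace Pool.Agent.Ndl

open MeasureTheory Finset Filter Topology Pool.Agent.StableGas Pool.Agent.SquareWell
open Pool.Agent.Kac (Tor cst)
open Pool.Agent.Mix (Qr mem_Qr lay mem_lay)

variable {d : ℕ} {E : Type} [MeasurableSpace E] (M : Nx d E)

namespace SUM

open Pool.Agent.Mix.SU (comp_L num_le mem_Fam)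

/-- Every compatible configuration lies in a class. -/
theorem ex_class {D W : Set E} {η δ c' : ℝ} (hlab : Lab M D W η δ c') (hd : 2 ≤ d)
    {A : Finset (Zd d)} (hA : NConn A) {ω : Zd d → E}
    (hω : M.cp id A ω) (s : ℕ) (K : ℝ)
    (hfill : ((∑ G ∈ ((badN M D W A ω).image (comp (badN M D W A ω))).filter
      (fun G => (fill G).card < s), (fill G).card : ℕ) : ℝ) ≤ K) :
    ∃ L Y DL OL, L ∈ Fam (fatr (rg M) A) s ∧ DL ⊆ L ∧ OL ⊆ L ∧
      num (badN M D W A ω) s ≤ num L s ∧ ω ∈ Class M D W A s K L Y DL OL := by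
  classical
  obtain ⟨L, Y, hcut⟩ := exists_cut (D := fun i => i ∈ DD D A ω)
    (V := fun i => i ∉ A ∨ i ∈ VC D W A ω) hd (r := rg M) (by unfold rg; omega) hA
    (fun i hi => (mem_DD.1 hi).1) (fun i hi => Or.inl hi)
    (fun i hi hV => by
      rcases hV with hV | hV
      · exact hV (mem_DD.1 hi).1
      · exact hlab.disj _ (mem_DD.1 hi).2 (mem_VC.1 hV).2.1) s
  have hL : ∀ x, x ∈ L ↔ x ∈ badN M D W A ω ∧ s ≤ (fill (comp (badN M D W A ω) x)).card :=
    hcut.mem_L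
  refine ⟨L, Y, L ∩ DD D A ω, (L ∩ A) \ (DD D A ω ∪ VC D W A ω), ?_, inter_subset_left,
    Finset.sdiff_subset.trans inter_subset_left, num_le hL, hω, hcut, rfl, rfl, hfill⟩
  rw [mem_Fam]
  constructor
  · intro x hx
    have h3 := ((hL x).1 hx).1
    unfold badN SquareWell.bad at h3
    exact (mem_filter.1 h3).1
  · intro x hx
    rw [comp_L hL hx]
    exact ((hL x).1 hx).2

theorem exists_class {D W : Set E} {η δ c' : ℝ} (hlab : Lab M D W η δ c') (hd : 2 ≤ d)
    {A : Finset (Zd d)} (hA : NConn A) {n : ℕ} (hn : 1 ≤ n)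
    {κ : ℝ} (hκ : 0 < κ) {ω : Zd d → E} (hω : M.cp id A ω) : ∃ s L Y DL OL, 1 ≤ s ∧
      (s = n ∨ (s < n ∧ κ * A.card ≤ 2 * s ^ 3 * num L s)) ∧
      L ∈ Fam (fatr (rg M) A) s ∧ DL ⊆ L ∧ OL ⊆ L ∧
      ω ∈ Class M D W A s (κ * A.card) L Y DL OL := by
  classical
  have hex : ∃ s, 1 ≤ s ∧ (s = n ∨ (s < n ∧ κ * A.card ≤ 2 * s ^ 3 * num (badN M D W A ω) s)) :=
    ⟨n, hn, Or.inl rfl⟩
  set s := Nat.find hex with hs
  obtain ⟨h1, h2⟩ := Nat.find_spec hex
  rw [← hs] at h1 h2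
  have hsm : s ≤ n := by rcases h2 with h2 | h2 <;> omega
  have hmin : ∀ s', 1 ≤ s' → s' < s →
      (2 : ℝ) * s' ^ 3 * num (badN M D W A ω) s' < κ * A.card := by
    intro s' h3 h4
    have h5 := Nat.find_min hex h4
    by_contra hcon
    exact h5 ⟨h3, Or.inr ⟨by omega, not_lt.1 hcon⟩⟩
  have hfill := Mix.fill_small' (badN M D W A ω) s (K := κ * A.card) (by positivity) hmin
  obtain ⟨L, Y, DL, OL, g1, g2, g3, g4, g5⟩ := ex_class M hlab hd hA hω s _ hfill
  refine ⟨s, L, Y, DL, OL, h1, ?_, g1, g2, g3, g5⟩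
  rcases h2 with h2 | h2
  · exact Or.inl h2
  · right
    refine ⟨h2.1, h2.2.trans ?_⟩
    have : (num (badN M D W A ω) s : ℝ) ≤ num L s := by exact_mod_cast g4
    exact mul_le_mul_of_nonneg_left this (by positivity)

variable {D W : Set E}

theorem class_sub {A : Finset (Zd d)} {s : ℕ} {K : ℝ} {L Y1 Y2 DL OL1 OL2 : Finset (Zd d)}
    {ω1 ω2 : Zd d → E} (h1 : ω1 ∈ Class M D W A s K L Y1 DL OL1)
    (h2 : ω2 ∈ Class M D W A s K L Y2 DL OL2) : Y2 ⊆ Y1 := by
  obtain ⟨_, c1, d1, _, _⟩ := h1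
  obtain ⟨_, c2, d2, _, _⟩ := h2
  have hnear : ∀ i j : Zd d, j ∈ Nb i → near (rg M) i j := by
    intro i j hj k
    rw [mem_Nb] at hj
    have h3 := hj k
    unfold rg
    push_cast
    rw [abs_le]
    constructor <;> omega
  refine c1.uniq Y2 ⟨fun x hx hxL => (Finset.disjoint_left.1 c2.Y_disj) hx hxL, ?_⟩ ?_
  · intro x hx y hyL hxy
    by_contra hy
    exact hyL (c2.nearY x hx y hy (hnear x y hxy.mem_Nb)).2.2
  · intro i hi j hj hij
    have hjY : j ∉ Y2 := fun h => (Finset.disjoint_left.1 c2.Y_disj) h hj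
    have h3 := (c2.nearY i hi j hjY (hnear i j hij)).2.1
    have h4 : j ∈ L ∩ DD D A ω2 := mem_inter.2 ⟨hj, h3⟩
    rw [d2, ← d1] at h4
    exact (mem_inter.1 h4).2

theorem class_uniq {A : Finset (Zd d)} {s : ℕ} {K : ℝ} {L Y1 Y2 DL OL1 OL2 : Finset (Zd d)}
    {ω1 ω2 : Zd d → E} (h1 : ω1 ∈ Class M D W A s K L Y1 DL OL1)
    (h2 : ω2 ∈ Class M D W A s K L Y2 DL OL2) : Y1 = Y2 :=
  Subset.antisymm (class_sub M h2 h1) (class_sub M h1 h2)

variable (D W)

open Classical in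
/-- The region `Y` of a nonempty class. -/
noncomputable def yy (A : Finset (Zd d)) (s : ℕ) (K : ℝ) (L DL OL : Finset (Zd d)) :
    Finset (Zd d) :=
  if h : ∃ Y, (Class M D W A s K L Y DL OL).Nonempty then h.choose else ∅

variable {D W}

theorem mem_yy {A : Finset (Zd d)} {s : ℕ} {K : ℝ} {L Y DL OL : Finset (Zd d)} {ω : Zd d → E}
    (h : ω ∈ Class M D W A s K L Y DL OL) :
    ω ∈ Class M D W A s K L (yy M D W A s K L DL OL) DL OL := by
  classical
  have hex : ∃ Y, (Class M D W A s K L Y DL OL).Nonempty := ⟨Y, ω, h⟩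
  have e : yy M D W A s K L DL OL = hex.choose := by
    unfold yy
    rw [dif_pos hex]
  obtain ⟨ω', hω'⟩ := hex.choose_spec
  rw [← e] at hω'
  rw [← class_uniq M h hω']
  exact h

variable (D W)

/-- Sum over all classes with given `s` and `L`. -/
noncomputable def gg (m z : ℝ) (A : Finset (Zd d)) (s : ℕ) (K : ℝ) (L : Finset (Zd d))
    (ω : Zd d → E) : ENNReal :=
  ∑ q ∈ L.powerset ×ˢ L.powerset,
    (Class M D W A s K L (yy M D W A s K L q.1 q.2) q.1 q.2).indicator (M.w m z A) ω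

variable {D W}

theorem measurable_gg (mD : MeasurableSet D) (mW : MeasurableSet W) (m z : ℝ) (A : Finset (Zd d))
    (s : ℕ) (K : ℝ) (L : Finset (Zd d)) : Measurable (gg M D W m z A s K L) := by
  unfold gg
  exact Finset.measurable_fun_sum _ fun q _ =>
    (Bas.measurable_w M m z A).indicator (measurableSet_Class M mD mW A s K L _ _ _)

theorem int_gg (mD : MeasurableSet D) (mW : MeasurableSet W) (m z : ℝ) (A : Finset (Zd d)) (s : ℕ)
    (K : ℝ) (L : Finset (Zd d)) {τ : ENNReal}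
    (hT : ∀ Y DL OL, M.int A ((Class M D W A s K L Y DL OL).indicator (M.w m z A)) ≤ τ) :
    M.int A (gg M D W m z A s K L) ≤ 4 ^ L.card * τ := by
  unfold gg
  rw [Bas.int_sum M (L.powerset ×ˢ L.powerset) fun q _ =>
    (Bas.measurable_w M m z A).indicator (measurableSet_Class M mD mW A s K L _ _ _)]
  refine (Finset.sum_le_card_nsmul _ _ τ fun q _ => hT _ _ _).trans ?_
  rw [card_product, card_powerset, nsmul_eq_mul, ← mul_pow]
  norm_num

theorem le_gg {m z : ℝ} {A : Finset (Zd d)} {s : ℕ} {K : ℝ} {L Y DL OL : Finset (Zd d)}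
    {ω : Zd d → E} (h : ω ∈ Class M D W A s K L Y DL OL) (h1 : DL ⊆ L) (h2 : OL ⊆ L) :
    M.w m z A ω ≤ gg M D W m z A s K L ω := by
  unfold gg
  have h3 : (DL, OL) ∈ L.powerset ×ˢ L.powerset :=
    mem_product.2 ⟨mem_powerset.2 h1, mem_powerset.2 h2⟩
  refine le_trans ?_ (Finset.single_le_sum (f := fun q : Finset (Zd d) × Finset (Zd d) =>
    (Class M D W A s K L (yy M D W A s K L q.1 q.2) q.1 q.2).indicator (M.w m z A) ω)
    (fun _ _ => zero_le) h3)
  rw [Set.indicator_of_mem (mem_yy M h)]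

end SUM

theorem sum_classes {D W : Set E} {η δ c' : ℝ} (hlab : Lab M D W η δ c') (hd : 2 ≤ d) (m z : ℝ)
    (A : Finset (Zd d)) (hA : NConn A) (n : ℕ) (hn : 1 ≤ n) {κ : ℝ} (hκ : 0 < κ)
    (T : ℕ → Finset (Zd d) → ENNReal)
    (hT : ∀ s L Y DL OL, M.int A ((Class M D W A s (κ * A.card) L Y DL OL).indicator
      (M.w m z A)) ≤ T s L) :
    M.xi m z A ≤
      ∑ s ∈ Finset.Ico 1 n, ∑ L ∈ (Fam (fatr (rg M) A) s).filter
        (fun L => κ * A.card ≤ 2 * s ^ 3 * num L s), 4 ^ L.card * T s L +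
      ∑ L ∈ Fam (fatr (rg M) A) n, 4 ^ L.card * T n L := by
  classical
  have mD := hlab.mD
  have mW := hlab.mW
  set F : ℕ → Finset (Finset (Zd d)) := fun s => (Fam (fatr (rg M) A) s).filter
    (fun L => κ * A.card ≤ 2 * s ^ 3 * num L s) with hF
  have hpt : ∀ ω, M.w m z A ω ≤
      (∑ s ∈ Finset.Ico 1 n, ∑ L ∈ F s, SUM.gg M D W m z A s (κ * A.card) L ω) +
      ∑ L ∈ Fam (fatr (rg M) A) n, SUM.gg M D W m z A n (κ * A.card) L ω := by
    intro ω
    by_cases hω : M.cp id A ω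
    · obtain ⟨s, L, Y, DL, OL, h1, h2, h3, h4, h5, h6⟩ := SUM.exists_class M hlab hd hA hn hκ hω
      have hle := SUM.le_gg M (m := m) (z := z) h6 h4 h5
      rcases h2 with rfl | ⟨h2, h7⟩
      · refine le_trans ?_ le_add_self
        exact hle.trans (Finset.single_le_sum
          (f := fun L => SUM.gg M D W m z A s (κ * A.card) L ω) (fun _ _ => zero_le) h3)
      · refine le_trans ?_ le_self_add
        refine hle.trans ?_
        have h8 : L ∈ F s := mem_filter.2 ⟨h3, h7⟩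
        refine (Finset.single_le_sum (f := fun L => SUM.gg M D W m z A s (κ * A.card) L ω)
          (fun _ _ => zero_le) h8).trans ?_
        exact Finset.single_le_sum
          (f := fun s => ∑ L ∈ F s, SUM.gg M D W m z A s (κ * A.card) L ω)
          (fun _ _ => zero_le) (Finset.mem_Ico.2 ⟨h1, h2⟩)
    · have h0 : M.w m z A ω = 0 := Bas.wG_of_not M id hω
      rw [h0]
      exact zero_le
  have hm2 : Measurable fun ω => ∑ s ∈ Finset.Ico 1 n, ∑ L ∈ F s,
      SUM.gg M D W m z A s (κ * A.card) L ω :=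
    Finset.measurable_fun_sum _ fun s _ => Finset.measurable_fun_sum _ fun L _ =>
      SUM.measurable_gg M mD mW m z A s _ L
  unfold Nx.xi
  refine (Bas.int_mono M A hpt).trans ?_
  rw [Bas.int_add M A hm2]
  rw [Bas.int_sum M (Finset.Ico 1 n) (fun s _ => Finset.measurable_fun_sum _ fun L _ =>
      SUM.measurable_gg M mD mW m z A s _ L),
    Bas.int_sum M (Fam (fatr (rg M) A) n) (fun L _ => SUM.measurable_gg M mD mW m z A n _ L)]
  refine add_le_add ?_ ?_
  · refine sum_le_sum fun s _ => ?_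
    rw [Bas.int_sum M (F s) (fun L _ => SUM.measurable_gg M mD mW m z A s _ L)]
    exact sum_le_sum fun L _ => SUM.int_gg M mD mW m z A s _ L fun Y DL OL => hT s L Y DL OL
  · exact sum_le_sum fun L _ => SUM.int_gg M mD mW m z A n _ L fun Y DL OL => hT n L Y DL OL

end Pool.Agent.Ndl
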