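import Pool.Agent.Lib.MP_09cbbd_nd.CB
import Pool.Agent.Lib.MP_09cbbd_nd.Sum
import Pool.Agent.Lib.MP_09cbbd_nd.PrC
import Pool.Agent.Lib.MP_09cbbd_mix.Est
import Pool.Agent.Lib.MP_09cbbd_mix.EntK

/-!
# The main estimate
-/

set_option autoImplicit false

namespace Pool.Agent.Ndl

open MeasureTheory Finset Filter Topology Pool.Agent.StableGas Pool.Agent.SquareWell
open Pool.Agent.Kac (Tor cst)
open Pool.Agent.Mix (Qr mem_Qr lay mem_lay)

variable {d : ℕ} {E : Type} [MeasurableSpace E] (M : Nx d E)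

theorem no_equal (d r : ℕ) (hd : 2 ≤ d) {θ c : ℝ} (hθ : 0 < θ) (hc : 0 < c) (hc1 : c ≤ 1) :
    ∃ P0 : ℝ, ∀ (E : Type) (_ : MeasurableSpace E) (M : Nx d E), M.r = r →
      ∀ (D W : Set E) (η δ c' : ℝ), Lab M D W η δ c' → η ≤ θ / 8 → δ ≤ θ / 8 →
      ∀ p : ℝ → ℝ → ℝ, M.IsP p → ∀ m z s F ε : ℝ, 0 ≤ ε → ε ≤ epsC d r * c → 0 < s → s ≤ z →
        Bnd M D W η c' θ c ε F (p m z) m z → θ * s ≤ ε * p m z → P0 ≤ p m z →
        ¬ (p m z - p (m - s) z = θ * s ∧ p m z - p m (z - s) = θ * s) := by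
  classical
  have hd1 : 1 ≤ d := by omega
  obtain ⟨κ, hκ⟩ : ∃ κ : ℝ, κ = θ / 32 := ⟨_, rfl⟩
  have hκ0 : 0 < κ := by rw [hκ]; positivity
  obtain ⟨τ0, hτ0⟩ := Mix.entropy' (d := d) hd hκ0
  obtain ⟨τ, hτ⟩ : ∃ τ : ℝ, τ = max τ0 1 := ⟨_, rfl⟩
  have hτ1 : 0 < τ := by rw [hτ]; exact lt_max_of_lt_right one_pos
  obtain ⟨he1, he2⟩ := hτ0 τ (by rw [hτ]; exact le_max_left _ _)
  have hR0 : 0 < cR d r := by unfold cR; positivity
  refine ⟨2 * cR d r * τ / c, ?_⟩
  intro E _ M hMr D W η δ c' hlab hη hδ p hp m z s F ε hε0 hε hs hsz hb hθs hP0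
  rintro ⟨h1, h2⟩
  have hz0 : 0 ≤ z := hs.le.trans hsz
  have hθs0 : 0 < θ * s := by positivity
  have hCB := class_bound M hd1 hp hlab hs hsz hθ.le hc.le hc1 hε0 (by rw [hMr]; exact hε) hb
    hθs h1 h2
  obtain ⟨k, hk1, hk⟩ := he2 (θ * s / 8) (by positivity)
  have hcP : τ ≤ c * p m z / (2 * cR d M.r) := by
    rw [hMr, le_div_iff₀ (by positivity)]
    rw [div_le_iff₀ hc] at hP0
    linarith
  -- the finite volumes
  obtain ⟨X, hX⟩ : ∃ X : ℕ → ℝ, X = fun n => s * (η + δ) * (SquareWell.bx d n).card +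
    3 * s * (κ * (SquareWell.bx d n).card) + (p m z - θ * s) * (SquareWell.bx d n).card +
    4 * (2 * M.r + 3 : ℝ) ^ d * p m z *
      ((lay (rg M) (SquareWell.bx d n)).card + (bd (SquareWell.bx d n)).card) := ⟨_, rfl⟩
  have hfin : ∀ᶠ n : ℕ in atTop, Real.log (M.xi m z (SquareWell.bx d n)).toReal ≤
      X n + (Real.log (k + 1) +
        θ * s / 8 * (fatr (rg M) (SquareWell.bx d n)).card) := by
    filter_upwards [Mix.eventually_fatr (d := d) hd1 (rg M)] with n hn
    have hsum := sum_classes M hlab hd m z (SquareWell.bx d n) (Mix.NConn_bx hd n) k hk1 hκ0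
      (fun _ L => ex (X n - τ * L.card)) (fun t L Y DL OL => by
        refine (hCB (SquareWell.bx d n) t _ L Y DL OL).trans (ex_le_ex.2 ?_)
        rw [hX]
        have h3 : τ * (L.card : ℝ) ≤ c * p m z / (2 * cR d M.r) * L.card :=
          mul_le_mul_of_nonneg_right hcP (Nat.cast_nonneg _)
        simp only
        linarith)
    have h3 : ∑ t ∈ Finset.Ico 1 k, ∑ L ∈ (Fam (fatr (rg M) (SquareWell.bx d n)) t).filter
        (fun L => κ * (SquareWell.bx d n).card ≤ 2 * t ^ 3 * num L t),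
          4 ^ L.card * ex (X n - τ * L.card) ≤ ex (X n) * k := by
      calc _ ≤ ∑ _t ∈ Finset.Ico 1 k, ex (X n) := by
            refine sum_le_sum fun t ht => ?_
            rw [Mix.MA.sum_T]
            have h4 := he1 t (Finset.mem_Ico.1 ht).1 (fatr (rg M) (SquareWell.bx d n))
              (SquareWell.bx d n).card hn
            calc _ ≤ ex (X n) * 1 := by
                  refine mul_le_mul' le_rfl ?_
                  rw [← ENNReal.ofReal_one]
                  exact ENNReal.ofReal_le_ofReal h4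
              _ = _ := mul_one _
        _ = ex (X n) * ((k - 1 : ℕ) : ENNReal) := by
            rw [sum_const, Nat.card_Ico, nsmul_eq_mul, mul_comm]
        _ ≤ _ := by
            refine mul_le_mul' le_rfl ?_
            exact_mod_cast Nat.sub_le k 1
    have h4 : ∑ L ∈ Fam (fatr (rg M) (SquareWell.bx d n)) k,
        4 ^ L.card * ex (X n - τ * L.card) ≤
        ex (X n) * ex (θ * s / 8 * (fatr (rg M) (SquareWell.bx d n)).card) := by
      rw [Mix.MA.sum_T]
      refine mul_le_mul' le_rfl ?_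
      unfold ex
      exact ENNReal.ofReal_le_ofReal (hk _)
    have h5 : (k : ENNReal) + ex (θ * s / 8 * (fatr (rg M) (SquareWell.bx d n)).card) ≤
        ex (Real.log (k + 1) + θ * s / 8 * (fatr (rg M) (SquareWell.bx d n)).card) := by
      have h6 : 1 ≤ ex (θ * s / 8 * (fatr (rg M) (SquareWell.bx d n)).card) :=
        one_le_ex.2 (by positivity)
      have h7 : ex (Real.log (k + 1)) = (k : ENNReal) + 1 := by
        unfold ex
        rw [Real.exp_log (by positivity), ENNReal.ofReal_add (by positivity) zero_le_one,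
          ENNReal.ofReal_natCast, ENNReal.ofReal_one]
      rw [ex_add, h7, add_mul, one_mul]
      refine add_le_add ?_ le_rfl
      calc (k : ENNReal) = k * 1 := (mul_one _).symm
        _ ≤ _ := mul_le_mul' le_rfl h6
    have h6 : M.xi m z (SquareWell.bx d n) ≤ ex (X n + (Real.log (k + 1) +
        θ * s / 8 * (fatr (rg M) (SquareWell.bx d n)).card)) := by
      rw [ex_add]
      refine hsum.trans ((add_le_add h3 h4).trans ?_)
      rw [← mul_add]
      exact mul_le_mul' le_rfl h5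
    have h7 := ENNReal.toReal_mono (ex_ne_top _) h6
    rw [ex_toReal] at h7
    have h8 := Real.log_le_log (Bas.xi_pos M m z _) h7
    rwa [Real.log_exp] at h8
  -- the limit
  have hlim : Tendsto (fun n : ℕ => (X n + (Real.log (k + 1) +
      θ * s / 8 * (fatr (rg M) (SquareWell.bx d n)).card)) / (n : ℝ) ^ d) atTop
      (𝓝 (s * (η + δ) + 3 * s * κ + (p m z - θ * s) +
        4 * (2 * M.r + 3 : ℝ) ^ d * p m z * (0 + 0) + (0 + θ * s / 8 * 1))) := by
    have hinf : Tendsto (fun n : ℕ => (n : ℝ) ^ d) atTop atTop :=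
      (tendsto_pow_atTop (by omega)).comp tendsto_natCast_atTop_atTop
    have g1 := Mix.tendsto_lay (d := d) hd1 (rg M)
    have g2 := Mix.tendsto_bd (d := d) hd1
    have g3 := Mix.tendsto_fatr (d := d) hd1 (rg M)
    have g4 : Tendsto (fun n : ℕ => Real.log (k + 1) / (n : ℝ) ^ d) atTop (𝓝 0) :=
      hinf.const_div_atTop _
    have g5 := ((tendsto_const_nhds (x := s * (η + δ) + 3 * s * κ + (p m z - θ * s))).add
      ((g1.add g2).const_mul (4 * (2 * M.r + 3 : ℝ) ^ d * p m z))).add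
      (g4.add (g3.const_mul (θ * s / 8)))
    refine g5.congr' ?_
    filter_upwards [eventually_ge_atTop 1] with n hn
    have hn0 : (0 : ℝ) < n := by exact_mod_cast hn
    rw [hX]
    simp only
    rw [Mix.card_bx_real]
    field_simp
  have hpz := hp m z
  rw [max_eq_left hz0] at hpz
  have hle : p m z ≤ s * (η + δ) + 3 * s * κ + (p m z - θ * s) +
      4 * (2 * M.r + 3 : ℝ) ^ d * p m z * (0 + 0) + (0 + θ * s / 8 * 1) := by
    refine le_of_tendsto_of_tendsto hpz hlim ?_
    filter_upwards [hfin] with n hn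
    exact div_le_div_of_nonneg_right hn (by positivity)
  have hηδ : s * (η + δ) ≤ s * (θ / 8 + θ / 8) :=
    mul_le_mul_of_nonneg_left (add_le_add hη hδ) hs.le
  rw [hκ] at hle
  nlinarith

end Pool.Agent.Ndl
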