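import Pool.Agent.Lib.MP_09cbbd_nd.ClsD

/-!
# Consequences of the membership in a class, I

ROW MEMA. rg M = 2 (r + 2). near_dense: i not in innk (r + 1) Y gives u in Q_(r+1) with i + u notin Y; for v in Q_r: if i + v in Y use Cut.nearY for the pair
(i + v, i + u) (near because |v - u| <= 2 r + 1), otherwise for (i, i + v). near_dilute: Cut.nearW (i notin Y, i notin L, j = i + v in A \ W2 = Y u L); a site
i + v outside A is in fatr (rg M) A, so in lay, so in X2. OL: from (L inter A) \ (DD u VC) = OL. size: Cut.size with D' = DD, V' = (fatr (rg M) A).filter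
(i notin A or i in VC): a dense block is never a neighbour of a block in VC, so a dense site of L with a V-neighbour is in bd A. See Mem.lean and Split.lean
(card_L_le) of MP_09cbbd_mix.
-/

set_option autoImplicit false

namespace Pool.Agent.Ndl

open MeasureTheory Finset Filter Topology Pool.Agent.StableGas Pool.Agent.SquareWell
open Pool.Agent.Kac (Tor cst)
open Pool.Agent.Mix (Qr mem_Qr lay mem_lay)

variable {d : ℕ} {E : Type} [MeasurableSpace E] (M : Nx d E)

variable {D W : Set E} {η δ c' : ℝ} {A : Finset (Zd d)} {s : ℕ} {K : ℝ} {L Y DL OL : Finset (Zd d)}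
  {ω : Zd d → E}

private theorem near_of_Qr {r k : ℕ} (hk : k ≤ r) {i v : Zd d} (hv : v ∈ Qr d k) :
    near r i (i + v) := by
  intro j
  have h1 := mem_Qr.1 hv j
  rw [Pi.add_apply, add_sub_cancel_left]
  refine h1.trans ?_
  exact_mod_cast hk

private theorem rg_ge : M.r + 2 ≤ rg M := by
  unfold rg
  omega

theorem near_dense (hω : ω ∈ Class M D W A s K L Y DL OL) {i : Zd d} (hi : i ∈ Y)
    (h : i ∉ innk (M.r + 1) Y) : ∀ v ∈ Qr d M.r, i + v ∈ A ∧ ω (i + v) ∈ D := by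
  obtain ⟨-, hcut, -, -, -⟩ := hω
  rw [mem_innk, not_and] at h
  have h1 := h hi
  push Not at h1
  obtain ⟨u, hu, hiu⟩ := h1
  intro v hv
  have hr := rg_ge M
  by_cases hY : i + v ∈ Y
  · have hn : near (rg M) (i + v) (i + u) := by
      have e : i + u = (i + v) + (u + -v) := by abel
      rw [e]
      refine near_of_Qr (k := M.r + 1 + M.r) (by unfold rg; omega) ?_
      exact Pool.Agent.Mix.Bas.add_mem_Qr hu (Pool.Agent.Mix.Bas.Qr_neg.2 hv)
    exact mem_DD.1 (hcut.nearY _ hY _ hiu hn).1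
  · exact mem_DD.1 (hcut.nearY _ hi _ hY (near_of_Qr (by omega) hv)).2.1

theorem Fr_rim (hlab : Lab M D W η δ c') (hω : ω ∈ Class M D W A s K L Y DL OL) {i : Zd d}
    (hi : i ∈ Y) (h : i ∉ innk (M.r + 1) Y) : M.Fr id A ω i ≤ η := by
  refine hlab.dense _ fun v hv => ?_
  have h1 := near_dense M hω hi h v hv
  unfold Nx.sh
  rw [if_pos (show i + id v ∈ A from h1.1)]
  exact h1.2

theorem near_dilute (hω : ω ∈ Class M D W A s K L Y DL OL) {i : Zd d} (hi : i ∈ W2 A L Y)
    (h : i ∉ innk M.r (X2 (rg M) A L Y)) : ω i ∈ W := by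
  obtain ⟨-, hcut, -, -, -⟩ := hω
  obtain ⟨hiA, hiY, hiL⟩ := mem_W2.1 hi
  rw [mem_innk, not_and] at h
  have h1 := h (mem_X2.2 (Or.inl hi))
  push Not at h1
  obtain ⟨v, hv, hiv⟩ := h1
  rw [mem_X2, not_or] at hiv
  have hr := rg_ge M
  have hn : near (rg M) i (i + v) := near_of_Qr (by omega) hv
  have hA : i + v ∈ A := by
    by_contra hc
    exact hiv.2 (mem_lay.2 ⟨SquareWell.Topo.mem_fatr.2 ⟨i, hiA, hn⟩, hc⟩)
  have h2 : i + v ∈ Y ∨ i + v ∈ L := by
    by_contra hc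
    rw [not_or] at hc
    exact hiv.1 (mem_W2.2 ⟨hA, hc.1, hc.2⟩)
  rcases (hcut.nearW i hiY hiL _ h2 hn).1 with h3 | h3
  · exact absurd hiA h3
  · exact (mem_VC.1 h3).2.1

theorem OL_cases (hlab : Lab M D W η δ c') (hω : ω ∈ Class M D W A s K L Y DL OL) {i : Zd d}
    (hi : i ∈ OL) : i ∈ L ∧ i ∈ A ∧
      (ω i ∈ (D ∪ W)ᶜ ∨ (ω i ∈ W ∧ M.Fr id A ω i ≤ 1 - c')) := by
  classical
  obtain ⟨-, -, -, hOL, -⟩ := hω
  rw [← hOL, Finset.mem_sdiff, mem_inter, mem_union, not_or] at hi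
  obtain ⟨⟨hiL, hiA⟩, hD, hV⟩ := hi
  refine ⟨hiL, hiA, ?_⟩
  have hD' : ω i ∉ D := fun h => hD (mem_DD.2 ⟨hiA, h⟩)
  by_cases hW : ω i ∈ W
  · right
    refine ⟨hW, ?_⟩
    have h1 : ¬ ∀ j ∈ Nb i, j ∈ A → ω j ∉ D := fun h => hV (mem_VC.2 ⟨hiA, hW, h⟩)
    push Not at h1
    obtain ⟨j, hj, hjA, hjD⟩ := h1
    refine hlab.near _ ?_ ⟨j - i, ?_, ?_⟩
    · unfold Nx.sh
      have e : i + id (0 : Zd d) = i := add_zero i
      rw [e, if_pos hiA]
      exact hW
    · rw [mem_Qr]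
      intro k
      have h2 := mem_Nb.1 hj k
      rw [Pi.sub_apply, abs_le]
      push_cast
      constructor
      · linarith [h2.1]
      · linarith [h2.2]
    · unfold Nx.sh
      have e : i + id (j - i) = j := add_sub_cancel i j
      rw [e, if_pos hjA]
      exact hjD
  · left
    intro h
    rcases h with h | h
    · exact hD' h
    · exact hW h

theorem card_L_le (hne : (Class M D W A s K L Y DL OL).Nonempty) :
    L.card ≤ (2 * rg M + 1) ^ d * (OL.card + (bd A).card) := by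
  classical
  obtain ⟨ω, hcp, hcut, hDL, hOL, -⟩ := hne
  have hV : ∀ i ∈ fatr (rg M) A,
      (i ∈ (fatr (rg M) A).filter (fun i => i ∉ A ∨ i ∈ VC D W A ω) ↔
        (i ∉ A ∨ i ∈ VC D W A ω)) := fun i hi => by
    rw [mem_filter]
    exact ⟨fun h1 => h1.2, fun h1 => ⟨hi, h1⟩⟩
  refine le_trans (hcut.size (DD D A ω) _ (fun i => Iff.rfl) hV) ?_
  refine Nat.mul_le_mul_left _ ?_
  rw [add_comm]
  refine add_le_add ?_ ?_
  · refine card_le_card fun i hi => ?_
    rw [Finset.mem_sdiff, Finset.mem_sdiff] at hi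
    obtain ⟨⟨hiL, hiD⟩, hiV⟩ := hi
    have hif : i ∈ fatr (rg M) A := by
      have h1 := ((hcut.mem_L i).1 hiL).1
      unfold SquareWell.bad at h1
      exact (mem_filter.1 h1).1
    rw [hV i hif, not_or, not_not] at hiV
    rw [← hOL, Finset.mem_sdiff, mem_inter, mem_union, not_or]
    exact ⟨⟨hiL, hiV.1⟩, hiD, hiV.2⟩
  · refine card_le_card fun i hi => ?_
    rw [mem_filter, mem_inter] at hi
    obtain ⟨⟨hiL, hiD⟩, j, hj, hjL, hjV⟩ := hi
    have hiA : i ∈ A := (mem_DD.1 hiD).1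
    rw [mem_bd]
    refine ⟨hiA, fun hc => ?_⟩
    have hjA : j ∈ A := hc hj
    rcases (mem_filter.1 hjV).2 with h1 | h1
    · exact h1 hjA
    · have h2 := (mem_VC.1 h1).2.2 i ?_ hiA
      · exact h2 (mem_DD.1 hiD).2
      · rw [mem_Nb] at hj ⊢
        intro k
        have := hj k
        constructor
        · linarith [this.2]
        · linarith [this.1]

end Pool.Agent.Ndl
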