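import Pool.Agent.Lib.MP_09cbbd_nd.ClsD

/-!
# Consequences of the membership in a class, II

ROW MEMB. sum_Fr: for i in innk (r + 1) Y, if w (i + v) in D for all v in Q_r then Fr id Y w i <= η (Lab.dense, sh id Y w i v = w (i + v)); the other i are of two
kinds: i not dense: at most K of them by Cut.small (D' = DD, V' = fatr-filter, or any V' with the right property); i dense with a site i + v in Y not
dense: then i is in badN (near i i, and a dense block is not in VC), not in L, so it lies in a component G with (fill G).card < s; their number is at most the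
sum of the G.card <= (fill G).card: at most K. Fr <= 1. sum_a: i in VC: a <= δ (Lab.small), the others are at most K (Cut.small), a <= 1.
See Mem.lean (cmb_sum, cmb_small, sum_nB_le, sum_nA_le) and Split.lean (card_XY_XW) of MP_09cbbd_mix.
-/

set_option autoImplicit false

namespace Pool.Agent.Ndl

open MeasureTheory Finset Filter Topology Pool.Agent.StableGas Pool.Agent.SquareWell
open Pool.Agent.Kac (Tor cst)
open Pool.Agent.Mix (Qr mem_Qr lay mem_lay)

variable {d : ℕ} {E : Type} [MeasurableSpace E] (M : Nx d E)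

variable {D W : Set E} {η δ c' : ℝ} {A : Finset (Zd d)} {s : ℕ} {K : ℝ} {L Y DL OL : Finset (Zd d)}
  {ω : Zd d → E}

private theorem memb_innk {k : ℕ} {X : Finset (Zd d)} {i : Zd d} (h : i ∈ innk k X) :
    i ∈ X ∧ ∀ v ∈ Qr d k, i + v ∈ X := by
  classical
  unfold innk at h
  exact mem_filter.1 h

private theorem memb_near {r k : ℕ} (hk : k ≤ r) {i v : Zd d} (hv : v ∈ Qr d k) :
    near r i (i + v) := by
  intro j
  have h1 := mem_Qr.1 hv j
  rw [Pi.add_apply, add_sub_cancel_left]
  refine h1.trans ?_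
  exact_mod_cast hk

private theorem memb_rg : M.r + 2 ≤ rg M := by
  unfold rg
  omega

private theorem memb_small (hω : ω ∈ Class M D W A s K L Y DL OL) :
    (((Y \ DD D A ω).card + ((A \ (Y ∪ L)) \ VC D W A ω).card : ℕ) : ℝ) ≤ K := by
  obtain ⟨-, hcut, -, -, hK⟩ := hω
  refine le_trans ?_ hK
  exact_mod_cast hcut.small (DD D A ω) (VC D W A ω) (fun i => Iff.rfl) fun i hi =>
    ⟨fun h => Or.inr h, fun h => h.resolve_left fun h' => h' hi⟩

private theorem memb_bad (hω : ω ∈ Class M D W A s K L Y DL OL) :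
    ((badN M D W A ω \ L).card : ℝ) ≤ K := by
  classical
  obtain ⟨-, hcut, -, -, hK⟩ := hω
  refine le_trans ?_ hK
  have h1 : badN M D W A ω \ L ⊆
      (((badN M D W A ω).image (comp (badN M D W A ω))).filter
        (fun G => (fill G).card < s)).biUnion id := by
    intro i hi
    rw [Finset.mem_sdiff] at hi
    rw [mem_biUnion]
    refine ⟨comp (badN M D W A ω) i, ?_, ?_⟩
    · rw [mem_filter]
      refine ⟨mem_image_of_mem _ hi.1, ?_⟩
      by_contra hc
      rw [not_lt] at hc
      exact hi.2 ((hcut.mem_L i).2 ⟨hi.1, hc⟩)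
    · rw [id, mem_comp]
      exact ⟨hi.1, Relation.ReflTransGen.refl⟩
  have h2 := (card_le_card h1).trans card_biUnion_le
  refine le_trans (Nat.cast_le.2 h2) ?_
  refine Nat.cast_le.2 (sum_le_sum fun G _ => card_le_card ?_)
  intro x hx
  unfold fill
  exact mem_union_left _ hx

theorem sum_Fr_le (hlab : Lab M D W η δ c') (hω : ω ∈ Class M D W A s K L Y DL OL) :
    ∑ i ∈ innk (M.r + 1) Y, M.Fr id Y ω i ≤ η * Y.card + 2 * K := by
  classical
  have hs := memb_small M hω
  have hb := memb_bad M hω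
  obtain ⟨-, hcut, -, -, -⟩ := hω
  have hr := memb_rg M
  set B : Finset (Zd d) := (Y \ DD D A ω) ∪ (badN M D W A ω \ L) with hB
  have hBc : (B.card : ℝ) ≤ 2 * K := by
    have h1 : (B.card : ℝ) ≤ ((Y \ DD D A ω).card : ℝ) + ((badN M D W A ω \ L).card : ℝ) := by
      exact_mod_cast card_union_le _ _
    push_cast at hs
    have h2 : (0 : ℝ) ≤ (((A \ (Y ∪ L)) \ VC D W A ω).card : ℝ) := Nat.cast_nonneg _
    linarith
  have key : ∀ i ∈ innk (M.r + 1) Y, M.Fr id Y ω i ≤ η + if i ∈ B then 1 else 0 := by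
    intro i hi
    obtain ⟨hiY, hiv⟩ := memb_innk hi
    by_cases hiB : i ∈ B
    · rw [if_pos hiB]
      have := Bas.Fr_le_one M id Y ω i
      linarith [hlab.η0]
    · rw [if_neg hiB, add_zero]
      refine hlab.dense _ fun v hv => ?_
      have hvY : i + v ∈ Y := hiv v (Pool.Agent.Mix.Bas.Qr_mono (by omega) hv)
      unfold Nx.sh
      rw [if_pos (show i + id v ∈ Y from hvY)]
      show ω (i + v) ∈ D
      rw [hB, mem_union, not_or, Finset.mem_sdiff, Finset.mem_sdiff, not_and, not_not, not_and,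
        not_not] at hiB
      have hiD : i ∈ DD D A ω := hiB.1 hiY
      by_contra hc
      have hbad : i ∈ badN M D W A ω := by
        unfold badN
        rw [SquareWell.Topo.mem_bad fun j hj => Or.inl hj]
        refine ⟨⟨i + v, memb_near (by omega) hv, fun h => hc (mem_DD.1 h).2⟩,
          ⟨i, SquareWell.Topo.near_self _ _, ?_⟩⟩
        rw [not_or, not_not]
        refine ⟨(mem_DD.1 hiD).1, fun h => ?_⟩
        exact hlab.disj _ (mem_DD.1 hiD).2 (mem_VC.1 h).2.1
      exact disjoint_left.1 hcut.Y_disj hiY (hiB.2 hbad)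
  have hsub : innk (M.r + 1) Y ⊆ Y := fun i hi => (memb_innk hi).1
  calc ∑ i ∈ innk (M.r + 1) Y, M.Fr id Y ω i
      ≤ ∑ i ∈ innk (M.r + 1) Y, (η + if i ∈ B then 1 else 0) := sum_le_sum key
    _ = η * (innk (M.r + 1) Y).card + ((innk (M.r + 1) Y).filter (fun i => i ∈ B)).card := by
        rw [sum_add_distrib, sum_const, nsmul_eq_mul, mul_comm, ← sum_filter, sum_const,
          nsmul_eq_mul, mul_one]
    _ ≤ η * Y.card + B.card := by
        refine add_le_add (mul_le_mul_of_nonneg_left ?_ hlab.η0) ?_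
        · exact_mod_cast card_le_card hsub
        · exact_mod_cast card_le_card fun i hi => (mem_filter.1 hi).2
    _ ≤ η * Y.card + 2 * K := by linarith

theorem sum_a_le (hlab : Lab M D W η δ c') (hω : ω ∈ Class M D W A s K L Y DL OL) :
    ∑ i ∈ W2 A L Y, M.a (ω i) ≤ δ * A.card + K := by
  classical
  have hs := memb_small M hω
  set B : Finset (Zd d) := (A \ (Y ∪ L)) \ VC D W A ω with hB
  have hBc : (B.card : ℝ) ≤ K := by
    push_cast at hs
    have h2 : (0 : ℝ) ≤ ((Y \ DD D A ω).card : ℝ) := Nat.cast_nonneg _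
    linarith
  have key : ∀ i ∈ W2 A L Y, M.a (ω i) ≤ δ + if i ∈ B then 1 else 0 := by
    intro i hi
    by_cases hiB : i ∈ B
    · rw [if_pos hiB]
      linarith [hlab.δ0, M.a_le (ω i)]
    · rw [if_neg hiB, add_zero]
      rw [hB, Finset.mem_sdiff, not_and, not_not] at hiB
      exact hlab.small _ (mem_VC.1 (hiB hi)).2.1
  have hsub : W2 A L Y ⊆ A := fun i hi => (mem_W2.1 hi).1
  calc ∑ i ∈ W2 A L Y, M.a (ω i) ≤ ∑ i ∈ W2 A L Y, (δ + if i ∈ B then 1 else 0) :=
        sum_le_sum key
    _ = δ * (W2 A L Y).card + ((W2 A L Y).filter (fun i => i ∈ B)).card := by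
        rw [sum_add_distrib, sum_const, nsmul_eq_mul, mul_comm, ← sum_filter, sum_const,
          nsmul_eq_mul, mul_one]
    _ ≤ δ * A.card + B.card := by
        refine add_le_add (mul_le_mul_of_nonneg_left ?_ hlab.δ0) ?_
        · exact_mod_cast card_le_card hsub
        · exact_mod_cast card_le_card fun i hi => (mem_filter.1 hi).2
    _ ≤ δ * A.card + K := by linarith

private theorem memb_Nb_symm {i j : Zd d} (h : j ∈ Nb i) : i ∈ Nb j := by
  rw [mem_Nb] at h ⊢
  intro k
  have := h k
  constructor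
  · linarith [this.2]
  · linarith [this.1]

private theorem memb_card_Nb (i : Zd d) : (Nb i).card = 3 ^ d := by
  unfold Nb
  rw [Fintype.card_piFinset]
  have h : ∀ k : Fin d, (Finset.Icc (i k - 1) (i k + 1)).card = 3 := by
    intro k
    rw [Int.card_Icc]
    have : i k + 1 + 1 - (i k - 1) = 3 := by ring
    rw [this]
    rfl
  simp only [h, prod_const, card_univ, Fintype.card_fin]

private theorem memb_biUnion (L : Finset (Zd d)) : (L.biUnion Nb).card ≤ 3 ^ d * L.card := by
  classical
  refine card_biUnion_le.trans ?_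
  simp only [memb_card_Nb, sum_const, smul_eq_mul]
  rw [mul_comm]

theorem card_bd_Y (hne : (Class M D W A s K L Y DL OL).Nonempty) :
    (bd Y).card ≤ 3 ^ d * L.card := by
  classical
  obtain ⟨ω, hcp, hcut, hDL, hOL, -⟩ := hne
  refine le_trans (card_le_card ?_) (memb_biUnion L)
  intro i hi
  rw [mem_bd] at hi
  obtain ⟨hiY, hsub⟩ := hi
  rw [not_subset] at hsub
  obtain ⟨j, hj, hjY⟩ := hsub
  have hr := memb_rg M
  have h1 := hcut.nearY i hiY j hjY (SquareWell.Topo.near_Nb (by omega) hj)
  rw [mem_biUnion]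
  exact ⟨j, h1.2.2, memb_Nb_symm hj⟩

theorem card_bd_X2 (hne : (Class M D W A s K L Y DL OL).Nonempty) :
    (bd (X2 (rg M) A L Y)).card ≤ (lay (rg M) A).card + 3 ^ d * L.card := by
  classical
  obtain ⟨ω, hcp, hcut, hDL, hOL, -⟩ := hne
  refine le_trans (card_le_card (fun i hi => ?_ : _ ⊆ lay (rg M) A ∪ L.biUnion Nb))
    ((card_union_le _ _).trans (Nat.add_le_add_left (memb_biUnion L) _))
  rw [mem_bd] at hi
  obtain ⟨hiX, hsub⟩ := hi
  rw [mem_union]
  rcases mem_X2.1 hiX with hiW | hil
  · right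
    rw [not_subset] at hsub
    obtain ⟨j, hj, hjX⟩ := hsub
    rw [mem_X2, not_or] at hjX
    obtain ⟨hiA, hiY, hiL⟩ := mem_W2.1 hiW
    have hr := memb_rg M
    have hn : near (rg M) i j := SquareWell.Topo.near_Nb (by omega) hj
    have hjA : j ∈ A := by
      by_contra hc
      exact hjX.2 (mem_lay.2 ⟨SquareWell.Topo.mem_fatr.2 ⟨i, hiA, hn⟩, hc⟩)
    have h2 : j ∈ Y ∨ j ∈ L := by
      by_contra hc
      rw [not_or] at hc
      exact hjX.1 (mem_W2.2 ⟨hjA, hc.1, hc.2⟩)
    have h3 := hcut.nearW i hiY hiL j h2 hn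
    rw [mem_biUnion]
    exact ⟨j, h3.2.2, memb_Nb_symm hj⟩
  · exact Or.inl hil

theorem card_parts (hne : (Class M D W A s K L Y DL OL).Nonempty) :
    Y.card + (X2 (rg M) A L Y).card + ((L ∩ A) \ OL).card + OL.card =
      A.card + (lay (rg M) A).card := by
  classical
  obtain ⟨ω, hcp, hcut, hDL, hOL, -⟩ := hne
  have hOLs : OL ⊆ L ∩ A := by
    rw [← hOL]
    exact Finset.sdiff_subset
  have h1 : ((L ∩ A) \ OL).card + OL.card = (L ∩ A).card := card_sdiff_add_card_eq_card hOLs
  have h2 : (X2 (rg M) A L Y).card = (W2 A L Y).card + (lay (rg M) A).card := by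
    unfold X2
    rw [card_union_of_disjoint]
    rw [disjoint_left]
    intro i hi hl
    exact (mem_lay.1 hl).2 (mem_W2.1 hi).1
  have h3 : (W2 A L Y).card + (Y ∪ (L ∩ A)).card = A.card := by
    have e : W2 A L Y = A \ (Y ∪ (L ∩ A)) := by
      ext i
      rw [mem_W2, Finset.mem_sdiff, mem_union, mem_inter]
      tauto
    rw [e]
    apply card_sdiff_add_card_eq_card
    exact union_subset hcut.Y_sub inter_subset_right
  have h4 : (Y ∪ (L ∩ A)).card = Y.card + (L ∩ A).card := by
    apply card_union_of_disjoint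
    exact disjoint_of_subset_right inter_subset_left hcut.Y_disj
  omega

end Pool.Agent.Ndl
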