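import Pool.Agent.Lib.MP_09cbbd_nd.PrA

/-!
# Existence of the pressure

ROW PRB. Adapt MP_09cbbd_mix/Pres.lean (xi_box lines 164-210, then exists_p lines 283-320; use Mix.lim_exists from MP_09cbbd_mix/Pres.lean verbatim, or
P1c.lim_exists, whatever its name is there). Everything at the fixed value max z 0 >= 0: log xi (bx n) >= 0 (Bas.log_xi_nonneg), xi_box by xi_biUnion and
xi_mono (boxes of side n separated by gaps r), upper bound by Bas.xi_le.
-/

set_option autoImplicit false

namespace Pool.Agent.Ndl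

open MeasureTheory Finset Filter Topology Pool.Agent.StableGas Pool.Agent.SquareWell
open Pool.Agent.Kac (Tor cst)
open Pool.Agent.Mix (Qr mem_Qr)

variable {d : ℕ} {E : Type} [MeasurableSpace E] (M : Nx d E)

namespace PRB

theorem xi_box {z : ℝ} (hz : 0 ≤ z) (m : ℝ) (k L : ℕ) :
    M.xi m z (bx d L) ^ (k ^ d) ≤ M.xi m z (bx d (k * (L + M.r))) := by
  classical
  set B : Zd d → Finset (Zd d) := fun u => (bx d L).image fun i => i + ((L : ℤ) + M.r) • u with hB
  have hr : (1 : ℤ) ≤ M.r := by exact_mod_cast M.hr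
  have hmem : ∀ u i, i ∈ B u → ∀ q, (L + M.r) * u q ≤ i q ∧ i q < (L + M.r) * u q + L := by
    intro u i hi q
    obtain ⟨j, hj, rfl⟩ := mem_image.1 hi
    have := Pool.Agent.Mix.P1b.mem_bx.1 hj q
    simp only [Pi.add_apply, Pi.smul_apply, smul_eq_mul]
    constructor <;> linarith [this.1, this.2]
  have hfar : ∀ u ∈ bx d k, ∀ u' ∈ bx d k, u ≠ u' → ∀ i ∈ B u, ∀ j ∈ B u', j - i ∉ Qr d M.r := by
    intro u _ u' _ huu i hi j hj hij
    apply huu
    funext q
    have h2 := hmem u i hi q
    have h3 := hmem u' j hj q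
    have h4 := abs_le.1 (mem_Qr.1 hij q)
    simp only [Pi.sub_apply] at h4
    rcases lt_trichotomy (u q) (u' q) with h | h | h
    · exfalso
      have h5 : ((L : ℤ) + M.r) * (u q + 1) ≤ (L + M.r) * u' q :=
        mul_le_mul_of_nonneg_left (by omega) (by positivity)
      linarith [h4.1, h4.2, h2.1, h2.2, h3.1, h3.2]
    · exact h
    · exfalso
      have h5 : ((L : ℤ) + M.r) * (u' q + 1) ≤ (L + M.r) * u q :=
        mul_le_mul_of_nonneg_left (by omega) (by positivity)
      linarith [h4.1, h4.2, h2.1, h2.2, h3.1, h3.2]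
  have h1 := xi_biUnion M hz m (bx d k) B (by
    intro u hu u' hu' huu
    refine ⟨?_, hfar u hu u' hu' huu⟩
    rw [disjoint_left]
    intro i hi hj
    refine hfar u hu u' hu' huu i hi i hj ?_
    rw [sub_self]
    exact Pool.Agent.Mix.Bas.zero_mem_Qr _)
  have h2 : ∏ u ∈ bx d k, M.xi m z (B u) = M.xi m z (bx d L) ^ (k ^ d) := by
    rw [prod_congr rfl fun u _ => xi_shift M m z (bx d L) (((L : ℤ) + M.r) • u), prod_const,
      Pool.Agent.Mix.P1b.card_bx]
  rw [← h2]
  refine h1.trans (xi_mono M hz m ?_)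
  intro i hi
  obtain ⟨u, hu, hiu⟩ := mem_biUnion.1 hi
  rw [Pool.Agent.Mix.P1b.mem_bx] at hu ⊢
  intro q
  have h3 := hmem u i hiu q
  have h4 := hu q
  push_cast
  constructor
  · have : (0 : ℤ) ≤ (L + M.r) * u q := mul_nonneg (by positivity) h4.1
    linarith
  · have h5 : ((L : ℤ) + M.r) * (u q + 1) ≤ (L + M.r) * k :=
      mul_le_mul_of_nonneg_left (by omega) (by positivity)
    linarith

theorem log_xi_le (m z : ℝ) (A : Finset (Zd d)) : Real.log (M.xi m z A).toReal ≤
    Real.log (ex (|m| + |z|) * M.π Set.univ).toReal * A.card := by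
  have h := ENNReal.toReal_mono (ENNReal.pow_ne_top (ENNReal.mul_ne_top (ex_ne_top _) M.π_fin))
    (Bas.xi_le M m z A)
  rw [ENNReal.toReal_pow] at h
  have h2 := Real.log_le_log (Bas.xi_pos M m z A) h
  rw [Real.log_pow] at h2
  linarith

end PRB

theorem exists_p (hd : 1 ≤ d) : ∃ p, M.IsP p := by
  have h : ∀ m z : ℝ, ∃ s, Tendsto (fun L : ℕ => Real.log (M.xi m (max z 0) (bx d L)).toReal /
      (L : ℝ) ^ d) atTop (𝓝 s) := by
    intro m z
    have hz : 0 ≤ max z 0 := le_max_right _ _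
    refine Pool.Agent.Mix.P1b.lim_exists hd M.hr _ (fun L => Bas.log_xi_nonneg M hz m _)
      (fun L L' hL => ?_) (fun k L => ?_)
      (Real.log (ex (|m| + |max z 0|) * M.π Set.univ).toReal) (fun L => ?_)
    · refine Real.log_le_log (Bas.xi_pos M m _ _) (ENNReal.toReal_mono (Bas.xi_ne_top M m _ _)
        (xi_mono M hz m fun i hi => ?_))
      rw [Pool.Agent.Mix.P1b.mem_bx] at hi ⊢
      intro k
      have := hi k
      constructor <;> omega
    · have h1 := ENNReal.toReal_mono (Bas.xi_ne_top M m _ _) (PRB.xi_box M hz m k L)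
      rw [ENNReal.toReal_pow] at h1
      have h2 := Real.log_le_log (pow_pos (Bas.xi_pos M m _ _) _) h1
      rw [Real.log_pow] at h2
      push_cast at h2
      exact h2
    · have h1 := PRB.log_xi_le M m (max z 0) (bx d L)
      rw [Pool.Agent.Mix.P1b.card_bx] at h1
      push_cast at h1
      exact h1
  choose p hp using h
  exact ⟨p, hp⟩

end Pool.Agent.Ndl
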