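import Pool.Agent.Lib.MP_09cbbd_nd.RgD

/-!
# The labels of the blocks, and the masses

ROW RGA. lab_of: dense = P4, near = P2 (x ^ (4 d + 2) <= x ^ (4 d) since 0 < x <= 1), small = Blk.a_le, disj: x ^ (4 d + 2) < 1 - x ^ (4 d). tot_le_of: the set
{y : oc y in T} is the union over k in T, k <= K^d, of {oc = k}; tot m z {oc = k} <= ex (z g k) * lam m {oc = k} (own y <= g (oc y), 0 <= z); Blk.mass; the
number of the k is at most K^d + 1 <= ex (K^d).
-/

set_option autoImplicit false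

namespace Pool.Agent.Ndl

open MeasureTheory Finset Filter Topology Pool.Agent.StableGas Pool.Agent.SquareWell

variable {d : ℕ} {E : Type} [MeasurableSpace E] {M : Nx d E} {oc : E → ℕ} {K : ℕ}
  {NN vl vh V x c C ε : ℝ}

theorem lab_of (hb : Blk M oc K NN vl vh V) (hg : Geo M oc K x c C ε) (hx : 0 < x)
    (hx1 : 2 * x ^ (4 * d) < 1) (hx2 : x ≤ 1) (hC : 0 ≤ C) :
    Lab M (Dn d K oc x) (Dl d K oc x) (C * x ^ (4 * d + 4)) (x ^ (4 * d + 2)) c := by
  have hm : Measurable fun y => (oc y : ℝ) / (K : ℝ) ^ d :=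
    ((measurable_from_top (f := (Nat.cast : ℕ → ℝ))).comp hb.mo).div_const _
  have hpow : x ^ (4 * d + 2) ≤ x ^ (4 * d) :=
    pow_le_pow_of_le_one hx.le hx2 (Nat.le_add_right _ _)
  refine ⟨?_, ?_, ?_, ?_, ?_, ?_, ?_, ?_, ?_⟩
  · exact measurableSet_le measurable_const hm
  · exact measurableSet_le hm measurable_const
  · intro y hy hy'
    have h1 : 1 - x ^ (4 * d) ≤ (oc y : ℝ) / (K : ℝ) ^ d := hy
    have h2 : (oc y : ℝ) / (K : ℝ) ^ d ≤ x ^ (4 * d + 2) := hy'
    linarith
  · show (oc M.e0 : ℝ) / (K : ℝ) ^ d ≤ x ^ (4 * d + 2)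
    rw [hb.oc_e0, Nat.cast_zero, zero_div]
    positivity
  · intro ω h
    exact hg.P4 ω h
  · intro ω h1 h2
    have h3 : (oc (ω 0) : ℝ) / (K : ℝ) ^ d ≤ x ^ (4 * d + 2) := h1
    exact hg.P2 ω (h3.trans hpow) h2
  · intro y hy
    exact (hb.a_le y).trans hy
  · positivity
  · positivity

theorem tot_le_of (hb : Blk M oc K NN vl vh V) {p : ℝ → ℝ → ℝ} (hp : M.IsP p) {m z B : ℝ}
    (hz : 0 ≤ z) (g : ℕ → ℝ) (T : Set ℕ) (hg : ∀ y, oc y ∈ T → M.own y ≤ g (oc y))
    (hB : ∀ k ∈ T, k ≤ K ^ d → k * (p m 0 / (K : ℝ) ^ d) + z * g k ≤ B) :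
    M.tot m z {y | oc y ∈ T} ≤
      ex (2 * (K : ℝ) ^ d + (K : ℝ) ^ d * (Real.exp (m / NN) * vl) + B) := by
  classical
  set f : E → ENNReal := fun y => M.st m y * ex (z * M.own y) with hf
  have hfm : Measurable f := (Bas.measurable_st M m).mul
    (Pool.Agent.Mix.Bas.measurable_ex ((Bas.measurable_own M).const_mul z))
  set F : Finset ℕ := (Finset.range (K ^ d + 1)).filter (· ∈ T) with hF
  have hset : ∀ k : ℕ, MeasurableSet {y | oc y = k} := fun k =>
    hb.mo (measurableSet_singleton k)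
  have hT : MeasurableSet {y | oc y ∈ T} := hb.mo (MeasurableSet.of_discrete (s := T))
  -- each value of the number of occupied cells
  have hk : ∀ k ∈ F, ∫⁻ y in {y | oc y = k}, f y ∂M.π ≤
      ex ((K : ℝ) ^ d + (K : ℝ) ^ d * (Real.exp (m / NN) * vl) + B) := by
    intro k hk
    rw [hF, Finset.mem_filter, Finset.mem_range] at hk
    obtain ⟨hk1, hk2⟩ := hk
    have hk3 : k ≤ K ^ d := by omega
    calc ∫⁻ y in {y | oc y = k}, f y ∂M.π
        ≤ ∫⁻ y in {y | oc y = k}, ex (z * g k) * M.st m y ∂M.π := by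
          refine setLIntegral_mono' (hset k) fun y hy => ?_
          have hy' : oc y = k := hy
          show M.st m y * ex (z * M.own y) ≤ ex (z * g k) * M.st m y
          rw [mul_comm (ex (z * g k))]
          refine mul_le_mul' le_rfl (ex_le_ex.2 ?_)
          refine mul_le_mul_of_nonneg_left ?_ hz
          have := hg y (by rw [hy']; exact hk2)
          rwa [hy'] at this
      _ = ex (z * g k) * M.lam m {y | oc y = k} := by
          rw [lintegral_const_mul _ (Bas.measurable_st M m)]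
          rfl
      _ ≤ ex (z * g k) *
            ex ((K : ℝ) ^ d + k * (p m 0 / (K : ℝ) ^ d) + (K : ℝ) ^ d * (Real.exp (m / NN) * vl)) :=
          mul_le_mul' le_rfl (hb.mass p hp m k hk3)
      _ = ex (z * g k +
            ((K : ℝ) ^ d + k * (p m 0 / (K : ℝ) ^ d) + (K : ℝ) ^ d * (Real.exp (m / NN) * vl))) :=
          (ex_add _ _).symm
      _ ≤ _ := by
          rw [ex_le_ex]
          have := hB k hk2 hk3
          linarith
  have hcard : (F.card : ENNReal) ≤ ex ((K : ℝ) ^ d) := by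
    have h1 : F.card ≤ K ^ d + 1 := by
      refine (Finset.card_filter_le _ _).trans ?_
      rw [Finset.card_range]
    have h2 : (F.card : ℝ) ≤ Real.exp ((K : ℝ) ^ d) := by
      calc (F.card : ℝ) ≤ ((K ^ d + 1 : ℕ) : ℝ) := by exact_mod_cast h1
        _ = (K : ℝ) ^ d + 1 := by push_cast; rfl
        _ ≤ _ := Real.add_one_le_exp _
    unfold ex
    rw [← ENNReal.ofReal_natCast]
    exact ENNReal.ofReal_le_ofReal h2
  calc M.tot m z {y | oc y ∈ T} = ∫⁻ y, ({y | oc y ∈ T}).indicator f y ∂M.π := by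
        rw [lintegral_indicator hT]
        rfl
    _ ≤ ∫⁻ y, ∑ k ∈ F, ({y | oc y = k}).indicator f y ∂M.π := by
        refine lintegral_mono fun y => ?_
        by_cases hy : oc y ∈ T
        · have hyF : oc y ∈ F := by
            rw [hF, Finset.mem_filter, Finset.mem_range]
            exact ⟨by have := hb.oc_le y; omega, hy⟩
          rw [Set.indicator_of_mem (show y ∈ {y | oc y ∈ T} from hy)]
          refine le_trans ?_ (Finset.single_le_sum (fun _ _ => zero_le) hyF)
          rw [Set.indicator_of_mem (show y ∈ {y' | oc y' = oc y} from rfl)]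
        · rw [Set.indicator_of_notMem (show y ∉ {y | oc y ∈ T} from hy)]
          exact zero_le
    _ = ∑ k ∈ F, ∫⁻ y in {y | oc y = k}, f y ∂M.π := by
        rw [lintegral_finsetSum _ fun k _ => hfm.indicator (hset k)]
        refine Finset.sum_congr rfl fun k _ => ?_
        rw [lintegral_indicator (hset k)]
    _ ≤ ∑ k ∈ F, ex ((K : ℝ) ^ d + (K : ℝ) ^ d * (Real.exp (m / NN) * vl) + B) :=
        Finset.sum_le_sum hk
    _ = F.card * ex ((K : ℝ) ^ d + (K : ℝ) ^ d * (Real.exp (m / NN) * vl) + B) := by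
        rw [Finset.sum_const, nsmul_eq_mul]
    _ ≤ ex ((K : ℝ) ^ d) * ex ((K : ℝ) ^ d + (K : ℝ) ^ d * (Real.exp (m / NN) * vl) + B) :=
        mul_le_mul' hcard le_rfl
    _ = _ := by
        rw [← ex_add]
        congr 1
        ring

end Pool.Agent.Ndl
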