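import Pool.Agent.Lib.MP_09cbbd_nd.RgA
import Pool.Agent.Lib.MP_09cbbd_nd.PrC

/-!
# The bounds of `Reg`

ROW RGB. Q = max (p m 0) z, q = p m 0 >= 0, κ = oc / K^d in [0, 1]. hs: everything of the form 2 K^d + K^d e^(m/NN) vl is <= s z <= s Q (exp is monotone, m <= M1).
 tot_le: T = univ, g k = 1 + ε0 - k / K^d: k (q / K^d) + z (1 + ε0 - k / K^d) <= (1 + ε0) Q; σ = ε0 + s.
 bad_le, first part: T = {k : x^(4d+2) < k / K^d < 1 - x^(4d)}, g k = 1 - c x^(4d) - k / K^d: <= (1 - c x^(4d)) Q; second part: lam m W <= tot m 0 W (g = 0,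
 z = 0) <= ex (s Q + x^(4d+2) Q), times ex (z (1 - c)) <= ex ((1 - c) Q) (c <= 1); each part is <= ex ((1 - c x^(4d) / 2) Q - log 2) by hs2, hs3; sum <= ex (..).
 zθ, zη: z <= Q. rim: e^(m/NN) vh <= e^(M1/NN) vh <= ε z. lamF: (m - F) / NN <= (M1 - F) / NN. lamW: as above, s + x^(4d+2) <= ε.
-/

set_option autoImplicit false

namespace Pool.Agent.Ndl

open MeasureTheory Finset Filter Topology Pool.Agent.StableGas Pool.Agent.SquareWell

variable {d : ℕ} {E : Type} [MeasurableSpace E] {M : Nx d E} {oc : E → ℕ} {K : ℕ}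
  {NN vl vh V x c C ε0 : ℝ}

private theorem rgb_lam (hb : Blk M oc K NN vl vh V) {p : ℝ → ℝ → ℝ} (hp : M.IsP p)
    {m M1 s z x : ℝ} (hm : m ≤ M1) (hx : 0 < x) (hz : 0 < z)
    (hs : 2 * (K : ℝ) ^ d + (K : ℝ) ^ d * (Real.exp (M1 / NN) * vl) ≤ s * z) :
    M.lam m (Dl d K oc x) ≤ ex (s * z + x ^ (4 * d + 2) * max (p m 0) z) := by
  have hp0 : 0 ≤ p m 0 := le_trans (le_max_right _ _) (hp.ge m 0)
  have hKd : 0 ≤ (K : ℝ) ^ d := by positivity
  have hexp : Real.exp (m / NN) ≤ Real.exp (M1 / NN) :=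
    Real.exp_le_exp.2 (div_le_div_of_nonneg_right hm hb.NN0.le)
  have h1 : (K : ℝ) ^ d * (Real.exp (m / NN) * vl) ≤ (K : ℝ) ^ d * (Real.exp (M1 / NN) * vl) :=
    mul_le_mul_of_nonneg_left (mul_le_mul_of_nonneg_right hexp hb.vl0) hKd
  have h2 := tot_le_of hb hp (m := m) (z := 0) (B := x ^ (4 * d + 2) * max (p m 0) z) le_rfl
    (fun _ => 1) {k : ℕ | (k : ℝ) / (K : ℝ) ^ d ≤ x ^ (4 * d + 2)} (fun y _ => Bas.own_le_one M y)
    (fun k hk _ => by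
      have hk' : (k : ℝ) / (K : ℝ) ^ d ≤ x ^ (4 * d + 2) := hk
      rw [zero_mul, add_zero]
      calc (k : ℝ) * (p m 0 / (K : ℝ) ^ d) = (k : ℝ) / (K : ℝ) ^ d * p m 0 := by ring
        _ ≤ x ^ (4 * d + 2) * p m 0 := mul_le_mul_of_nonneg_right hk' hp0
        _ ≤ x ^ (4 * d + 2) * max (p m 0) z :=
            mul_le_mul_of_nonneg_left (le_max_left _ _) (by positivity))
  have h3 : M.lam m (Dl d K oc x) ≤ M.tot m 0 {y | oc y ∈ {k : ℕ | (k : ℝ) / (K : ℝ) ^ d ≤ x ^ (4 * d + 2)}} := by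
    unfold Nx.lam Nx.tot
    refine le_of_eq ?_
    have e : Dl d K oc x = {y | oc y ∈ {k : ℕ | (k : ℝ) / (K : ℝ) ^ d ≤ x ^ (4 * d + 2)}} := rfl
    rw [e]
    refine lintegral_congr fun y => ?_
    rw [zero_mul, ex_zero, mul_one]
  refine h3.trans (h2.trans ?_)
  rw [ex_le_ex]
  linarith

theorem reg_of (hb : Blk M oc K NN vl vh V) (hg : Geo M oc K x c C ε0) (hx : 0 < x) (hx2 : x ≤ 1)
    (hx1 : 2 * x ^ (4 * d) < 1) (hC : 0 ≤ C) (hc : 0 < c) (hc1 : c ≤ 1) (hε0 : 0 ≤ ε0)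
    {p : ℝ → ℝ → ℝ} (hp : M.IsP p) {m z M1 s ε F : ℝ} (hm : m ≤ M1) (hz : 0 < z)
    (hs0 : 0 ≤ s)
    (hs : 2 * (K : ℝ) ^ d + (K : ℝ) ^ d * (Real.exp (M1 / NN) * vl) ≤ s * z)
    (hs2 : s * z + Real.log 2 ≤ c * x ^ (4 * d) / 2 * z)
    (hs3 : s * z + Real.log 2 + x ^ (4 * d + 2) * z + c * x ^ (4 * d) / 2 * z ≤ c * z)
    (hs4 : s + x ^ (4 * d + 2) ≤ ε) (hθ : x ^ (4 * d + 1) ≤ ε) (hη : C * x ^ (4 * d + 4) ≤ ε)
    (hrim : Real.exp (M1 / NN) * vh ≤ ε * z) (hF0 : 0 ≤ F) (hFθ : F * x ^ (4 * d + 1) ≤ ε * z)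
    (hlam : Real.exp ((M1 - F) / NN) * V ≤ ε * z) (hV : 0 ≤ V) (hvh : 0 ≤ vh) :
    Reg M (Dn d K oc x) (Dl d K oc x) (C * x ^ (4 * d + 4)) c (x ^ (4 * d + 1))
      (c * x ^ (4 * d) / 2) (ε0 + s) ε F (max (p m 0) z) m z := by
  have hlam' := rgb_lam hb hp hm hx hz hs
  set Q : ℝ := max (p m 0) z with hQ
  have hp0 : 0 ≤ p m 0 := le_trans (le_max_right _ _) (hp.ge m 0)
  have hpQ : p m 0 ≤ Q := le_max_left _ _
  have hzQ : z ≤ Q := le_max_right _ _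
  have hQ0 : 0 < Q := lt_of_lt_of_le hz hzQ
  have hKd : 0 < (K : ℝ) ^ d := by
    have : (0 : ℝ) < K := by exact_mod_cast hb.K0
    positivity
  have hexp : Real.exp (m / NN) ≤ Real.exp (M1 / NN) :=
    Real.exp_le_exp.2 (div_le_div_of_nonneg_right hm hb.NN0.le)
  have h1 : (K : ℝ) ^ d * (Real.exp (m / NN) * vl) ≤ (K : ℝ) ^ d * (Real.exp (M1 / NN) * vl) :=
    mul_le_mul_of_nonneg_left (mul_le_mul_of_nonneg_right hexp hb.vl0) hKd.le
  have hszQ : s * z ≤ s * Q := mul_le_mul_of_nonneg_left hzQ hs0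
  have hx4 : 0 < x ^ (4 * d) := by positivity
  have hx42 : 0 < x ^ (4 * d + 2) := by positivity
  have hθ0 : 0 < x ^ (4 * d + 1) := by positivity
  have hε0' : 0 ≤ ε := hθ0.le.trans hθ
  have hεz : ε * z ≤ ε * Q := mul_le_mul_of_nonneg_left hzQ hε0'
  have hcx : c * x ^ (4 * d) ≤ x ^ (4 * d) := by
    calc c * x ^ (4 * d) ≤ 1 * x ^ (4 * d) := mul_le_mul_of_nonneg_right hc1 hx4.le
      _ = _ := one_mul _
  refine ⟨?_, ?_, ?_, ?_, ?_, hF0, ?_, ?_, ?_⟩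
  · -- tot_le
    have h2 := tot_le_of hb hp (m := m) (z := z) (B := (1 + ε0) * Q) hz.le
      (fun k => 1 + ε0 - (k : ℝ) / (K : ℝ) ^ d) Set.univ
      (fun y _ => by have := hg.P0 y; show M.own y ≤ 1 + ε0 - (oc y : ℝ) / (K : ℝ) ^ d; linarith)
      (fun k _ hk => by
        have hκ0 : 0 ≤ (k : ℝ) / (K : ℝ) ^ d := by positivity
        have hκ1 : (k : ℝ) / (K : ℝ) ^ d ≤ 1 := by
          rw [div_le_one hKd]
          exact_mod_cast hk
        have e1 : (k : ℝ) * (p m 0 / (K : ℝ) ^ d) = (k : ℝ) / (K : ℝ) ^ d * p m 0 := by ring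
        rw [e1]
        have e2 := mul_le_mul_of_nonneg_left hpQ hκ0
        have e3 := mul_le_mul_of_nonneg_right hzQ
          (by linarith : 0 ≤ 1 + ε0 - (k : ℝ) / (K : ℝ) ^ d)
        have e4 : (k : ℝ) / (K : ℝ) ^ d * Q + Q * (1 + ε0 - (k : ℝ) / (K : ℝ) ^ d) = (1 + ε0) * Q := by
          ring
        show _ + z * (1 + ε0 - (k : ℝ) / (K : ℝ) ^ d) ≤ _
        linarith)
    have e : {y : E | oc y ∈ (Set.univ : Set ℕ)} = Set.univ := by
      ext y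
      simp
    rw [e] at h2
    refine h2.trans ?_
    rw [ex_le_ex]
    nlinarith
  · -- bad_le
    have h2 := tot_le_of hb hp (m := m) (z := z) (B := (1 - c * x ^ (4 * d)) * Q) hz.le
      (fun k => 1 - c * x ^ (4 * d) - (k : ℝ) / (K : ℝ) ^ d)
      {k : ℕ | x ^ (4 * d + 2) < (k : ℝ) / (K : ℝ) ^ d ∧ (k : ℝ) / (K : ℝ) ^ d < 1 - x ^ (4 * d)}
      (fun y hy => by
        have hy' : x ^ (4 * d + 2) < (oc y : ℝ) / (K : ℝ) ^ d ∧
          (oc y : ℝ) / (K : ℝ) ^ d < 1 - x ^ (4 * d) := hy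
        have := hg.P1 y hy'.1.le hy'.2.le
        show M.own y ≤ 1 - c * x ^ (4 * d) - (oc y : ℝ) / (K : ℝ) ^ d
        linarith)
      (fun k hk hk' => by
        obtain ⟨hk1, hk2⟩ := hk
        have hκ0 : 0 ≤ (k : ℝ) / (K : ℝ) ^ d := by positivity
        have e1 : (k : ℝ) * (p m 0 / (K : ℝ) ^ d) = (k : ℝ) / (K : ℝ) ^ d * p m 0 := by ring
        rw [e1]
        have e2 := mul_le_mul_of_nonneg_left hpQ hκ0
        have e3 := mul_le_mul_of_nonneg_right hzQ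
          (by linarith : 0 ≤ 1 - c * x ^ (4 * d) - (k : ℝ) / (K : ℝ) ^ d)
        have e4 : (k : ℝ) / (K : ℝ) ^ d * Q + Q * (1 - c * x ^ (4 * d) - (k : ℝ) / (K : ℝ) ^ d)
          = (1 - c * x ^ (4 * d)) * Q := by ring
        show _ + z * (1 - c * x ^ (4 * d) - (k : ℝ) / (K : ℝ) ^ d) ≤ _
        linarith)
    have e : (Dn d K oc x ∪ Dl d K oc x)ᶜ = {y : E | oc y ∈ {k : ℕ | x ^ (4 * d + 2) <
        (k : ℝ) / (K : ℝ) ^ d ∧ (k : ℝ) / (K : ℝ) ^ d < 1 - x ^ (4 * d)}} := by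
      ext y
      simp only [Dn, Dl, Set.mem_compl_iff, Set.mem_union, Set.mem_ofPred_eq, not_or, not_le]
      exact and_comm
    rw [← e] at h2
    have hQ2 : c * x ^ (4 * d) / 2 * z ≤ c * x ^ (4 * d) / 2 * Q :=
      mul_le_mul_of_nonneg_left hzQ (by positivity)
    have e1 : M.tot m z (Dn d K oc x ∪ Dl d K oc x)ᶜ ≤
        ex ((1 - c * x ^ (4 * d) / 2) * Q - Real.log 2) := by
      refine h2.trans ?_
      rw [ex_le_ex]
      nlinarith
    have hcoef : x ^ (4 * d + 2) + c * x ^ (4 * d) / 2 - c ≤ 0 := by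
      have hl2 : 0 < Real.log 2 := Real.log_pos (by norm_num)
      have hsz : 0 ≤ s * z := mul_nonneg hs0 hz.le
      by_contra hcon
      rw [not_le] at hcon
      have := mul_pos hcon hz
      nlinarith
    have hcoefQ : (x ^ (4 * d + 2) + c * x ^ (4 * d) / 2 - c) * Q ≤
        (x ^ (4 * d + 2) + c * x ^ (4 * d) / 2 - c) * z :=
      mul_le_mul_of_nonpos_left hzQ hcoef
    have e2 : ex (z * (1 - c)) * M.lam m (Dl d K oc x) ≤
        ex ((1 - c * x ^ (4 * d) / 2) * Q - Real.log 2) := by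
      calc ex (z * (1 - c)) * M.lam m (Dl d K oc x)
          ≤ ex (z * (1 - c)) * ex (s * z + x ^ (4 * d + 2) * Q) := mul_le_mul' le_rfl hlam'
        _ = ex (z * (1 - c) + (s * z + x ^ (4 * d + 2) * Q)) := (ex_add _ _).symm
        _ ≤ _ := by
            rw [ex_le_ex]
            have h5 : z * (1 - c) ≤ Q * (1 - c) := mul_le_mul_of_nonneg_right hzQ (by linarith)
            nlinarith
    refine (add_le_add e1 e2).trans (le_of_eq ?_)
    rw [← two_mul]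
    have e3 : (2 : ENNReal) = ex (Real.log 2) := by
      unfold ex
      rw [Real.exp_log (by norm_num)]
      simp
    rw [e3, ← ex_add]
    congr 1
    ring
  · -- zθ
    calc z * x ^ (4 * d + 1) ≤ z * ε := mul_le_mul_of_nonneg_left hθ hz.le
      _ = ε * z := mul_comm _ _
      _ ≤ ε * Q := hεz
  · calc z * (C * x ^ (4 * d + 4)) ≤ z * ε := mul_le_mul_of_nonneg_left hη hz.le
      _ = ε * z := mul_comm _ _
      _ ≤ ε * Q := hεz
  · refine (hb.rim m).trans ?_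
    exact (mul_le_mul_of_nonneg_right hexp hvh).trans (hrim.trans hεz)
  · exact hFθ.trans hεz
  · refine (hb.lam_le (m - F)).trans ?_
    have h2 : Real.exp ((m - F) / NN) ≤ Real.exp ((M1 - F) / NN) :=
      Real.exp_le_exp.2 (div_le_div_of_nonneg_right (by linarith) hb.NN0.le)
    exact (mul_le_mul_of_nonneg_right h2 hV).trans (hlam.trans hεz)
  · have he0 : M.e0 ∈ Dl d K oc x := by
      show (oc M.e0 : ℝ) / (K : ℝ) ^ d ≤ x ^ (4 * d + 2)
      rw [hb.oc_e0, Nat.cast_zero, zero_div]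
      exact hx42.le
    have h2 := Bas.one_le_lam M m he0
    have h3 : 0 < (M.lam m (Dl d K oc x)).toReal :=
      ENNReal.toReal_pos (lt_of_lt_of_le zero_lt_one h2).ne' (Bas.lam_ne_top M m _)
    have h4 := ENNReal.toReal_mono (ex_ne_top _) hlam'
    rw [ex_toReal] at h4
    have h5 := Real.log_le_log h3 h4
    rw [Real.log_exp] at h5
    refine h5.trans ?_
    calc s * z + x ^ (4 * d + 2) * Q ≤ s * Q + x ^ (4 * d + 2) * Q := by linarith
      _ = (s + x ^ (4 * d + 2)) * Q := by ring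
      _ ≤ ε * Q := mul_le_mul_of_nonneg_right hs4 hQ0.le

end Pool.Agent.Ndl
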