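import Pool.Agent.Lib.MP_09cbbd_nd.Slp

/-!
# The block model and the geometry: the facts which are used
-/

set_option autoImplicit false

namespace Pool.Agent.Ndl

open MeasureTheory Finset Filter Topology Pool.Agent.StableGas Pool.Agent.SquareWell
open Pool.Agent.Mix (Qr mem_Qr)

variable {d : ℕ} {E : Type} [MeasurableSpace E]

/-- The masses of the contents of a block which is divided into `K ^ d` cells; `oc x` is the number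
of the occupied cells, `NN` the maximal number of spheres of a block, `vl` and `vh` are the volumes
of the boundary layers of a cell and of a block, `V` is the volume of a block. -/
structure Blk (M : Nx d E) (oc : E → ℕ) (K : ℕ) (NN vl vh V : ℝ) : Prop where
  K0 : 1 ≤ K
  NN0 : 0 < NN
  vl0 : 0 ≤ vl
  mo : Measurable oc
  oc_e0 : oc M.e0 = 0
  oc_le : ∀ x, oc x ≤ K ^ d
  a_le : ∀ x, M.a x ≤ (oc x : ℝ) / (K : ℝ) ^ d
  mass : ∀ p : ℝ → ℝ → ℝ, M.IsP p → ∀ (m : ℝ) (k : ℕ), k ≤ K ^ d →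
    M.lam m {x | oc x = k} ≤
      ex ((K : ℝ) ^ d + k * (p m 0 / (K : ℝ) ^ d) + (K : ℝ) ^ d * (Real.exp (m / NN) * vl))
  rim : ∀ m, Real.log (M.lam m Set.univ).toReal - Real.log (M.lam m M.I).toReal ≤
    Real.exp (m / NN) * vh
  lam_le : ∀ m, Real.log (M.lam m Set.univ).toReal ≤ Real.exp (m / NN) * V

/-- The geometric facts on the free needles. -/
structure Geo (M : Nx d E) (oc : E → ℕ) (K : ℕ) (x c C ε : ℝ) : Prop where
  P0 : ∀ y, M.own y + (oc y : ℝ) / (K : ℝ) ^ d ≤ 1 + ε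
  P1 : ∀ y, x ^ (4 * d + 2) ≤ (oc y : ℝ) / (K : ℝ) ^ d → (oc y : ℝ) / (K : ℝ) ^ d ≤ 1 - x ^ (4 * d) →
    M.own y + (oc y : ℝ) / (K : ℝ) ^ d ≤ 1 - c * x ^ (4 * d)
  P2 : ∀ ω : Zd d → E, (oc (ω 0) : ℝ) / (K : ℝ) ^ d ≤ x ^ (4 * d) →
    (∃ b ∈ Qr d 1, 1 - x ^ (4 * d) ≤ (oc (ω b) : ℝ) / (K : ℝ) ^ d) → M.Φ ω ≤ 1 - c
  P4 : ∀ ω : Zd d → E, (∀ b ∈ Qr d M.r, 1 - x ^ (4 * d) ≤ (oc (ω b) : ℝ) / (K : ℝ) ^ d) →
    M.Φ ω ≤ C * x ^ (4 * d + 4)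

/-- The dense contents. -/
def Dn (d K : ℕ) (oc : E → ℕ) (x : ℝ) : Set E := {y | 1 - x ^ (4 * d) ≤ (oc y : ℝ) / (K : ℝ) ^ d}

/-- The dilute contents. -/
def Dl (d K : ℕ) (oc : E → ℕ) (x : ℝ) : Set E := {y | (oc y : ℝ) / (K : ℝ) ^ d ≤ x ^ (4 * d + 2)}

end Pool.Agent.Ndl
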