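import Pool.Agent.Lib.MP_09cbbd_nd.MA
import Pool.Agent.Lib.MP_09cbbd_nd.CvA

/-!
# Never two slopes, for the model

ROW SLP. Q = max (p m 0) z <= p m z (mono, ge, neg) and p m z <= (1 + σ) Q (le_tot, tot_le). If both average slopes are >= θ (D > 0) then θ D <= σ Q: if Q = z
then p (m - D) z >= z, if Q = p m 0 then p m (z - D) >= p m 0 (mono for z - D >= 0, neg otherwise). So D <= σ Qm / θ = B (h1 of CvA.no_both with
M1, t0 = z0, t1 = 2 z0), B <= z0 / 2. h2: no_equal with s = D <= B <= z0 <= z; Bnd at P = p m z from Reg (all bounds increase with Q <= P; 1 - c >= 0);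
θ D <= σ Q <= ε p m z; P0 <= z0 <= z <= p m z.
-/

set_option autoImplicit false

namespace Pool.Agent.Ndl

open MeasureTheory Finset Filter Topology Pool.Agent.StableGas Pool.Agent.SquareWell

variable {d : ℕ} {E : Type} [MeasurableSpace E] (M : Nx d E)

/-- The bounds at the point `(m, z)`, in terms of `Q`. -/
structure Reg (D W : Set E) (η c' θ c σ ε F : ℝ) (Q m z : ℝ) : Prop where
  tot_le : M.tot m z Set.univ ≤ ex ((1 + σ) * Q)
  bad_le : M.tot m z (D ∪ W)ᶜ + ex (z * (1 - c')) * M.lam m W ≤ ex ((1 - c) * Q)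
  zθ : z * θ ≤ ε * Q
  zη : z * η ≤ ε * Q
  rim : Real.log (M.lam m Set.univ).toReal - Real.log (M.lam m M.I).toReal ≤ ε * Q
  F0 : 0 ≤ F
  Fθ : F * θ ≤ ε * Q
  lamF : Real.log (M.lam (m - F) Set.univ).toReal ≤ ε * Q
  lamW : Real.log (M.lam m W).toReal ≤ ε * Q

theorem slopes (d r : ℕ) (hd : 2 ≤ d) {θ c : ℝ} (hθ : 0 < θ) (hc : 0 < c) (hc1 : c ≤ 1) :
    ∃ P0 : ℝ, ∀ (E : Type) (_ : MeasurableSpace E) (M : Nx d E), M.r = r →
      ∀ (D W : Set E) (η δ c' : ℝ), Lab M D W η δ c' → η ≤ θ / 8 → δ ≤ θ / 8 →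
      ∀ p : ℝ → ℝ → ℝ, M.IsP p → ∀ z0 M1 F ε σ Qm : ℝ, 0 < z0 → P0 ≤ z0 →
        0 ≤ σ → σ ≤ ε → ε ≤ epsC d r * c → σ * Qm / θ ≤ z0 / 2 →
        (∀ m z, m ≤ M1 → z0 ≤ z → z ≤ 2 * z0 → max (p m 0) z ≤ Qm ∧
          Reg M D W η c' θ c σ ε F (max (p m 0) z) m z) →
        ∀ m s : ℝ, m + 2 * (σ * Qm / θ) ≤ M1 → 0 < s →
          ¬ (θ * s ≤ p m z0 - p (m - s) z0 ∧ θ * s ≤ p m z0 - p m (z0 - s)) := by
  obtain ⟨P0, hP0⟩ := no_equal d r hd hθ hc hc1
  refine ⟨P0, ?_⟩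
  intro E _ M hr D W η δ c' hlab hη hδ p hp z0 M1 F ε σ Qm hz0 hPz hσ hσε hε hB hreg m s hm hs
  have hε0 : 0 ≤ ε := hσ.trans hσε
  have hQm : z0 ≤ Qm := (le_max_right _ _).trans (hreg M1 z0 le_rfl le_rfl (by linarith)).1
  have hB0 : 0 ≤ σ * Qm / θ := by
    have : 0 ≤ Qm := hz0.le.trans hQm
    positivity
  -- the common estimate
  have key : ∀ μ t s' : ℝ, μ ≤ M1 → z0 ≤ t → t ≤ 2 * z0 → 0 < s' →
      θ * s' ≤ p μ t - p (μ - s') t → θ * s' ≤ p μ t - p μ (t - s') →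
      θ * s' ≤ σ * max (p μ 0) t := by
    intro μ t s' hμ ht1 ht2 hs' hA hB'
    obtain ⟨-, hR⟩ := hreg μ t hμ ht1 ht2
    have ht0 : 0 < t := lt_of_lt_of_le hz0 ht1
    have hQ0 : 0 < max (p μ 0) t := lt_of_lt_of_le ht0 (le_max_right _ _)
    have hle := hp.le_tot ht0.le μ
    have h1 : Real.log (M.tot μ t Set.univ).toReal ≤ (1 + σ) * max (p μ 0) t := by
      have h2 : (M.tot μ t Set.univ).toReal ≤ Real.exp ((1 + σ) * max (p μ 0) t) := by
        have h3 := ENNReal.toReal_mono (by unfold ex; exact ENNReal.ofReal_ne_top) hR.tot_le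
        unfold ex at h3
        rwa [ENNReal.toReal_ofReal (Real.exp_pos _).le] at h3
      rcases (ENNReal.toReal_nonneg (a := M.tot μ t Set.univ)).eq_or_lt with h3 | h3
      · rw [← h3, Real.log_zero]
        positivity
      · rw [← Real.log_exp ((1 + σ) * max (p μ 0) t)]
        exact Real.log_le_log h3 h2
    have h2 : p μ t ≤ (1 + σ) * max (p μ 0) t := hle.trans h1
    rcases le_total (p μ 0) t with h | h
    · rw [max_eq_right h] at h2 ⊢
      have h3 := hp.ge (μ - s') t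
      have h4 : t ≤ p (μ - s') t := (le_max_left _ _).trans h3
      linarith
    · rw [max_eq_left h] at h2 ⊢
      have h3 : p μ 0 ≤ p μ (t - s') := by
        rcases le_total 0 (t - s') with h4 | h4
        · exact hp.mono le_rfl h4
        · exact (hp.neg μ h4).ge
      linarith
  refine no_both p hp.convex hθ hB0 (M1 := M1) (t0 := z0) (t1 := 2 * z0) ?_ ?_ m z0 s hm le_rfl
    (by linarith) hs
  · intro μ t s' hμ ht1 ht2 hs' hA hB'
    have h1 := key μ t s' hμ ht1 ht2 hs' hA hB'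
    have h2 := (hreg μ t hμ ht1 ht2).1
    rw [le_div_iff₀ hθ]
    have h3 : σ * max (p μ 0) t ≤ σ * Qm := mul_le_mul_of_nonneg_left h2 hσ
    linarith
  · intro μ t s' hμ ht1 ht2 hs' hsB
    rintro ⟨e1, e2⟩
    have h1 := key μ t s' hμ ht1 ht2 hs' e1.ge e2.ge
    obtain ⟨-, hR⟩ := hreg μ t hμ ht1 ht2
    have ht0 : 0 < t := lt_of_lt_of_le hz0 ht1
    have hge := hp.ge μ t
    have ht : t ≤ p μ t := (le_max_left _ _).trans hge
    have hQP : max (p μ 0) t ≤ p μ t := max_le (hp.mono le_rfl ht0.le) ht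
    have hQ0 : 0 ≤ max (p μ 0) t := ht0.le.trans (le_max_right _ _)
    have hPP : 0 ≤ p μ t := hQ0.trans hQP
    have hεQ : ε * max (p μ 0) t ≤ ε * p μ t := mul_le_mul_of_nonneg_left hQP hε0
    refine hP0 E _ M hr D W η δ c' hlab hη hδ p hp μ t s' F ε hε0 hε hs' (by linarith) ?_ ?_
      (by linarith) ⟨e1, e2⟩
    · refine ⟨hPP, hR.tot_le.trans ?_, hR.bad_le.trans ?_, hR.zθ.trans hεQ, hR.zη.trans hεQ,
        hR.rim.trans hεQ, hR.F0, hR.Fθ.trans hεQ, hR.lamF.trans hεQ, hR.lamW.trans hεQ⟩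
      · unfold ex
        apply ENNReal.ofReal_le_ofReal
        apply Real.exp_le_exp.2
        have h2 : (1 + σ) * max (p μ 0) t ≤ (1 + ε) * max (p μ 0) t :=
          mul_le_mul_of_nonneg_right (by linarith) hQ0
        have h3 : (1 + ε) * max (p μ 0) t ≤ (1 + ε) * p μ t :=
          mul_le_mul_of_nonneg_left hQP (by linarith)
        exact h2.trans h3
      · unfold ex
        apply ENNReal.ofReal_le_ofReal
        apply Real.exp_le_exp.2
        exact mul_le_mul_of_nonneg_left hQP (by linarith)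
    · have h2 : σ * max (p μ 0) t ≤ ε * max (p μ 0) t := mul_le_mul_of_nonneg_right hσε hQ0
      linarith

end Pool.Agent.Ndl
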