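import Pool.Agent.Lib.MP_09cbbd_nd.MemA
import Pool.Agent.Lib.MP_09cbbd_nd.MemB
import Pool.Agent.Lib.MP_09cbbd_nd.Msb

/-!
# Factorisation of the weight of a class

ROW SPL. If the class is empty the left side is 0. A is the disjoint union of Y, W2, (L inter A) \ OL and OL (Cut.Y_sub, Cut.Y_disj). For w in the class
(w A = prod st * ex (z sum Fr)): Fr id A w i <= Fr id Y (w emptied outside Y) i for i in Y (used for i in innk (r + 1) Y), <= η for the other i in Y (Fr_rim);
for i in W2: Fr id A w i <= Fr id X2 (w emptied outside W2) i (Bas.Fr_anti; the sites of the layer are empty) and the needles in the layer add z * Fr >= 0;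
for i in (L inter A) \ OL: <= own (w i); for i in OL: OL_cases. The factor on OL is g (w i), g x = indicator of (D u W)^c of st * ex (z own) + indicator of W of
st * ex (z (1 - c')). Then Bas.int_mono, Bas.int_mul twice, Bas.lm_prod (see split, tr, w_tr in MP_09cbbd_mix/Split.lean).
-/

set_option autoImplicit false

namespace Pool.Agent.Ndl

open MeasureTheory Finset Filter Topology Pool.Agent.StableGas Pool.Agent.SquareWell
open Pool.Agent.Kac (Tor cst)
open Pool.Agent.Mix (Qr mem_Qr lay mem_lay)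
open Pool.Agent.Mix.Bas (prod_mono measurable_ex)

variable {d : ℕ} {E : Type} [MeasurableSpace E] (M : Nx d E)

variable {D W : Set E} {η δ c' : ℝ}

namespace SPL

/-- The configuration in `P`, empty outside. -/
noncomputable def tr (P : Finset (Zd d)) (ω : Zd d → E) : Zd d → E :=
  fun i => if i ∈ P then ω i else M.e0

theorem tr_mem {P : Finset (Zd d)} {ω : Zd d → E} {i : Zd d} (h : i ∈ P) :
    tr M P ω i = ω i := if_pos h

theorem tr_not {P : Finset (Zd d)} {ω : Zd d → E} {i : Zd d} (h : i ∉ P) :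
    tr M P ω i = M.e0 := if_neg h

theorem measurable_tr (P : Finset (Zd d)) : Measurable (tr M P) := by
  refine measurable_pi_lambda _ fun i => ?_
  by_cases h : i ∈ P
  · have e : (fun ω : Zd d → E => tr M P ω i) = fun ω => ω i := funext fun ω => tr_mem M h
    rw [e]
    exact measurable_pi_apply i
  · have e : (fun ω : Zd d → E => tr M P ω i) = fun _ => M.e0 := funext fun ω => tr_not M h
    rw [e]
    exact measurable_const

theorem tr_dep {P : Finset (Zd d)} {x y : Zd d → E} (h : ∀ i ∈ P, x i = y i) :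
    tr M P x = tr M P y := by
  funext i
  by_cases hi : i ∈ P
  · rw [tr_mem M hi, tr_mem M hi, h i hi]
  · rw [tr_not M hi, tr_not M hi]

theorem int_tr_le (P : Finset (Zd d)) (F : (Zd d → E) → ENNReal) :
    M.int P (fun ω => F (tr M P ω)) ≤ M.int P F := by
  refine Bas.int_mono' M P fun x hx => le_of_eq (congrArg F (funext fun i => ?_))
  by_cases h : i ∈ P
  · exact tr_mem M h
  · rw [tr_not M h, hx i h]

theorem cp_tr {A P X : Finset (Zd d)} (hP : P ⊆ A) {ω : Zd d → E} (h : M.cp id A ω) :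
    M.cp id X (tr M P ω) := by
  intro v hv h0 i _ _
  show M.ok v (tr M P ω i) (tr M P ω (i + v))
  by_cases h1 : i ∈ P
  · by_cases h2 : i + v ∈ P
    · rw [tr_mem M h1, tr_mem M h2]
      exact h v hv h0 i (hP h1) (hP h2)
    · rw [tr_not M h2]
      exact Bas.ok_e0_right M v _
  · rw [tr_not M h1]
    exact M.ok_e0 v _

/-- The dilute factor. -/
theorem w_tr {A P Q : Finset (Zd d)} (hP : P ⊆ A) (hPQ : Disjoint P Q) {ω : Zd d → E}
    (h : M.cp id A ω) (m : ℝ) {z : ℝ} (hz : 0 ≤ z) :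
    (∏ i ∈ P, M.st m (ω i)) * ex (∑ i ∈ P, z * M.Fr id A ω i) ≤
      M.w m z (P ∪ Q) (tr M P ω) := by
  unfold Nx.w
  rw [Bas.wG_of_cp M id (cp_tr M hP h), prod_union hPQ, sum_union hPQ]
  have h1 : ∏ i ∈ Q, M.st m (tr M P ω i) = 1 := prod_eq_one fun i hi => by
    rw [tr_not M (Finset.disjoint_right.1 hPQ hi), Bas.st_e0]
  have h2 : ∏ i ∈ P, M.st m (tr M P ω i) = ∏ i ∈ P, M.st m (ω i) :=
    prod_congr rfl fun i hi => by rw [tr_mem M hi]
  rw [h1, h2, mul_one]
  refine mul_le_mul' le_rfl (ex_le_ex.2 ?_)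
  have h3 : 0 ≤ ∑ i ∈ Q, z * M.Fr id (P ∪ Q) (tr M P ω) i :=
    sum_nonneg fun i _ => mul_nonneg hz (Bas.Fr_nonneg M id _ _ i)
  have h4 : ∑ i ∈ P, z * M.Fr id A ω i ≤ ∑ i ∈ P, z * M.Fr id (P ∪ Q) (tr M P ω) i := by
    refine sum_le_sum fun i _ => mul_le_mul_of_nonneg_left (Bas.Fr_anti M id i ?_) hz
    intro v _ _
    by_cases h5 : i + v ∈ P
    · exact Or.inr ⟨hP h5, tr_mem M h5⟩
    · exact Or.inl (tr_not M h5)
  linarith

/-- The weight of a block of `OL`. -/
noncomputable def gO (D W : Set E) (m z c' : ℝ) (x : E) : ENNReal :=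
  ((D ∪ W)ᶜ).indicator (fun x => M.st m x * ex (z * M.own x)) x +
    W.indicator (fun x => ex (z * (1 - c')) * M.st m x) x

theorem measurable_h (m z : ℝ) : Measurable fun x => M.st m x * ex (z * M.own x) :=
  (Bas.measurable_st M m).mul (measurable_ex ((Bas.measurable_own M).const_mul z))

theorem measurable_gO (mD : MeasurableSet D) (mW : MeasurableSet W) (m z c' : ℝ) :
    Measurable (gO M D W m z c') := by
  unfold gO
  exact ((measurable_h M m z).indicator (mD.union mW).compl).add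
    (((Bas.measurable_st M m).const_mul _).indicator mW)

theorem lint_gO (mD : MeasurableSet D) (mW : MeasurableSet W) (m z c' : ℝ) :
    ∫⁻ x, gO M D W m z c' x ∂M.π =
      M.tot m z (D ∪ W)ᶜ + ex (z * (1 - c')) * M.lam m W := by
  unfold gO Nx.tot Nx.lam
  rw [lintegral_add_left ((measurable_h M m z).indicator (mD.union mW).compl),
    lintegral_indicator (mD.union mW).compl, lintegral_indicator mW,
    lintegral_const_mul _ (Bas.measurable_st M m)]

end SPL

theorem split (hlab : Lab M D W η δ c') (A : Finset (Zd d)) (s : ℕ) (K : ℝ)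
    (L Y DL OL : Finset (Zd d)) (m : ℝ) {z : ℝ} (hz : 0 ≤ z) :
    M.int A ((Class M D W A s K L Y DL OL).indicator (M.w m z A)) ≤
      ex (z * η * (Y \ innk (M.r + 1) Y).card) *
      M.int Y ({ω | ∑ i ∈ innk (M.r + 1) Y, M.Fr id Y ω i ≤ η * Y.card + 2 * K}.indicator
        (M.wG id (fun _ => m) (fun i => if i ∈ innk (M.r + 1) Y then z else 0) Y)) *
      (M.int (W2 A L Y) ({ω | (∀ i ∈ W2 A L Y, i ∉ innk M.r (X2 (rg M) A L Y) → ω i ∈ W) ∧
        ∑ i ∈ W2 A L Y, M.a (ω i) ≤ δ * A.card + K}.indicator (M.w m z (X2 (rg M) A L Y))) *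
      (M.tot m z Set.univ ^ ((L ∩ A) \ OL).card *
        (M.tot m z (D ∪ W)ᶜ + ex (z * (1 - c')) * M.lam m W) ^ OL.card)) := by
  classical
  have := Bas.fin_π M
  rcases Set.eq_empty_or_nonempty (Class M D W A s K L Y DL OL) with he | ⟨ω0, hω0⟩
  · rw [he, Set.indicator_empty]
    have h0 : M.int A (fun _ => 0) = 0 := by
      unfold Nx.int lmarginal
      exact lintegral_zero
    rw [h0]
    exact zero_le
  obtain ⟨-, hcut0, hDL0, hOL0, -⟩ := hω0
  have hOLL : ∀ i ∈ OL, i ∈ L ∧ i ∈ A := by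
    intro i hi
    rw [← hOL0, Finset.mem_sdiff, mem_inter] at hi
    exact hi.1
  set P : Finset (Zd d) := W2 A L Y with hP
  set Q : Finset (Zd d) := lay (rg M) A with hQ
  set R : Finset (Zd d) := (L ∩ A) \ OL with hR
  set J : Finset (Zd d) := innk (M.r + 1) Y with hJ
  have hJY : J ⊆ Y := by
    intro i hi
    rw [hJ] at hi
    unfold innk at hi
    exact (mem_filter.1 hi).1
  have hX2 : X2 (rg M) A L Y = P ∪ Q := by
    ext i
    rw [mem_X2, mem_union]
  have hPA : P ⊆ A := fun i hi => (mem_W2.1 hi).1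
  have hYA : Y ⊆ A := hcut0.Y_sub
  have hPQ : Disjoint P Q := by
    rw [Finset.disjoint_left]
    exact fun i hi h => (mem_lay.1 h).2 (hPA hi)
  have hRO : Disjoint R OL := Finset.sdiff_disjoint
  have hPRO : Disjoint P (R ∪ OL) := by
    rw [Finset.disjoint_left]
    intro i hi h
    rcases mem_union.1 h with h | h
    · rw [hR, Finset.mem_sdiff, mem_inter] at h
      exact (mem_W2.1 hi).2.2 h.1.1
    · exact (mem_W2.1 hi).2.2 (hOLL i h).1
  have hYPRO : Disjoint Y (P ∪ (R ∪ OL)) := by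
    rw [Finset.disjoint_left]
    intro i hi h
    rcases mem_union.1 h with h | h
    · exact (mem_W2.1 h).2.1 hi
    · rcases mem_union.1 h with h | h
      · rw [hR, Finset.mem_sdiff, mem_inter] at h
        exact (Finset.disjoint_left.1 hcut0.Y_disj) hi h.1.1
      · exact (Finset.disjoint_left.1 hcut0.Y_disj) hi (hOLL i h).1
  have hA : A = Y ∪ (P ∪ (R ∪ OL)) := by
    ext i
    rw [mem_union, mem_union, mem_union]
    constructor
    · intro hi
      by_cases h1 : i ∈ Y
      · exact Or.inl h1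
      · by_cases h2 : i ∈ L
        · by_cases h3 : i ∈ OL
          · exact Or.inr (Or.inr (Or.inr h3))
          · refine Or.inr (Or.inr (Or.inl ?_))
            rw [hR, Finset.mem_sdiff, mem_inter]
            exact ⟨⟨h2, hi⟩, h3⟩
        · exact Or.inr (Or.inl (mem_W2.2 ⟨hi, h1, h2⟩))
    · rintro (h | h | h | h)
      · exact hYA h
      · exact hPA h
      · rw [hR, Finset.mem_sdiff, mem_inter] at h
        exact h.1.2
      · exact (hOLL i h).2
  rw [hX2]
  -- the factors
  set S1 : Set (Zd d → E) := {ω | ∑ i ∈ J, M.Fr id Y ω i ≤ η * Y.card + 2 * K} with hS1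
  set S2 : Set (Zd d → E) := {ω | (∀ i ∈ P, i ∉ innk M.r (P ∪ Q) → ω i ∈ W) ∧
        ∑ i ∈ P, M.a (ω i) ≤ δ * A.card + K} with hS2
  set F1 : (Zd d → E) → ENNReal :=
    S1.indicator (M.wG id (fun _ => m) (fun i => if i ∈ J then z else 0) Y) with hF1
  set F2 : (Zd d → E) → ENNReal := S2.indicator (M.w m z (P ∪ Q)) with hF2
  set h : E → ENNReal := fun x => M.st m x * ex (z * M.own x) with hh
  set g : E → ENNReal := SPL.gO M D W m z c' with hg
  have mS1 : MeasurableSet S1 :=
    measurableSet_le (Finset.measurable_fun_sum J fun i _ => Bas.measurable_Fr M id Y i)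
      measurable_const
  have mS2 : MeasurableSet S2 := by
    refine MeasurableSet.inter ?_ ?_
    · have e : {ω : Zd d → E | ∀ i ∈ P, i ∉ innk M.r (P ∪ Q) → ω i ∈ W} =
          ⋂ i ∈ P \ innk M.r (P ∪ Q), (fun ω : Zd d → E => ω i) ⁻¹' W := by
        ext ω
        simp only [Set.mem_ofPred_eq, Set.mem_iInter, Finset.mem_sdiff, Set.mem_preimage]
        constructor
        · intro h1 i hi
          exact h1 i hi.1 hi.2
        · intro h1 i hi hi2
          exact h1 i ⟨hi, hi2⟩
      show MeasurableSet {ω : Zd d → E | ∀ i ∈ P, i ∉ innk M.r (P ∪ Q) → ω i ∈ W}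
      rw [e]
      exact Finset.measurableSet_biInter _ fun i _ => (measurable_pi_apply i) hlab.mW
    · exact measurableSet_le (Finset.measurable_fun_sum P fun i _ =>
        M.measurable_a.comp (measurable_pi_apply i)) measurable_const
  have mF1 : Measurable F1 := (Bas.measurable_wG M id _ _ Y).indicator mS1
  have mF2 : Measurable F2 := (Bas.measurable_w M m z (P ∪ Q)).indicator mS2
  have mh : Measurable h := SPL.measurable_h M m z
  have mg : Measurable g := SPL.measurable_gO M hlab.mD hlab.mW m z c'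
  have mG2 : Measurable fun ω : Zd d → E => F2 (SPL.tr M P ω) :=
    mF2.comp (SPL.measurable_tr M P)
  have mG3 : Measurable fun ω : Zd d → E => ∏ i ∈ R, h (ω i) :=
    Finset.measurable_prod _ fun i _ => mh.comp (measurable_pi_apply i)
  have mG4 : Measurable fun ω : Zd d → E => ∏ i ∈ OL, g (ω i) :=
    Finset.measurable_prod _ fun i _ => mg.comp (measurable_pi_apply i)
  have dF1 : ∀ x y : Zd d → E, (∀ i ∈ Y, x i = y i) → F1 x = F1 y := by
    intro x y hxy
    have e : x ∈ S1 ↔ y ∈ S1 := by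
      show (∑ i ∈ J, M.Fr id Y x i ≤ η * Y.card + 2 * K) ↔
        (∑ i ∈ J, M.Fr id Y y i ≤ η * Y.card + 2 * K)
      have e1 : ∑ i ∈ J, M.Fr id Y x i = ∑ i ∈ J, M.Fr id Y y i :=
        sum_congr rfl fun i _ => Bas.Fr_dep M id i fun v _ hv => hxy _ hv
      rw [e1]
    by_cases hx : x ∈ S1
    · rw [hF1, Set.indicator_of_mem hx, Set.indicator_of_mem (e.1 hx)]
      exact Bas.wG_dep M id _ _ Y hxy
    · rw [hF1, Set.indicator_of_notMem hx, Set.indicator_of_notMem fun hy => hx (e.2 hy)]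
  have hpt : ∀ ω, (Class M D W A s K L Y DL OL).indicator (M.w m z A) ω ≤
      ex (z * η * (Y \ J).card) * (F1 ω * (F2 (SPL.tr M P ω) *
        ((∏ i ∈ R, h (ω i)) * ∏ i ∈ OL, g (ω i)))) := by
    intro ω
    by_cases hω : ω ∈ Class M D W A s K L Y DL OL
    swap
    · rw [Set.indicator_of_notMem hω]
      exact zero_le
    have hcp := hω.1
    rw [Set.indicator_of_mem hω]
    have h1 : ω ∈ S1 := sum_Fr_le M hlab hω
    have h2 : SPL.tr M P ω ∈ S2 := by
      constructor
      · intro i hi hi2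
        rw [SPL.tr_mem M hi]
        refine near_dilute M hω hi ?_
        rw [hX2]
        exact hi2
      · have e : ∑ i ∈ P, M.a (SPL.tr M P ω i) = ∑ i ∈ P, M.a (ω i) :=
          sum_congr rfl fun i hi => by rw [SPL.tr_mem M hi]
        rw [e]
        exact sum_a_le M hlab hω
    have hFY : ∑ i ∈ Y, z * M.Fr id A ω i ≤
        z * η * (Y \ J).card + ∑ i ∈ Y, (if i ∈ J then z else 0) * M.Fr id Y ω i := by
      rw [← sum_sdiff hJY, ← sum_sdiff (f := fun i => (if i ∈ J then z else 0) * M.Fr id Y ω i)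
        hJY]
      have g1 : ∑ i ∈ Y \ J, z * M.Fr id A ω i ≤ z * η * (Y \ J).card := by
        calc ∑ i ∈ Y \ J, z * M.Fr id A ω i ≤ ∑ _i ∈ Y \ J, z * η := by
              refine sum_le_sum fun i hi => mul_le_mul_of_nonneg_left ?_ hz
              rw [Finset.mem_sdiff] at hi
              exact Fr_rim M hlab hω hi.1 hi.2
          _ = z * η * (Y \ J).card := by rw [sum_const, nsmul_eq_mul, mul_comm]
      have g2 : ∑ i ∈ Y \ J, (if i ∈ J then z else 0) * M.Fr id Y ω i = 0 :=
        sum_eq_zero fun i hi => by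
          rw [Finset.mem_sdiff] at hi
          rw [if_neg hi.2, zero_mul]
      have g3 : ∑ i ∈ J, z * M.Fr id A ω i ≤ ∑ i ∈ J, (if i ∈ J then z else 0) *
          M.Fr id Y ω i := by
        refine sum_le_sum fun i hi => ?_
        rw [if_pos hi]
        refine mul_le_mul_of_nonneg_left (Bas.Fr_anti M id i ?_) hz
        intro v _ hv
        exact Or.inr ⟨hYA hv, rfl⟩
      rw [g2]
      linarith
    have hY : (∏ i ∈ Y, M.st m (ω i)) * ex (∑ i ∈ Y, z * M.Fr id A ω i) ≤
        ex (z * η * (Y \ J).card) * F1 ω := by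
      rw [hF1, Set.indicator_of_mem h1, Bas.wG_of_cp M id (Bas.cp_mono M id hYA hcp)]
      calc (∏ i ∈ Y, M.st m (ω i)) * ex (∑ i ∈ Y, z * M.Fr id A ω i) ≤
          (∏ i ∈ Y, M.st m (ω i)) * ex (z * η * (Y \ J).card +
            ∑ i ∈ Y, (if i ∈ J then z else 0) * M.Fr id Y ω i) :=
            mul_le_mul' le_rfl (ex_le_ex.2 hFY)
        _ = _ := by
            rw [ex_add]
            ring
    have hW : (∏ i ∈ P, M.st m (ω i)) * ex (∑ i ∈ P, z * M.Fr id A ω i) ≤
        F2 (SPL.tr M P ω) := by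
      rw [hF2, Set.indicator_of_mem h2]
      exact SPL.w_tr M hPA hPQ hcp m hz
    have hRr : (∏ i ∈ R, M.st m (ω i)) * ex (∑ i ∈ R, z * M.Fr id A ω i) ≤
        ∏ i ∈ R, h (ω i) := by
      rw [← prod_ex, ← prod_mul_distrib]
      refine prod_mono fun i hi => mul_le_mul' le_rfl (ex_le_ex.2 ?_)
      refine mul_le_mul_of_nonneg_left (Bas.Fr_le_own M id rfl ?_) hz
      rw [hR, Finset.mem_sdiff, mem_inter] at hi
      exact hi.1.2
    have hOo : (∏ i ∈ OL, M.st m (ω i)) * ex (∑ i ∈ OL, z * M.Fr id A ω i) ≤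
        ∏ i ∈ OL, g (ω i) := by
      rw [← prod_ex, ← prod_mul_distrib]
      refine prod_mono fun i hi => ?_
      obtain ⟨-, hiA, h3⟩ := OL_cases M hlab hω hi
      rcases h3 with h3 | ⟨h3, h4⟩
      · refine le_trans ?_ (le_add_of_nonneg_right zero_le)
        rw [Set.indicator_of_mem h3]
        refine mul_le_mul' le_rfl (ex_le_ex.2 ?_)
        exact mul_le_mul_of_nonneg_left (Bas.Fr_le_own M id rfl hiA) hz
      · refine le_trans ?_ (le_add_of_nonneg_left zero_le)
        rw [Set.indicator_of_mem h3, mul_comm]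
        refine mul_le_mul' (ex_le_ex.2 ?_) le_rfl
        exact mul_le_mul_of_nonneg_left h4 hz
    have hw : M.w m z A ω = ((∏ i ∈ Y, M.st m (ω i)) * ex (∑ i ∈ Y, z * M.Fr id A ω i)) *
        (((∏ i ∈ P, M.st m (ω i)) * ex (∑ i ∈ P, z * M.Fr id A ω i)) *
        (((∏ i ∈ R, M.st m (ω i)) * ex (∑ i ∈ R, z * M.Fr id A ω i)) *
        ((∏ i ∈ OL, M.st m (ω i)) * ex (∑ i ∈ OL, z * M.Fr id A ω i)))) := by
      have e1 : ∏ i ∈ A, M.st m (ω i) = (∏ i ∈ Y, M.st m (ω i)) * ((∏ i ∈ P, M.st m (ω i)) *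
          ((∏ i ∈ R, M.st m (ω i)) * ∏ i ∈ OL, M.st m (ω i))) := by
        rw [← prod_union hRO, ← prod_union hPRO, ← prod_union hYPRO, ← hA]
      have e2 : ∑ i ∈ A, z * M.Fr id A ω i = (∑ i ∈ Y, z * M.Fr id A ω i) +
          ((∑ i ∈ P, z * M.Fr id A ω i) + ((∑ i ∈ R, z * M.Fr id A ω i) +
            ∑ i ∈ OL, z * M.Fr id A ω i)) := by
        rw [← sum_union hRO, ← sum_union hPRO, ← sum_union hYPRO, ← hA]
      unfold Nx.w
      rw [Bas.wG_of_cp M id hcp, e1, e2, ex_add, ex_add, ex_add]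
      ring
    rw [hw]
    refine (mul_le_mul' hY (mul_le_mul' hW (mul_le_mul' hRr hOo))).trans (le_of_eq ?_)
    ring
  refine (Bas.int_mono M A hpt).trans ?_
  have mG34 : Measurable fun ω : Zd d → E => (∏ i ∈ R, h (ω i)) * ∏ i ∈ OL, g (ω i) :=
    mG3.mul mG4
  have mG234 : Measurable fun ω : Zd d → E => F2 (SPL.tr M P ω) *
      ((∏ i ∈ R, h (ω i)) * ∏ i ∈ OL, g (ω i)) := mG2.mul mG34
  have mG : Measurable fun ω : Zd d → E => F1 ω * (F2 (SPL.tr M P ω) *
      ((∏ i ∈ R, h (ω i)) * ∏ i ∈ OL, g (ω i))) := mF1.mul mG234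
  rw [Bas.int_const_mul M A mG]
  have e3 := Bas.int_mul M hRO mG3 mG4
    (fun x y hxy => prod_congr rfl fun i hi => by rw [hxy i hi])
    (fun x y hxy => prod_congr rfl fun i hi => by rw [hxy i hi])
  have d34 : ∀ x y : Zd d → E, (∀ i ∈ R ∪ OL, x i = y i) →
      (∏ i ∈ R, h (x i)) * ∏ i ∈ OL, g (x i) = (∏ i ∈ R, h (y i)) * ∏ i ∈ OL, g (y i) := by
    intro x y hxy
    congr 1
    · exact prod_congr rfl fun i hi => by rw [hxy i (mem_union_left _ hi)]
    · exact prod_congr rfl fun i hi => by rw [hxy i (mem_union_right _ hi)]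
  have e2 := Bas.int_mul M hPRO mG2 mG34
    (fun x y hxy => by rw [SPL.tr_dep M hxy]) d34
  have e1 := Bas.int_mul M hYPRO mF1 mG234 dF1
    (fun x y hxy => by
      rw [SPL.tr_dep M fun i hi => hxy i (mem_union_left _ hi),
        d34 x y fun i hi => hxy i (mem_union_right _ hi)])
  have e0 : M.int A (fun ω => F1 ω * (F2 (SPL.tr M P ω) *
      ((∏ i ∈ R, h (ω i)) * ∏ i ∈ OL, g (ω i)))) = M.int Y F1 *
      (M.int P (fun ω => F2 (SPL.tr M P ω)) * (M.int R (fun ω => ∏ i ∈ R, h (ω i)) *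
        M.int OL (fun ω => ∏ i ∈ OL, g (ω i)))) := by
    rw [← e3, ← e2, ← e1]
    congr 1
  rw [e0]
  have h5 : M.int R (fun ω => ∏ i ∈ R, h (ω i)) = M.tot m z Set.univ ^ R.card := by
    unfold Nx.int
    rw [Bas.lm_prod M R (f := fun _ => h) (fun _ => mh), prod_const]
    congr 1
    unfold Nx.tot
    rw [Measure.restrict_univ]
  have h6 : M.int OL (fun ω => ∏ i ∈ OL, g (ω i)) =
      (M.tot m z (D ∪ W)ᶜ + ex (z * (1 - c')) * M.lam m W) ^ OL.card := by
    unfold Nx.int
    rw [Bas.lm_prod M OL (f := fun _ => g) (fun _ => mg), prod_const]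
    congr 1
    exact SPL.lint_gO M hlab.mD hlab.mW m z c'
  rw [h5, h6, ← mul_assoc]
  refine mul_le_mul' le_rfl (mul_le_mul' ?_ le_rfl)
  exact SPL.int_tr_le M P F2

end Pool.Agent.Ndl
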