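import Pool.Agent.Lib.MP_09cbbd_nd.RgD
import Pool.Agent.Lib.MP_09cbbd_nd.CvB
import Pool.Agent.Lib.MP_09cbbd_nd.PrC

/-!
# The kink for long needles: definitions
-/

set_option autoImplicit false

namespace Pool.Agent.Ndl

open MeasureTheory Finset Filter Topology Pool.Agent.StableGas Pool.Agent.SquareWell

/-- The properties of the pressure of the pure hard spheres. -/
structure HSP (PH : ℝ → ℝ) : Prop where
  convex : ConvexOn ℝ Set.univ PH
  mono : Monotone PH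
  nonneg : ∀ μ, 0 ≤ PH μ
  le_exp : ∀ μ, PH μ ≤ Real.exp μ
  top : Tendsto PH atTop atTop

/-- The model with `K ^ d` cells of side `l` in a block. -/
structure Mod (d : ℕ) (a ν nlo nhi : ℝ) (PH : ℝ → ℝ) (Xi : ℝ → ℝ → ℕ → ENNReal) (x c C ε : ℝ)
    (K : ℕ) (l : ℝ) (E : Type) [MeasurableSpace E] (M : Nx d E) (oc : E → ℕ) (NN : ℝ) :
    Prop where
  r_eq : M.r = 16 * d + 2
  blk : Blk M oc K NN (4 * a * d * l ^ (d - 1)) (4 * a * d * (K * l) ^ (d - 1)) ((K * l) ^ d)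
  geo : Geo M oc K x c C ε
  NN_lo : nlo * (K * l) ^ d ≤ NN
  NN_hi : NN ≤ nhi * (K * l) ^ d
  pure : ∀ p, M.IsP p → ∀ μ, p (NN * μ) 0 = (K * l) ^ d * PH μ
  link : ∀ μ n, M.xi (NN * μ) (ν * (K * l) ^ d) (bx d n) = Xi (K * l) μ n

end Pool.Agent.Ndl
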