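import Pool.Agent.Lib.MP_09cbbd_nd.TopD
import Pool.Agent.Lib.MP_09cbbd_nd.RgB
import Pool.Agent.Lib.MP_09cbbd_nd.PrB
import Pool.Agent.Lib.MP_09cbbd_nd.CvB

/-!
# The kink for long needles
-/

set_option autoImplicit false

namespace Pool.Agent.Ndl

open MeasureTheory Finset Filter Topology Pool.Agent.StableGas Pool.Agent.SquareWell

namespace TopN

theorem tend_pow (k : ℕ) (hk : 1 ≤ k) (A : ℝ) :
    Tendsto (fun x : ℝ => A * x ^ k) (𝓝[>] 0) (𝓝 0) := by
  have h : Tendsto (fun x : ℝ => A * x ^ k) (𝓝 0) (𝓝 (A * 0 ^ k)) :=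
    ((continuous_const.mul (continuous_id.pow k)).tendsto 0)
  rw [zero_pow (by omega), mul_zero] at h
  exact h.mono_left nhdsWithin_le_nhds

/-- The choice of the small parameter. -/
theorem choose_x {d : ℕ} (hd : 2 ≤ d) {x1 C e1 A nhi ν δ xx γ c : ℝ} (hx1 : 0 < x1)
    (he1 : 0 < e1) (hν : 0 < ν) (hδ : 0 < δ) (hxx : 0 < xx) (hγ : 0 < γ) (hc : 0 < c) :
    ∃ x : ℝ, 0 < x ∧ x < x1 ∧ x ≤ 1 / 8 ∧ 2 * x ^ (4 * d) < 1 ∧ C * x ^ 3 ≤ 1 / 8 ∧
      x ≤ e1 ∧ x ^ 2 ≤ e1 / 2 ∧ C * x ^ 4 ≤ e1 ∧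
      nhi * (x * max 0 (A - Real.log (e1 * x ^ (4 * d) * ν))) ≤ e1 * ν ∧
      nhi * x ^ (4 * d + 1) ≤ δ ∧ ν * x ^ (4 * d + 1) ≤ δ * xx ∧ nhi * x ^ (4 * d + 1) ≤ γ / 2 ∧
      x ^ (4 * d + 2) ≤ c / 4 ∧ x ^ (4 * d) ≤ 1 / 2 := by
  have e1' : ∀ᶠ x : ℝ in 𝓝[>] 0, x < x1 :=
    (eventually_lt_nhds hx1).filter_mono nhdsWithin_le_nhds
  have e2 : ∀ᶠ x : ℝ in 𝓝[>] 0, x < 1 / 8 :=
    (eventually_lt_nhds (by norm_num : (0 : ℝ) < 1 / 8)).filter_mono nhdsWithin_le_nhds
  have e3 := (tend_pow (4 * d) (by omega) 2).eventually (gt_mem_nhds (one_pos : (0 : ℝ) < 1))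
  have e4 := (tend_pow 3 (by omega) C).eventually (gt_mem_nhds (by norm_num : (0 : ℝ) < 1 / 8))
  have e5 : ∀ᶠ x : ℝ in 𝓝[>] 0, x < e1 :=
    (eventually_lt_nhds he1).filter_mono nhdsWithin_le_nhds
  have e6 := (tend_pow 2 (by omega) 1).eventually (gt_mem_nhds (by positivity : (0 : ℝ) < e1 / 2))
  have e7 := (tend_pow 4 (by omega) C).eventually (gt_mem_nhds he1)
  have e9 := (tend_pow (4 * d + 1) (by omega) nhi).eventually (gt_mem_nhds hδ)
  have e10 := (tend_pow (4 * d + 1) (by omega) ν).eventually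
    (gt_mem_nhds (by positivity : (0 : ℝ) < δ * xx))
  have e11 := (tend_pow (4 * d + 1) (by omega) nhi).eventually
    (gt_mem_nhds (by positivity : (0 : ℝ) < γ / 2))
  have e12 := (tend_pow (4 * d + 2) (by omega) 1).eventually
    (gt_mem_nhds (by positivity : (0 : ℝ) < c / 4))
  have e13 := (tend_pow (4 * d) (by omega) 1).eventually
    (gt_mem_nhds (by norm_num : (0 : ℝ) < 1 / 2))
  have e0 : ∀ᶠ x : ℝ in 𝓝[>] 0, 0 < x := eventually_mem_nhdsWithin
  have e8 : ∀ᶠ x : ℝ in 𝓝[>] 0,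
      nhi * (x * max 0 (A - Real.log (e1 * x ^ (4 * d) * ν))) < e1 * ν := by
    have h1 : Tendsto (fun x : ℝ => nhi * max 0 ((A - Real.log e1 - Real.log ν) * x -
        (4 * d : ℝ) * (Real.log x * x))) (𝓝[>] 0) (𝓝 (nhi * max 0 ((A - Real.log e1 -
          Real.log ν) * 0 - (4 * d : ℝ) * 0))) := by
      refine Tendsto.const_mul nhi (tendsto_const_nhds.max (Tendsto.sub ?_ ?_))
      · exact ((continuous_const.mul continuous_id).tendsto 0).mono_left nhdsWithin_le_nhds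
      · refine Tendsto.const_mul _ ?_
        simpa only [Real.rpow_one] using tendsto_log_mul_rpow_nhdsGT_zero zero_lt_one
    have h2 : nhi * max 0 ((A - Real.log e1 - Real.log ν) * 0 - (4 * d : ℝ) * 0) = 0 := by
      simp
    rw [h2] at h1
    filter_upwards [h1.eventually (gt_mem_nhds (by positivity : (0 : ℝ) < e1 * ν)), e0]
      with x hx hx0
    refine lt_of_le_of_lt (le_of_eq ?_) hx
    have h3 : Real.log (e1 * x ^ (4 * d) * ν) =
        Real.log e1 + (4 * d : ℝ) * Real.log x + Real.log ν := by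
      rw [Real.log_mul (by positivity) hν.ne', Real.log_mul he1.ne' (by positivity),
        Real.log_pow]
      push_cast
      ring
    rw [h3, mul_max_of_nonneg _ _ hx0.le, mul_zero]
    congr 2
    ring
  obtain ⟨x, hx⟩ := (e0.and (e1'.and (e2.and (e3.and (e4.and (e5.and (e6.and (e7.and (e8.and
    (e9.and (e10.and (e11.and (e12.and e13))))))))))))).exists
  obtain ⟨h0, h1, h2, h3, h4, h5, h6, h7, h8, h9, h10, h11, h12, h13⟩ := hx
  refine ⟨x, h0, h1, h2.le, h3, h4.le, h5.le, ?_, h7.le, h8.le, h9.le, h10.le, h11.le, ?_, ?_⟩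
  · have : 1 * x ^ 2 < e1 / 2 := h6
    linarith
  · have : 1 * x ^ (4 * d + 2) < c / 4 := h12
    linarith
  · have : 1 * x ^ (4 * d) < 1 / 2 := h13
    linarith

/-- Cells and blocks for a given side of the block. -/
theorem choose_K {l1 h : ℝ} (hl : 0 < l1) {K0 : ℕ} (hh : (K0 + 2 : ℝ) * l1 ≤ h) :
    ∃ (K : ℕ) (l : ℝ), K0 ≤ K ∧ 1 ≤ K ∧ l1 ≤ l ∧ l ≤ 2 * l1 ∧ K * l = h := by
  have h0 : 0 ≤ h / l1 := by
    refine div_nonneg (le_trans (by positivity) hh) hl.le
  have h1 : (K0 + 2 : ℝ) ≤ h / l1 := by rwa [le_div_iff₀ hl]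
  have h2 := Nat.floor_le h0
  have h3 := Nat.lt_floor_add_one (h / l1)
  have hK : K0 + 1 ≤ ⌊h / l1⌋₊ := by
    refine Nat.le_floor ?_
    push_cast
    linarith
  have hKr : (1 : ℝ) ≤ (⌊h / l1⌋₊ : ℝ) := by
    have : 1 ≤ ⌊h / l1⌋₊ := by omega
    exact_mod_cast this
  have hK0 : (0 : ℝ) < (⌊h / l1⌋₊ : ℝ) := by linarith
  refine ⟨⌊h / l1⌋₊, h / ⌊h / l1⌋₊, by omega, by omega, ?_, ?_, ?_⟩
  · rw [le_div_iff₀ hK0]
    rw [le_div_iff₀ hl] at h2
    linarith
  · rw [div_le_iff₀ hK0]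
    rw [div_lt_iff₀ hl] at h3
    have : (⌊h / l1⌋₊ : ℝ) + 1 ≤ 2 * ⌊h / l1⌋₊ := by linarith
    have h4 := mul_le_mul_of_nonneg_right this hl.le
    linarith
  · field_simp

/-- The masses of the boundary layers are small. -/
theorem layer_le {d : ℕ} (hd : 2 ≤ d) {A s ν l1 l : ℝ} (hs : 0 < s) (hν : 0 < ν)
    (h1 : 1 ≤ l1) (h2 : (2 + A) / (s * ν) ≤ l1) (hl : l1 ≤ l) {K : ℝ} (hK : 0 ≤ K) :
    2 * K ^ d + K ^ d * (A * l ^ (d - 1)) ≤ s * (ν * (K * l) ^ d) := by
  have hl1 : 1 ≤ l := h1.trans hl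
  have h3 : l ^ d = l * l ^ (d - 1) := by
    rw [← pow_succ']
    congr 1
    omega
  have h4 : 1 ≤ l ^ (d - 1) := one_le_pow₀ hl1
  have h5 : 2 + A ≤ s * ν * l := by
    rw [div_le_iff₀ (by positivity)] at h2
    have := mul_le_mul_of_nonneg_left hl (by positivity : 0 ≤ s * ν)
    linarith
  have h6 : 2 + A * l ^ (d - 1) ≤ s * ν * l ^ d := by
    calc 2 + A * l ^ (d - 1) ≤ 2 * l ^ (d - 1) + A * l ^ (d - 1) := by linarith
      _ = (2 + A) * l ^ (d - 1) := by ring
      _ ≤ s * ν * l * l ^ (d - 1) := mul_le_mul_of_nonneg_right h5 (by positivity)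
      _ = s * ν * l ^ d := by rw [h3]; ring
  have h7 := mul_le_mul_of_nonneg_left h6 (by positivity : 0 ≤ K ^ d)
  rw [mul_pow]
  linarith

end TopN

theorem kink_phys {d : ℕ} (hd : 2 ≤ d) {a ν nlo nhi : ℝ} (ha : 0 < a) (hν : 0 < ν) (hlo : 0 < nlo)
    (hhi : 0 < nhi) {PH : ℝ → ℝ} (hPH : HSP PH) (Xi : ℝ → ℝ → ℕ → ENNReal) {c C x1 : ℝ} (hc : 0 < c)
    (hc1 : c ≤ 1) (hC : 0 ≤ C) (hx1 : 0 < x1)
    (H : ∀ x, 0 < x → x < x1 → ∀ l1, a ≤ l1 → ∀ ε, 0 < ε → ∃ K0 : ℕ, ∀ K : ℕ, K0 ≤ K →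
      ∀ l, l1 ≤ l → l ≤ 2 * l1 → ∃ (E : Type) (_ : MeasurableSpace E) (M : Nx d E) (oc : E → ℕ)
        (NN : ℝ), Mod d a ν nlo nhi PH Xi x c C ε K l E M oc NN)
    {μ' ρ' δ : ℝ} (hμ' : PH μ' < ν) (hρ' : ∀ μ, PH μ' + ρ' * (μ - μ') ≤ PH μ) (hδ : 0 < δ) :
    ∃ L0 : ℝ, 0 < L0 ∧ ∀ L, L0 ≤ L → ∃ q : ℝ → ℝ,
      (∀ μ, Tendsto (fun n : ℕ => Real.log (Xi (L / (16 * d)) μ n).toReal / (n : ℝ) ^ d) atTop
        (𝓝 (q μ))) ∧
      ∃ w : ℝ, (∀ t, 0 < t → q w + t * ((ρ' - δ) * (L / (16 * d)) ^ d) ≤ q (w + t)) ∧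
        ∀ t, 0 < t → q w - t * (δ * (L / (16 * d)) ^ d) ≤ q (w - t) := by
  classical
  have hd1 : 1 ≤ d := by omega
  have hcont : Continuous PH := by
    rw [← continuousOn_univ]
    exact hPH.convex.continuousOn isOpen_univ
  -- the coexistence point
  obtain ⟨b, hb1, hb2⟩ : ∃ b, μ' ≤ b ∧ ν < PH b :=
    ((eventually_ge_atTop μ').and (hPH.top.eventually_gt_atTop ν)).exists
  obtain ⟨ms, hms1, hms⟩ : ∃ ms, μ' < ms ∧ PH ms = ν := by
    obtain ⟨ms, hms, h⟩ := intermediate_value_Icc hb1 hcont.continuousOn ⟨hμ'.le, hb2.le⟩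
    refine ⟨ms, lt_of_le_of_ne hms.1 ?_, h⟩
    rintro rfl
    linarith
  obtain ⟨γ, hγ⟩ : ∃ γ, γ = PH (ms + 1) - ν := ⟨_, rfl⟩
  have hγ0 : 0 < γ := by
    have h1 := hPH.convex.slope_mono_adjacent (Set.mem_univ μ') (Set.mem_univ (ms + 1)) hms1
      (by linarith : ms < ms + 1)
    have h2 : 0 < (PH ms - PH μ') / (ms - μ') := div_pos (by linarith) (by linarith)
    have h3 : ms + 1 - ms = 1 := by ring
    rw [h3, div_one] at h1
    rw [hγ]
    linarith
  obtain ⟨xx, hxx⟩ : ∃ xx, xx = (ν - PH μ') / (|ρ'| + 1) := ⟨_, rfl⟩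
  have hr0 : 0 < |ρ'| + 1 := by positivity
  have hxx0 : 0 < xx := by
    rw [hxx]
    exact div_pos (by linarith) hr0
  obtain ⟨e0, he0⟩ : ∃ e0, e0 = epsC d (16 * d + 2) := ⟨_, rfl⟩
  have he0p : 0 < e0 := by
    rw [he0]
    unfold epsC cR
    positivity
  obtain ⟨e1, he1⟩ : ∃ e1, e1 = e0 * c / 2 := ⟨_, rfl⟩
  have he1p : 0 < e1 := by rw [he1]; positivity
  obtain ⟨x, hx0, hxx1, hx8, hx2, hxC3, hxe1, hxe2, hxC4, hxL, hxd, hxn, hxg, hxc, hxh⟩ :=
    TopN.choose_x (C := C) (A := ms + 2) (nhi := nhi) hd hx1 he1p hν hδ hxx0 hγ0 hc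
  have hx1' : x ≤ 1 := by linarith
  obtain ⟨θ, hθ⟩ : ∃ θ, θ = x ^ (4 * d + 1) := ⟨_, rfl⟩
  have hθ0 : 0 < θ := by rw [hθ]; positivity
  obtain ⟨y, hy⟩ : ∃ y, y = x ^ (4 * d) := ⟨_, rfl⟩
  have hy0 : 0 < y := by rw [hy]; positivity
  have hθy : θ = y * x := by rw [hθ, hy, pow_succ]
  have hy2 : x ^ (4 * d + 2) = y * x ^ 2 := by rw [hy, pow_add]
  have hy4 : x ^ (4 * d + 4) = y * x ^ 4 := by rw [hy, pow_add]
  rw [← hy] at hx2 hxh
  obtain ⟨ε, hε⟩ : ∃ ε, ε = e1 * y := ⟨_, rfl⟩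
  have hεp : 0 < ε := by rw [hε]; positivity
  obtain ⟨Λ, hΛ⟩ : ∃ Λ, Λ = max 0 (ms + 2 - Real.log (ε * ν)) := ⟨_, rfl⟩
  have hΛ0 : 0 ≤ Λ := by rw [hΛ]; exact le_max_left _ _
  have hxL' : nhi * (x * Λ) ≤ e1 * ν := by
    rw [hΛ, hε, hy]
    exact hxL
  -- the main estimate
  have hcy : 0 < c * x ^ (4 * d) / 2 := by positivity
  have hcy1 : c * x ^ (4 * d) / 2 ≤ 1 := by
    rw [← hy]
    have h1 : c * y ≤ 1 * (1 / 2) := mul_le_mul hc1 hxh hy0.le zero_le_one
    linarith only [h1]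
  obtain ⟨P0, hP0⟩ := slopes d (16 * d + 2) hd (θ := x ^ (4 * d + 1)) (by positivity) hcy hcy1
  -- the error
  obtain ⟨Qf, hQf⟩ : ∃ Qf, Qf = Real.exp (ms + 2) + 2 * ν := ⟨_, rfl⟩
  have hQf0 : 0 < Qf := by rw [hQf]; positivity
  obtain ⟨s, hs0, hs1, hs2, hs3, hs4, hs5, hs6⟩ : ∃ s : ℝ, 0 < s ∧ s ≤ ε / 2 ∧ s ≤ c * y / 8 ∧
      4 * s * Qf ≤ ν * θ ∧ 4 * s * Qf ≤ nlo * θ ∧ 2 * s * ν ≤ θ * nlo ∧ 2 * s * ν ≤ γ / 4 := by
    refine ⟨min (min (ε / 2) (c * y / 8)) (min (min (ν * θ / (4 * Qf)) (nlo * θ / (4 * Qf)))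
      (min (θ * nlo / (2 * ν)) (γ / 4 / (2 * ν)))), by positivity, ?_, ?_, ?_, ?_, ?_, ?_⟩
    · exact (min_le_left _ _).trans (min_le_left _ _)
    · exact (min_le_left _ _).trans (min_le_right _ _)
    · have h := (min_le_right (min (ε / 2) (c * y / 8)) (min (min (ν * θ / (4 * Qf))
        (nlo * θ / (4 * Qf))) (min (θ * nlo / (2 * ν)) (γ / 4 / (2 * ν))))).trans
        ((min_le_left _ _).trans (min_le_left _ _))
      rw [le_div_iff₀ (by positivity)] at h
      linarith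
    · have h := (min_le_right (min (ε / 2) (c * y / 8)) (min (min (ν * θ / (4 * Qf))
        (nlo * θ / (4 * Qf))) (min (θ * nlo / (2 * ν)) (γ / 4 / (2 * ν))))).trans
        ((min_le_left _ _).trans (min_le_right _ _))
      rw [le_div_iff₀ (by positivity)] at h
      linarith
    · have h := (min_le_right (min (ε / 2) (c * y / 8)) (min (min (ν * θ / (4 * Qf))
        (nlo * θ / (4 * Qf))) (min (θ * nlo / (2 * ν)) (γ / 4 / (2 * ν))))).trans
        ((min_le_right _ _).trans (min_le_left _ _))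
      rw [le_div_iff₀ (by positivity)] at h
      linarith
    · have h := (min_le_right (min (ε / 2) (c * y / 8)) (min (min (ν * θ / (4 * Qf))
        (nlo * θ / (4 * Qf))) (min (θ * nlo / (2 * ν)) (γ / 4 / (2 * ν))))).trans
        ((min_le_right _ _).trans (min_le_right _ _))
      rw [le_div_iff₀ (by positivity)] at h
      linarith
  obtain ⟨A', hA'⟩ : ∃ A', A' = Real.exp (ms + 2) * (4 * a * d) := ⟨_, rfl⟩
  have hA'0 : 0 ≤ A' := by rw [hA']; positivity
  obtain ⟨l1, hl1⟩ : ∃ l1, l1 = max (max a 1) ((2 + A') / (s * ν)) := ⟨_, rfl⟩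
  have hl1a : a ≤ l1 := by rw [hl1]; exact (le_max_left _ _).trans (le_max_left _ _)
  have hl11 : 1 ≤ l1 := by rw [hl1]; exact (le_max_right _ _).trans (le_max_left _ _)
  have hl1s : (2 + A') / (s * ν) ≤ l1 := by rw [hl1]; exact le_max_right _ _
  have hl10 : 0 < l1 := by linarith
  obtain ⟨K0, hK0⟩ := H x hx0 hxx1 l1 hl1a s hs0
  obtain ⟨h0, hh0⟩ : ∃ h0, h0 = max (max 1 ((K0 + 2 : ℝ) * l1)) (max (P0 / ν)
    (max (8 * Real.log 2 / (c * y * ν)) (A' / (ε * ν)))) := ⟨_, rfl⟩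
  have g1 : 1 ≤ h0 := by rw [hh0]; exact (le_max_left _ _).trans (le_max_left _ _)
  have g2 : (K0 + 2 : ℝ) * l1 ≤ h0 := by
    rw [hh0]; exact (le_max_right _ _).trans (le_max_left _ _)
  have g3 : P0 / ν ≤ h0 := by rw [hh0]; exact (le_max_left _ _).trans (le_max_right _ _)
  have g4 : 8 * Real.log 2 / (c * y * ν) ≤ h0 := by
    rw [hh0]; exact ((le_max_left _ _).trans (le_max_right _ _)).trans (le_max_right _ _)
  have g5 : A' / (ε * ν) ≤ h0 := by
    rw [hh0]; exact ((le_max_right _ _).trans (le_max_right _ _)).trans (le_max_right _ _)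
  have hdr : (0 : ℝ) < 16 * d := by
    have : (0 : ℝ) < d := by exact_mod_cast hd1
    positivity
  refine ⟨16 * d * h0, by positivity, fun L hL => ?_⟩
  obtain ⟨h, hh⟩ : ∃ h, h = L / (16 * d) := ⟨_, rfl⟩
  have hh1 : h0 ≤ h := by
    rw [hh, le_div_iff₀ hdr]
    linarith
  rw [← hh]
  have hp1 : 1 ≤ h := g1.trans hh1
  have hp0 : 0 < h := by linarith
  obtain ⟨V, hV⟩ : ∃ V, V = h ^ d := ⟨_, rfl⟩
  have hV0 : 0 < V := by rw [hV]; positivity
  have hhV : h ≤ V := by
    rw [hV]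
    calc h = h ^ 1 := (pow_one h).symm
      _ ≤ h ^ d := pow_le_pow_right₀ hp1 hd1
  obtain ⟨K, l, hKK, hK1, hll, hl2, hKl⟩ := TopN.choose_K hl10 (g2.trans hh1)
  obtain ⟨E, mE, M, oc, NN, hM⟩ := hK0 K hKK l hll hl2
  have hblk := hM.blk
  rw [hKl] at hblk
  have hNlo := hM.NN_lo
  have hNhi := hM.NN_hi
  have hpure := hM.pure
  have hlink := hM.link
  rw [hKl, ← hV] at hNlo hNhi
  rw [hKl] at hpure hlink
  rw [← hV] at hpure hlink hblk
  have hNN : 0 < NN := hblk.NN0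
  obtain ⟨p, hp⟩ := exists_p M hd1
  obtain ⟨z0, hz0⟩ : ∃ z0, z0 = ν * V := ⟨_, rfl⟩
  have hz0p : 0 < z0 := by rw [hz0]; positivity
  rw [← hz0] at hlink
  have hq0 : ∀ m, p m 0 = V * PH (m / NN) := by
    intro m
    have := hpure p hp (m / NN)
    rwa [mul_div_cancel₀ _ hNN.ne'] at this
  -- the region
  obtain ⟨M1, hM1⟩ : ∃ M1, M1 = NN * (ms + 2) := ⟨_, rfl⟩
  have hM1N : M1 / NN = ms + 2 := by rw [hM1, mul_div_cancel_left₀ _ hNN.ne']
  have hlog2 : Real.log 2 ≤ c * y / 8 * z0 := by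
    rw [div_le_iff₀ (by positivity)] at g4
    have h1 : h0 ≤ V := hh1.trans hhV
    have h2 := mul_le_mul_of_nonneg_right h1 (by positivity : 0 ≤ c * y * ν)
    rw [hz0]
    linarith
  have hlog0 : 0 < Real.log 2 := Real.log_pos (by norm_num)
  have hreg : ∀ m z, m ≤ M1 → z0 ≤ z → z ≤ 2 * z0 → max (p m 0) z ≤ Qf * V ∧
      Reg M (Dn d K oc x) (Dl d K oc x) (C * x ^ (4 * d + 4)) c (x ^ (4 * d + 1))
        (c * x ^ (4 * d) / 2) (s + s) ε (NN * Λ) (max (p m 0) z) m z := by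
    intro m z hm hz hz2
    have hzp : 0 < z := lt_of_lt_of_le hz0p hz
    constructor
    · refine max_le ?_ ?_
      · rw [hq0, mul_comm]
        refine mul_le_mul_of_nonneg_right ?_ hV0.le
        have h1 : m / NN ≤ ms + 2 := by
          rw [← hM1N]
          exact div_le_div_of_nonneg_right hm hNN.le
        have h2 := hPH.le_exp (m / NN)
        have h3 := Real.exp_le_exp.2 h1
        rw [hQf]
        linarith
      · have h1 : 0 < Real.exp (ms + 2) * V := by positivity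
        rw [hQf, add_mul]
        rw [hz0] at hz2
        linarith
    · refine reg_of hblk hM.geo hx0 hx1' (by rw [← hy]; exact hx2) hC hc hc1 hs0.le hp hm hzp
        hs0.le ?_ ?_ ?_ ?_ ?_ ?_ ?_ (mul_nonneg hNN.le hΛ0) ?_ ?_ hV0.le (by positivity)
      · have h1 := TopN.layer_le (ν := ν) hd hs0 hν hl11 hl1s hll (Nat.cast_nonneg K : (0 : ℝ) ≤ K)
        rw [hKl, ← hV, ← hz0] at h1
        have h2 := mul_le_mul_of_nonneg_left hz hs0.le
        rw [hM1N]
        refine le_trans (le_of_eq ?_) (h1.trans h2)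
        rw [hA']
        ring
      · rw [← hy]
        have h1 := mul_le_mul_of_nonneg_left hz (by positivity : 0 ≤ c * y / 8)
        have h2 := mul_le_mul_of_nonneg_right hs2 hzp.le
        have h3 : 0 < c * y * z := by positivity
        linarith
      · rw [← hy]
        have h1 := mul_le_mul_of_nonneg_left hz (by positivity : 0 ≤ c * y / 8)
        have h2 := mul_le_mul_of_nonneg_right hs2 hzp.le
        have h3 : c * y * z ≤ c * (1 / 2) * z :=
          mul_le_mul_of_nonneg_right (mul_le_mul_of_nonneg_left hxh hc.le) hzp.le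
        have h4 := mul_le_mul_of_nonneg_right hxc hzp.le
        have h5 : 0 < c * z := by positivity
        linarith only [h1, h2, h3, h4, h5, hlog2]
      · rw [hy2, hε]
        have h1 := mul_le_mul_of_nonneg_left hxe2 hy0.le
        rw [hε] at hs1
        linarith
      · rw [← hθ, hθy, hε, mul_comm]
        exact mul_le_mul_of_nonneg_right hxe1 hy0.le
      · rw [hy4, hε]
        have h1 := mul_le_mul_of_nonneg_right hxC4 hy0.le
        linarith
      · rw [hM1N]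
        have h1 : A' ≤ ε * ν * h := by
          rw [div_le_iff₀ (by positivity)] at g5
          have := mul_le_mul_of_nonneg_right hh1 (by positivity : 0 ≤ ε * ν)
          linarith
        have h2 : h ^ d = h * h ^ (d - 1) := by
          rw [← pow_succ']
          congr 1
          omega
        have h3 : A' * h ^ (d - 1) ≤ ε * z0 := by
          rw [hz0, hV, h2]
          have := mul_le_mul_of_nonneg_right h1 (by positivity : 0 ≤ h ^ (d - 1))
          linarith
        have h4 := mul_le_mul_of_nonneg_left hz hεp.le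
        refine le_trans (le_of_eq ?_) (h3.trans h4)
        rw [hA']
        ring
      · rw [← hθ, hθy]
        have h1 := mul_le_mul_of_nonneg_left hz hεp.le
        refine le_trans ?_ h1
        have h2 : NN * Λ * (y * x) ≤ nhi * V * Λ * (y * x) := by
          refine mul_le_mul_of_nonneg_right (mul_le_mul_of_nonneg_right hNhi hΛ0) (by positivity)
        refine h2.trans ?_
        rw [hε, hz0]
        have h3 := mul_le_mul_of_nonneg_right hxL' (by positivity : 0 ≤ V * y)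
        linarith
      · have h1 : (M1 - NN * Λ) / NN ≤ Real.log (ε * ν) := by
          rw [sub_div, hM1N, mul_div_cancel_left₀ _ hNN.ne']
          have : ms + 2 - Real.log (ε * ν) ≤ Λ := by rw [hΛ]; exact le_max_right _ _
          linarith
        have h2 := Real.exp_le_exp.2 h1
        rw [Real.exp_log (by positivity)] at h2
        have h3 := mul_le_mul_of_nonneg_right h2 hV0.le
        have h4 := mul_le_mul_of_nonneg_left hz hεp.le
        rw [hz0] at h4
        linarith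
  have hlab := lab_of hblk hM.geo hx0 (by rw [← hy]; exact hx2) hx1' hC
  have hno := hP0 E mE M hM.r_eq (Dn d K oc x) (Dl d K oc x) (C * x ^ (4 * d + 4))
    (x ^ (4 * d + 2)) c hlab (by
      rw [← hθ, hθy, hy4]
      have h1 := mul_le_mul_of_nonneg_left hxC3 (by positivity : 0 ≤ y * x)
      have e : C * (y * x ^ 4) = y * x * (C * x ^ 3) := by ring
      rw [e]
      linarith) (by
      rw [← hθ, hθy, hy2]
      have h1 := mul_le_mul_of_nonneg_left hx8 (by positivity : 0 ≤ y * x)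
      have e : y * x ^ 2 = y * x * x := by ring
      rw [e]
      linarith) p hp z0 M1 (NN * Λ) ε (s + s) (Qf * V) hz0p (by
      rw [div_le_iff₀ hν] at g3
      have := mul_le_mul_of_nonneg_right (hh1.trans hhV) hν.le
      rw [hz0]
      linarith) (by positivity) (by linarith) (by
      rw [← he0, hε, he1, ← hy]
      exact le_of_eq (by ring)) (by
      rw [← hθ, div_le_iff₀ hθ0, hz0]
      have := mul_le_mul_of_nonneg_right hs3 hV0.le
      linarith) hreg
  rw [← hθ] at hno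
  -- the kink
  have hB : 2 * ((s + s) * (Qf * V) / θ) ≤ NN := by
    refine le_trans ?_ hNlo
    rw [mul_div_assoc', div_le_iff₀ hθ0]
    have := mul_le_mul_of_nonneg_right hs4 hV0.le
    linarith
  have hPc := hp.convex
  have hgc : ConvexOn ℝ Set.univ fun m : ℝ => p m z0 := by
    refine ⟨convex_univ, fun u _ v _ α β hα hβ hαβ => ?_⟩
    have h4 := hPc.2 (Set.mem_univ (u, z0)) (Set.mem_univ (v, z0)) hα hβ hαβ
    have e : α * z0 + β * z0 = z0 := by rw [← add_mul, hαβ, one_mul]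
    simpa [e] using h4
  have hup : p (NN * ms) z0 ≤ (1 + 2 * s) * z0 := by
    have h1 := hp.le_tot hz0p.le (NN * ms)
    have h2 := (hreg (NN * ms) z0 (by
      rw [hM1]
      exact mul_le_mul_of_nonneg_left (by linarith) hNN.le) le_rfl (by linarith)).2.tot_le
    have h3 : max (p (NN * ms) 0) z0 = z0 := by
      rw [hpure p hp ms, hms, mul_comm, ← hz0, max_self]
    rw [h3] at h2
    refine h1.trans ?_
    have h4 := ENNReal.toReal_mono (ex_ne_top _) h2
    rw [ex_toReal] at h4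
    rcases (ENNReal.toReal_nonneg (a := M.tot (NN * ms) z0 Set.univ)).eq_or_lt with h5 | h5
    · rw [← h5, Real.log_zero]
      positivity
    · have h6 := Real.log_le_log h5 h4
      rw [Real.log_exp] at h6
      linarith
  have hge : ∀ m, z0 ≤ p m z0 := fun m => (le_max_left _ _).trans (hp.ge m z0)
  have hgeq : ∀ m, p m 0 ≤ p m z0 := fun m => hp.mono le_rfl hz0p.le
  have hleft : ∀ D, 0 < D → p (NN * (ms - 1)) z0 - p (NN * (ms - 1) - D) z0 ≤ θ * D := by
    intro D hD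
    have h1 := hgc.slope_mono_adjacent (Set.mem_univ (NN * (ms - 1) - D))
      (Set.mem_univ (NN * ms)) (by linarith : NN * (ms - 1) - D < NN * (ms - 1))
      (by linarith : NN * (ms - 1) < NN * ms)
    have e1 : NN * (ms - 1) - (NN * (ms - 1) - D) = D := by ring
    have e2 : NN * ms - NN * (ms - 1) = NN := by ring
    rw [e1, e2] at h1
    have h2 : (p (NN * ms) z0 - p (NN * (ms - 1)) z0) / NN ≤ θ := by
      rw [div_le_iff₀ hNN]
      have h3 := hge (NN * (ms - 1))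
      have h4 := mul_le_mul_of_nonneg_left hNlo hθ0.le
      have h5 := mul_le_mul_of_nonneg_right hs5 hV0.le
      have h6 : 2 * s * z0 = 2 * s * ν * V := by rw [hz0]; ring
      linarith
    have h3 := h1.trans h2
    rwa [div_le_iff₀ hD] at h3
  have hright : ∃ D, 0 < D ∧
      θ * D < p (NN * (ms + 1)) z0 - p (NN * (ms + 1) - D) z0 := by
    refine ⟨NN, hNN, ?_⟩
    have e1 : NN * (ms + 1) - NN = NN * ms := by ring
    rw [e1]
    have h1 := hgeq (NN * (ms + 1))
    rw [hpure p hp (ms + 1)] at h1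
    have h2 : PH (ms + 1) = ν + γ := by rw [hγ]; ring
    rw [h2] at h1
    have h3 := mul_le_mul_of_nonneg_left hNhi hθ0.le
    have h4 := mul_le_mul_of_nonneg_right hxg hV0.le
    rw [← hθ] at h4
    have h5 := mul_le_mul_of_nonneg_right hs6 hV0.le
    have h6 : 2 * s * z0 = 2 * s * ν * V := by rw [hz0]; ring
    have h7 : 0 < γ * V := by positivity
    have h8 : V * (ν + γ) = z0 + γ * V := by rw [hz0]; ring
    linarith
  obtain ⟨w, hw1, hw2, hwl, hwr⟩ := kink p hPc hθ0 hz0p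
    (mul_le_mul_of_nonneg_left (by linarith) hNN.le : NN * (ms - 1) ≤ NN * (ms + 1))
    (fun m D _ hm2 hD => by
      refine hno m D ?_ hD
      rw [hM1]
      have : NN * (ms + 1) + NN = NN * (ms + 2) := by ring
      linarith) hleft hright
  refine ⟨fun μ => p (NN * μ) z0, fun μ => ?_, w / NN, fun t ht => ?_, fun t ht => ?_⟩
  · have h1 := hp (NN * μ) z0
    rw [max_eq_left hz0p.le] at h1
    simp only [hlink] at h1
    exact h1
  · have e1 : NN * (w / NN) = w := mul_div_cancel₀ _ hNN.ne'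
    have e2 : NN * (w / NN + t) = w + NN * t := by rw [mul_add, e1]
    simp only [e1, e2]
    have h1 := hwr (NN * xx) (NN * t) (by positivity) (by positivity)
    rw [div_le_div_iff₀ (by positivity) (by positivity)] at h1
    have h2 : (p w z0 - p (w - NN * xx) 0 - θ * z0) * t ≤
        (p (w + NN * t) z0 - p w z0) * xx := by
      have h3 : NN * ((p w z0 - p (w - NN * xx) 0 - θ * z0) * t) ≤
          NN * ((p (w + NN * t) z0 - p w z0) * xx) := by linarith
      exact le_of_mul_le_mul_left h3 hNN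
    have e3 : (w - NN * xx) / NN = w / NN - xx := by
      rw [sub_div, mul_div_cancel_left₀ _ hNN.ne']
    have h4 : (ρ' - δ) * V * xx ≤ p w z0 - p (w - NN * xx) 0 - θ * z0 := by
      rw [hq0 (w - NN * xx), e3]
      have hθν := mul_le_mul_of_nonneg_right hxn hV0.le
      rw [← hθ] at hθν
      have hθz : θ * z0 = ν * θ * V := by rw [hz0]; ring
      rcases le_total μ' (w / NN - xx) with hcase | hcase
      · -- tangent
        have h5 := hgeq w
        rw [hq0 w] at h5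
        have h6 : ρ' * xx ≤ PH (w / NN) - PH (w / NN - xx) := by
          rcases hcase.eq_or_lt with h7 | h7
          · have h8 := hρ' (w / NN)
            have h9 : w / NN - μ' = xx := by linarith only [h7]
            rw [h9] at h8
            have h10 : PH (w / NN - xx) = PH μ' := by rw [← h7]
            linarith only [h8, h10]
          · have h8 := hPH.convex.slope_mono_adjacent (Set.mem_univ μ') (Set.mem_univ (w / NN))
              h7 (by linarith : w / NN - xx < w / NN)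
            have h9 : ρ' ≤ (PH (w / NN - xx) - PH μ') / (w / NN - xx - μ') := by
              rw [le_div_iff₀ (by linarith)]
              have := hρ' (w / NN - xx)
              linarith
            have h10 := h9.trans h8
            have e4 : w / NN - (w / NN - xx) = xx := by ring
            rw [e4, le_div_iff₀ hxx0] at h10
            exact h10
        have h7 := mul_le_mul_of_nonneg_left h6 hV0.le
        linarith only [h5, h7, hθν, hθz]
      · have h5 := hge w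
        have h6 := hPH.mono hcase
        have h7 : ρ' * xx ≤ ν - PH μ' := by
          have h8 : (|ρ'| + 1) * xx = ν - PH μ' := by
            rw [hxx]
            field_simp
          have h9 : ρ' * xx ≤ (|ρ'| + 1) * xx :=
            mul_le_mul_of_nonneg_right (by have := le_abs_self ρ'; linarith) hxx0.le
          linarith
        have h8 := mul_le_mul_of_nonneg_left (h7.trans (by linarith : ν - PH μ' ≤
          ν - PH (w / NN - xx))) hV0.le
        linarith only [h5, h8, hθν, hθz, hz0]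
    have h5 := mul_le_mul_of_nonneg_right h4 ht.le
    have h6 : (t * ((ρ' - δ) * V)) * xx ≤ (p (w + NN * t) z0 - p w z0) * xx := by
      linarith
    have h7 := le_of_mul_le_mul_right h6 hxx0
    rw [← hV]
    linarith
  · have e1 : NN * (w / NN) = w := mul_div_cancel₀ _ hNN.ne'
    have e2 : NN * (w / NN - t) = w - NN * t := by rw [mul_sub, e1]
    simp only [e1, e2]
    have h1 := hwl (NN * t) (by positivity)
    have h2 := mul_le_mul_of_nonneg_left hNhi hθ0.le
    have h3 := mul_le_mul_of_nonneg_right hxd hV0.le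
    rw [← hθ] at h3
    have h4 : θ * (NN * t) ≤ δ * V * t := by
      have h5 : θ * NN ≤ δ * V := by linarith
      have := mul_le_mul_of_nonneg_right h5 ht.le
      linarith
    rw [← hV]
    linarith

end Pool.Agent.Ndl
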